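import Mathlib

set_option autoImplicit false

namespace Pool.Agent.Helper841.BC

/-! ### The digraph -/

/-- periodic words -/
abbrev Wd (L R : ℕ) := ZMod L → Fin R
/-- vertices -/
abbrev Vx (L R p : ℕ) := Wd L R → ZMod p

def shift {L R : ℕ} (w : Wd L R) : Wd L R := fun t => w (t + 1)

/-- `Arc z x`: `z` is an in-neighbour of `x` -/
def Arc {L R p : ℕ} (z x : Vx L R p) : Prop :=
  ∃ i : Fin R, ∀ w : Wd L R, w 0 = i → z w = x (shift w) + 1

lemma exists_common {L R p : ℕ} (x : Fin R → Vx L R p) : ∃ z : Vx L R p, ∀ i, Arc z (x i) :=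
  ⟨fun w => x (w 0) (shift w) + 1, fun i => ⟨i, fun w hw => by simp only [hw]⟩⟩

lemma shift_iterate {L R : ℕ} (w : Wd L R) (k : ℕ) (t : ZMod L) :
    (shift^[k] w) t = w (t + k) := by
  induction k generalizing t with
  | zero => simp
  | succ k ih =>
    rw [Function.iterate_succ_apply', shift, ih]
    congr 1
    push_cast
    ring

lemma no_cycle {L R p m : ℕ} [NeZero L] (hm1 : 1 ≤ m) (hmp : m < p) (hmL : m ∣ L)
    (z : ℕ → Vx L R p) (hz : ∀ t, Arc (z t) (z (t + 1))) (hper : ∀ t, z (t + m) = z t) : False := by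
  choose i hi using hz
  have hmod : ∀ t, z (t % m) = z t := by
    intro t
    conv_rhs => rw [← Nat.mod_add_div t m]
    generalize t / m = q
    induction q with
    | zero => simp
    | succ q ih =>
      rw [mul_add, mul_one, ← add_assoc, hper, ← ih]
  let w₀ : Wd L R := fun t => i (t.val % m)
  have hw₀ : ∀ k : ℕ, w₀ (k : ZMod L) = i (k % m) := by
    intro k
    show i ((k : ZMod L).val % m) = _
    rw [ZMod.val_natCast, Nat.mod_mod_of_dvd _ hmL]
  have key : ∀ k : ℕ, z 0 w₀ = z k (shift^[k] w₀) + k := by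
    intro k
    induction k with
    | zero => simp
    | succ k ih =>
      rw [ih]
      have h1 : (shift^[k] w₀) 0 = i (k % m) := by
        rw [shift_iterate, zero_add, hw₀]
      have h2 := hi (k % m) (shift^[k] w₀) h1
      rw [hmod k] at h2
      have h3 : z (k % m + 1) = z (k + 1) := by
        rw [← hmod (k % m + 1), ← hmod (k + 1), Nat.mod_add_mod]
      rw [h3] at h2
      rw [h2, Function.iterate_succ_apply']
      push_cast
      ring
  have h1 := key m
  have h2 : shift^[m] w₀ = w₀ := by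
    funext t
    rw [shift_iterate]
    have h3 : t = ((t.val : ℕ) : ZMod L) := (ZMod.natCast_zmod_val t).symm
    rw [h3, ← Nat.cast_add, hw₀, hw₀, Nat.add_mod_right]
  have h3 : z m = z 0 := by
    have := hper 0
    rwa [zero_add] at this
  rw [h2, h3] at h1
  have h4 : (m : ZMod p) = 0 := by
    have := h1
    rw [eq_comm, add_eq_left] at this
    exact this
  rw [ZMod.natCast_eq_zero_iff] at h4
  exact absurd (Nat.le_of_dvd (by omega) h4) (by omega)

/-! ### The group and its generators -/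

abbrev Gm (L R p : ℕ) := Vx L R p → ZMod p

open Classical in
/-- unit vector -/
noncomputable def e {L R p : ℕ} (x : Vx L R p) : Gm L R p := fun y => if x = y then 1 else 0

/-- generators -/
def Gen {L R p : ℕ} (γ : Gm L R p) : Prop :=
  ∃ (x : Vx L R p) (f : Gm L R p), γ = e x + f ∧ ∀ y, f y ≠ 0 → Arc y x

lemma Gen.common {L R p : ℕ} (γ : Fin R → Gm L R p) (h : ∀ i, Gen (γ i)) :
    ∃ δ : Gm L R p, Gen δ ∧ ∀ i, Gen (γ i - δ) := by
  classical
  choose x f hxf using h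
  obtain ⟨z, hz⟩ := exists_common x
  refine ⟨e z, ⟨z, 0, by simp, by simp⟩, fun i => ?_⟩
  refine ⟨x i, f i - e z, ?_, ?_⟩
  · rw [(hxf i).1]
    abel
  · intro y hy
    by_cases hyz : z = y
    · rw [← hyz]; exact hz i
    · apply (hxf i).2
      simpa [e, hyz] using hy

lemma Gen.no_zero {L R p : ℕ} [NeZero L] (hL : ∀ m, 1 ≤ m → m < p → m ∣ L)
    {k : ℕ} (hk1 : 1 ≤ k) (hkp : k < p) (γ : Fin k → Gm L R p) (h : ∀ i, Gen (γ i))
    (hsum : ∑ i, γ i = 0) : False := by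
  classical
  choose x f hxf using h
  have hs : ∀ a : Fin k, ∃ b : Fin k, Arc (x a) (x b) := by
    intro a
    have h1 := congrFun hsum (x a)
    rw [Finset.sum_apply] at h1
    have h2 : ∀ b, γ b (x a) = (if x b = x a then 1 else 0) + f b (x a) := by
      intro b
      rw [(hxf b).1, Pi.add_apply]
      simp [e]
    simp only [h2] at h1
    rw [Finset.sum_add_distrib, Finset.sum_boole] at h1
    by_contra hcon
    push Not at hcon
    have h3 : ∀ b, f b (x a) = 0 := by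
      intro b
      by_contra hb
      exact hcon b ((hxf b).2 _ hb)
    simp only [h3, Finset.sum_const_zero, add_zero] at h1
    rw [Pi.zero_apply, ZMod.natCast_eq_zero_iff] at h1
    have h4 : 0 < (Finset.univ.filter (fun b => x b = x a)).card :=
      Finset.card_pos.mpr ⟨a, by simp⟩
    have h5 : (Finset.univ.filter (fun b => x b = x a)).card ≤ k := by
      calc _ ≤ (Finset.univ : Finset (Fin k)).card := Finset.card_filter_le _ _
        _ = k := by simp
    exact absurd (Nat.le_of_dvd h4 h1) (by omega)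
  choose s hs using hs
  let a0 : Fin k := ⟨0, by omega⟩
  obtain ⟨t1, t2, hne, heq⟩ := Fintype.exists_ne_map_eq_of_card_lt
    (fun t : Fin (k + 1) => s^[(t : ℕ)] a0) (by simp)
  wlog hlt : (t1 : ℕ) < t2 generalizing t1 t2
  · exact this t2 t1 (Ne.symm hne) heq.symm (by
      have : (t1 : ℕ) ≠ t2 := fun h => hne (Fin.ext h)
      omega)
  have hm2 : (t2 : ℕ) - t1 ≤ k := by have := t2.isLt; omega
  refine no_cycle (m := (t2 : ℕ) - t1) (by omega) (by omega) (hL _ (by omega) (by omega))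
    (fun t => x (s^[t] (s^[(t1 : ℕ)] a0))) ?_ ?_
  · intro t
    show Arc (x (s^[t] _)) (x (s^[t+1] _))
    rw [Function.iterate_succ_apply']
    exact hs _
  · intro t
    show x (s^[t + ((t2 : ℕ) - t1)] _) = x (s^[t] _)
    congr 1
    rw [Function.iterate_add_apply, ← Function.iterate_add_apply s ((t2 : ℕ) - t1) (t1 : ℕ)]
    have : (t2 : ℕ) - t1 + t1 = t2 := by omega
    rw [this]
    exact congrArg _ heq.symm

/-! ### Word length and the combinatorial data -/

/-- combinatorial data -/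
theorem exists_data (g R : ℕ) (hg : 1 ≤ g) (hR : 1 ≤ R) :
    ∃ (Γ : Type) (_ : AddCommGroup Γ) (_ : Fintype Γ) (rk : Γ → ℕ),
      rk 0 = g ∧ (∀ a b, rk (a + b) ≤ rk a + rk b) ∧
      ∀ T : Finset Γ, T.card ≤ R → ∃ δ, rk δ ≤ 1 ∧ ∀ t ∈ T, rk (t - δ) ≤ rk t := by
  classical
  have : NeZero g := ⟨by omega⟩
  have : NeZero (g.factorial) := ⟨Nat.factorial_ne_zero g⟩
  have : NeZero R := ⟨by omega⟩
  let Γ := Gm g.factorial R g
  let A : Γ → Set ℕ := fun γ => {k | ∃ l : List Γ, l.length = k ∧ 1 ≤ k ∧ (∀ x ∈ l, Gen x) ∧ l.sum = γ} ∪ {g}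
  have hA : ∀ γ, (A γ).Nonempty := fun γ => ⟨g, Or.inr rfl⟩
  let rk : Γ → ℕ := fun γ => sInf (A γ)
  have hle : ∀ γ, rk γ ≤ g := fun γ => Nat.sInf_le (Or.inr rfl)
  have hrep : ∀ γ, rk γ < g → ∃ l : List Γ, l.length = rk γ ∧ 1 ≤ rk γ ∧ (∀ x ∈ l, Gen x) ∧ l.sum = γ := by
    intro γ hγ
    rcases Nat.sInf_mem (hA γ) with h | h
    · exact h
    · exact absurd h (ne_of_lt hγ)
  have hrk : ∀ (l : List Γ), 1 ≤ l.length → (∀ x ∈ l, Gen x) → rk l.sum ≤ l.length :=
    fun l h1 h2 => Nat.sInf_le (Or.inl ⟨l, rfl, h1, h2, rfl⟩)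
  refine ⟨Γ, inferInstance, inferInstance, rk, ?_, ?_, ?_⟩
  · by_contra hne
    have hlt : rk 0 < g := lt_of_le_of_ne (hle 0) hne
    obtain ⟨l, hl, h1, hG, hs⟩ := hrep 0 hlt
    refine Gen.no_zero (L := g.factorial) (p := g) (fun m h1 h2 => Nat.dvd_factorial (by omega) (by omega))
      (k := l.length) (by omega) (by omega) (fun i => l.get i) (fun i => hG _ (List.get_mem _ _)) ?_
    rw [← hs]
    exact (Fin.sum_univ_def _).trans (by simp)
  · intro a b
    by_cases ha : rk a < g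
    · by_cases hb : rk b < g
      · obtain ⟨l, hl, h1, hG, hs⟩ := hrep a ha
        obtain ⟨l', hl', h1', hG', hs'⟩ := hrep b hb
        have := hrk (l ++ l') (by simp; omega) (by
          intro x hx
          rcases List.mem_append.mp hx with h | h
          · exact hG x h
          · exact hG' x h)
        rw [List.sum_append, hs, hs', List.length_append, hl, hl'] at this
        exact this
      · have := hle (a + b); omega
    · have := hle (a + b); omega
  · intro T hT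
    -- first letters
    have hfirst : ∀ t : Γ, ∃ c : Γ, Gen c ∧ (rk t < g → ∀ δ, Gen (c - δ) → rk (t - δ) ≤ rk t) := by
      intro t
      by_cases ht : rk t < g
      · obtain ⟨l, hl, h1, hG, hs⟩ := hrep t ht
        rcases l with _ | ⟨c, l⟩
        · simp at hl; omega
        · refine ⟨c, hG c (by simp), fun _ δ hδ => ?_⟩
          have := hrk ((c - δ) :: l) (by simp) (by
            intro x hx
            rcases List.mem_cons.mp hx with h | h
            · rw [h]; exact hδ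
            · exact hG x (by simp [h]))
          rw [List.length_cons] at hl
          rw [List.sum_cons, List.length_cons, hl] at this
          rw [List.sum_cons] at hs
          have e : c - δ + l.sum = t - δ := by rw [← hs]; abel
          rwa [e] at this
      · exact ⟨e 0, ⟨0, 0, by simp, by simp⟩, fun h => absurd h ht⟩
    choose c hc hc' using hfirst
    have hx : ∀ i : Fin R, Gen (c (T.toList.getD i 0)) := fun i => hc _
    obtain ⟨δ, hδ, hδ'⟩ := Gen.common _ hx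
    refine ⟨δ, ?_, ?_⟩
    · have := hrk [δ] (by simp) (by intro x hx; rw [List.mem_singleton] at hx; rw [hx]; exact hδ)
      simpa using this
    · intro t ht
      by_cases hlt : rk t < g
      · have hmem : t ∈ T.toList := Finset.mem_toList.mpr ht
        obtain ⟨n, hn, hn'⟩ := List.getElem_of_mem hmem
        have hnR : n < R := by
          rw [Finset.length_toList] at hn; omega
        have h1 := hδ' ⟨n, hnR⟩
        have h2 : T.toList.getD ((⟨n, hnR⟩ : Fin R) : ℕ) 0 = t := by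
          rw [List.getD_eq_getElem _ _ hn, hn']
        rw [h2] at h1
        exact hc' t hlt δ h1
      · have := hle (t - δ); omega


/-! ### The norm on functions on the dual group -/

section Norm

variable {Γ : Type} [AddCommGroup Γ] [Fintype Γ]

abbrev Du (Γ : Type) [AddCommGroup Γ] := AddChar Γ ℂ

noncomputable def Fh (h : Γ → ℂ) : Du Γ → ℂ := fun s => ∑ γ, h γ * s γ

noncomputable def W (ω : Γ → ℝ) (h : Γ → ℂ) : ℝ := ∑ γ, ‖h γ‖ * ω γ

noncomputable def mean (f : Du Γ → ℂ) : ℝ := (∑ s, ‖f s‖) / Fintype.card (Du Γ)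

noncomputable def D (K : ℝ) (f : Du Γ → ℂ) : ℝ := ‖f‖ + K * mean f

noncomputable def X (ω : Γ → ℝ) (h : Γ → ℂ) (f : Du Γ → ℂ) : ℝ := W ω h + D (ω 0) (f - Fh h)

noncomputable def N (ω : Γ → ℝ) (f : Du Γ → ℂ) : ℝ := ⨅ h : Γ → ℂ, X ω h f

lemma card_pos : (0 : ℝ) < Fintype.card (Du Γ) := by
  have : Nonempty (Du Γ) := ⟨1⟩
  exact_mod_cast Fintype.card_pos

lemma mean_nonneg (f : Du Γ → ℂ) : 0 ≤ mean f :=
  div_nonneg (Finset.sum_nonneg fun _ _ => norm_nonneg _) card_pos.le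

lemma mean_add (f g : Du Γ → ℂ) : mean (f + g) ≤ mean f + mean g := by
  unfold mean
  rw [← add_div, ← Finset.sum_add_distrib]
  gcongr with s _
  exact norm_add_le _ _

lemma mean_smul (c : ℂ) (f : Du Γ → ℂ) : mean (c • f) = ‖c‖ * mean f := by
  unfold mean
  simp only [Pi.smul_apply, norm_smul, ← Finset.mul_sum]
  ring

lemma mean_mul (f g : Du Γ → ℂ) : mean (f * g) ≤ ‖f‖ * mean g := by
  unfold mean
  rw [← mul_div_assoc, Finset.mul_sum]
  gcongr with s _
  rw [Pi.mul_apply, norm_mul]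
  gcongr
  exact norm_le_pi_norm f s

variable {K : ℝ} (hK : 0 ≤ K)
include hK

lemma D_nonneg (f : Du Γ → ℂ) : 0 ≤ D K f :=
  add_nonneg (norm_nonneg _) (mul_nonneg hK (mean_nonneg f))

lemma norm_le_D (f : Du Γ → ℂ) : ‖f‖ ≤ D K f :=
  le_add_of_nonneg_right (mul_nonneg hK (mean_nonneg f))

lemma D_add (f g : Du Γ → ℂ) : D K (f + g) ≤ D K f + D K g := by
  unfold D
  have h1 := norm_add_le f g
  have h2 := mul_le_mul_of_nonneg_left (mean_add f g) hK
  linarith

omit hK in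
lemma D_smul (c : ℂ) (f : Du Γ → ℂ) : D K (c • f) = ‖c‖ * D K f := by
  unfold D
  rw [norm_smul, mean_smul]
  ring

lemma D_mul (f g : Du Γ → ℂ) : D K (f * g) ≤ ‖f‖ * D K g := by
  unfold D
  have h1 := norm_mul_le f g
  have h2 := mul_le_mul_of_nonneg_left (mean_mul f g) hK
  calc ‖f * g‖ + K * mean (f * g) ≤ ‖f‖ * ‖g‖ + K * (‖f‖ * mean g) := add_le_add h1 h2
    _ = ‖f‖ * (‖g‖ + K * mean g) := by ring

omit hK

lemma Fh_add (h h' : Γ → ℂ) : Fh (h + h') = Fh h + Fh h' := by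
  funext s
  simp only [Fh, Pi.add_apply, add_mul, Finset.sum_add_distrib]

lemma Fh_smul (c : ℂ) (h : Γ → ℂ) : Fh (c • h) = c • Fh h := by
  funext s
  simp only [Fh, Pi.smul_apply, smul_eq_mul, mul_assoc, Finset.mul_sum]

lemma Fh_zero : Fh (0 : Γ → ℂ) = 0 := by
  funext s
  simp [Fh]

/-- convolution -/
noncomputable def conv (h h' : Γ → ℂ) : Γ → ℂ := fun γ => ∑ α, h α * h' (γ - α)

lemma Fh_conv (h h' : Γ → ℂ) : Fh (conv h h') = Fh h * Fh h' := by
  funext s
  have h1 : Fh (conv h h') s = ∑ γ, ∑ α, h α * h' (γ - α) * s γ := by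
    simp only [Fh, conv, Finset.sum_mul]
  have h2 : (Fh h * Fh h') s = ∑ α, ∑ β, h α * s α * (h' β * s β) := by
    simp only [Fh, Pi.mul_apply, Finset.sum_mul_sum]
  rw [h1, h2, Finset.sum_comm]
  refine Finset.sum_congr rfl fun α _ => ?_
  rw [← Equiv.sum_comp (Equiv.addRight α)]
  refine Finset.sum_congr rfl fun β _ => ?_
  simp only [Equiv.coe_addRight, add_sub_cancel_right, AddChar.map_add_eq_mul]
  ring

lemma norm_Fh_le (h : Γ → ℂ) : ‖Fh h‖ ≤ ∑ γ, ‖h γ‖ := by
  rw [pi_norm_le_iff_of_nonneg (Finset.sum_nonneg fun _ _ => norm_nonneg _)]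
  intro s
  refine (norm_sum_le _ _).trans (Finset.sum_le_sum fun γ _ => ?_)
  rw [norm_mul, AddChar.norm_apply, mul_one]

variable (ω : Γ → ℝ) (hω1 : ∀ γ, 1 ≤ ω γ) (hωm : ∀ a b, ω (a + b) ≤ ω a * ω b)
include hω1

lemma W_nonneg (h : Γ → ℂ) : 0 ≤ W ω h :=
  Finset.sum_nonneg fun γ _ => mul_nonneg (norm_nonneg _) (zero_le_one.trans (hω1 γ))

lemma sum_le_W (h : Γ → ℂ) : ∑ γ, ‖h γ‖ ≤ W ω h :=
  Finset.sum_le_sum fun γ _ => le_mul_of_one_le_right (norm_nonneg _) (hω1 γ)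

lemma X_nonneg (h : Γ → ℂ) (f : Du Γ → ℂ) : 0 ≤ X ω h f :=
  add_nonneg (W_nonneg ω hω1 h) (D_nonneg (zero_le_one.trans (hω1 0)) _)

lemma X_bdd (f : Du Γ → ℂ) : BddBelow (Set.range fun h : Γ → ℂ => X ω h f) :=
  ⟨0, by rintro _ ⟨h, rfl⟩; exact X_nonneg ω hω1 h f⟩

lemma N_le (h : Γ → ℂ) (f : Du Γ → ℂ) : N ω f ≤ X ω h f := ciInf_le (X_bdd ω hω1 f) h

lemma N_nonneg (f : Du Γ → ℂ) : 0 ≤ N ω f := le_ciInf fun h => X_nonneg ω hω1 h f

lemma norm_le_N (f : Du Γ → ℂ) : ‖f‖ ≤ N ω f := by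
  refine le_ciInf fun h => ?_
  have h1 : ‖f‖ ≤ ‖Fh h‖ + ‖f - Fh h‖ := by
    have := norm_add_le (Fh h) (f - Fh h)
    rwa [add_sub_cancel] at this
  have h2 := (norm_Fh_le h).trans (sum_le_W ω hω1 h)
  have h3 := norm_le_D (zero_le_one.trans (hω1 0)) (f - Fh h)
  unfold X
  linarith

lemma N_add (f g : Du Γ → ℂ) : N ω (f + g) ≤ N ω f + N ω g := by
  have key : ∀ h h' : Γ → ℂ, N ω (f + g) ≤ X ω h f + X ω h' g := by
    intro h h'
    refine (N_le ω hω1 (h + h') _).trans ?_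
    unfold X
    have h1 : W ω (h + h') ≤ W ω h + W ω h' := by
      unfold W
      rw [← Finset.sum_add_distrib]
      refine Finset.sum_le_sum fun γ _ => ?_
      rw [← add_mul]
      exact mul_le_mul_of_nonneg_right (norm_add_le _ _) (zero_le_one.trans (hω1 γ))
    have h2 : f + g - Fh (h + h') = (f - Fh h) + (g - Fh h') := by
      rw [Fh_add]; abel
    rw [h2]
    have h3 := D_add (zero_le_one.trans (hω1 0)) (f - Fh h) (g - Fh h')
    linarith
  have h1 : ∀ h' : Γ → ℂ, N ω (f + g) ≤ N ω f + X ω h' g := by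
    intro h'
    have : N ω (f + g) - X ω h' g ≤ N ω f := le_ciInf fun h => by linarith [key h h']
    linarith
  have : N ω (f + g) - N ω f ≤ N ω g := le_ciInf fun h' => by linarith [h1 h']
  linarith

lemma N_smul_le (c : ℂ) (f : Du Γ → ℂ) : N ω (c • f) ≤ ‖c‖ * N ω f := by
  have h0 := norm_nonneg c
  have : ‖c‖ * N ω f = ⨅ h : Γ → ℂ, ‖c‖ * X ω h f := Real.mul_iInf_of_nonneg h0 _
  rw [this]
  refine le_ciInf fun h => ?_
  refine (N_le ω hω1 (c • h) _).trans (le_of_eq ?_)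
  unfold X
  rw [Fh_smul, ← smul_sub, D_smul, mul_add]
  congr 1
  unfold W
  rw [Finset.mul_sum]
  refine Finset.sum_congr rfl fun γ _ => ?_
  rw [Pi.smul_apply, norm_smul]
  ring

lemma N_smul (c : ℂ) (f : Du Γ → ℂ) : N ω (c • f) = ‖c‖ * N ω f := by
  apply le_antisymm (N_smul_le ω hω1 c f)
  by_cases hc : c = 0
  · subst hc
    simp only [norm_zero, zero_mul]
    exact N_nonneg ω hω1 _
  · have h1 := N_smul_le ω hω1 c⁻¹ (c • f)
    rw [inv_smul_smul₀ hc, norm_inv] at h1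
    have h2 : 0 < ‖c‖ := norm_pos_iff.mpr hc
    calc ‖c‖ * N ω f ≤ ‖c‖ * (‖c‖⁻¹ * N ω (c • f)) := by gcongr
      _ = N ω (c • f) := by field_simp

include hωm in
lemma N_mul (f g : Du Γ → ℂ) : N ω (f * g) ≤ N ω f * N ω g := by
  have hK : 0 ≤ ω 0 := zero_le_one.trans (hω1 0)
  have key : ∀ h h' : Γ → ℂ, N ω (f * g) ≤ X ω h f * X ω h' g := by
    intro h h'
    refine (N_le ω hω1 (conv h h') _).trans ?_
    have h1 : W ω (conv h h') ≤ W ω h * W ω h' := by
      unfold W conv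
      rw [Finset.sum_mul_sum]
      calc ∑ γ, ‖∑ α, h α * h' (γ - α)‖ * ω γ
          ≤ ∑ γ, ∑ α, (‖h α‖ * ω α) * (‖h' (γ - α)‖ * ω (γ - α)) := by
            refine Finset.sum_le_sum fun γ _ => ?_
            refine (mul_le_mul_of_nonneg_right (norm_sum_le _ _) (zero_le_one.trans (hω1 γ))).trans ?_
            rw [Finset.sum_mul]
            refine Finset.sum_le_sum fun α _ => ?_
            rw [norm_mul]
            have h3 := hωm α (γ - α)
            rw [add_sub_cancel] at h3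
            calc ‖h α‖ * ‖h' (γ - α)‖ * ω γ ≤ ‖h α‖ * ‖h' (γ - α)‖ * (ω α * ω (γ - α)) := by gcongr
              _ = _ := by ring
        _ = ∑ α, ∑ β, (‖h α‖ * ω α) * (‖h' β‖ * ω β) := by
            rw [Finset.sum_comm]
            refine Finset.sum_congr rfl fun α _ => ?_
            rw [← Equiv.sum_comp (Equiv.addRight α)]
            refine Finset.sum_congr rfl fun β _ => ?_
            simp only [Equiv.coe_addRight, add_sub_cancel_right]
    have h2 : f * g - Fh (conv h h') =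
        ((f - Fh h) * (g - Fh h') + Fh h * (g - Fh h')) + Fh h' * (f - Fh h) := by
      rw [Fh_conv]; ring
    have hA := D_nonneg hK (f - Fh h)
    have hB := D_nonneg hK (g - Fh h')
    have hWa := W_nonneg ω hω1 h
    have hWb := W_nonneg ω hω1 h'
    have h3 : D (ω 0) (f * g - Fh (conv h h')) ≤
        D (ω 0) (f - Fh h) * D (ω 0) (g - Fh h') + W ω h * D (ω 0) (g - Fh h')
          + W ω h' * D (ω 0) (f - Fh h) := by
      rw [h2]
      refine (D_add hK _ _).trans (add_le_add ((D_add hK _ _).trans (add_le_add ?_ ?_)) ?_)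
      · exact (D_mul hK _ _).trans (mul_le_mul_of_nonneg_right (norm_le_D hK _) hB)
      · exact (D_mul hK _ _).trans (mul_le_mul_of_nonneg_right
          ((norm_Fh_le h).trans (sum_le_W ω hω1 h)) hB)
      · exact (D_mul hK _ _).trans (mul_le_mul_of_nonneg_right
          ((norm_Fh_le h').trans (sum_le_W ω hω1 h')) hA)
    unfold X
    nlinarith
  have h1 : ∀ h' : Γ → ℂ, N ω (f * g) ≤ N ω f * X ω h' g := by
    intro h'
    have : N ω f * X ω h' g = ⨅ h : Γ → ℂ, X ω h f * X ω h' g :=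
      Real.iInf_mul_of_nonneg (X_nonneg ω hω1 h' g) _
    rw [this]
    exact le_ciInf fun h => key h h'
  have : N ω f * N ω g = ⨅ h' : Γ → ℂ, N ω f * X ω h' g :=
    Real.mul_iInf_of_nonneg (N_nonneg ω hω1 f) _
  rw [this]
  exact le_ciInf h1

omit hω1 in
lemma sum_Fh (h : Γ → ℂ) : ∑ s : Du Γ, Fh h s = h 0 * Fintype.card (Du Γ) := by
  classical
  unfold Fh
  rw [Finset.sum_comm]
  simp only [← Finset.mul_sum, AddChar.sum_apply_eq_ite]
  rw [Finset.sum_eq_single 0]
  · simp [AddChar.card_eq]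
  · intro b _ hb
    simp [hb]
  · simp

lemma K_le_N_one : ω 0 ≤ N ω 1 := by
  have hK : 0 ≤ ω 0 := zero_le_one.trans (hω1 0)
  refine le_ciInf fun h => ?_
  set C : ℝ := (Fintype.card (Du Γ) : ℝ) with hC
  have hCpos : 0 < C := card_pos
  have h1 : (C : ℂ) = h 0 * C + ∑ s : Du Γ, (1 - Fh h : Du Γ → ℂ) s := by
    have : ∑ s : Du Γ, (1 - Fh h : Du Γ → ℂ) s = C - h 0 * C := by
      simp only [Pi.sub_apply, Pi.one_apply, Finset.sum_sub_distrib, sum_Fh]
      simp [hC]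
    rw [this]; ring
  have h2 : C ≤ ‖h 0‖ * C + ∑ s : Du Γ, ‖(1 - Fh h : Du Γ → ℂ) s‖ := by
    calc C = ‖(C : ℂ)‖ := by rw [Complex.norm_real, Real.norm_of_nonneg hCpos.le]
      _ = ‖h 0 * C + ∑ s : Du Γ, (1 - Fh h : Du Γ → ℂ) s‖ := by rw [← h1]
      _ ≤ ‖h 0 * (C : ℂ)‖ + ‖∑ s : Du Γ, (1 - Fh h : Du Γ → ℂ) s‖ := norm_add_le _ _
      _ ≤ _ := by
        refine add_le_add ?_ (norm_sum_le _ _)
        rw [norm_mul, Complex.norm_real, Real.norm_of_nonneg hCpos.le]
  have h3 : 1 ≤ ‖h 0‖ + mean (1 - Fh h) := by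
    unfold mean
    rw [← hC]
    have : 1 = C / C := (div_self hCpos.ne').symm
    rw [this]
    calc C / C ≤ (‖h 0‖ * C + ∑ s : Du Γ, ‖(1 - Fh h : Du Γ → ℂ) s‖) / C := by gcongr
      _ = _ := by field_simp
  have h4 : ‖h 0‖ * ω 0 ≤ W ω h :=
    Finset.single_le_sum (f := fun γ => ‖h γ‖ * ω γ)
      (fun γ _ => mul_nonneg (norm_nonneg _) (zero_le_one.trans (hω1 γ))) (Finset.mem_univ 0)
  unfold X D
  have h5 := norm_nonneg (1 - Fh h : Du Γ → ℂ)
  nlinarith

omit hω1 in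
/-- Parseval -/
lemma parseval (h : Γ → ℂ) :
    ∑ s : Du Γ, ‖Fh h s‖ ^ 2 = Fintype.card (Du Γ) * ∑ γ, ‖h γ‖ ^ 2 := by
  classical
  have h1 : ∀ s : Du Γ, ((‖Fh h s‖ ^ 2 : ℝ) : ℂ) = ∑ γ, ∑ γ', h γ * (starRingEnd ℂ) (h γ') * s (γ - γ') := by
    intro s
    push_cast
    rw [← Complex.mul_conj']
    unfold Fh
    rw [map_sum, Finset.sum_mul_sum]
    refine Finset.sum_congr rfl fun γ _ => Finset.sum_congr rfl fun γ' _ => ?_
    rw [map_mul, AddChar.map_sub_eq_div, ← AddChar.map_neg_eq_conj, AddChar.map_neg_eq_inv]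
    ring
  have h2 : ((∑ s : Du Γ, ‖Fh h s‖ ^ 2 : ℝ) : ℂ) = ((Fintype.card (Du Γ) * ∑ γ, ‖h γ‖ ^ 2 : ℝ) : ℂ) := by
    rw [Complex.ofReal_sum]
    simp only [h1]
    rw [Finset.sum_comm]
    push_cast
    rw [Finset.mul_sum]
    refine Finset.sum_congr rfl fun γ _ => ?_
    rw [Finset.sum_comm]
    simp only [← Finset.mul_sum, AddChar.sum_apply_eq_ite]
    rw [Finset.sum_eq_single γ]
    · simp only [sub_self, if_true]
      rw [Complex.mul_conj', AddChar.card_eq]
      ring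
    · intro b _ hb
      rw [if_neg (by rwa [sub_eq_zero, eq_comm]), mul_zero]
    · simp
  exact_mod_cast h2

/-- division by a character -/
lemma factor (R : ℕ) (hR : (ω 0) ^ 2 ≤ R)
    (hdiv : ∀ T : Finset Γ, T.card ≤ R → ∃ δ, ω δ ≤ 2 ∧ ∀ t ∈ T, ω (t - δ) ≤ ω t)
    (f : Du Γ → ℂ) : ∃ b c : Du Γ → ℂ, f = b * c ∧ N ω b ≤ 2 ∧ N ω c ≤ 6 * N ω f := by
  classical
  have hK1 : 1 ≤ ω 0 := hω1 0
  have hK : 0 ≤ ω 0 := zero_le_one.trans hK1
  by_cases hf : f = 0
  · refine ⟨0, 0, by simp [hf], ?_, ?_⟩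
    · have : N ω (0 : Du Γ → ℂ) = 0 := by
        have := N_smul ω hω1 (0 : ℂ) (0 : Du Γ → ℂ)
        simpa using this
      rw [this]; norm_num
    · have : N ω (0 : Du Γ → ℂ) = 0 := by
        have := N_smul ω hω1 (0 : ℂ) (0 : Du Γ → ℂ)
        simpa using this
      rw [this]
      have := N_nonneg ω hω1 f
      positivity
  have hN : 0 < N ω f := lt_of_lt_of_le (norm_pos_iff.mpr hf) (norm_le_N ω hω1 f)
  obtain ⟨h, hh⟩ : ∃ h, X ω h f < 2 * N ω f :=
    exists_lt_of_ciInf_lt (show (⨅ h : Γ → ℂ, X ω h f) < 2 * N ω f by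
      show N ω f < 2 * N ω f
      linarith)
  set ρ := X ω h f with hρ
  have hρpos : 0 < ρ := lt_of_lt_of_le hN (N_le ω hω1 h f)
  have hWρ : W ω h + D (ω 0) (f - Fh h) = ρ := rfl
  have hWle : W ω h ≤ ρ := by have := D_nonneg hK (f - Fh h); linarith
  -- heavy set
  set T : Finset Γ := Finset.univ.filter (fun γ => ρ / (ω 0) ^ 2 ≤ ‖h γ‖ * ω γ) with hT
  have hcard : T.card ≤ R := by
    have h1 : (T.card : ℝ) * (ρ / (ω 0) ^ 2) ≤ ρ := by
      calc (T.card : ℝ) * (ρ / (ω 0) ^ 2) = ∑ γ ∈ T, ρ / (ω 0) ^ 2 := by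
            rw [Finset.sum_const, nsmul_eq_mul]
        _ ≤ ∑ γ ∈ T, ‖h γ‖ * ω γ := Finset.sum_le_sum fun γ hγ => (Finset.mem_filter.mp hγ).2
        _ ≤ W ω h := Finset.sum_le_sum_of_subset_of_nonneg (Finset.subset_univ _)
            fun γ _ _ => mul_nonneg (norm_nonneg _) (zero_le_one.trans (hω1 γ))
        _ ≤ ρ := hWle
    have h2 : (T.card : ℝ) ≤ (ω 0) ^ 2 := by
      have h3 : 0 < (ω 0) ^ 2 := by positivity
      rw [← mul_div_assoc, div_le_iff₀ h3, mul_comm ρ] at h1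
      exact le_of_mul_le_mul_right h1 hρpos
    exact_mod_cast h2.trans hR
  obtain ⟨δ, hδ, hδT⟩ := hdiv T hcard
  let u : Du Γ → ℂ := fun s => s δ
  let u' : Du Γ → ℂ := fun s => s (-δ)
  have huu' : u * u' = 1 := by
    funext s
    show s δ * s (-δ) = 1
    rw [← AddChar.map_add_eq_mul, add_neg_cancel, AddChar.map_zero_eq_one]
  have hu'1 : ‖u'‖ ≤ 1 := by
    rw [pi_norm_le_iff_of_nonneg zero_le_one]
    intro s
    exact (AddChar.norm_apply s (-δ)).le
  refine ⟨u, u' * f, by rw [← mul_assoc, huu', one_mul], ?_, ?_⟩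
  · refine (N_le ω hω1 (Pi.single δ 1) u).trans ?_
    have h1 : Fh (Pi.single δ (1 : ℂ)) = u := by
      funext s
      show ∑ γ, Pi.single (M := fun _ => ℂ) δ (1 : ℂ) γ * s γ = s δ
      rw [Finset.sum_eq_single δ]
      · simp
      · intro b _ hb; simp [hb]
      · simp
    have h2 : W ω (Pi.single δ (1 : ℂ)) = ω δ := by
      unfold W
      rw [Finset.sum_eq_single δ]
      · simp
      · intro b _ hb; simp [hb]
      · simp
    unfold X
    rw [h1, h2, sub_self]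
    have : D (ω 0) (0 : Du Γ → ℂ) = 0 := by
      have := D_smul (K := ω 0) (0 : ℂ) (0 : Du Γ → ℂ)
      simpa using this
    rw [this, add_zero]
    exact hδ
  · -- bound for the quotient
    let hT' : Γ → ℂ := fun γ => if γ + δ ∈ T then h (γ + δ) else 0
    let hL : Γ → ℂ := fun γ => if γ ∈ T then 0 else h γ
    let hH : Γ → ℂ := fun γ => if γ ∈ T then h γ else 0
    have hsplit : h = hH + hL := by
      funext γ
      show h γ = (if γ ∈ T then h γ else 0) + (if γ ∈ T then 0 else h γ)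
      split_ifs <;> simp
    have hFT : Fh hT' = u' * Fh hH := by
      funext s
      show ∑ γ, hT' γ * s γ = s (-δ) * ∑ γ, hH γ * s γ
      rw [← Equiv.sum_comp (Equiv.subRight δ), Finset.mul_sum]
      refine Finset.sum_congr rfl fun γ _ => ?_
      show (if γ - δ + δ ∈ T then h (γ - δ + δ) else 0) * s (γ - δ) = s (-δ) * ((if γ ∈ T then h γ else 0) * s γ)
      rw [sub_add_cancel, sub_eq_add_neg, AddChar.map_add_eq_mul]
      ring
    have hWT : W ω hT' ≤ W ω h := by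
      unfold W
      rw [← Equiv.sum_comp (Equiv.subRight δ)]
      refine Finset.sum_le_sum fun γ _ => ?_
      show ‖(if γ - δ + δ ∈ T then h (γ - δ + δ) else 0)‖ * ω (γ - δ) ≤ ‖h γ‖ * ω γ
      rw [sub_add_cancel]
      split_ifs with hγ
      · exact mul_le_mul_of_nonneg_left (hδT γ hγ) (norm_nonneg _)
      · rw [norm_zero, zero_mul]
        exact mul_nonneg (norm_nonneg _) (zero_le_one.trans (hω1 γ))
    have hDL : D (ω 0) (Fh hL) ≤ 2 * ρ := by
      have h1 : ‖Fh hL‖ ≤ ρ := by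
        refine (norm_Fh_le hL).trans (le_trans ?_ hWle)
        refine Finset.sum_le_sum fun γ _ => ?_
        show ‖(if γ ∈ T then 0 else h γ)‖ ≤ ‖h γ‖ * ω γ
        split_ifs
        · rw [norm_zero]; exact mul_nonneg (norm_nonneg _) (zero_le_one.trans (hω1 γ))
        · exact le_mul_of_one_le_right (norm_nonneg _) (hω1 γ)
      have h2 : ∑ γ, ‖hL γ‖ ^ 2 ≤ (ρ / ω 0) ^ 2 := by
        calc ∑ γ, ‖hL γ‖ ^ 2 ≤ ∑ γ, (ρ / (ω 0) ^ 2) * (‖h γ‖ * ω γ) := by
              refine Finset.sum_le_sum fun γ _ => ?_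
              show ‖(if γ ∈ T then 0 else h γ)‖ ^ 2 ≤ _
              have h5 : 0 ≤ ‖h γ‖ * ω γ := mul_nonneg (norm_nonneg _) (zero_le_one.trans (hω1 γ))
              split_ifs with hγ
              · rw [norm_zero]
                have : 0 ≤ ρ / (ω 0) ^ 2 * (‖h γ‖ * ω γ) := by positivity
                simpa using this
              · have h3 : ‖h γ‖ * ω γ < ρ / (ω 0) ^ 2 := by
                  by_contra hcon
                  push Not at hcon
                  exact hγ (Finset.mem_filter.mpr ⟨Finset.mem_univ _, hcon⟩)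
                have h4 : ‖h γ‖ ≤ ‖h γ‖ * ω γ := le_mul_of_one_le_right (norm_nonneg _) (hω1 γ)
                have h6 := norm_nonneg (h γ)
                calc ‖h γ‖ ^ 2 = ‖h γ‖ * ‖h γ‖ := sq _
                  _ ≤ (ρ / (ω 0) ^ 2) * (‖h γ‖ * ω γ) := by
                    apply mul_le_mul (h4.trans h3.le) h4 h6 (by positivity)
          _ = (ρ / (ω 0) ^ 2) * W ω h := by rw [← Finset.mul_sum]; rfl
          _ ≤ (ρ / (ω 0) ^ 2) * ρ := by gcongr
          _ = (ρ / ω 0) ^ 2 := by field_simp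
      have h3 : mean (Fh hL) ≤ ρ / ω 0 := by
        have hC : (0 : ℝ) < Fintype.card (Du Γ) := card_pos
        have h4 : (∑ s : Du Γ, ‖Fh hL s‖) ^ 2 ≤
            Fintype.card (Du Γ) * ∑ s : Du Γ, ‖Fh hL s‖ ^ 2 := by
          have := sq_sum_le_card_mul_sum_sq (s := (Finset.univ : Finset (Du Γ))) (f := fun s => ‖Fh hL s‖)
          simpa using this
        rw [parseval] at h4
        have h5 : (mean (Fh hL)) ^ 2 ≤ (ρ / ω 0) ^ 2 := by
          unfold mean
          rw [div_pow]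
          rw [div_le_iff₀ (by positivity)]
          calc (∑ s : Du Γ, ‖Fh hL s‖) ^ 2 ≤ Fintype.card (Du Γ) * (Fintype.card (Du Γ) * ∑ γ, ‖hL γ‖ ^ 2) := h4
            _ ≤ Fintype.card (Du Γ) * (Fintype.card (Du Γ) * (ρ / ω 0) ^ 2) := by gcongr
            _ = (ρ / ω 0) ^ 2 * (Fintype.card (Du Γ) : ℝ) ^ 2 := by ring
        exact (pow_le_pow_iff_left₀ (mean_nonneg _) (by positivity) two_ne_zero).mp h5
      unfold D
      have h6 : ω 0 * mean (Fh hL) ≤ ρ := by
        calc ω 0 * mean (Fh hL) ≤ ω 0 * (ρ / ω 0) := by gcongr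
          _ = ρ := by field_simp
      linarith
    refine (N_le ω hω1 hT' _).trans ?_
    have h7 : u' * f - Fh hT' = u' * ((f - Fh h) + Fh hL) := by
      rw [hFT]
      have : Fh h = Fh hH + Fh hL := by conv_lhs => rw [hsplit, Fh_add]
      rw [this]; ring
    unfold X
    rw [h7]
    have h8 : D (ω 0) (u' * ((f - Fh h) + Fh hL)) ≤ D (ω 0) (f - Fh h) + 2 * ρ := by
      refine (D_mul hK _ _).trans ?_
      have h9 := D_add hK (f - Fh h) (Fh hL)
      have h10 := D_nonneg hK ((f - Fh h) + Fh hL)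
      calc ‖u'‖ * D (ω 0) (f - Fh h + Fh hL) ≤ 1 * D (ω 0) (f - Fh h + Fh hL) := by gcongr
        _ ≤ _ := by linarith
    linarith

end Norm

/-- finite-dimensional algebras with uniform factorisation and large unit -/
theorem exists_finite_algebra (k : ℕ) :
    ∃ (ι : Type) (_ : Fintype ι) (n : (ι → ℂ) → ℝ),
      (∀ f g, n (f + g) ≤ n f + n g) ∧ (∀ (c : ℂ) f, n (c • f) = ‖c‖ * n f) ∧
      (∀ f, n f = 0 → f = 0) ∧ (∀ f g, n (f * g) ≤ n f * n g) ∧ (k : ℝ) ≤ n 1 ∧
      ∀ f, ∃ b c, f = b * c ∧ n b ≤ 2 ∧ n c ≤ 6 * n f := by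
  obtain ⟨Γ, i1, i2, rk, h0, hadd, hdiv⟩ :=
    exists_data (k + 1) ((2 ^ (k + 1)) ^ 2) (by omega) (Nat.one_le_iff_ne_zero.mpr (by positivity))
  let ω : Γ → ℝ := fun γ => 2 ^ (rk γ)
  have hω1 : ∀ γ, 1 ≤ ω γ := fun γ => one_le_pow₀ one_le_two
  have hωm : ∀ a b, ω (a + b) ≤ ω a * ω b := by
    intro a b
    show (2 : ℝ) ^ rk (a + b) ≤ 2 ^ rk a * 2 ^ rk b
    rw [← pow_add]
    exact pow_le_pow_right₀ one_le_two (hadd a b)
  have hK : ω 0 = 2 ^ (k + 1) := by show (2 : ℝ) ^ rk 0 = _; rw [h0]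
  refine ⟨Du Γ, inferInstance, N ω, N_add ω hω1, N_smul ω hω1, ?_, N_mul ω hω1 hωm, ?_, ?_⟩
  · intro f hf
    have := norm_le_N ω hω1 f
    rw [hf] at this
    exact norm_le_zero_iff.mp this
  · refine le_trans ?_ (K_le_N_one ω hω1)
    rw [hK]
    have : (k + 1 : ℕ) < 2 ^ (k + 1) := Nat.lt_two_pow_self
    have h2 : ((k + 1 : ℕ) : ℝ) < 2 ^ (k + 1) := by exact_mod_cast this
    push_cast at h2
    linarith
  · refine factor ω hω1 ((2 ^ (k + 1)) ^ 2) (by rw [hK]; push_cast; exact le_rfl) ?_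
    intro T hT
    obtain ⟨δ, hδ, hδT⟩ := hdiv T hT
    refine ⟨δ, ?_, fun t ht => pow_le_pow_right₀ one_le_two (hδT t ht)⟩
    show (2 : ℝ) ^ rk δ ≤ 2
    calc (2 : ℝ) ^ rk δ ≤ 2 ^ 1 := pow_le_pow_right₀ one_le_two hδ
      _ = 2 := pow_one 2

end Pool.Agent.Helper841.BC
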