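import Mathlib
import Pool.Agent.Helper841.BCFinite

set_option autoImplicit false

namespace Pool.Agent.Helper841.BC

/-! ### Quasi-units in commutative normed rings -/

/-- Bound for the norm of the quasi-unit. -/
noncomputable def P : ℕ → ℝ → ℝ
  | 0, _ => 0
  | m + 1, C => P m (2 * C + 2 * C ^ 2) + C + P m (2 * C + 2 * C ^ 2) * C

lemma P_nonneg (m : ℕ) : ∀ C : ℝ, 0 ≤ C → 0 ≤ P m C := by
  induction m with
  | zero => intro C _; exact le_rfl
  | succ m ih =>
    intro C hC
    have h := ih (2 * C + 2 * C ^ 2) (by positivity)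
    show 0 ≤ P m (2 * C + 2 * C ^ 2) + C + P m (2 * C + 2 * C ^ 2) * C
    positivity

theorem quasi_unit {E : Type*} [NonUnitalNormedCommRing E] (m : ℕ) :
    ∀ (C : ℝ) (a : Fin m → E) (β : Fin m → Fin m → E), 0 ≤ C → (∀ l, a l = ∑ j, β l j * a j) →
      (∀ l j, ‖β l j‖ ≤ C) → ∃ v : E, ‖v‖ ≤ P m C ∧ ∀ l, v * a l = a l := by
  induction m with
  | zero =>
    intro C a β _ _ _
    exact ⟨0, by rw [norm_zero]; exact le_rfl, fun l => l.elim0⟩
  | succ m ih =>
    intro C a β hC ha hβ
    set γ : E := β (Fin.last m) (Fin.last m) with hγ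
    let β' : Fin m → Fin m → E := fun l j =>
      (if l = j then γ else 0) + β l.castSucc j.castSucc - γ * β l.castSucc j.castSucc
        + β l.castSucc (Fin.last m) * β (Fin.last m) j.castSucc
    have hlast : a (Fin.last m) =
        (∑ j : Fin m, β (Fin.last m) j.castSucc * a j.castSucc) + γ * a (Fin.last m) := by
      have := ha (Fin.last m)
      rwa [Fin.sum_univ_castSucc] at this
    have hcs : ∀ l : Fin m, a l.castSucc =
        (∑ j : Fin m, β l.castSucc j.castSucc * a j.castSucc)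
          + β l.castSucc (Fin.last m) * a (Fin.last m) := by
      intro l
      have := ha l.castSucc
      rwa [Fin.sum_univ_castSucc] at this
    have ha' : ∀ l : Fin m, a l.castSucc = ∑ j, β' l j * a j.castSucc := by
      intro l
      have e1 : ∑ j, β' l j * a j.castSucc = γ * a l.castSucc
          + (∑ j : Fin m, β l.castSucc j.castSucc * a j.castSucc)
          - γ * (∑ j : Fin m, β l.castSucc j.castSucc * a j.castSucc)
          + β l.castSucc (Fin.last m) *
            (∑ j : Fin m, β (Fin.last m) j.castSucc * a j.castSucc) := by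
        rw [Finset.mul_sum, Finset.mul_sum]
        have e2 : γ * a l.castSucc = ∑ j : Fin m, (if l = j then γ else 0) * a j.castSucc := by
          simp [ite_mul]
        rw [e2, ← Finset.sum_add_distrib, ← Finset.sum_sub_distrib, ← Finset.sum_add_distrib]
        refine Finset.sum_congr rfl fun j _ => ?_
        simp only [β', add_mul, sub_mul, mul_assoc]
      rw [e1]
      have h1 := hcs l
      have h2 : (∑ j : Fin m, β (Fin.last m) j.castSucc * a j.castSucc)
          = a (Fin.last m) - γ * a (Fin.last m) := by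
        rw [eq_sub_iff_add_eq]; exact hlast.symm
      have h3 : (∑ j : Fin m, β l.castSucc j.castSucc * a j.castSucc)
          = a l.castSucc - β l.castSucc (Fin.last m) * a (Fin.last m) := by
        rw [eq_sub_iff_add_eq]; exact h1.symm
      rw [h2, h3, mul_sub, mul_sub]
      have h4 : γ * (β l.castSucc (Fin.last m) * a (Fin.last m))
          = β l.castSucc (Fin.last m) * (γ * a (Fin.last m)) := mul_left_comm _ _ _
      rw [h4]
      abel
    have hβ' : ∀ l j, ‖β' l j‖ ≤ 2 * C + 2 * C ^ 2 := by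
      intro l j
      have h1 : ‖(if l = j then γ else 0)‖ ≤ C := by
        split_ifs
        · exact hβ _ _
        · rw [norm_zero]; exact hC
      have h2 : ‖γ * β l.castSucc j.castSucc‖ ≤ C * C :=
        (norm_mul_le _ _).trans (mul_le_mul (hβ _ _) (hβ _ _) (norm_nonneg _) hC)
      have h3 : ‖β l.castSucc (Fin.last m) * β (Fin.last m) j.castSucc‖ ≤ C * C :=
        (norm_mul_le _ _).trans (mul_le_mul (hβ _ _) (hβ _ _) (norm_nonneg _) hC)
      have h4 := hβ l.castSucc j.castSucc
      calc ‖β' l j‖ ≤ ‖(if l = j then γ else 0) + β l.castSucc j.castSucc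
              - γ * β l.castSucc j.castSucc‖
            + ‖β l.castSucc (Fin.last m) * β (Fin.last m) j.castSucc‖ := norm_add_le _ _
        _ ≤ ‖(if l = j then γ else 0) + β l.castSucc j.castSucc‖
              + ‖γ * β l.castSucc j.castSucc‖
            + ‖β l.castSucc (Fin.last m) * β (Fin.last m) j.castSucc‖ := by
            gcongr; exact norm_sub_le _ _
        _ ≤ (‖(if l = j then γ else 0)‖ + ‖β l.castSucc j.castSucc‖)
              + ‖γ * β l.castSucc j.castSucc‖
            + ‖β l.castSucc (Fin.last m) * β (Fin.last m) j.castSucc‖ := by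
            gcongr; exact norm_add_le _ _
        _ ≤ 2 * C + 2 * C ^ 2 := by nlinarith
    obtain ⟨v', hv', hva⟩ := ih (2 * C + 2 * C ^ 2) (fun l => a l.castSucc) β' (by positivity)
      ha' hβ'
    have hP : 0 ≤ P m (2 * C + 2 * C ^ 2) := (norm_nonneg _).trans hv'
    refine ⟨v' + γ - v' * γ, ?_, ?_⟩
    · have h1 : ‖γ‖ ≤ C := hβ _ _
      calc ‖v' + γ - v' * γ‖ ≤ ‖v' + γ‖ + ‖v' * γ‖ := norm_sub_le _ _
        _ ≤ (‖v'‖ + ‖γ‖) + ‖v'‖ * ‖γ‖ := add_le_add (norm_add_le _ _) (norm_mul_le _ _)
        _ ≤ (P m (2 * C + 2 * C ^ 2) + C) + P m (2 * C + 2 * C ^ 2) * C := by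
            gcongr
        _ = P (m + 1) C := rfl
    · intro l
      refine Fin.lastCases ?_ (fun l => ?_) l
      · have h2 : (∑ j : Fin m, β (Fin.last m) j.castSucc * a j.castSucc)
          = a (Fin.last m) - γ * a (Fin.last m) := by
          rw [eq_sub_iff_add_eq]; exact hlast.symm
        have h3 : v' * (∑ j : Fin m, β (Fin.last m) j.castSucc * a j.castSucc)
            = ∑ j : Fin m, β (Fin.last m) j.castSucc * a j.castSucc := by
          rw [Finset.mul_sum]
          refine Finset.sum_congr rfl fun j _ => ?_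
          rw [mul_left_comm, hva j]
        rw [h2, mul_sub, ← mul_assoc] at h3
        rw [sub_mul, add_mul]
        have h4 : v' * a (Fin.last m) - v' * γ * a (Fin.last m)
            = a (Fin.last m) - γ * a (Fin.last m) := h3
        calc v' * a (Fin.last m) + γ * a (Fin.last m) - v' * γ * a (Fin.last m)
            = (v' * a (Fin.last m) - v' * γ * a (Fin.last m)) + γ * a (Fin.last m) := by abel
          _ = a (Fin.last m) := by rw [h4]; abel
      · have h1 : v' * a l.castSucc = a l.castSucc := hva l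
        rw [sub_mul, add_mul, mul_comm v' γ, mul_assoc, h1]
        abel

/-! ### From a half-net to the whole ball -/

theorem rep_ball {E : Type*} [NonUnitalNormedCommRing E] [NormedSpace ℂ E]
    [IsScalarTower ℂ E E] [SMulCommClass ℂ E E] [ProperSpace E] {m : ℕ} (a : Fin m → E) {R : ℝ}
    (hR : 0 ≤ R) (F : Set E) (hF : ∀ y : E, ‖y‖ ≤ 1 → ∃ f ∈ F, ‖y - f‖ ≤ 1 / 2)
    (hrep : ∀ f ∈ F, ∃ w : Fin m → E, (∀ j, ‖w j‖ ≤ R) ∧ f = ∑ j, a j * w j) (y : E)
    (hy : ‖y‖ ≤ 1) : ∃ w : Fin m → E, (∀ j, ‖w j‖ ≤ 2 * R) ∧ y = ∑ j, a j * w j := by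
  have step : ∀ (n : ℕ) (y : E), ‖y‖ ≤ 1 → ∃ w : Fin m → E,
      (∀ j, ‖w j‖ ≤ (2 - 2 * (1 / 2) ^ n) * R) ∧ ‖y - ∑ j, a j * w j‖ ≤ (1 / 2) ^ n := by
    intro n
    induction n with
    | zero =>
      intro y hy
      refine ⟨0, fun j => ?_, ?_⟩
      · simp
      · simpa using hy
    | succ n ih =>
      intro y hy
      obtain ⟨f, hfF, hf⟩ := hF y hy
      obtain ⟨w₀, hw₀, hfw⟩ := hrep f hfF
      have h2 : ‖(2 : ℂ) • (y - f)‖ ≤ 1 := by
        rw [norm_smul, Complex.norm_ofNat]
        linarith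
      obtain ⟨w₁, hw₁, hyw⟩ := ih _ h2
      refine ⟨fun j => w₀ j + (1 / 2 : ℂ) • w₁ j, fun j => ?_, ?_⟩
      · calc ‖w₀ j + (1 / 2 : ℂ) • w₁ j‖ ≤ ‖w₀ j‖ + ‖(1 / 2 : ℂ) • w₁ j‖ := norm_add_le _ _
          _ ≤ R + (1 / 2) * ((2 - 2 * (1 / 2) ^ n) * R) := by
              rw [norm_smul]
              have : ‖(1 / 2 : ℂ)‖ = 1 / 2 := by norm_num
              rw [this]
              have := hw₀ j
              have := hw₁ j
              gcongr
          _ = (2 - 2 * (1 / 2) ^ (n + 1)) * R := by ring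
      · have e : y - ∑ j, a j * (w₀ j + (1 / 2 : ℂ) • w₁ j)
            = (1 / 2 : ℂ) • ((2 : ℂ) • (y - f) - ∑ j, a j * w₁ j) := by
          have e1 : ∑ j, a j * (w₀ j + (1 / 2 : ℂ) • w₁ j)
              = f + (1 / 2 : ℂ) • ∑ j, a j * w₁ j := by
            rw [hfw, Finset.smul_sum, ← Finset.sum_add_distrib]
            refine Finset.sum_congr rfl fun j _ => ?_
            rw [mul_add, mul_smul_comm]
          rw [e1, smul_sub, smul_smul]
          norm_num
          abel
        rw [e, norm_smul]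
        have : ‖(1 / 2 : ℂ)‖ = 1 / 2 := by norm_num
        rw [this, pow_succ]
        linarith
  choose w hw hwy using fun n => step n y hy
  have hcomp : IsCompact (Set.pi Set.univ fun _ : Fin m => Metric.closedBall (0 : E) (2 * R)) :=
    isCompact_univ_pi fun _ => isCompact_closedBall _ _
  have hmem : ∀ n, w n ∈ Set.pi Set.univ fun _ : Fin m => Metric.closedBall (0 : E) (2 * R) := by
    intro n j _
    rw [mem_closedBall_zero_iff]
    refine (hw n j).trans ?_
    have : (0 : ℝ) ≤ (1 / 2) ^ n := by positivity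
    nlinarith
  obtain ⟨u, hu, φ, hφ, hlim⟩ := hcomp.tendsto_subseq hmem
  refine ⟨u, fun j => ?_, ?_⟩
  · have := hu j (Set.mem_univ j)
    rwa [mem_closedBall_zero_iff] at this
  · have hlimj : ∀ j, Filter.Tendsto (fun n => w (φ n) j) Filter.atTop (nhds (u j)) := by
      intro j
      exact (tendsto_pi_nhds.mp hlim) j
    have h1 : Filter.Tendsto (fun n => y - ∑ j, a j * w (φ n) j) Filter.atTop
        (nhds (y - ∑ j, a j * u j)) := by
      refine Filter.Tendsto.sub tendsto_const_nhds (tendsto_finsetSum _ fun j _ => ?_)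
      exact Filter.Tendsto.mul tendsto_const_nhds (hlimj j)
    have h2 : Filter.Tendsto (fun n => ‖y - ∑ j, a j * w (φ n) j‖) Filter.atTop (nhds 0) := by
      refine squeeze_zero (fun n => norm_nonneg _) (fun n => hwy (φ n)) ?_
      exact (tendsto_pow_atTop_nhds_zero_of_lt_one (by norm_num) (by norm_num)).comp
        hφ.tendsto_atTop
    have h3 := tendsto_nhds_unique h1.norm h2
    exact sub_eq_zero.mp (norm_eq_zero.mp h3)

/-- A proper space has a finite half-net of its unit ball. -/
theorem exists_net (E : Type*) [NormedAddCommGroup E] [ProperSpace E] :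
    ∃ F : Set E, F.Finite ∧ (∀ f ∈ F, ‖f‖ ≤ 1) ∧ ∀ y : E, ‖y‖ ≤ 1 → ∃ f ∈ F, ‖y - f‖ ≤ 1 / 2 := by
  obtain ⟨t, hts, htf, hcov⟩ := (isCompact_closedBall (0 : E) 1).finite_cover_balls
    (by norm_num : (0 : ℝ) < 1 / 2)
  refine ⟨t, htf, fun f hf => ?_, fun y hy => ?_⟩
  · have := hts hf
    rwa [mem_closedBall_zero_iff] at this
  · have h1 := hcov (mem_closedBall_zero_iff.mpr hy)
    simp only [Set.mem_iUnion] at h1
    obtain ⟨f, hf, hyf⟩ := h1
    refine ⟨f, hf, ?_⟩
    rw [Metric.mem_ball, dist_eq_norm] at hyf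
    exact hyf.le

end Pool.Agent.Helper841.BC
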