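import Mathlib
import Pool.Agent.Helper841.BCQuasi

set_option autoImplicit false

namespace Pool.Agent.Helper841.BC

open Filter Topology TopologicalSpace

open scoped ENNReal

/-- A finite-dimensional commutative algebra `ι → ℂ` with an algebra norm and norm-controlled
factorisation. -/
structure Blk where
  ι : Type
  fin : Fintype ι
  n : (ι → ℂ) → ℝ
  add_le : ∀ f g, n (f + g) ≤ n f + n g
  smul_eq : ∀ (c : ℂ) f, n (c • f) = ‖c‖ * n f
  eq_zero : ∀ f, n f = 0 → f = 0
  mul_le : ∀ f g, n (f * g) ≤ n f * n g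
  factor : ∀ f, ∃ b c, f = b * c ∧ n b ≤ 2 ∧ n c ≤ 6 * n f

attribute [instance] Blk.fin

theorem exists_blk (k : ℕ) : ∃ B : Blk, (k : ℝ) ≤ B.n 1 := by
  obtain ⟨ι, hι, n, h1, h2, h3, h4, h5, h6⟩ := exists_finite_algebra k
  exact ⟨⟨ι, hι, n, h1, h2, h3, h4, h6⟩, h5⟩

/-- The finite-dimensional algebra of a block. -/
def Alg (B : Blk) : Type := B.ι → ℂ

section Instances

variable (B : Blk)

noncomputable instance instCommRing : CommRing (Alg B) := inferInstanceAs (CommRing (B.ι → ℂ))

noncomputable instance instAlgebra : Algebra ℂ (Alg B) := inferInstanceAs (Algebra ℂ (B.ι → ℂ))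

/-- `B.n` as an additive group norm. -/
noncomputable def addNorm : AddGroupNorm (Alg B) where
  toFun := fun f => B.n f
  map_zero' := by
    have := B.smul_eq 0 0
    rw [norm_zero, zero_mul, zero_smul] at this
    exact this
  add_le' := B.add_le
  neg' := by
    intro f
    have h : ∀ g : B.ι → ℂ, B.n (-g) = B.n g := by
      intro g
      have := B.smul_eq (-1) g
      rwa [norm_neg, norm_one, one_mul, neg_one_smul] at this
    exact h f
  eq_zero_of_map_eq_zero' := B.eq_zero

noncomputable instance instNormedAddCommGroup : NormedAddCommGroup (Alg B) :=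
  (addNorm B).toNormedAddCommGroup

theorem norm_def (f : Alg B) : ‖f‖ = B.n f := rfl

noncomputable instance instNonUnitalNormedCommRing : NonUnitalNormedCommRing (Alg B) :=
  { instCommRing B, instNormedAddCommGroup B with
    norm_mul_le := fun f g => B.mul_le f g }

noncomputable instance instNormedSpace : NormedSpace ℂ (Alg B) :=
  { (inferInstance : Module ℂ (Alg B)) with
    norm_smul_le := fun c f => (B.smul_eq c f).le }

instance instIsScalarTower : IsScalarTower ℂ (Alg B) (Alg B) :=
  ⟨fun r f g => smul_mul_assoc r f g⟩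

instance instSMulCommClass : SMulCommClass ℂ (Alg B) (Alg B) :=
  ⟨fun r f g => (mul_smul_comm r f g).symm⟩

instance instFiniteDimensional : FiniteDimensional ℂ (Alg B) :=
  inferInstanceAs (FiniteDimensional ℂ (B.ι → ℂ))

instance instCompleteSpace : CompleteSpace (Alg B) := FiniteDimensional.complete ℂ (Alg B)

instance instProperSpace : ProperSpace (Alg B) := FiniteDimensional.proper ℂ (Alg B)

end Instances

section CZero

variable (D : ℕ → Blk)

/-- The `ℓ^∞` sum of the finite-dimensional algebras. -/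
abbrev Big : Type := lp (fun k => Alg (D k)) ∞

/-- The `c₀` sum of the finite-dimensional algebras. -/
noncomputable def czero : NonUnitalSubalgebra ℂ (Big D) where
  carrier := {a | Tendsto (fun k => ‖a k‖) atTop (𝓝 0)}
  zero_mem' := by
    show Tendsto (fun k => ‖(0 : Big D) k‖) atTop (𝓝 0)
    simp
  add_mem' := by
    intro a b ha hb
    have ha' : Tendsto (fun k => ‖a k‖) atTop (𝓝 0) := ha
    have hb' : Tendsto (fun k => ‖b k‖) atTop (𝓝 0) := hb
    have h := ha'.add hb'
    rw [add_zero] at h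
    exact squeeze_zero (fun k => norm_nonneg _) (fun k => norm_add_le (a k) (b k)) h
  mul_mem' := by
    intro a b ha hb
    have ha' : Tendsto (fun k => ‖a k‖) atTop (𝓝 0) := ha
    have hb' : Tendsto (fun k => ‖b k‖) atTop (𝓝 0) := hb
    have h := ha'.mul hb'
    rw [mul_zero] at h
    exact squeeze_zero (fun k => norm_nonneg _) (fun k => norm_mul_le (a k) (b k)) h
  smul_mem' := by
    intro c a ha
    have ha' : Tendsto (fun k => ‖a k‖) atTop (𝓝 0) := ha
    have h := ha'.const_mul ‖c‖
    rw [mul_zero] at h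
    exact squeeze_zero (fun k => norm_nonneg _) (fun k => norm_smul_le c (a k)) h

variable {D}

theorem mem_czero {a : Big D} : a ∈ czero D ↔ Tendsto (fun k => ‖a k‖) atTop (𝓝 0) := Iff.rfl

theorem norm_coord_le (a : czero D) (k : ℕ) : ‖(a : Big D) k‖ ≤ ‖a‖ :=
  lp.norm_apply_le_norm ENNReal.top_ne_zero (a : Big D) k

theorem isClosed_czero : IsClosed ((czero D : NonUnitalSubalgebra ℂ (Big D)) : Set (Big D)) := by
  apply IsSeqClosed.isClosed
  intro x y hx hxy
  show Tendsto (fun k => ‖y k‖) atTop (𝓝 0)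
  rw [Metric.tendsto_atTop]
  intro ε hε
  obtain ⟨n, hn⟩ := (Metric.tendsto_atTop.mp hxy) (ε / 2) (by positivity)
  have hn' := hn n le_rfl
  rw [dist_eq_norm] at hn'
  have hxn : Tendsto (fun k => ‖(x n) k‖) atTop (𝓝 0) := hx n
  obtain ⟨m, hm⟩ := (Metric.tendsto_atTop.mp hxn) (ε / 2) (by positivity)
  refine ⟨m, fun k hk => ?_⟩
  have h1 := hm k hk
  rw [Real.dist_eq, sub_zero, abs_of_nonneg (norm_nonneg _)] at h1 ⊢
  have h2 : ‖(x n - y) k‖ ≤ ‖x n - y‖ := lp.norm_apply_le_norm ENNReal.top_ne_zero (x n - y) k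
  have h3 : y k = (x n) k - (x n - y) k := by
    rw [lp.coeFn_sub, Pi.sub_apply]
    abel
  rw [h3]
  exact lt_of_le_of_lt (norm_sub_le _ _) (by linarith)

noncomputable instance instRingCzero : NonUnitalNormedCommRing (czero D) :=
  NonUnitalSubalgebra.nonUnitalNormedCommRing (czero D)

noncomputable instance instModuleCzero : Module ℂ (czero D) :=
  NonUnitalSubalgebra.instModule

noncomputable instance instSpaceCzero : NormedSpace ℂ (czero D) :=
  { instModuleCzero with
    norm_smul_le := fun c a => norm_smul_le c (a : Big D) }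

instance instTowerCzero : IsScalarTower ℂ (czero D) (czero D) :=
  ⟨fun r f g => Subtype.ext (smul_mul_assoc r (f : Big D) (g : Big D))⟩

instance instCommCzero : SMulCommClass ℂ (czero D) (czero D) :=
  ⟨fun r f g => Subtype.ext (mul_smul_comm r (f : Big D) (g : Big D)).symm⟩

instance instCompleteCzero : CompleteSpace (czero D) :=
  (isClosed_czero (D := D)).completeSpace_coe

/-- The element supported at one index. -/
noncomputable def sing (k : ℕ) (f : Alg (D k)) : czero D :=
  ⟨lp.single ∞ k f, by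
    rw [mem_czero]
    apply tendsto_const_nhds.congr'
    filter_upwards [eventually_gt_atTop k] with j hj
    rw [lp.single_apply_ne _ _ _ (by omega : j ≠ k), norm_zero]⟩

theorem sing_self (k : ℕ) (f : Alg (D k)) : ((sing k f : czero D) : Big D) k = f :=
  lp.single_apply_self _ _ _

theorem sing_ne (k : ℕ) (f : Alg (D k)) {j : ℕ} (hj : j ≠ k) :
    ((sing k f : czero D) : Big D) j = 0 :=
  lp.single_apply_ne _ _ _ hj

theorem ext_czero {a b : czero D} (h : ∀ k, (a : Big D) k = (b : Big D) k) : a = b :=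
  Subtype.ext (lp.ext (funext h))

theorem norm_le_of_coord {a : czero D} {C : ℝ} (hC : 0 ≤ C) (h : ∀ k, ‖(a : Big D) k‖ ≤ C) :
    ‖a‖ ≤ C :=
  lp.norm_le_of_forall_le hC h

theorem mul_coord (a b : czero D) (k : ℕ) :
    ((a * b : czero D) : Big D) k = (a : Big D) k * (b : Big D) k := rfl

theorem sub_coord (a b : czero D) (k : ℕ) :
    ((a - b : czero D) : Big D) k = (a : Big D) k - (b : Big D) k := rfl

theorem add_coord (a b : czero D) (k : ℕ) :
    ((a + b : czero D) : Big D) k = (a : Big D) k + (b : Big D) k := rfl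

theorem sum_coord {ι : Type} (t : Finset ι) (a : ι → czero D) (k : ℕ) :
    ((∑ i ∈ t, a i : czero D) : Big D) k = ∑ i ∈ t, (a i : Big D) k := by
  classical
  induction t using Finset.induction_on with
  | empty => simp
  | insert i t hi ih =>
    rw [Finset.sum_insert hi, Finset.sum_insert hi, add_coord, ih]

theorem norm_sing_le (k : ℕ) (f : Alg (D k)) : ‖(sing k f : czero D)‖ ≤ ‖f‖ := by
  refine norm_le_of_coord (norm_nonneg _) fun j => ?_
  rcases eq_or_ne j k with rfl | h
  · rw [sing_self]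
  · rw [sing_ne k f h, norm_zero]; exact norm_nonneg _

theorem sing_sub (k : ℕ) (f g : Alg (D k)) :
    (sing k (f - g) : czero D) = sing k f - sing k g := by
  refine ext_czero fun j => ?_
  rw [sub_coord]
  rcases eq_or_ne j k with rfl | h
  · rw [sing_self, sing_self, sing_self]
  · rw [sing_ne k _ h, sing_ne k _ h, sing_ne k _ h, sub_zero]

theorem continuous_sing (k : ℕ) : Continuous (sing k : Alg (D k) → czero D) := by
  refine (LipschitzWith.of_dist_le_mul (K := 1) fun f g => ?_).continuous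
  rw [dist_eq_norm, dist_eq_norm, ← sing_sub]
  simpa using norm_sing_le k (f - g)

/-- Separability of the `c₀` sum. -/
theorem separable_czero : SeparableSpace (czero D) := by
  have hsep : IsSeparable (⋃ k, Set.range (sing k : Alg (D k) → czero D)) :=
    IsSeparable.iUnion fun k => isSeparable_range (continuous_sing k)
  have h2 : IsSeparable (closure ((Submodule.span ℂ
      (⋃ k, Set.range (sing k : Alg (D k) → czero D)) : Submodule ℂ (czero D)) :
      Set (czero D))) := (hsep.span (R := ℂ)).closure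
  rw [← isSeparable_univ_iff]
  refine h2.mono fun a _ => ?_
  rw [Metric.mem_closure_iff]
  intro ε hε
  have ha : Tendsto (fun k => ‖(a : Big D) k‖) atTop (𝓝 0) := a.2
  obtain ⟨m, hm⟩ := (Metric.tendsto_atTop.mp ha) (ε / 2) (by positivity)
  refine ⟨∑ k ∈ Finset.range m, sing k ((a : Big D) k), ?_, ?_⟩
  · exact Submodule.sum_mem _ fun k _ => Submodule.subset_span
      (Set.mem_iUnion.mpr ⟨k, Set.mem_range_self _⟩)
  · rw [dist_eq_norm]
    refine lt_of_le_of_lt (norm_le_of_coord (C := ε / 2) (by positivity) fun j => ?_)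
      (by linarith)
    rw [sub_coord, sum_coord]
    by_cases hj : j < m
    · rw [Finset.sum_eq_single j, sing_self, sub_self, norm_zero]
      · positivity
      · intro i _ hij
        exact sing_ne i _ hij.symm
      · intro h
        exact absurd (Finset.mem_range.mpr hj) h
    · rw [Finset.sum_eq_zero, sub_zero]
      · have := hm j (not_lt.mp hj)
        rw [Real.dist_eq, sub_zero, abs_of_nonneg (norm_nonneg _)] at this
        exact this.le
      · intro i hi
        rw [Finset.mem_range] at hi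
        exact sing_ne i _ (by omega)

/-- Every element of the `c₀` sum is a product. -/
theorem factor_czero (a : czero D) : ∃ b c : czero D, a = b * c := by
  have hex : ∀ k, ∃ b c : Alg (D k), (a : Big D) k = b * c ∧ ‖b‖ ≤ 2 ∧
      ‖c‖ ≤ 6 * ‖(a : Big D) k‖ := fun k => (D k).factor ((a : Big D) k)
  choose b' d he hb' hd using hex
  have halim : Tendsto (fun k => ‖(a : Big D) k‖) atTop (𝓝 0) := a.2
  let σ : ℕ → ℝ := fun k => Real.sqrt ‖(a : Big D) k‖
  have hσ0 : ∀ k, 0 ≤ σ k := fun k => Real.sqrt_nonneg _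
  have hσ1 : ∀ k, σ k ≤ Real.sqrt ‖a‖ := fun k => Real.sqrt_le_sqrt (norm_coord_le a k)
  have hσlim : Tendsto σ atTop (𝓝 0) := by
    have := (Real.continuous_sqrt.tendsto 0).comp halim
    rwa [Real.sqrt_zero] at this
  have hσsq : ∀ k, σ k * σ k = ‖(a : Big D) k‖ := fun k => Real.mul_self_sqrt (norm_nonneg _)
  have hbn : ∀ k, ‖((σ k : ℂ) • b' k : Alg (D k))‖ ≤ 2 * σ k := by
    intro k
    rw [norm_smul, Complex.norm_real, Real.norm_of_nonneg (hσ0 k)]
    nlinarith [hb' k, hσ0 k]
  have hcn : ∀ k, ‖(((σ k)⁻¹ : ℝ) : ℂ) • d k‖ ≤ 6 * σ k := by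
    intro k
    rw [norm_smul, Complex.norm_real, Real.norm_of_nonneg (inv_nonneg.mpr (hσ0 k))]
    calc (σ k)⁻¹ * ‖d k‖ ≤ (σ k)⁻¹ * (6 * ‖(a : Big D) k‖) :=
          mul_le_mul_of_nonneg_left (hd k) (inv_nonneg.mpr (hσ0 k))
      _ = 6 * ((σ k)⁻¹ * (σ k * σ k)) := by rw [hσsq]; ring
      _ ≤ 6 * σ k := by
          refine mul_le_mul_of_nonneg_left ?_ (by norm_num)
          rcases (hσ0 k).eq_or_lt with h0 | h0
          · rw [← h0]; simp
          · rw [← mul_assoc, inv_mul_cancel₀ h0.ne', one_mul]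
  have hmk : ∀ (x : ∀ k, Alg (D k)) (C : ℝ), 0 ≤ C → (∀ k, ‖x k‖ ≤ C * σ k) →
      ∃ y : czero D, ∀ k, (y : Big D) k = x k := by
    intro x C hC hx
    have hmem : Memℓp x ∞ := by
      apply memℓp_infty
      refine ⟨C * Real.sqrt ‖a‖, ?_⟩
      rintro _ ⟨k, rfl⟩
      exact (hx k).trans (mul_le_mul_of_nonneg_left (hσ1 k) hC)
    refine ⟨⟨⟨x, hmem⟩, ?_⟩, fun k => rfl⟩
    have h3 := hσlim.const_mul C
    rw [mul_zero] at h3
    exact squeeze_zero (fun k => norm_nonneg _) hx h3
  obtain ⟨b, hb⟩ := hmk (fun k => (σ k : ℂ) • b' k) 2 (by norm_num) hbn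
  obtain ⟨c, hc⟩ := hmk (fun k => (((σ k)⁻¹ : ℝ) : ℂ) • d k) 6 (by norm_num) hcn
  refine ⟨b, c, ext_czero fun k => ?_⟩
  rw [mul_coord, hb, hc]
  rcases (hσ0 k).eq_or_lt with h0 | h0
  · have h5 := hσsq k
    rw [← h0, mul_zero] at h5
    rw [norm_eq_zero.mp h5.symm, ← h0]
    simp
  · rw [smul_mul_smul_comm, ← he]
    have h6 : ((σ k : ℝ) : ℂ) * (((σ k)⁻¹ : ℝ) : ℂ) = 1 := by
      rw [← Complex.ofReal_mul, mul_inv_cancel₀ h0.ne', Complex.ofReal_one]
    rw [h6, one_smul]

end CZero

end Pool.Agent.Helper841.BC
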