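import Pool.Agent.Helper841.FDGood
import Pool.Agent.Helper746.EpNull
import Pool.Agent.Helper746.EpLip
import Pool.Agent.Helper746.SineSob

set_option autoImplicit false
open MeasureTheory Filter Topology

namespace Pool.Agent.Helper841.FD

open Pool.Agent.Helper746.Ep (E Gr v3 linM d4 ext3 abs_coord norm_v3_le linM_norm linM_det
  hasFDerivAt_v3 null_preimage lip_axis d4_lip d4_eq d4_bd v3_0 v3_1 v3_2)

lemma level_null (i : Fin 3) (c : ℝ) : volume {q : E | q i = c} = 0 := by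
  have h1 : volume {q : E | q i = 0} = 0 := by
    have := plane_null i
    rw [ae_iff] at this
    convert this using 2
    ext q; simp
  have h2 := measure_preimage_add (volume : Measure E) (-(c • EuclideanSpace.single i (1 : ℝ)))
    {q : E | q i = 0}
  rw [h1] at h2
  rw [← h2]
  congr 1
  ext q
  simp only [Set.mem_preimage, Set.mem_setOf_eq, PiLp.add_apply, PiLp.neg_apply, PiLp.smul_apply,
    EuclideanSpace.single_apply, if_true, smul_eq_mul, mul_one]
  constructor <;> intro h <;> linarith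

lemma hh_diff : ∀ᵐ p ∂(volume : Measure E), 0 < RR p → DifferentiableAt ℝ hh p := by
  have h : ∀ n : ℕ, ∀ᵐ p ∂(volume : Measure E), DifferentiableAt ℝ (hhr (1 / ((n : ℝ) + 1))) p :=
    fun n => ll_ae (hhr_ll (by positivity))
  filter_upwards [ae_all_iff.mpr h] with p hp hR
  obtain ⟨n, hn⟩ := exists_nat_one_div_lt hR
  refine (hp n).congr_of_eventuallyEq ?_
  have hc : ContinuousAt RR p := RR_lipWith.continuous.continuousAt
  filter_upwards [hc.eventually (lt_mem_nhds hn)] with q hq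
  exact (hhr_eq (le_of_lt hq)).symm

lemma Ph_null : ∀ᵐ p ∂(volume : Measure E), p ∈ Om → p 1 ≠ 0 → DifferentiableAt ℝ DD p →
    ∀ n : ℤ, Ph p ≠ 2 * n := by
  have hN : volume {q : E | ∃ n : ℤ, q 1 = 2 * n} = 0 := by
    have e : {q : E | ∃ n : ℤ, q 1 = 2 * n} = ⋃ n : ℤ, {q : E | q 1 = 2 * n} := by
      ext q; simp
    rw [e]
    exact measure_iUnion_null fun n => level_null 1 _
  have h := null_preimage (fun p => v3 (p 0) (Ph p) (p 2))
    {p | p ∈ Om ∧ p 1 ≠ 0 ∧ DifferentiableAt ℝ DD p ∧ ∃ n : ℤ, Ph p = 2 * n}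
    {q : E | ∃ n : ℤ, q 1 = 2 * n} hN (by
      rintro p ⟨hO, h1, hD, hn⟩
      refine ⟨hn, ?_⟩
      obtain ⟨α, γ, hα, hγ, hgD⟩ := DD_gr hD
      have hR : 0 < RR p := RR_pos_of h1
      have hgR := RR_gr h1 hgD
      have hgP := Ph_gr hR hgR
      refine ⟨_, hasFDerivAt_v3 (Gr.c0 (x := p)) hgP (Gr.c2 (x := p)), ?_⟩
      rw [linM_det]
      unfold Pool.Agent.Helper746.Ep.T
      simp only [v3_0, v3_1, v3_2]
      have hl : 0 < Real.log 2 := Real.log_pos (by norm_num)
      have hp2 := abs_lt.mp hO.2.2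
      have h2 : p 2 + 2 ≠ 0 := by linarith
      have hs : Real.sign (p 1) ≠ 0 := by
        intro h0; exact h1 (Real.sign_eq_zero_iff.mp h0)
      have : (p 2 + 2) * (-1 / (RR p * Real.log 2)) * Real.sign (p 1) ≠ 0 := by
        apply mul_ne_zero (mul_ne_zero h2 _) hs
        apply div_ne_zero (by norm_num) (mul_pos hR hl).ne'
      simpa using this)
  rw [ae_iff]
  convert h using 2
  ext p
  simp only [Set.mem_setOf_eq]
  push Not
  rfl

theorem F_good : ∀ᵐ p ∂(volume : Measure E), p ∈ Om → ∃ A : E →L[ℝ] E, HasFDerivAt F A p ∧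
    A.det = RR p * Lg (RR p) ∧ ‖A‖ ≤ 60 ∧ 0 < RR p := by
  filter_upwards [plane_null 1, Ph_null, hh_diff, ll_ae DD_lipWith.locallyLipschitz,
    ll_ae dd_lipWith.locallyLipschitz] with p h1 h2 h3 h4 h5 hO
  have hR := RR_pos_of h1
  obtain ⟨A, a1, a2, a3⟩ := good hO h1 (h2 hO h1 h4) h4 h5 (h3 hR)
  exact ⟨A, a1, a2, a3, hR⟩

end Pool.Agent.Helper841.FD
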