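import Pool.Agent.Helper841.FDMap

set_option autoImplicit false
open MeasureTheory Filter Topology

namespace Pool.Agent.Helper841.FD

open Pool.Agent.Helper746.Ep (E Gr v3 linM d4 ext3 abs_coord norm_v3_le linM_norm linM_det
  hasFDerivAt_v3 null_preimage lip_axis d4_lip d4_eq d4_bd v3_0 v3_1 v3_2)

/-! ### Differentiability almost everywhere -/

lemma ll_ae {g : E → ℝ} (hg : LocallyLipschitz g) :
    ∀ᵐ p ∂(volume : Measure E), DifferentiableAt ℝ g p := by
  have h : ∀ n : ℕ, ∀ᵐ p ∂(volume : Measure E), p ∈ Metric.ball (0 : E) n →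
      DifferentiableAt ℝ g p := by
    intro n
    obtain ⟨K, hK⟩ := (hg.locallyLipschitzOn (s := Metric.closedBall (0 : E) n)).exists_lipschitzOnWith_of_compact
      (isCompact_closedBall (0 : E) n)
    obtain ⟨g', hg', he⟩ := hK.extend_real
    filter_upwards [hg'.ae_differentiableAt (μ := (volume : Measure E))] with p hp hpn
    refine hp.congr_of_eventuallyEq ?_
    filter_upwards [Metric.isOpen_ball.mem_nhds hpn] with q hq
    exact he (Metric.ball_subset_closedBall hq)
  filter_upwards [ae_all_iff.mpr h] with p hp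
  obtain ⟨n, hn⟩ := exists_nat_gt ‖p‖
  exact hp n (by rw [mem_ball_zero_iff]; exact hn)

lemma plane_null (i : Fin 3) : ∀ᵐ p ∂(volume : Measure E), p i ≠ 0 := by
  have hs : LinearMap.ker ((EuclideanSpace.proj i : E →L[ℝ] ℝ) : E →ₗ[ℝ] ℝ) ≠ ⊤ := by
    intro h
    have h1 : (EuclideanSpace.single i (1 : ℝ)) ∈
      LinearMap.ker ((EuclideanSpace.proj i : E →L[ℝ] ℝ) : E →ₗ[ℝ] ℝ) := by rw [h]; trivial
    rw [LinearMap.mem_ker] at h1
    simp at h1
  have h2 := Measure.addHaar_submodule (volume : Measure E) _ hs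
  rw [ae_iff]
  convert h2 using 2
  ext p
  simp

/-- gradient of a differentiable function -/
lemma gr_of_diff {g : E → ℝ} {p : E} (h : DifferentiableAt ℝ g p) :
    Gr g p (fderiv ℝ g p (v3 1 0 0)) (fderiv ℝ g p (v3 0 1 0)) (fderiv ℝ g p (v3 0 0 1)) := by
  have h1 := h.hasFDerivAt
  unfold Gr
  convert h1 using 1
  ext q
  have e : q = q 0 • v3 1 0 0 + q 1 • v3 0 1 0 + q 2 • v3 0 0 1 := by
    apply ext3 <;> simp
  conv_rhs => rw [e]
  simp only [map_add, map_smul, add_apply, smul_apply,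
    smul_eq_mul]
  simp
  ring

lemma line_deriv {g : E → ℝ} {p v : E} (h : DifferentiableAt ℝ g p) :
    HasDerivAt (fun s : ℝ => g (p + s • v)) (fderiv ℝ g p v) 0 := by
  have h1 : HasDerivAt (fun s : ℝ => p + s • v) v 0 := by
    have := ((hasDerivAt_id (0 : ℝ)).smul_const v).const_add p
    simpa using this
  have h2 : HasFDerivAt g (fderiv ℝ g p) (p + (0 : ℝ) • v) := by
    rw [zero_smul, add_zero]; exact h.hasFDerivAt
  exact h2.comp_hasDerivAt (0 : ℝ) h1

lemma deriv_bound {g : E → ℝ} {p v : E} (h : DifferentiableAt ℝ g p) {C : NNReal}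
    (hl : LipschitzWith C (fun s : ℝ => g (p + s • v))) : |fderiv ℝ g p v| ≤ C := by
  have h1 := norm_deriv_le_of_lipschitz (x₀ := (0 : ℝ)) hl
  rw [(line_deriv h).deriv] at h1
  exact h1

/-- the composite `DP (p 0) (p 2)` -/
noncomputable def DD (p : E) : ℝ := DP (p 0) (p 2)

lemma DD_lipWith : LipschitzWith 2 DD := by
  apply LipschitzWith.of_dist_le_mul
  intro p q
  rw [Real.dist_eq, dist_eq_norm]
  have h0 := abs_coord (p - q) 0
  have h2 := abs_coord (p - q) 2
  simp only [PiLp.sub_apply] at h0 h2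
  have := DP_lip (p 0) (p 2) (q 0) (q 2)
  unfold DD
  push_cast
  linarith

lemma DD_gr {p : E} (h : DifferentiableAt ℝ DD p) : ∃ α γ : ℝ, |α| ≤ 1 ∧ |γ| ≤ 1 ∧
    Gr DD p α 0 γ := by
  have h0 : fderiv ℝ DD p (v3 0 1 0) = 0 := by
    have h1 := line_deriv (v := v3 0 1 0) h
    have e : (fun s : ℝ => DD (p + s • v3 0 1 0)) = fun _ => DD p := by
      funext s
      unfold DD
      simp
    rw [e] at h1
    exact h1.unique (hasDerivAt_const _ _)
  have hα : |fderiv ℝ DD p (v3 1 0 0)| ≤ (1 : NNReal) := by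
    apply deriv_bound h
    apply LipschitzWith.of_dist_le_mul
    intro s t
    rw [Real.dist_eq, Real.dist_eq]
    have := DP_lip (p 0 + s) (p 2) (p 0 + t) (p 2)
    unfold DD
    simp only [PiLp.add_apply, PiLp.smul_apply, v3_0, v3_2, smul_eq_mul, mul_one, mul_zero,
      add_zero]
    rw [sub_self, abs_zero, add_zero] at this
    push_cast
    rw [one_mul]
    refine this.trans (le_of_eq ?_)
    congr 1
    ring
  have hγ : |fderiv ℝ DD p (v3 0 0 1)| ≤ (1 : NNReal) := by
    apply deriv_bound h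
    apply LipschitzWith.of_dist_le_mul
    intro s t
    rw [Real.dist_eq, Real.dist_eq]
    have := DP_lip (p 0) (p 2 + s) (p 0) (p 2 + t)
    unfold DD
    simp only [PiLp.add_apply, PiLp.smul_apply, v3_0, v3_2, smul_eq_mul, mul_one, mul_zero,
      add_zero]
    rw [sub_self, abs_zero, zero_add] at this
    push_cast
    rw [one_mul]
    refine this.trans (le_of_eq ?_)
    congr 1
    ring
  have hg := gr_of_diff h
  rw [h0] at hg
  exact ⟨_, _, by simpa using hα, by simpa using hγ, hg⟩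

lemma dd_gr {p : E} (h : DifferentiableAt ℝ dd p) : ∃ δ : ℝ, |δ| ≤ 1 ∧ Gr dd p δ 0 0 := by
  have h0 : fderiv ℝ dd p (v3 0 1 0) = 0 := by
    have h1 := line_deriv (v := v3 0 1 0) h
    have e : (fun s : ℝ => dd (p + s • v3 0 1 0)) = fun _ => dd p := by
      funext s
      unfold dd
      simp
    rw [e] at h1
    exact h1.unique (hasDerivAt_const _ _)
  have h0' : fderiv ℝ dd p (v3 0 0 1) = 0 := by
    have h1 := line_deriv (v := v3 0 0 1) h
    have e : (fun s : ℝ => dd (p + s • v3 0 0 1)) = fun _ => dd p := by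
      funext s
      unfold dd
      simp
    rw [e] at h1
    exact h1.unique (hasDerivAt_const _ _)
  have hα : |fderiv ℝ dd p (v3 1 0 0)| ≤ (1 : NNReal) := by
    apply deriv_bound h
    apply LipschitzWith.of_dist_le_mul
    intro s t
    rw [Real.dist_eq, Real.dist_eq]
    have := dP_lip (p 0 + s) (p 0 + t)
    unfold dd
    simp only [PiLp.add_apply, PiLp.smul_apply, v3_0, smul_eq_mul, mul_one]
    push_cast
    rw [one_mul]
    refine this.trans (le_of_eq ?_)
    congr 1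
    ring
  have hg := gr_of_diff h
  rw [h0, h0'] at hg
  exact ⟨_, by simpa using hα, hg⟩

/-! ### The wave near a point that is not an even integer -/

lemma wave_local {s : ℝ} (hs : ∀ n : ℤ, s ≠ 2 * n) : ∃ (m : ℤ) (κ : ℝ), (κ = 1 ∨ κ = -1) ∧
    2 * (m : ℝ) < s ∧ s < 2 * m + 2 ∧ ∀ x : ℝ, 2 * (m : ℝ) ≤ x → x ≤ 2 * m + 2 →
      1 - d4 x = κ * (1 - (x - 2 * m)) ∧ 1 - d4 (x - 1) = κ * (1 - |1 - (x - 2 * m)|) := by
  have h1 : 2 * ((⌊s / 2⌋ : ℤ) : ℝ) ≤ s := by
    have := Int.floor_le (s / 2)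
    linarith
  have h2 : s < 2 * ((⌊s / 2⌋ : ℤ) : ℝ) + 2 := by
    have := Int.lt_floor_add_one (s / 2)
    linarith
  have h1' : 2 * ((⌊s / 2⌋ : ℤ) : ℝ) < s := lt_of_le_of_ne h1 (Ne.symm (hs _))
  generalize ⌊s / 2⌋ = m at h1' h2
  rcases Int.even_or_odd m with ⟨k, hk⟩ | ⟨k, hk⟩
  · refine ⟨m, 1, Or.inl rfl, h1', h2, fun x hx1 hx2 => ?_⟩
    have hm : (m : ℝ) = 2 * k := by rw [hk]; push_cast; ring
    rw [hm] at hx1 hx2 ⊢
    constructor
    · have h : |x - 4 * (k : ℤ)| ≤ 2 := by rw [abs_le]; constructor <;> linarith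
      rw [d4_eq h, abs_of_nonneg (by linarith)]
      ring
    · have h : |x - 1 - 4 * (k : ℤ)| ≤ 2 := by rw [abs_le]; constructor <;> linarith
      rw [d4_eq h, ← abs_neg (x - 1 - 4 * (k : ℤ))]
      have e : -(x - 1 - 4 * (k : ℝ)) = 1 - (x - 2 * (2 * k)) := by ring
      rw [e]
      ring
  · refine ⟨m, -1, Or.inr rfl, h1', h2, fun x hx1 hx2 => ?_⟩
    have hm : (m : ℝ) = 2 * k + 1 := by rw [hk]; push_cast; ring
    rw [hm] at hx1 hx2 ⊢
    constructor
    · have e : x - 4 * ((k + 1 : ℤ) : ℝ) = -(4 * k + 4 - x) := by push_cast; ring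
      have h : |x - 4 * ((k + 1 : ℤ) : ℝ)| ≤ 2 := by
        rw [e, abs_neg, abs_le]; constructor <;> linarith
      rw [d4_eq h, e, abs_neg, abs_of_nonneg (by linarith)]
      ring
    · rcases le_total (x - 1) (4 * k + 2) with h3 | h3
      · have h : |x - 1 - 4 * (k : ℤ)| ≤ 2 := by rw [abs_le]; constructor <;> linarith
        rw [d4_eq h, abs_of_nonneg (by linarith), abs_of_nonneg (by linarith)]
        ring
      · have e : x - 1 - 4 * ((k + 1 : ℤ) : ℝ) = -(4 * k + 5 - x) := by push_cast; ring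
        have h : |x - 1 - 4 * ((k + 1 : ℤ) : ℝ)| ≤ 2 := by
          rw [e, abs_neg, abs_le]; constructor <;> linarith
        rw [d4_eq h, e, abs_neg, abs_of_nonneg (by linarith), abs_of_nonpos (by linarith)]
        ring

end Pool.Agent.Helper841.FD
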