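import Pool.Agent.Helper841.FDDiff

set_option autoImplicit false
open MeasureTheory Filter Topology

namespace Pool.Agent.Helper841.FD

open Pool.Agent.Helper746.Ep (E Gr v3 linM d4 ext3 abs_coord norm_v3_le linM_norm linM_det
  hasFDerivAt_v3 null_preimage lip_axis d4_lip d4_eq d4_bd v3_0 v3_1 v3_2)

lemma hh_alg {R d u κ : ℝ} (hR : 0 ≤ R) (hd : d ≤ R) (hu0 : 0 ≤ u) (hu2 : u ≤ 2)
    (hκ : κ = 1 ∨ κ = -1) :
    max (-(R - d)) (min (R - d) (R * (κ * (1 - |1 - u|)))) =
      κ * (R - max d |R * (κ * (1 - u))|) := by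
  have h1 : |1 - u| ≤ 1 := by rw [abs_le]; constructor <;> linarith
  have hκa : |κ| = 1 := by rcases hκ with h | h <;> rw [h] <;> norm_num
  have e1 : |R * (κ * (1 - u))| = R * |1 - u| := by
    rw [abs_mul, abs_mul, hκa, one_mul, abs_of_nonneg hR]
  have hx : 0 ≤ R - R * |1 - u| := by nlinarith
  have hmin : min (R - d) (R - R * |1 - u|) = R - max d (R * |1 - u|) := by
    rcases le_total d (R * |1 - u|) with h | h
    · rw [max_eq_right h, min_eq_right (by linarith)]
    · rw [max_eq_left h, min_eq_left (by linarith)]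
  have hpos : 0 ≤ R - max d (R * |1 - u|) := by
    rw [← hmin]; exact le_min (by linarith) hx
  rw [e1]
  rcases hκ with h | h
  · rw [h]
    have e2 : R * (1 * (1 - |1 - u|)) = R - R * |1 - u| := by ring
    rw [e2, hmin, one_mul]
    exact max_eq_right (by linarith)
  · rw [h]
    have e2 : R * (-1 * (1 - |1 - u|)) = -(R - R * |1 - u|) := by ring
    rw [e2, min_eq_right (by linarith), max_neg_neg, hmin]
    ring

lemma Lg_pos {r : ℝ} (h0 : 0 < r) (h1 : r < 1 / 8) : 3 ≤ Lg r := by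
  unfold Lg
  have hl : 0 < Real.log 2 := Real.log_pos (by norm_num)
  rw [le_div_iff₀ hl]
  have h2 : Real.log r ≤ Real.log (1 / 8) := Real.log_le_log h0 h1.le
  have h3 : Real.log (1 / 8) = -(3 * Real.log 2) := by
    rw [one_div, Real.log_inv, show (8 : ℝ) = 2 ^ 3 by norm_num, Real.log_pow]
    push_cast; ring
  linarith

lemma rLg_le {r : ℝ} (h0 : 0 < r) : r * Lg r ≤ 2 := by
  unfold Lg
  have hl : 0 < Real.log 2 := Real.log_pos (by norm_num)
  have hl2 := Real.log_two_gt_d9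
  have h1 : -Real.log r ≤ 1 / r - 1 := by
    rw [← Real.log_inv, one_div]
    exact Real.log_le_sub_one_of_pos (inv_pos.mpr h0)
  rw [mul_div_assoc', div_le_iff₀ hl]
  have h2 : r * (-Real.log r) ≤ r * (1 / r - 1) := mul_le_mul_of_nonneg_left h1 h0.le
  have h3 : r * (1 / r - 1) = 1 - r := by field_simp
  linarith

lemma RR_lt {p : E} (hO : p ∈ Om) : RR p < 1 / 8 := by
  have h1 := RR_le p
  have h2 := hO.1
  have h3 := hO.2.1
  linarith

lemma RR_gr {p : E} (h1 : p 1 ≠ 0) {α γ : ℝ} (h : Gr DD p α 0 γ) :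
    Gr RR p α (Real.sign (p 1)) γ := by
  have h2 := h.add (Gr.c1.cmul (Real.sign (p 1)))
  refine Gr.congr (Gr.of_eq h2 ?_) (by ring) (by ring) (by ring)
  rcases lt_or_gt_of_ne h1 with h3 | h3
  · have hU : {q : E | q 1 < 0} ∈ 𝓝 p :=
      (isOpen_lt (by fun_prop) continuous_const).mem_nhds h3
    filter_upwards [hU] with q hq
    have hq' : q 1 < 0 := hq
    unfold RR DD
    rw [Real.sign_of_neg h3, abs_of_neg hq']
    ring
  · have hU : {q : E | 0 < q 1} ∈ 𝓝 p :=
      (isOpen_lt continuous_const (by fun_prop)).mem_nhds h3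
    filter_upwards [hU] with q hq
    have hq' : 0 < q 1 := hq
    unfold RR DD
    rw [Real.sign_of_pos h3, abs_of_pos hq']
    ring

lemma Ph_gr {p : E} (hR : 0 < RR p) {α β γ : ℝ} (h : Gr RR p α β γ) :
    Gr Ph p ((p 2 + 2) * (-1 / (RR p * Real.log 2)) * α)
      ((p 2 + 2) * (-1 / (RR p * Real.log 2)) * β)
      ((p 2 + 2) * (-1 / (RR p * Real.log 2)) * γ + Lg (RR p)) := by
  have hl : Real.log 2 ≠ 0 := (Real.log_pos (by norm_num)).ne'
  have h1 := (h.log hR.ne').cmul (-1 / Real.log 2)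
  have h2 := (Gr.c2.add (Gr.const (x := p) 2)).mul h1
  have e : Ph = fun y : E => (y 2 + 2) * (-1 / Real.log 2 * Real.log (RR y)) := by
    funext y
    unfold Ph Lg
    ring
  rw [e]
  refine Gr.congr h2 ?_ ?_ ?_
  · field_simp
    ring
  · field_simp
    ring
  · unfold Lg
    field_simp
    ring

lemma max_gr {f d : E → ℝ} {p : E} {a b c δ : ℝ} (hf : Gr f p a b c) (hd : Gr d p δ 0 0)
    (hd0 : 0 ≤ d p) (hM : DifferentiableAt ℝ (fun q => max (d q) |f q|) p) :
    ∃ τ μ : ℝ, |τ| ≤ 1 ∧ |μ| ≤ |a| + |δ| ∧ Gr (fun q => max (d q) |f q|) p μ (τ * b) (τ * c) := by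
  rcases le_or_gt |f p| (d p) with h | h
  · refine ⟨0, δ, by simp, by have := abs_nonneg a; linarith, ?_⟩
    have hd' : DifferentiableAt ℝ d p := HasFDerivAt.differentiableAt hd
    have hmin : IsLocalMin (fun q => max (d q) |f q| - d q) p := by
      apply Eventually.of_forall
      intro q
      simp only
      rw [max_eq_left h, sub_self]
      have := le_max_left (d q) |f q|
      linarith
    have h0 := hmin.fderiv_eq_zero
    have h1 : HasFDerivAt (fun q => max (d q) |f q| - d q)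
        (fderiv ℝ (fun q => max (d q) |f q|) p - fderiv ℝ d p) p :=
      hM.hasFDerivAt.sub hd'.hasFDerivAt
    rw [h1.fderiv] at h0
    have h2 : fderiv ℝ (fun q => max (d q) |f q|) p = fderiv ℝ d p := sub_eq_zero.mp h0
    have h3 := hM.hasFDerivAt
    rw [h2, HasFDerivAt.fderiv hd] at h3
    rw [zero_mul, zero_mul]
    exact h3
  · have hfc : ContinuousAt f p := HasFDerivAt.continuousAt hf
    have hdc : ContinuousAt d p := HasFDerivAt.continuousAt hd
    have hev : ∀ᶠ q in 𝓝 p, d q < |f q| := hdc.eventually_lt hfc.abs h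
    have hfp : f p ≠ 0 := by
      intro h0; rw [h0, abs_zero] at h; linarith
    rcases lt_or_gt_of_ne hfp with h1 | h1
    · refine ⟨-1, -1 * a, by simp, by rw [neg_one_mul, abs_neg]; have := abs_nonneg δ; linarith, ?_⟩
      apply Gr.of_eq (hf.cmul (-1))
      filter_upwards [hev, hfc.eventually (gt_mem_nhds h1)] with q h2 h3
      rw [max_eq_right h2.le, abs_of_neg h3]
      ring
    · refine ⟨1, 1 * a, by simp, by rw [one_mul]; have := abs_nonneg δ; linarith, ?_⟩
      apply Gr.of_eq (hf.cmul 1)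
      filter_upwards [hev, hfc.eventually (lt_mem_nhds h1)] with q h2 h3
      rw [max_eq_right h2.le, abs_of_pos h3]
      ring

lemma dd_nonneg (p : E) : 0 ≤ dd p := dP_nonneg _

lemma sign_ev {p : E} (h1 : p 1 ≠ 0) : ∀ᶠ q in 𝓝 p, Real.sign (q 1) = Real.sign (p 1) := by
  rcases lt_or_gt_of_ne h1 with h3 | h3
  · have hU : {q : E | q 1 < 0} ∈ 𝓝 p :=
      (isOpen_lt (by fun_prop) continuous_const).mem_nhds h3
    filter_upwards [hU] with q hq
    have hq' : q 1 < 0 := hq
    rw [Real.sign_of_neg h3, Real.sign_of_neg hq']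
  · have hU : {q : E | 0 < q 1} ∈ 𝓝 p :=
      (isOpen_lt continuous_const (by fun_prop)).mem_nhds h3
    filter_upwards [hU] with q hq
    have hq' : 0 < q 1 := hq
    rw [Real.sign_of_pos h3, Real.sign_of_pos hq']

lemma sign_sq {x : ℝ} (h : x ≠ 0) : Real.sign x * Real.sign x = 1 := by
  rcases Real.sign_apply_eq_of_ne_zero x h with h | h <;> rw [h] <;> norm_num

lemma abs_sign {x : ℝ} (h : x ≠ 0) : |Real.sign x| = 1 := by
  rcases Real.sign_apply_eq_of_ne_zero x h with h | h <;> rw [h] <;> norm_num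

theorem good {p : E} (hO : p ∈ Om) (h1 : p 1 ≠ 0) (hP : ∀ n : ℤ, Ph p ≠ 2 * n)
    (hD : DifferentiableAt ℝ DD p) (hd : DifferentiableAt ℝ dd p) (hh' : DifferentiableAt ℝ hh p) :
    ∃ A : E →L[ℝ] E, HasFDerivAt F A p ∧ A.det = RR p * Lg (RR p) ∧ ‖A‖ ≤ 60 := by
  obtain ⟨α, γ, hα, hγ, hgD⟩ := DD_gr hD
  obtain ⟨δ, hδ, hgd⟩ := dd_gr hd
  obtain ⟨m, κ, hκ, hm1, hm2, hw⟩ := wave_local hP
  have hR : 0 < RR p := RR_pos_of h1
  have hgR := RR_gr h1 hgD
  have hgP := Ph_gr hR hgR
  set s := Real.sign (p 1) with hs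
  have hss : s * s = 1 := sign_sq h1
  have hsa : |s| = 1 := abs_sign h1
  have hκκ : κ * κ = 1 := by rcases hκ with h | h <;> rw [h] <;> norm_num
  have hκa : |κ| = 1 := by rcases hκ with h | h <;> rw [h] <;> norm_num
  set L := Lg (RR p) with hL
  have hL3 : 3 ≤ L := Lg_pos hR (RR_lt hO)
  have hRL : RR p * L ≤ 2 := rLg_le hR
  have hRL0 : 0 ≤ RR p * L := by positivity
  have hl : 0 < Real.log 2 := Real.log_pos (by norm_num)
  have hl2 := Real.log_two_gt_d9
  set lam : ℝ := (1 - (Ph p - 2 * m)) + (p 2 + 2) / Real.log 2 with hlam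
  have hPc : ContinuousAt Ph p := HasFDerivAt.continuousAt hgP
  have hev : ∀ᶠ q in 𝓝 p, 2 * (m : ℝ) < Ph q ∧ Ph q < 2 * m + 2 :=
    (hPc.eventually (lt_mem_nhds hm1)).and (hPc.eventually (gt_mem_nhds hm2))
  -- the second component
  have hf2 : Gr f2 p (κ * (lam * α)) (κ * (lam * s)) (κ * (lam * γ - RR p * L)) := by
    have g1 := ((Gr.const (x := p) 1).sub (hgP.sub (Gr.const (x := p) (2 * (m : ℝ))))).cmul κ
    have g2 := hgR.mul g1
    have g3 := Gr.of_eq (g := f2) g2 (by
      filter_upwards [hev] with q hq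
      unfold f2
      rw [(hw _ hq.1.le hq.2.le).1])
    refine Gr.congr g3 ?_ ?_ ?_
    · rw [hlam]; field_simp; ring
    · rw [hlam]; field_simp; ring
    · rw [hlam]; field_simp; ring
  -- the maximum
  have hhe : ∀ᶠ q in 𝓝 p, hh q = κ * (RR q - max (dd q) |f2 q|) := by
    filter_upwards [hev] with q hq
    have hq' := hw _ hq.1.le hq.2.le
    have := hh_alg (R := RR q) (d := dd q) (u := Ph q - 2 * m) (κ := κ) (RR_nonneg q) (dd_le_RR q)
      (by linarith [hq.1]) (by linarith [hq.2]) hκ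
    unfold hh f2
    rw [hq'.1, hq'.2]
    exact this
  have hM : DifferentiableAt ℝ (fun q => max (dd q) |f2 q|) p := by
    have hR' : DifferentiableAt ℝ RR p := HasFDerivAt.differentiableAt hgR
    have h2 : DifferentiableAt ℝ (fun q => RR q - κ * hh q) p := hR'.sub (hh'.const_mul κ)
    refine h2.congr_of_eventuallyEq ?_
    filter_upwards [hhe] with q hq
    rw [hq, ← mul_assoc, hκκ]
    ring
  obtain ⟨τ, μ, hτ, hμ, hgM⟩ := max_gr hf2 hgd (dd_nonneg p) hM
  have hgh : Gr hh p (κ * (α - μ)) (κ * (s - τ * (κ * (lam * s))))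
      (κ * (γ - τ * (κ * (lam * γ - RR p * L)))) :=
    Gr.of_eq ((hgR.sub hgM).cmul κ) hhe
  have hg3 : Gr (fun q => Real.sign (q 1) * hh q) p (s * (κ * (α - μ)))
      (s * (κ * (s - τ * (κ * (lam * s))))) (s * (κ * (γ - τ * (κ * (lam * γ - RR p * L))))) := by
    apply Gr.of_eq (hgh.cmul s)
    filter_upwards [sign_ev h1] with q hq
    rw [hq]
  have hF := hasFDerivAt_v3 (Gr.c0 (x := p)) hf2 hg3
  refine ⟨_, hF, ?_, ?_⟩
  · rw [linM_det]
    unfold Pool.Agent.Helper746.Ep.T
    simp only [v3_0, v3_1, v3_2]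
    have e : s * (κ * (γ - τ * (κ * (lam * γ - RR p * L)))) * (κ * (lam * s)) -
        s * (κ * (s - τ * (κ * (lam * s)))) * (κ * (lam * γ - RR p * L)) = RR p * L := by
      have : s * (κ * (γ - τ * (κ * (lam * γ - RR p * L)))) * (κ * (lam * s)) -
        s * (κ * (s - τ * (κ * (lam * s)))) * (κ * (lam * γ - RR p * L)) =
        (s * s) * (κ * κ) * (RR p * L) := by ring
      rw [this, hss, hκκ]; ring
    linear_combination e
  · have hlam1 : |lam| ≤ 6 := by
      have hp2 := abs_lt.mp hO.2.2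
      have h3 : 0 ≤ (p 2 + 2) / Real.log 2 := div_nonneg (by linarith) hl.le
      have h4 : (p 2 + 2) / Real.log 2 ≤ 5 := by
        rw [div_le_iff₀ hl]; linarith
      rw [abs_le]
      constructor <;> rw [hlam] <;> linarith
    have b1 : |lam * α| ≤ 6 := by
      rw [abs_mul]
      calc |lam| * |α| ≤ 6 * 1 := mul_le_mul hlam1 hα (abs_nonneg _) (by norm_num)
        _ = 6 := by norm_num
    have b2 : |lam * s| ≤ 6 := by rw [abs_mul, hsa, mul_one]; exact hlam1
    have b3 : |lam * γ - RR p * L| ≤ 8 := by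
      have : |lam * γ| ≤ 6 := by
        rw [abs_mul]
        calc |lam| * |γ| ≤ 6 * 1 := mul_le_mul hlam1 hγ (abs_nonneg _) (by norm_num)
          _ = 6 := by norm_num
      refine (abs_sub _ _).trans ?_
      rw [abs_of_nonneg hRL0]
      linarith
    have hκm : ∀ x : ℝ, |κ * x| = |x| := fun x => by rw [abs_mul, hκa, one_mul]
    have hsm : ∀ x : ℝ, |s * x| = |x| := fun x => by rw [abs_mul, hsa, one_mul]
    have hτm : ∀ x : ℝ, |τ * x| ≤ |x| := fun x => by
      rw [abs_mul]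
      calc |τ| * |x| ≤ 1 * |x| := mul_le_mul_of_nonneg_right hτ (abs_nonneg _)
        _ = |x| := one_mul _
    have c1 : |α - μ| ≤ 8 := by
      refine (abs_sub _ _).trans ?_
      rw [hκm] at hμ
      linarith
    have c2 : |s - τ * (κ * (lam * s))| ≤ 7 := by
      refine (abs_sub _ _).trans ?_
      have := hτm (κ * (lam * s))
      rw [hκm] at this
      rw [hsa]
      linarith
    have c3 : |γ - τ * (κ * (lam * γ - RR p * L))| ≤ 9 := by
      refine (abs_sub _ _).trans ?_
      have := hτm (κ * (lam * γ - RR p * L))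
      rw [hκm] at this
      linarith
    refine (linM_norm _ _ _).trans ?_
    have n1 := norm_v3_le 1 (κ * (lam * α)) (s * (κ * (α - μ)))
    have n2 := norm_v3_le 0 (κ * (lam * s)) (s * (κ * (s - τ * (κ * (lam * s)))))
    have n3 := norm_v3_le 0 (κ * (lam * γ - RR p * L))
      (s * (κ * (γ - τ * (κ * (lam * γ - RR p * L)))))
    rw [hκm, hsm, hκm, abs_one] at n1
    rw [hκm, hsm, hκm, abs_zero] at n2
    rw [hκm, hsm, hκm, abs_zero] at n3
    linarith

end Pool.Agent.Helper841.FD
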