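import Pool.Agent.Helper841.FDLip

set_option autoImplicit false
open MeasureTheory Filter Topology

namespace Pool.Agent.Helper841.FD

open Pool.Agent.Helper746.Ep (E Gr v3 linM d4 ext3 abs_coord norm_v3_le linM_norm linM_det
  hasFDerivAt_v3 null_preimage lip_axis d4_lip d4_eq d4_bd v3_0 v3_1 v3_2)

/-! ### Integrability -/

/-- a box around a vertical segment -/
def Bx (a r s : ℝ) : Set E := {p | |p 0 - a| ≤ r ∧ |p 1| ≤ s ∧ |p 2| ≤ 1}

lemma Bx_vol (a r s : ℝ) (hr : 0 ≤ r) (hs : 0 ≤ s) :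
    volume (Bx a r s) ≤ ENNReal.ofReal (8 * r * s) := by
  have hsub : Bx a r s ⊆
      WithLp.ofLp ⁻¹' (Set.univ.pi fun i : Fin 3 => Set.Icc ((![a - r, -s, -1] : Fin 3 → ℝ) i)
        ((![a + r, s, 1] : Fin 3 → ℝ) i)) := by
    intro x hx
    obtain ⟨h1, h2, h3⟩ := hx
    rw [abs_le] at h1 h2 h3
    rw [Set.mem_preimage, Set.mem_univ_pi]
    intro i
    fin_cases i
    · exact ⟨by show a - r ≤ x 0; linarith, by show x 0 ≤ a + r; linarith⟩
    · exact ⟨h2.1, h2.2⟩
    · exact ⟨h3.1, h3.2⟩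
  refine (measure_mono hsub).trans ?_
  rw [(PiLp.volume_preserving_ofLp (Fin 3)).measure_preimage
    (MeasurableSet.univ_pi fun i => measurableSet_Icc).nullMeasurableSet,
    Set.pi_univ_Icc, Real.volume_Icc_pi, Fin.prod_univ_three]
  simp only [Matrix.cons_val_zero, Matrix.cons_val_one, Matrix.cons_val_two, Matrix.head_cons,
    Matrix.tail_cons]
  rw [← ENNReal.ofReal_mul (by linarith), ← ENNReal.ofReal_mul (by
    apply mul_nonneg <;> linarith)]
  apply ENNReal.ofReal_le_ofReal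
  apply le_of_eq
  ring

/-- sublevel sets -/
def Ai (i : ℕ) : Set E := {p | p ∈ Om ∧ RR p ≤ (1 / 2 : ℝ) ^ i}

lemma Ai_meas (i : ℕ) : MeasurableSet (Ai i) :=
  Om_open.measurableSet.inter (measurableSet_le RR_cont.measurable measurable_const)

lemma Ai_sub (i : ℕ) : Ai i ⊆ Bx 0 (5 * (1 / 2) ^ i) ((1 / 2) ^ i) ∪
    ⋃ k ∈ Finset.range (Nat.sqrt i), Bx (pin (k + 1)) ((1 / 2) ^ i) ((1 / 2) ^ i) := by
  rintro p ⟨hO, hR⟩
  have h0 := DP_nonneg (p 0) (p 2)
  have h1 := abs_nonneg (p 1)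
  have hD : DP (p 0) (p 2) ≤ (1 / 2) ^ i := by unfold RR at hR; linarith
  have hp1 : |p 1| ≤ (1 / 2) ^ i := by unfold RR at hR; linarith
  have hp2 : |p 2| ≤ 1 := hO.2.2.le
  rcases cases_D (p 0) (p 2) with ⟨ha, hb⟩ | ⟨k, ha, hb, hc⟩
  · left
    refine ⟨?_, hp1, hp2⟩
    rw [sub_zero]
    rw [ha] at hD
    linarith
  · have hx : |p 0 - pin (k + 1)| ≤ (1 / 2) ^ i := by
      rw [hc] at hD
      exact (le_max_left _ _).trans hD
    by_cases hk : pin (k + 1) ≤ 4 * (1 / 2) ^ i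
    · left
      refine ⟨?_, hp1, hp2⟩
      rw [sub_zero]
      have h2 := abs_sub_abs_le_abs_sub (p 0) (pin (k + 1))
      rw [abs_of_pos (pin_pos k)] at h2
      linarith
    · right
      push Not at hk
      rw [Set.mem_iUnion₂]
      refine ⟨k, ?_, hx, hp1, hp2⟩
      rw [Finset.mem_range]
      have h3 : 4 ^ (k + 1) < i := by
        by_contra hcon
        push Not at hcon
        have h4 : pin (k + 1) ≤ (1 / 2 : ℝ) ^ i := by
          unfold pin
          exact pow_le_pow_of_le_one (by norm_num) (by norm_num) hcon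
        have h5 : (0 : ℝ) < (1 / 2) ^ i := by positivity
        linarith
      rw [← Nat.succ_le_iff, Nat.le_sqrt]
      have h6 : k + 1 ≤ 2 ^ (k + 1) := (Nat.lt_pow_self (by norm_num)).le
      calc (k + 1) * (k + 1) ≤ 2 ^ (k + 1) * 2 ^ (k + 1) := Nat.mul_le_mul h6 h6
        _ = 4 ^ (k + 1) := by rw [← mul_pow]; norm_num
        _ ≤ i := h3.le

lemma Ai_vol (i : ℕ) : volume (Ai i) ≤
    ENNReal.ofReal ((40 + 8 * (Nat.sqrt i : ℝ)) * (1 / 4) ^ i) := by
  have hp : (0 : ℝ) ≤ (1 / 2) ^ i := by positivity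
  have e : (1 / 2 : ℝ) ^ i * (1 / 2) ^ i = (1 / 4) ^ i := by rw [← mul_pow]; norm_num
  refine (measure_mono (Ai_sub i)).trans ?_
  refine (measure_union_le _ _).trans ?_
  have h1 := Bx_vol 0 (5 * (1 / 2) ^ i) ((1 / 2) ^ i) (by positivity) hp
  have h2 : volume (⋃ k ∈ Finset.range (Nat.sqrt i), Bx (pin (k + 1)) ((1 / 2) ^ i) ((1 / 2) ^ i)) ≤
      ENNReal.ofReal (8 * (Nat.sqrt i : ℝ) * (1 / 4) ^ i) := by
    refine (measure_biUnion_finset_le _ _).trans ?_
    refine (Finset.sum_le_sum (g := fun _ => ENNReal.ofReal (8 * (1 / 4) ^ i)) fun k _ => ?_).trans ?_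
    · refine (Bx_vol _ _ _ hp hp).trans (ENNReal.ofReal_le_ofReal ?_)
      rw [mul_assoc, e]
    · rw [Finset.sum_const, Finset.card_range, nsmul_eq_mul,
        ← ENNReal.ofReal_natCast, ← ENNReal.ofReal_mul (by positivity)]
      apply ENNReal.ofReal_le_ofReal
      apply le_of_eq
      ring
  refine (add_le_add h1 h2).trans ?_
  rw [← ENNReal.ofReal_add (by positivity) (by positivity)]
  apply ENNReal.ofReal_le_ofReal
  apply le_of_eq
  rw [← e]
  ring

/-- weights -/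
noncomputable def wt (i : ℕ) : ℝ := 4 ^ (i + 1) / (i : ℝ) ^ 2

lemma wt_nonneg (i : ℕ) : 0 ≤ wt i := by unfold wt; positivity

lemma wt_sum : Summable (fun i : ℕ => wt i * ((40 + 8 * (Nat.sqrt i : ℝ)) * (1 / 4) ^ i)) := by
  have h1 : Summable (fun n : ℕ => 192 * (1 / (n : ℝ) ^ (3 / 2 : ℝ))) :=
    (Real.summable_one_div_nat_rpow.mpr (by norm_num)).mul_left _
  refine Summable.of_nonneg_of_le (fun i => ?_) (fun i => ?_) h1
  · have := wt_nonneg i
    positivity
  · rcases Nat.eq_zero_or_pos i with h0 | h0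
    · subst h0
      unfold wt
      simp
    · have hi : (1 : ℝ) ≤ i := by exact_mod_cast h0
      have hi0 : (0 : ℝ) < i := by linarith
      have hs : (Nat.sqrt i : ℝ) ≤ Real.sqrt i := Real.nat_sqrt_le_real_sqrt
      have hs1 : 1 ≤ Real.sqrt i := Real.one_le_sqrt.mpr hi
      have e : wt i * ((40 + 8 * (Nat.sqrt i : ℝ)) * (1 / 4) ^ i) =
          4 * (40 + 8 * (Nat.sqrt i : ℝ)) / (i : ℝ) ^ 2 := by
        unfold wt
        rw [pow_succ, one_div, inv_pow]
        field_simp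
      rw [e]
      have e2 : (i : ℝ) ^ (3 / 2 : ℝ) = i * Real.sqrt i := by
        rw [Real.sqrt_eq_rpow, show (3 / 2 : ℝ) = 1 + 1 / 2 by norm_num, Real.rpow_add hi0,
          Real.rpow_one]
      rw [e2]
      have e3 : (i : ℝ) ^ 2 = i * (Real.sqrt i * Real.sqrt i) := by
        rw [Real.mul_self_sqrt hi0.le]; ring
      rw [e3, mul_one_div, div_le_div_iff₀ (by positivity) (by positivity)]
      have h5 : 4 * (40 + 8 * (Nat.sqrt i : ℝ)) ≤ 192 * Real.sqrt i := by linarith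
      calc 4 * (40 + 8 * (Nat.sqrt i : ℝ)) * (i * Real.sqrt i)
          ≤ 192 * Real.sqrt i * (i * Real.sqrt i) :=
            mul_le_mul_of_nonneg_right h5 (by positivity)
        _ = _ := by ring

lemma pt_bound {p : E} (hO : p ∈ Om) (hR : 0 < RR p) : ∃ i : ℕ, p ∈ Ai i ∧
    (1 / (RR p * Lg (RR p))) ^ 2 ≤ wt i := by
  have hlt := RR_lt hO
  obtain ⟨i, hi1, hi2⟩ := exists_nat_pow_near_of_lt_one hR (by linarith : RR p ≤ 1)
    (by norm_num : (0 : ℝ) < 1 / 2) (by norm_num : (1 / 2 : ℝ) < 1)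
  have hi3 : 3 < i + 1 := by
    by_contra hcon
    push Not at hcon
    have h1 : (1 / 2 : ℝ) ^ 3 ≤ (1 / 2) ^ (i + 1) :=
      pow_le_pow_of_le_one (by norm_num) (by norm_num) hcon
    have h2 : (1 / 2 : ℝ) ^ 3 = 1 / 8 := by norm_num
    linarith
  have hi0 : (0 : ℝ) < i := by
    have : 0 < i := by omega
    exact_mod_cast this
  refine ⟨i, ⟨hO, hi2⟩, ?_⟩
  have hl : 0 < Real.log 2 := Real.log_pos (by norm_num)
  have hLg : (i : ℝ) ≤ Lg (RR p) := by
    unfold Lg
    rw [le_div_iff₀ hl]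
    have h1 := Real.log_le_log hR hi2
    rw [Real.log_pow, one_div, Real.log_inv] at h1
    linarith
  have h2 : (1 / 2 : ℝ) ^ (i + 1) * i ≤ RR p * Lg (RR p) :=
    mul_le_mul hi1.le hLg hi0.le hR.le
  have h3 : 1 / (RR p * Lg (RR p)) ≤ 1 / ((1 / 2 : ℝ) ^ (i + 1) * i) :=
    one_div_le_one_div_of_le (by positivity) h2
  have h4 : 0 < Lg (RR p) := by linarith
  calc (1 / (RR p * Lg (RR p))) ^ 2 ≤ (1 / ((1 / 2 : ℝ) ^ (i + 1) * i)) ^ 2 :=
        pow_le_pow_left₀ (by positivity) h3 2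
    _ = wt i := by
      unfold wt
      rw [div_pow, mul_pow, one_pow, ← pow_mul, mul_comm (i + 1) 2, pow_mul]
      have e : ((1 / 2 : ℝ) ^ 2) ^ (i + 1) = 1 / 4 ^ (i + 1) := by
        rw [one_div, one_div, inv_pow, inv_pow]; norm_num
      rw [e]
      field_simp

theorem key_int : ∫⁻ p in Om, ENNReal.ofReal ((1 / (RR p * Lg (RR p))) ^ 2) < ⊤ := by
  have h1 : ∀ p ∈ Om, ENNReal.ofReal ((1 / (RR p * Lg (RR p))) ^ 2) ≤
      ∑' i, (Ai i).indicator (fun _ => ENNReal.ofReal (wt i)) p := by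
    intro p hO
    rcases (RR_nonneg p).eq_or_lt with h0 | h0
    · rw [← h0]; simp
    · obtain ⟨i, hi, hle⟩ := pt_bound hO h0
      refine (ENNReal.ofReal_le_ofReal hle).trans ?_
      refine le_trans (le_of_eq ?_) (ENNReal.le_tsum i)
      rw [Set.indicator_of_mem hi]
  calc ∫⁻ p in Om, ENNReal.ofReal ((1 / (RR p * Lg (RR p))) ^ 2)
      ≤ ∫⁻ p in Om, ∑' i, (Ai i).indicator (fun _ => ENNReal.ofReal (wt i)) p :=
        setLIntegral_mono' Om_open.measurableSet h1
    _ ≤ ∫⁻ p, ∑' i, (Ai i).indicator (fun _ => ENNReal.ofReal (wt i)) p :=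
        setLIntegral_le_lintegral _ _
    _ = ∑' i, ∫⁻ p, (Ai i).indicator (fun _ => ENNReal.ofReal (wt i)) p :=
        lintegral_tsum fun i => (measurable_const.indicator (Ai_meas i)).aemeasurable
    _ = ∑' i, ENNReal.ofReal (wt i) * volume (Ai i) := by
        congr 1
        funext i
        rw [lintegral_indicator_const (Ai_meas i)]
    _ ≤ ∑' i, ENNReal.ofReal (wt i * ((40 + 8 * (Nat.sqrt i : ℝ)) * (1 / 4) ^ i)) := by
        apply ENNReal.tsum_le_tsum
        intro i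
        rw [ENNReal.ofReal_mul (wt_nonneg i)]
        gcongr
        exact Ai_vol i
    _ < ⊤ := by
        rw [← ENNReal.ofReal_tsum_of_nonneg (fun i => ?_) wt_sum]
        · exact ENNReal.ofReal_lt_top
        · have := wt_nonneg i
          positivity

theorem K_memLp (J K : E → ℝ) (hJ : ∀ x, J x = LinearMap.det (fderiv ℝ F x).toLinearMap)
    (hK : ∀ x, K x = if 0 < J x then ‖fderiv ℝ F x‖ ^ 3 / J x else 1) :
    MemLp K 2 (volume.restrict Om) := by
  have hm : Measurable (fderiv ℝ F) := measurable_fderiv ℝ F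
  have hJm : Measurable J := by
    have e : J = fun x => ContinuousLinearMap.det (fderiv ℝ F x) := by funext x; exact hJ x
    rw [e]
    exact ContinuousLinearMap.continuous_det.measurable.comp hm
  have hKm : Measurable K := by
    have e : K = fun x => if 0 < J x then ‖fderiv ℝ F x‖ ^ 3 / J x else 1 := by funext x; exact hK x
    rw [e]
    exact Measurable.ite (measurableSet_lt measurable_const hJm) ((hm.norm.pow_const 3).div hJm)
      measurable_const
  rw [memLp_two_iff_integrable_sq hKm.aestronglyMeasurable]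
  refine ⟨(hKm.pow_const 2).aestronglyMeasurable, ?_⟩
  rw [hasFiniteIntegral_iff_ofReal (Eventually.of_forall fun x => by positivity)]
  have h1 : ∫⁻ p in Om, ENNReal.ofReal (K p ^ 2) ≤
      ∫⁻ p in Om, ENNReal.ofReal ((60 ^ 3) ^ 2) * ENNReal.ofReal ((1 / (RR p * Lg (RR p))) ^ 2) := by
    apply lintegral_mono_ae
    rw [ae_restrict_iff' Om_open.measurableSet]
    filter_upwards [F_good] with x hx hO
    obtain ⟨A, h1, h2, h3, h4⟩ := hx hO
    have hpos := det_pos hO h4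
    have hJx : J x = RR x * Lg (RR x) := by rw [hJ, h1.fderiv]; exact h2
    have hK0 : K x = ‖A‖ ^ 3 / (RR x * Lg (RR x)) := by
      rw [hK, hJx, if_pos hpos, h1.fderiv]
    rw [← ENNReal.ofReal_mul (by positivity)]
    apply ENNReal.ofReal_le_ofReal
    rw [hK0, ← mul_pow]
    apply pow_le_pow_left₀ (by positivity)
    rw [mul_one_div]
    apply div_le_div_of_nonneg_right _ hpos.le
    exact pow_le_pow_left₀ (norm_nonneg _) h3 3
  refine lt_of_le_of_lt h1 ?_
  rw [lintegral_const_mul' _ _ ENNReal.ofReal_ne_top]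
  exact ENNReal.mul_lt_top ENNReal.ofReal_lt_top key_int

end Pool.Agent.Helper841.FD
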