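import Pool.Agent.Helper841.FDAe

set_option autoImplicit false
open MeasureTheory Filter Topology

namespace Pool.Agent.Helper841.FD

open Pool.Agent.Helper746.Ep (E Gr v3 linM d4 ext3 abs_coord norm_v3_le linM_norm linM_det
  hasFDerivAt_v3 null_preimage lip_axis d4_lip d4_eq d4_bd v3_0 v3_1 v3_2)

lemma abs_f2_le (p : E) : |f2 p| ≤ RR p := by
  unfold f2
  have h := d4_bd (Ph p)
  rw [abs_mul, abs_of_nonneg (RR_nonneg p)]
  have : |1 - d4 (Ph p)| ≤ 1 := by rw [abs_le]; constructor <;> linarith [h.1, h.2]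
  calc RR p * |1 - d4 (Ph p)| ≤ RR p * 1 := mul_le_mul_of_nonneg_left this (RR_nonneg p)
    _ = RR p := mul_one _

lemma abs_hh_le (p : E) : |hh p| ≤ RR p - dd p := by
  have h1 := dd_le_RR p
  unfold hh
  rw [abs_le]
  constructor
  · exact le_max_left _ _
  · exact max_le (by linarith) (min_le_left _ _)

lemma norm_F_le (p : E) : ‖F p‖ ≤ |p 0| + 2 * RR p := by
  unfold F
  refine (norm_v3_le _ _ _).trans ?_
  have h1 := abs_f2_le p
  have h2 := abs_hh_le p
  have h3 := dd_nonneg p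
  have h4 : |Real.sign (p 1) * hh p| ≤ |hh p| := by
    rw [abs_mul]
    have : |Real.sign (p 1)| ≤ 1 := by
      rcases lt_trichotomy (p 1) 0 with h | h | h
      · rw [Real.sign_of_neg h]; norm_num
      · rw [h, Real.sign_zero]; norm_num
      · rw [Real.sign_of_pos h]; norm_num
    calc |Real.sign (p 1)| * |hh p| ≤ 1 * |hh p| := mul_le_mul_of_nonneg_right this (abs_nonneg _)
      _ = |hh p| := one_mul _
  linarith

theorem F_lip : ∀ x ∈ Om, ∀ y ∈ Om, ‖F x - F y‖ ≤ 60 * ‖x - y‖ := by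
  apply lip_axis Om Om_open Om_convex {x | RR x = 0} (isClosed_eq RR_cont continuous_const)
    F 60 (by norm_num)
  · intro x hx hZ
    exact F_ll hx (lt_of_le_of_ne (RR_nonneg x) (Ne.symm hZ))
  · filter_upwards [F_good] with x hx hO
    obtain ⟨A, h1, h2, h3, h4⟩ := hx hO
    exact ⟨A, h1, h3⟩
  · intro x hx c hc hZ
    have hZ' : RR c = 0 := hZ
    have h0 : c 0 = 0 ∧ c 1 = 0 := by
      by_contra hcon
      have := (RR_pos_iff c).mpr hcon
      linarith
    have e0 := abs_coord (x - c) 0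
    have e1 := abs_coord (x - c) 1
    simp only [PiLp.sub_apply, h0.1, h0.2, sub_zero] at e0 e1
    have h1 := norm_F_le x
    have h2 := RR_le x
    have hn := norm_nonneg (x - c)
    linarith

lemma F_lipOn : LipschitzOnWith 60 F Om := by
  apply LipschitzOnWith.of_dist_le_mul
  intro x hx y hy
  rw [dist_eq_norm, dist_eq_norm]
  exact F_lip x hx y hy

lemma Om_bdd : Om ⊆ Metric.closedBall (0 : E) 3 := by
  intro x hx
  rw [mem_closedBall_zero_iff]
  have h : x = v3 (x 0) (x 1) (x 2) := by apply ext3 <;> simp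
  rw [h]
  refine (norm_v3_le _ _ _).trans ?_
  obtain ⟨h1, h2, h3⟩ := hx
  linarith

lemma Om_finite : volume Om < ⊤ :=
  lt_of_le_of_lt (measure_mono Om_bdd) measure_closedBall_lt_top

lemma weakF (φ : E → ℝ) (hφ : ContDiff ℝ 1 φ) (hc : HasCompactSupport φ) (hs : tsupport φ ⊆ Om)
    (v : E) : ∫ x in Om, (fderiv ℝ φ x v) • F x = - ∫ x in Om, φ x • fderiv ℝ F x v := by
  obtain ⟨g, hg, hgF⟩ := F_lipOn.extend_finite_dimension
  have hw := Pool.Agent.Helper746.SineSob.weak_deriv_all g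
    (measurable_fderiv ℝ g).aestronglyMeasurable
    (fun r _ => ⟨_, hg.lipschitzOnWith⟩) hg.ae_differentiableAt φ hφ hc v
  have e1 : ∫ x in Om, (fderiv ℝ φ x v) • F x = ∫ x, (fderiv ℝ φ x v) • g x := by
    have a1 : ∫ x in Om, (fderiv ℝ φ x v) • g x = ∫ x, (fderiv ℝ φ x v) • g x := by
      apply setIntegral_eq_integral_of_forall_compl_eq_zero
      intro x hx
      have : fderiv ℝ φ x = 0 := by
        apply image_eq_zero_of_notMem_tsupport (f := fderiv ℝ φ)
        intro h
        exact hx (hs (tsupport_fderiv_subset ℝ h))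
      rw [this]; simp
    rw [← a1]
    apply setIntegral_congr_fun Om_open.measurableSet
    intro x hx
    simp only
    rw [hgF hx]
  have e2 : ∫ x in Om, φ x • fderiv ℝ F x v = ∫ x, φ x • fderiv ℝ g x v := by
    have a2 : ∫ x in Om, φ x • fderiv ℝ g x v = ∫ x, φ x • fderiv ℝ g x v := by
      apply setIntegral_eq_integral_of_forall_compl_eq_zero
      intro x hx
      rw [image_eq_zero_of_notMem_tsupport (fun h => hx (hs h)), zero_smul]
    rw [← a2]
    apply setIntegral_congr_fun Om_open.measurableSet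
    intro x hx
    simp only
    have : F =ᶠ[𝓝 x] g := by
      filter_upwards [Om_open.mem_nhds hx] with y hy
      exact hgF hy
    rw [this.fderiv_eq]
  rw [e1, e2, hw]

lemma F_meas : AEStronglyMeasurable F (volume.restrict Om) :=
  F_lipOn.continuousOn.aestronglyMeasurable Om_open.measurableSet

lemma restrict_finite : IsFiniteMeasure (volume.restrict Om : Measure E) :=
  ⟨by rw [Measure.restrict_apply_univ]; exact Om_finite⟩

lemma F_bdd (x : E) (hx : x ∈ Om) : ‖F x‖ ≤ 3 := by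
  have h1 := norm_F_le x
  have h2 := RR_lt hx
  have h3 := hx.1
  linarith

lemma F_memLp : MemLp F 3 (volume.restrict Om) := by
  have := restrict_finite
  apply MemLp.of_bound F_meas 3
  rw [ae_restrict_iff' Om_open.measurableSet]
  exact Eventually.of_forall F_bdd

lemma DF_memLp : MemLp (fderiv ℝ F) 3 (volume.restrict Om) := by
  have := restrict_finite
  apply MemLp.of_bound (measurable_fderiv ℝ F).aestronglyMeasurable 60
  rw [ae_restrict_iff' Om_open.measurableSet]
  filter_upwards [F_good] with x hx hO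
  obtain ⟨A, h1, h2, h3, h4⟩ := hx hO
  rw [h1.fderiv]; exact h3

lemma det_pos {x : E} (hx : x ∈ Om) (hR : 0 < RR x) : 0 < RR x * Lg (RR x) := by
  have := Lg_pos hR (RR_lt hx)
  positivity

lemma F_det_ae : ∀ᵐ x ∂(volume.restrict Om), 0 < LinearMap.det (fderiv ℝ F x).toLinearMap := by
  rw [ae_restrict_iff' Om_open.measurableSet]
  filter_upwards [F_good] with x hx hO
  obtain ⟨A, h1, h2, h3, h4⟩ := hx hO
  rw [h1.fderiv]
  have h2' : LinearMap.det A.toLinearMap = RR x * Lg (RR x) := h2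
  rw [h2']
  exact det_pos hO h4

lemma zero_mem : (0 : E) ∈ Om := by
  refine ⟨?_, ?_, ?_⟩ <;> simp

lemma F_zero : F 0 = 0 := by
  have h := norm_F_le 0
  have h2 := RR_le 0
  simp at h h2
  have h3 := RR_nonneg 0
  have : ‖F 0‖ ≤ 0 := by linarith
  exact norm_le_zero_iff.mp this

/-- a point of the image that is missed -/
noncomputable def yy (k : ℕ) : E := v3 (pin (k + 1)) 0 0

lemma dd_pin {p : E} {k : ℕ} (h : p 0 = pin (k + 1)) : dd p = 0 := by
  unfold dd
  rw [h, slab_d (k := k)]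
  · simp
  · simp [pin_pos]

lemma missed (k : ℕ) : ∀ p ∈ Om, F p ≠ yy k := by
  intro p hO hF
  have e0 : p 0 = pin (k + 1) := by
    have := congrArg (fun v : E => v 0) hF
    simpa [F, yy] using this
  have e1 : f2 p = 0 := by
    have := congrArg (fun v : E => v 1) hF
    simpa [F, yy] using this
  have e2 : Real.sign (p 1) * hh p = 0 := by
    have := congrArg (fun v : E => v 2) hF
    simpa [F, yy] using this
  have hDp : DP (p 0) (p 2) = ep (k + 1) (p 2) := by
    rw [e0, slab_D (k := k)]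
    · rw [sub_self, abs_zero]
      exact max_eq_right (ep_nonneg _ _)
    · simp [pin_pos]
  have hR : 0 < RR p := by
    unfold RR
    rw [hDp]
    have := ep_pos k (p 2)
    have := abs_nonneg (p 1)
    linarith
  have hd := dd_pin e0
  have hT : 1 - d4 (Ph p) = 0 := by
    unfold f2 at e1
    rcases mul_eq_zero.mp e1 with h | h
    · exact absurd h hR.ne'
    · exact h
  by_cases h1 : p 1 = 0
  · have hne : DP (p 0) (p 2) ≠ dP (p 0) := by
      rw [hDp]
      unfold dd at hd
      rw [hd]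
      exact (ep_pos k (p 2)).ne'
    obtain ⟨n, hn⟩ := front hO.2.2 hne
    have hRp : RR p = DP (p 0) (p 2) := by unfold RR; rw [h1, abs_zero, add_zero]
    have hP : Ph p = 2 * n := by
      unfold Ph Lg; rw [hRp]; exact hn
    rw [hP] at hT
    rcases Int.even_or_odd n with ⟨j, hj⟩ | ⟨j, hj⟩
    · have e : (2 * (n : ℝ)) - 4 * (j : ℤ) = 0 := by rw [hj]; push_cast; ring
      have h : |(2 * (n : ℝ)) - 4 * (j : ℤ)| ≤ 2 := by rw [e]; norm_num
      rw [d4_eq h, e] at hT
      norm_num at hT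
    · have e : (2 * (n : ℝ)) - 4 * (j : ℤ) = 2 := by rw [hj]; push_cast; ring
      have h : |(2 * (n : ℝ)) - 4 * (j : ℤ)| ≤ 2 := by rw [e]; norm_num
      rw [d4_eq h, e] at hT
      norm_num at hT
  · have hhz : hh p = 0 := by
      rcases mul_eq_zero.mp e2 with h | h
      · exact absurd (Real.sign_eq_zero_iff.mp h) h1
      · exact h
    -- off the plane the wave has zero only at height
    obtain ⟨m, κ, hκ, hm1, hm2, hw⟩ : ∃ (m : ℤ) (κ : ℝ), (κ = 1 ∨ κ = -1) ∧
        2 * (m : ℝ) ≤ Ph p ∧ Ph p ≤ 2 * m + 2 ∧ (1 - d4 (Ph p) = κ * (1 - (Ph p - 2 * m)) ∧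
          1 - d4 (Ph p - 1) = κ * (1 - |1 - (Ph p - 2 * m)|)) := by
      by_cases hP : ∀ n : ℤ, Ph p ≠ 2 * n
      · obtain ⟨m, κ, hκ, hm1, hm2, hw⟩ := wave_local hP
        exact ⟨m, κ, hκ, hm1.le, hm2.le, hw _ hm1.le hm2.le⟩
      · push Not at hP
        obtain ⟨n, hn⟩ := hP
        exfalso
        rw [hn] at hT
        rcases Int.even_or_odd n with ⟨j, hj⟩ | ⟨j, hj⟩
        · have e : (2 * (n : ℝ)) - 4 * (j : ℤ) = 0 := by rw [hj]; push_cast; ring
          have h : |(2 * (n : ℝ)) - 4 * (j : ℤ)| ≤ 2 := by rw [e]; norm_num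
          rw [d4_eq h, e] at hT
          norm_num at hT
        · have e : (2 * (n : ℝ)) - 4 * (j : ℤ) = 2 := by rw [hj]; push_cast; ring
          have h : |(2 * (n : ℝ)) - 4 * (j : ℤ)| ≤ 2 := by rw [e]; norm_num
          rw [d4_eq h, e] at hT
          norm_num at hT
    have hκκ : κ * κ = 1 := by rcases hκ with h | h <;> rw [h] <;> norm_num
    have h3 : κ * (1 - (Ph p - 2 * m)) = 0 := by rw [← hw.1]; exact hT
    have h4 := hh_alg (R := RR p) (d := dd p) (u := Ph p - 2 * m) (κ := κ) hR.le (dd_le_RR p)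
      (by linarith) (by linarith) hκ
    rw [h3, mul_zero, abs_zero, hd, max_self, ← hw.2] at h4
    have h5 : hh p = κ * (RR p - 0) := by
      unfold hh; rw [hd]; exact h4
    rw [hhz, sub_zero] at h5
    have h6 : κ * (κ * RR p) = 0 := by rw [← h5, mul_zero]
    rw [← mul_assoc, hκκ, one_mul] at h6
    exact hR.ne' h6

lemma pin_tendsto : Tendsto (fun k => pin (k + 1)) atTop (𝓝 0) := by
  have h1 : Tendsto (fun n : ℕ => (1 / 2 : ℝ) ^ n) atTop (𝓝 0) :=
    tendsto_pow_atTop_nhds_zero_of_lt_one (by norm_num) (by norm_num)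
  have h2 : Tendsto (fun k : ℕ => 4 ^ (k + 1)) atTop atTop := by
    apply tendsto_atTop_mono _ tendsto_id
    intro k
    have h : k < 4 ^ (k + 1) := lt_of_lt_of_le (Nat.lt_succ_self k)
      (le_of_lt (Nat.lt_pow_self (by norm_num)))
    exact h.le
  exact h1.comp h2

theorem F_not_open : ¬ IsOpen (F '' Om) := by
  intro h
  have h0 : (0 : E) ∈ F '' Om := ⟨0, zero_mem, F_zero⟩
  have hy : Tendsto yy atTop (𝓝 0) := by
    rw [tendsto_zero_iff_norm_tendsto_zero]
    refine squeeze_zero (fun k => norm_nonneg _) (fun k => norm_v3_le _ _ _) ?_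
    have := pin_tendsto.abs
    simpa using this
  obtain ⟨k, hk⟩ := (hy.eventually (h.mem_nhds h0)).exists
  obtain ⟨p, hp, hpe⟩ := hk
  exact missed k p hp hpe

lemma F_nonconst : ¬ ∃ c : E, ∀ x ∈ Om, F x = c := by
  rintro ⟨c, hc⟩
  have hx : v3 (1 / 32) 0 0 ∈ Om := by
    refine ⟨?_, ?_, ?_⟩ <;> simp only [v3_0, v3_1, v3_2, abs_zero] <;>
      norm_num
  have h1 := hc _ hx
  have h2 := hc 0 zero_mem
  rw [F_zero] at h2
  rw [← h2] at h1
  have h3 := congrArg (fun v : E => v 0) h1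
  simp only [F, v3_0, PiLp.zero_apply] at h3
  norm_num at h3

end Pool.Agent.Helper841.FD
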