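import Pool.Agent.Helper841.FDPins

set_option autoImplicit false
open MeasureTheory Filter Topology

namespace Pool.Agent.Helper841.FD

open Pool.Agent.Helper746.Ep (E Gr v3 linM d4 ext3 abs_coord norm_v3_le linM_norm linM_det
  hasFDerivAt_v3 null_preimage lip_axis d4_lip d4_eq d4_bd v3_0 v3_1 v3_2)

/-! ### The map -/

/-- the size -/
noncomputable def RR (p : E) : ℝ := DP (p 0) (p 2) + |p 1|

/-- the slit -/
noncomputable def dd (p : E) : ℝ := dP (p 0)

/-- base two logarithm of `1 / r` -/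
noncomputable def Lg (r : ℝ) : ℝ := -Real.log r / Real.log 2

/-- the phase -/
noncomputable def Ph (p : E) : ℝ := (p 2 + 2) * Lg (RR p)

noncomputable def f2 (p : E) : ℝ := RR p * (1 - d4 (Ph p))

noncomputable def hh (p : E) : ℝ :=
  max (-(RR p - dd p)) (min (RR p - dd p) (RR p * (1 - d4 (Ph p - 1))))

/-- the map -/
noncomputable def F (p : E) : E := v3 (p 0) (f2 p) (Real.sign (p 1) * hh p)

/-- the domain -/
def Om : Set E := {p | |p 0| < 1 / 16 ∧ |p 1| < 1 / 16 ∧ |p 2| < 1}

lemma RR_nonneg (p : E) : 0 ≤ RR p := add_nonneg (DP_nonneg _ _) (abs_nonneg _)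

lemma dd_le_RR (p : E) : dd p ≤ RR p := by
  have := dP_le_DP (p 0) (p 2)
  have := abs_nonneg (p 1)
  unfold dd RR
  linarith

lemma RR_le (p : E) : RR p ≤ |p 0| + |p 1| := by
  have := DP_le_abs (p 0) (p 2)
  unfold RR
  linarith

lemma RR_pos_of {p : E} (h : p 1 ≠ 0) : 0 < RR p := by
  have := abs_pos.mpr h
  have := DP_nonneg (p 0) (p 2)
  unfold RR
  linarith

lemma RR_pos_iff (p : E) : 0 < RR p ↔ ¬ (p 0 = 0 ∧ p 1 = 0) := by
  constructor
  · rintro h ⟨h0, h1⟩
    unfold RR at h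
    rw [h0, h1, DP_zero, abs_zero, add_zero] at h
    exact lt_irrefl _ h
  · intro h
    by_cases h1 : p 1 = 0
    · have h0 : p 0 ≠ 0 := fun h0 => h ⟨h0, h1⟩
      have := DP_pos h0 (p 2)
      have := abs_nonneg (p 1)
      unfold RR
      linarith
    · exact RR_pos_of h1

lemma RR_lip (p q : E) : |RR p - RR q| ≤ 3 * ‖p - q‖ := by
  have h0 := abs_coord (p - q) 0
  have h1 := abs_coord (p - q) 1
  have h2 := abs_coord (p - q) 2
  simp only [PiLp.sub_apply] at h0 h1 h2
  have h3 := DP_lip (p 0) (p 2) (q 0) (q 2)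
  have h4 := abs_abs_sub_abs_le (p 1) (q 1)
  have e : RR p - RR q = (DP (p 0) (p 2) - DP (q 0) (q 2)) + (|p 1| - |q 1|) := by
    unfold RR; ring
  rw [e]
  refine (abs_add_le _ _).trans ?_
  linarith

lemma RR_lipWith : LipschitzWith 3 RR := by
  apply LipschitzWith.of_dist_le_mul
  intro p q
  rw [Real.dist_eq, dist_eq_norm]
  exact RR_lip p q

lemma dd_lipWith : LipschitzWith 1 dd := by
  apply LipschitzWith.of_dist_le_mul
  intro p q
  rw [Real.dist_eq, dist_eq_norm]
  have h0 := abs_coord (p - q) 0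
  simp only [PiLp.sub_apply] at h0
  have := dP_lip (p 0) (q 0)
  unfold dd
  push_cast
  linarith

lemma d4_lipWith : LipschitzWith 1 d4 := by
  apply LipschitzWith.of_dist_le_mul
  intro p q
  rw [Real.dist_eq, Real.dist_eq]
  have := d4_lip p q
  push_cast
  linarith

lemma coord_ll (i : Fin 3) : LocallyLipschitz (fun p : E => p i) :=
  (EuclideanSpace.proj i : E →L[ℝ] ℝ).lipschitz.locallyLipschitz

lemma ll_mul {f g : E → ℝ} (hf : LocallyLipschitz f) (hg : LocallyLipschitz g) :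
    LocallyLipschitz (fun p => f p * g p) := by
  have h : ContDiff ℝ 1 (fun x : ℝ × ℝ => x.1 * x.2) := contDiff_fst.mul contDiff_snd
  exact (ContDiff.locallyLipschitz h).comp (hf.prodMk hg)

lemma logmax_lip {δ : ℝ} (hδ : 0 < δ) : LocallyLipschitz (fun r : ℝ => Real.log (max r δ)) := by
  have key : ∀ a b : ℝ, δ ≤ a → δ ≤ b → Real.log a - Real.log b ≤ 1 / δ * |a - b| := by
    intro a b ha hb
    have ha0 : 0 < a := hδ.trans_le ha
    have hb0 : 0 < b := hδ.trans_le hb
    rw [← Real.log_div ha0.ne' hb0.ne']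
    refine (Real.log_le_sub_one_of_pos (div_pos ha0 hb0)).trans ?_
    have e : a / b - 1 = (1 / b) * (a - b) := by field_simp
    rw [e]
    calc (1 / b) * (a - b) ≤ (1 / b) * |a - b| :=
          mul_le_mul_of_nonneg_left (le_abs_self _) (by positivity)
      _ ≤ 1 / δ * |a - b| := mul_le_mul_of_nonneg_right
          (one_div_le_one_div_of_le hδ hb) (abs_nonneg _)
  have hl : LipschitzWith (Real.toNNReal (1 / δ)) (fun r : ℝ => Real.log (max r δ)) := by
    apply LipschitzWith.of_dist_le_mul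
    intro a b
    rw [Real.dist_eq, Real.dist_eq, Real.coe_toNNReal _ (by positivity)]
    have h1 := key (max a δ) (max b δ) (le_max_right _ _) (le_max_right _ _)
    have h2 := key (max b δ) (max a δ) (le_max_right _ _) (le_max_right _ _)
    rw [abs_sub_comm (max b δ)] at h2
    have h3 : |max a δ - max b δ| ≤ |a - b| := by
      refine (abs_max_sub_max_le_max _ _ _ _).trans ?_
      rw [sub_self, abs_zero]
      exact max_le le_rfl (abs_nonneg _)
    have h4 : 1 / δ * |max a δ - max b δ| ≤ 1 / δ * |a - b| :=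
      mul_le_mul_of_nonneg_left h3 (by positivity)
    rw [abs_le]
    constructor <;> linarith
  exact hl.locallyLipschitz

/-! ### Regularised components -/

noncomputable def Phr (δ : ℝ) (p : E) : ℝ := (p 2 + 2) * Lg (max (RR p) δ)

noncomputable def f2r (δ : ℝ) (p : E) : ℝ := RR p * (1 - d4 (Phr δ p))

noncomputable def hhr (δ : ℝ) (p : E) : ℝ :=
  max (-(RR p - dd p)) (min (RR p - dd p) (RR p * (1 - d4 (Phr δ p - 1))))

lemma Phr_ll {δ : ℝ} (hδ : 0 < δ) : LocallyLipschitz (Phr δ) := by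
  have h1 : LocallyLipschitz (fun p : E => p 2 + 2) := (coord_ll 2).add (LocallyLipschitz.const 2)
  have h2 : LocallyLipschitz (fun p : E => Lg (max (RR p) δ)) := by
    have h3 : LocallyLipschitz (fun p : E => Real.log (max (RR p) δ)) :=
      (logmax_lip hδ).comp RR_lipWith.locallyLipschitz
    have h4 := ll_mul (LocallyLipschitz.const (-1 / Real.log 2)) h3
    have e : (fun p : E => Lg (max (RR p) δ)) =
        fun p => -1 / Real.log 2 * Real.log (max (RR p) δ) := by
      funext p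
      unfold Lg
      ring
    rw [e]
    exact h4
  exact ll_mul h1 h2

lemma wave_ll {g : E → ℝ} (hg : LocallyLipschitz g) :
    LocallyLipschitz (fun p => RR p * (1 - d4 (g p))) := by
  apply ll_mul RR_lipWith.locallyLipschitz
  exact (LocallyLipschitz.const 1).sub (d4_lipWith.locallyLipschitz.comp hg)

lemma f2r_ll {δ : ℝ} (hδ : 0 < δ) : LocallyLipschitz (f2r δ) := wave_ll (Phr_ll hδ)

lemma hhr_ll {δ : ℝ} (hδ : 0 < δ) : LocallyLipschitz (hhr δ) := by
  have hw : LocallyLipschitz (fun p => RR p - dd p) :=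
    RR_lipWith.locallyLipschitz.sub dd_lipWith.locallyLipschitz
  have hz := wave_ll ((Phr_ll hδ).sub (LocallyLipschitz.const 1))
  exact (hw.neg).max (hw.min hz)

lemma Phr_eq {δ : ℝ} {p : E} (h : δ ≤ RR p) : Phr δ p = Ph p := by
  unfold Phr Ph; rw [max_eq_left h]

lemma f2r_eq {δ : ℝ} {p : E} (h : δ ≤ RR p) : f2r δ p = f2 p := by
  unfold f2r f2; rw [Phr_eq h]

lemma hhr_eq {δ : ℝ} {p : E} (h : δ ≤ RR p) : hhr δ p = hh p := by
  unfold hhr hh; rw [Phr_eq h]

/-! ### Vanishing on the plane `p 1 = 0` -/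

lemma d4_odd (n : ℤ) : d4 (2 * n - 1) = 1 := by
  rcases Int.even_or_odd n with ⟨k, hk⟩ | ⟨k, hk⟩
  · have e : (2 * (n : ℝ) - 1) - 4 * (k : ℤ) = -1 := by rw [hk]; push_cast; ring
    have h : |(2 * (n : ℝ) - 1) - 4 * (k : ℤ)| ≤ 2 := by rw [e]; norm_num
    rw [d4_eq h, e]; norm_num
  · have e : (2 * (n : ℝ) - 1) - 4 * (k : ℤ) = 1 := by rw [hk]; push_cast; ring
    have h : |(2 * (n : ℝ) - 1) - 4 * (k : ℤ)| ≤ 2 := by rw [e]; norm_num
    rw [d4_eq h, e]; norm_num

lemma hh_zero {p : E} (h2 : |p 2| < 1) (h1 : p 1 = 0) : hh p = 0 := by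
  have hR : RR p = DP (p 0) (p 2) := by unfold RR; rw [h1, abs_zero, add_zero]
  by_cases hD : DP (p 0) (p 2) = dP (p 0)
  · have hw : RR p - dd p = 0 := by rw [hR, hD]; unfold dd; ring
    unfold hh
    rw [hw, neg_zero]
    exact max_eq_left (min_le_left _ _)
  · obtain ⟨n, hn⟩ := front h2 hD
    have hP : Ph p = 2 * n := by
      unfold Ph Lg; rw [hR]; exact hn
    have hw : 0 ≤ RR p - dd p := by have := dd_le_RR p; linarith
    unfold hh
    rw [hP, d4_odd, sub_self, mul_zero, min_eq_right hw, max_eq_right (by linarith)]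

lemma sign_mul_lip {s : Set E} (hs : Convex ℝ s) {g : E → ℝ} {K : NNReal}
    (hg : LipschitzOnWith K g s) (h0 : ∀ q ∈ s, q 1 = 0 → g q = 0) :
    LipschitzOnWith K (fun q => Real.sign (q 1) * g q) s := by
  have key : ∀ x ∈ s, ∀ y ∈ s, x 1 < 0 → 0 < y 1 → |g x| + |g y| ≤ K * ‖x - y‖ := by
    intro x hx y hy h1 h2
    set θ : ℝ := -(x 1) / (y 1 - x 1) with hθ
    have hd : 0 < y 1 - x 1 := by linarith
    have hθ0 : 0 ≤ θ := div_nonneg (by linarith) hd.le
    have hθ1 : θ ≤ 1 := by rw [hθ, div_le_one hd]; linarith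
    set q : E := (1 - θ) • x + θ • y with hq
    have hqs : q ∈ s := hs hx hy (by linarith) hθ0 (by ring)
    have hq1 : q 1 = 0 := by
      rw [hq]
      simp only [PiLp.add_apply, PiLp.smul_apply, smul_eq_mul]
      rw [hθ]
      field_simp
      ring
    have hgq := h0 q hqs hq1
    have a1 := hg.dist_le_mul x hx q hqs
    have a2 := hg.dist_le_mul y hy q hqs
    rw [hgq, Real.dist_eq, sub_zero, dist_eq_norm] at a1 a2
    have e1 : x - q = θ • (x - y) := by rw [hq]; module
    have e2 : y - q = (1 - θ) • (y - x) := by rw [hq]; module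
    rw [e1, norm_smul, Real.norm_of_nonneg hθ0] at a1
    rw [e2, norm_smul, Real.norm_of_nonneg (by linarith), norm_sub_rev y x] at a2
    calc |g x| + |g y| ≤ K * (θ * ‖x - y‖) + K * ((1 - θ) * ‖x - y‖) := add_le_add a1 a2
      _ = K * ‖x - y‖ := by ring
  apply LipschitzOnWith.of_dist_le_mul
  intro x hx y hy
  have hb := hg.dist_le_mul x hx y hy
  rw [Real.dist_eq, dist_eq_norm] at hb ⊢
  rcases lt_trichotomy (x 1) 0 with h1 | h1 | h1 <;> rcases lt_trichotomy (y 1) 0 with h2 | h2 | h2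
  · rw [Real.sign_of_neg h1, Real.sign_of_neg h2]
    have e : -1 * g x - -1 * g y = -(g x - g y) := by ring
    rw [e, abs_neg]; exact hb
  · rw [Real.sign_of_neg h1, h2, Real.sign_zero]
    rw [h0 y hy h2, sub_zero] at hb
    have e : -1 * g x - 0 * g y = -(g x) := by ring
    rw [e, abs_neg]; exact hb
  · rw [Real.sign_of_neg h1, Real.sign_of_pos h2]
    have e : -1 * g x - 1 * g y = -(g x) - g y := by ring
    rw [e]
    refine (abs_sub _ _).trans ?_
    rw [abs_neg]
    exact key x hx y hy h1 h2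
  · rw [h1, Real.sign_zero, Real.sign_of_neg h2]
    rw [h0 x hx h1, zero_sub, abs_neg] at hb
    have e : 0 * g x - -1 * g y = g y := by ring
    rw [e]; exact hb
  · rw [h1, h2, Real.sign_zero]
    simp only [zero_mul, sub_self, abs_zero]
    positivity
  · rw [h1, Real.sign_zero, Real.sign_of_pos h2]
    rw [h0 x hx h1, zero_sub, abs_neg] at hb
    have e : 0 * g x - 1 * g y = -(g y) := by ring
    rw [e, abs_neg]; exact hb
  · rw [Real.sign_of_pos h1, Real.sign_of_neg h2]
    have e : 1 * g x - -1 * g y = g x + g y := by ring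
    rw [e]
    refine (abs_add_le _ _).trans ?_
    have := key y hy x hx h2 h1
    rw [norm_sub_rev y x] at this
    linarith
  · rw [Real.sign_of_pos h1, h2, Real.sign_zero]
    rw [h0 y hy h2, sub_zero] at hb
    have e : 1 * g x - 0 * g y = g x := by ring
    rw [e]; exact hb
  · rw [Real.sign_of_pos h1, Real.sign_of_pos h2]
    have e : 1 * g x - 1 * g y = g x - g y := by ring
    rw [e]; exact hb

lemma RR_cont : Continuous RR := RR_lipWith.continuous

lemma Om_open : IsOpen Om := by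
  have h1 : IsOpen {x : E | |x 0| < 1 / 16} := isOpen_lt (by fun_prop) continuous_const
  have h2 : IsOpen {x : E | |x 1| < 1 / 16} := isOpen_lt (by fun_prop) continuous_const
  have h3 : IsOpen {x : E | |x 2| < 1} := isOpen_lt (by fun_prop) continuous_const
  exact h1.inter (h2.inter h3)

lemma coord_convex (i : Fin 3) (r : ℝ) : Convex ℝ {x : E | |x i| < r} := by
  have e : {x : E | |x i| < r} = (EuclideanSpace.proj i : E →L[ℝ] ℝ) ⁻¹' (Metric.ball 0 r) := by
    ext x
    simp [Metric.mem_ball, Real.dist_eq]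
  rw [e]
  exact (convex_ball (0 : ℝ) r).linear_preimage ((EuclideanSpace.proj i : E →L[ℝ] ℝ) : E →ₗ[ℝ] ℝ)

lemma Om_convex : Convex ℝ Om :=
  (coord_convex 0 _).inter ((coord_convex 1 _).inter (coord_convex 2 _))

/-- the map is locally Lipschitz off the axis -/
lemma F_ll {p : E} (hp : p ∈ Om) (hR : 0 < RR p) :
    ∃ K : NNReal, ∃ t ∈ 𝓝 p, LipschitzOnWith K F t := by
  have hδ : 0 < RR p / 2 := by linarith
  obtain ⟨K1, t1, ht1, hL1⟩ := f2r_ll hδ p
  obtain ⟨K2, t2, ht2, hL2⟩ := hhr_ll hδ p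
  have hU : {q : E | RR p / 2 < RR q} ∈ 𝓝 p :=
    (isOpen_lt continuous_const RR_cont).mem_nhds (by show RR p / 2 < RR p; linarith)
  obtain ⟨r, hr, hsub⟩ := Metric.mem_nhds_iff.mp
    (Filter.inter_mem (Filter.inter_mem ht1 ht2) (Filter.inter_mem hU (Om_open.mem_nhds hp)))
  have hsign := sign_mul_lip (convex_ball p r) (hL2.mono fun q hq => (hsub hq).1.2)
    (fun q hq hq1 => by
      rw [hhr_eq (le_of_lt (hsub hq).2.1)]
      exact hh_zero (hsub hq).2.2.2.2 hq1)
  refine ⟨1 + K1 + K2, Metric.ball p r, Metric.ball_mem_nhds p hr, ?_⟩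
  apply LipschitzOnWith.of_dist_le_mul
  intro x hx y hy
  have b1 := hL1.dist_le_mul x (hsub hx).1.1 y (hsub hy).1.1
  have b2 := hsign.dist_le_mul x hx y hy
  rw [f2r_eq (le_of_lt (hsub hx).2.1), f2r_eq (le_of_lt (hsub hy).2.1)] at b1
  simp only at b2
  rw [hhr_eq (le_of_lt (hsub hx).2.1), hhr_eq (le_of_lt (hsub hy).2.1)] at b2
  have b0 := abs_coord (x - y) 0
  simp only [PiLp.sub_apply] at b0
  rw [Real.dist_eq] at b1 b2
  rw [dist_eq_norm] at b1 b2
  rw [dist_eq_norm, dist_eq_norm]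
  have e : F x - F y = v3 (x 0 - y 0) (f2 x - f2 y)
      (Real.sign (x 1) * hh x - Real.sign (y 1) * hh y) := by
    unfold F
    apply ext3 <;> simp
  rw [e]
  refine (norm_v3_le _ _ _).trans ?_
  push_cast
  linarith

end Pool.Agent.Helper841.FD
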