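import Pool.Agent.Helper746.EpNull
import Pool.Agent.Helper746.EpLip
import Pool.Agent.Helper746.SineSob

set_option autoImplicit false
open MeasureTheory Filter Topology

namespace Pool.Agent.Helper841.FD

open Pool.Agent.Helper746.Ep (E Gr v3 linM d4 ext3)

/-! ### Pins and fronts on the line -/

/-- exponents -/
def bet (k : ℕ) : ℕ := 4 ^ (k + 1) + 2

/-- the pins `0` and `2 ^ (- 4 ^ (k + 1))` -/
noncomputable def pin : ℕ → ℝ
  | 0 => 0
  | k + 1 => (1 / 2 : ℝ) ^ (4 ^ (k + 1))

/-- clamp to `[-1, 1]` -/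
noncomputable def cl (t : ℝ) : ℝ := max (-1) (min 1 t)

lemma cl_mem (t : ℝ) : cl t ∈ Set.Icc (-1 : ℝ) 1 :=
  ⟨le_max_left _ _, max_le (by norm_num) (min_le_left _ _)⟩

lemma cl_lip (t s : ℝ) : |cl t - cl s| ≤ |t - s| := by
  unfold cl
  refine (abs_max_sub_max_le_max _ _ _ _).trans ?_
  rw [sub_self, abs_zero]
  refine max_le (abs_nonneg _) ?_
  refine (abs_min_sub_min_le_max _ _ _ _).trans ?_
  rw [sub_self, abs_zero]
  exact max_le (abs_nonneg _) le_rfl

lemma cl_eq {t : ℝ} (h : |t| < 1) : cl t = t := by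
  rw [abs_lt] at h
  unfold cl
  rw [min_eq_right h.2.le, max_eq_right h.1.le]

/-- the moving fronts -/
noncomputable def ep : ℕ → ℝ → ℝ
  | 0, _ => 0
  | k + 1, t => Real.exp (-(3 * bet k * Real.log 2) / (cl t + 2))

lemma ep_nonneg (j : ℕ) (t : ℝ) : 0 ≤ ep j t := by
  cases j with
  | zero => exact le_rfl
  | succ k => exact (Real.exp_pos _).le

lemma ep_pos (k : ℕ) (t : ℝ) : 0 < ep (k + 1) t := Real.exp_pos _

lemma exp_front_lip (c : ℝ) (hc : 0 ≤ c) (u v : ℝ) (hu : u ∈ Set.Icc (-1 : ℝ) 1)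
    (hv : v ∈ Set.Icc (-1 : ℝ) 1) :
    |Real.exp (-c / (u + 2)) - Real.exp (-c / (v + 2))| ≤ |u - v| := by
  have h : ∀ x ∈ Set.Icc (-1 : ℝ) 1, HasDerivWithinAt (fun x : ℝ => Real.exp (-c / (x + 2)))
      (Real.exp (-c / (x + 2)) * (c / (x + 2) ^ 2)) (Set.Icc (-1 : ℝ) 1) x := by
    intro x hx
    have hx2 : x + 2 ≠ 0 := by have := hx.1; linarith
    have h1 : HasDerivAt (fun x : ℝ => x + 2) 1 x := (hasDerivAt_id x).add_const 2
    have h2 : HasDerivAt (fun x : ℝ => -c / (x + 2)) (c / (x + 2) ^ 2) x := by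
      have := (hasDerivAt_const x (-c)).div h1 hx2
      have e : (0 * (x + 2) - -c * 1) / (x + 2) ^ 2 = c / (x + 2) ^ 2 := by ring
      rw [e] at this
      exact this
    exact (h2.exp).hasDerivWithinAt
  have hb : ∀ x ∈ Set.Icc (-1 : ℝ) 1, ‖Real.exp (-c / (x + 2)) * (c / (x + 2) ^ 2)‖ ≤ 1 := by
    intro x hx
    have hx1 : 1 ≤ x + 2 := by have := hx.1; linarith
    have h0 : 0 < x + 2 := by linarith
    rw [Real.norm_of_nonneg (by positivity)]
    set w := c / (x + 2) with hw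
    have hw0 : 0 ≤ w := by positivity
    have e1 : -c / (x + 2) = -w := by rw [hw]; ring
    have e2 : c / (x + 2) ^ 2 = w / (x + 2) := by rw [hw]; field_simp
    rw [e1, e2]
    have h3 : w / (x + 2) ≤ w := div_le_self hw0 hx1
    have h4 : w ≤ Real.exp w := by have := Real.add_one_le_exp w; linarith
    calc Real.exp (-w) * (w / (x + 2)) ≤ Real.exp (-w) * Real.exp w :=
          mul_le_mul_of_nonneg_left (h3.trans h4) (Real.exp_pos _).le
      _ = 1 := by rw [← Real.exp_add]; simp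
  have := Convex.norm_image_sub_le_of_norm_hasDerivWithin_le h hb (convex_Icc _ _) hv hu
  rwa [one_mul, Real.norm_eq_abs, Real.norm_eq_abs] at this

lemma ep_lip (j : ℕ) (t s : ℝ) : |ep j t - ep j s| ≤ |t - s| := by
  cases j with
  | zero => simp [ep]
  | succ k =>
    have h := exp_front_lip (3 * bet k * Real.log 2) (by positivity) (cl t) (cl s) (cl_mem t)
      (cl_mem s)
    exact h.trans (cl_lip t s)

lemma half_pow_bet (k : ℕ) : Real.exp (-(bet k * Real.log 2)) = pin (k + 1) / 4 := by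
  have h1 : Real.exp (-(bet k * Real.log 2)) = (1 / 2 : ℝ) ^ (bet k) := by
    rw [Real.exp_neg, Real.exp_nat_mul, Real.exp_log (by norm_num), one_div, inv_pow]
  rw [h1, bet, pow_add, pin]
  ring

lemma ep_le (k : ℕ) (t : ℝ) : ep (k + 1) t ≤ pin (k + 1) / 4 := by
  rw [← half_pow_bet]
  unfold ep
  apply Real.exp_le_exp.mpr
  have h := cl_mem t
  have h0 : 0 < cl t + 2 := by have := h.1; linarith
  have h3 : cl t + 2 ≤ 3 := by have := h.2; linarith
  have hb : 0 ≤ bet k * Real.log 2 := by positivity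
  rw [neg_div, neg_le_neg_iff, le_div_iff₀ h0]
  nlinarith

lemma pin_nonneg (j : ℕ) : 0 ≤ pin j := by
  cases j with
  | zero => exact le_rfl
  | succ k => unfold pin; positivity

lemma pin_pos (k : ℕ) : 0 < pin (k + 1) := by unfold pin; positivity

lemma pin_le (k : ℕ) : pin (k + 1) ≤ 1 / 16 := by
  unfold pin
  calc (1 / 2 : ℝ) ^ (4 ^ (k + 1)) ≤ (1 / 2 : ℝ) ^ 4 := by
        apply pow_le_pow_of_le_one (by norm_num) (by norm_num)
        calc 4 = 4 ^ 1 := by norm_num
          _ ≤ 4 ^ (k + 1) := Nat.pow_le_pow_right (by norm_num) (by omega)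
    _ = 1 / 16 := by norm_num

lemma pin_lt {j k : ℕ} (h : j < k) : pin (k + 1) ≤ pin (j + 1) / 2 := by
  unfold pin
  have h1 : 4 ^ (j + 1) + 1 ≤ 4 ^ (k + 1) := Nat.succ_le_of_lt
    (Nat.pow_lt_pow_right (by norm_num) (by omega))
  calc (1 / 2 : ℝ) ^ (4 ^ (k + 1)) ≤ (1 / 2 : ℝ) ^ (4 ^ (j + 1) + 1) :=
        pow_le_pow_of_le_one (by norm_num) (by norm_num) h1
    _ = _ := by rw [pow_succ]; ring

lemma pin_sep {j k : ℕ} (h : j ≠ k + 1) : pin (k + 1) / 2 ≤ |pin j - pin (k + 1)| := by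
  have hk := pin_pos k
  cases j with
  | zero =>
    have : pin 0 = 0 := rfl
    rw [this, zero_sub, abs_neg, abs_of_pos hk]
    linarith
  | succ j =>
    have h' : j ≠ k := fun e => h (by rw [e])
    rcases lt_or_gt_of_ne h' with h1 | h1
    · have := pin_lt h1
      rw [abs_of_nonneg (by linarith)]
      linarith
    · have := pin_lt h1
      rw [abs_sub_comm, abs_of_nonneg (by have := pin_pos j; linarith)]
      linarith

/-- distance to the set of pins -/
noncomputable def dP (x : ℝ) : ℝ := ⨅ j, |x - pin j|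

/-- distance to the set of pins, stopped at the fronts -/
noncomputable def DP (x t : ℝ) : ℝ := ⨅ j, max |x - pin j| (ep j t)

lemma bdd1 (x : ℝ) : BddBelow (Set.range fun j => |x - pin j|) :=
  ⟨0, by rintro _ ⟨j, rfl⟩; exact abs_nonneg _⟩

lemma bdd2 (x t : ℝ) : BddBelow (Set.range fun j => max |x - pin j| (ep j t)) :=
  ⟨0, by rintro _ ⟨j, rfl⟩; exact (abs_nonneg _).trans (le_max_left _ _)⟩

lemma dP_le (x : ℝ) (j : ℕ) : dP x ≤ |x - pin j| := ciInf_le (bdd1 x) j

lemma DP_le (x t : ℝ) (j : ℕ) : DP x t ≤ max |x - pin j| (ep j t) := ciInf_le (bdd2 x t) j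

lemma dP_nonneg (x : ℝ) : 0 ≤ dP x := le_ciInf fun _ => abs_nonneg _

lemma dP_le_DP (x t : ℝ) : dP x ≤ DP x t :=
  le_ciInf fun j => (dP_le x j).trans (le_max_left _ _)

lemma DP_nonneg (x t : ℝ) : 0 ≤ DP x t := (dP_nonneg x).trans (dP_le_DP x t)

lemma DP_le_abs (x t : ℝ) : DP x t ≤ |x| := by
  refine (DP_le x t 0).trans ?_
  have : pin 0 = 0 := rfl
  rw [this, sub_zero]
  exact max_le le_rfl (abs_nonneg _)

lemma dP_lip (x y : ℝ) : |dP x - dP y| ≤ |x - y| := by
  have key : ∀ x y : ℝ, dP x - dP y ≤ |x - y| := by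
    intro x y
    rw [sub_le_iff_le_add, add_comm, ← sub_le_iff_le_add]
    refine le_ciInf fun j => ?_
    have h1 := dP_le x j
    have h2 := abs_sub_le x y (pin j)
    linarith
  rw [abs_le]
  have := key y x
  rw [abs_sub_comm] at this
  exact ⟨by linarith, key x y⟩

lemma DP_lip (x t y s : ℝ) : |DP x t - DP y s| ≤ |x - y| + |t - s| := by
  have key : ∀ x t y s : ℝ, DP x t - DP y s ≤ |x - y| + |t - s| := by
    intro x t y s
    rw [sub_le_iff_le_add, add_comm, ← sub_le_iff_le_add]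
    refine le_ciInf fun j => ?_
    have h1 := DP_le x t j
    have h2 := abs_sub_le x y (pin j)
    have h3 := (abs_le.mp (ep_lip j t s)).2
    have h4 : max |x - pin j| (ep j t) ≤ max |y - pin j| (ep j s) + (|x - y| + |t - s|) := by
      apply max_le
      · have := le_max_left |y - pin j| (ep j s)
        have := abs_nonneg (t - s)
        linarith
      · have := le_max_right |y - pin j| (ep j s)
        have := abs_nonneg (x - y)
        linarith
    linarith
  rw [abs_le]
  have := key y s x t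
  rw [abs_sub_comm y x, abs_sub_comm s t] at this
  exact ⟨by linarith, key x t y s⟩

/-- near a pin -/
lemma slab_d {x : ℝ} {k : ℕ} (h : |x - pin (k + 1)| < pin (k + 1) / 4) :
    dP x = |x - pin (k + 1)| := by
  apply le_antisymm (dP_le x _)
  refine le_ciInf fun j => ?_
  by_cases hj : j = k + 1
  · rw [hj]
  · have h1 := pin_sep hj
    have h2 := abs_sub_le (pin j) x (pin (k + 1))
    rw [abs_sub_comm (pin j) x] at h2
    linarith

lemma slab_D {x : ℝ} {k : ℕ} (h : |x - pin (k + 1)| < pin (k + 1) / 4) (t : ℝ) :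
    DP x t = max |x - pin (k + 1)| (ep (k + 1) t) := by
  apply le_antisymm (DP_le x t _)
  refine le_ciInf fun j => ?_
  by_cases hj : j = k + 1
  · rw [hj]
  · have h1 := pin_sep hj
    have h2 := abs_sub_le (pin j) x (pin (k + 1))
    rw [abs_sub_comm (pin j) x] at h2
    have h3 := ep_le k t
    refine le_trans ?_ (le_max_left _ _)
    apply max_le <;> linarith

lemma out_D {x : ℝ} (h : ∀ k, pin (k + 1) / 4 ≤ |x - pin (k + 1)|) (t : ℝ) :
    DP x t = dP x ∧ |x| ≤ 5 * dP x := by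
  constructor
  · unfold DP dP
    congr 1
    funext j
    apply max_eq_left
    cases j with
    | zero => exact abs_nonneg _
    | succ k => exact (ep_le k t).trans (h k)
  · have : |x| / 5 ≤ dP x := by
      refine le_ciInf fun j => ?_
      cases j with
      | zero =>
        have : pin 0 = 0 := rfl
        rw [this, sub_zero]
        have := abs_nonneg x
        linarith
      | succ k =>
        have h1 := h k
        have h2 := abs_sub_abs_le_abs_sub x (pin (k + 1))
        rw [abs_of_pos (pin_pos k)] at h2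
        linarith
    linarith

lemma cases_D (x t : ℝ) : (DP x t = dP x ∧ |x| ≤ 5 * dP x) ∨
    ∃ k, |x - pin (k + 1)| < pin (k + 1) / 4 ∧ dP x = |x - pin (k + 1)| ∧
      DP x t = max |x - pin (k + 1)| (ep (k + 1) t) := by
  by_cases h : ∃ k, |x - pin (k + 1)| < pin (k + 1) / 4
  · obtain ⟨k, hk⟩ := h
    exact Or.inr ⟨k, hk, slab_d hk, slab_D hk t⟩
  · push Not at h
    exact Or.inl (out_D h t)

lemma DP_pos {x : ℝ} (hx : x ≠ 0) (t : ℝ) : 0 < DP x t := by
  rcases cases_D x t with ⟨h1, h2⟩ | ⟨k, _, _, h3⟩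
  · rw [h1]
    have := abs_pos.mpr hx
    linarith
  · rw [h3]
    exact lt_of_lt_of_le (ep_pos k t) (le_max_right _ _)

lemma DP_zero (t : ℝ) : DP 0 t = 0 :=
  le_antisymm (by simpa using DP_le_abs 0 t) (DP_nonneg 0 t)

lemma dP_zero : dP 0 = 0 :=
  le_antisymm ((dP_le_DP 0 0).trans (DP_zero 0).le) (dP_nonneg 0)

/-- where the front is active, the phase is an even integer -/
lemma front {x t : ℝ} (ht : |t| < 1) (h : DP x t ≠ dP x) :
    ∃ n : ℤ, (t + 2) * (-Real.log (DP x t) / Real.log 2) = 2 * n := by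
  rcases cases_D x t with ⟨h1, _⟩ | ⟨k, _, h2, h3⟩
  · exact absurd h1 h
  · have h4 : DP x t = ep (k + 1) t := by
      rw [h3]
      apply max_eq_right
      by_contra hcon
      push Not at hcon
      apply h
      rw [h3, h2, max_eq_left hcon.le]
    rw [h4]
    unfold ep
    rw [Real.log_exp, cl_eq ht]
    have h5 : t + 2 ≠ 0 := by rw [abs_lt] at ht; linarith [ht.1]
    have h6 : Real.log 2 ≠ 0 := (Real.log_pos (by norm_num)).ne'
    refine ⟨3 * (2 * 4 ^ k + 1), ?_⟩
    have e : (bet k : ℝ) = 2 * (2 * 4 ^ k + 1) := by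
      unfold bet
      push_cast
      ring
    rw [e]
    push_cast
    field_simp

end Pool.Agent.Helper841.FD
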