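import Mathlib

set_option autoImplicit false

/-!
Scalar tools for the snowflake problem: the Mazur map and elementary inequalities.
-/

namespace Pool.Agent.Helper841.Snow

/-- The Mazur map `z ↦ |z|^(p-1) z`. -/
noncomputable def M (p z : ℝ) : ℝ := |z| ^ (p - 1) * z

lemma M_neg (p z : ℝ) : M p (-z) = - M p z := by
  unfold M; rw [abs_neg]; ring

lemma M_nonneg_eq {p z : ℝ} (hp : 1 ≤ p) (hz : 0 ≤ z) : M p z = z ^ p := by
  unfold M
  rw [abs_of_nonneg hz]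
  rcases hz.eq_or_lt with h | h
  · subst h
    rw [Real.zero_rpow (by linarith : p ≠ 0)]; ring
  · nth_rw 2 [← Real.rpow_one z]
    rw [← Real.rpow_add h]; congr 1; ring

/-- upper estimate in the case `0 ≤ b ≤ a`. -/
lemma M_up_same {p a b : ℝ} (hp : 1 ≤ p) (hb : 0 ≤ b) (hab : b ≤ a) :
    |M p a - M p b| ≤ p * |a - b| * a ^ (p - 1) := by
  have ha : 0 ≤ a := hb.trans hab
  rw [M_nonneg_eq hp ha, M_nonneg_eq hp hb,
    abs_of_nonneg (sub_nonneg.2 (Real.rpow_le_rpow hb hab (by linarith))),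
    abs_of_nonneg (sub_nonneg.2 hab)]
  rcases ha.eq_or_lt with h | h
  · have hb0 : b = 0 := le_antisymm (h ▸ hab) hb
    subst hb0; rw [← h]; simp
  · have h1 := one_add_mul_self_le_rpow_one_add (s := b / a - 1)
      (by have : 0 ≤ b / a := by positivity
          linarith) hp
    have h2 : (1 + (b / a - 1)) ^ p = b ^ p / a ^ p := by
      rw [show 1 + (b / a - 1) = b / a by ring, Real.div_rpow hb ha]
    rw [h2] at h1
    have hap : 0 < a ^ p := Real.rpow_pos_of_pos h p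
    rw [le_div_iff₀ hap] at h1
    have h3 : a ^ p = a ^ (p - 1) * a := by
      nth_rw 3 [← Real.rpow_one a]
      rw [← Real.rpow_add h]; congr 1; ring
    have h4 : (1 + p * (b / a - 1)) * a ^ p = a ^ p + p * (b - a) * a ^ (p - 1) := by
      rw [h3]; field_simp
    rw [h4] at h1
    linarith

lemma M_up_opp {p a b : ℝ} (hp : 1 ≤ p) (hb : 0 ≤ b) (hab : b ≤ a) :
    |M p a - M p (-b)| ≤ p * |a - (-b)| * a ^ (p - 1) := by
  have ha : 0 ≤ a := hb.trans hab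
  rw [M_neg, M_nonneg_eq hp ha, M_nonneg_eq hp hb]
  have e1 : |a - -b| = a + b := by rw [sub_neg_eq_add]; exact abs_of_nonneg (by linarith)
  have e2 : |a ^ p - -b ^ p| = a ^ p + b ^ p := by
    rw [sub_neg_eq_add]
    exact abs_of_nonneg (add_nonneg (Real.rpow_nonneg ha _) (Real.rpow_nonneg hb _))
  rw [e1, e2]
  have key : ∀ x : ℝ, 0 ≤ x → x ≤ a → x ^ p ≤ a ^ (p - 1) * x := by
    intro x hx hxa
    rcases hx.eq_or_lt with h | h
    · rw [← h, Real.zero_rpow (by linarith : p ≠ 0)]; simp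
    · have h3 : x ^ p = x ^ (p - 1) * x := by
        nth_rw 3 [← Real.rpow_one x]
        rw [← Real.rpow_add h]; congr 1; ring
      rw [h3]
      exact mul_le_mul_of_nonneg_right (Real.rpow_le_rpow hx hxa (by linarith)) hx
  have k1 := key a ha le_rfl
  have k2 := key b hb hab
  have h5 : 0 ≤ a ^ (p - 1) := Real.rpow_nonneg ha _
  nlinarith [mul_nonneg h5 (add_nonneg ha hb)]

lemma M_up_aux {p a b : ℝ} (hp : 1 ≤ p) (ha : 0 ≤ a) (hab : |b| ≤ a) :
    |M p a - M p b| ≤ p * |a - b| * a ^ (p - 1) := by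
  rcases le_total 0 b with h | h
  · exact M_up_same hp h (by rwa [abs_of_nonneg h] at hab)
  · have := M_up_opp (p := p) (a := a) (b := -b) hp (neg_nonneg.2 h)
      (by rwa [abs_of_nonpos h] at hab)
    simpa using this

lemma M_up_aux2 {p a b : ℝ} (hp : 1 ≤ p) (hab : |b| ≤ |a|) :
    |M p a - M p b| ≤ p * |a - b| * |a| ^ (p - 1) := by
  rcases le_total 0 a with h | h
  · have := M_up_aux (p := p) hp h (by rwa [abs_of_nonneg h] at hab)
    rwa [abs_of_nonneg h]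
  · have := M_up_aux (p := p) (a := -a) (b := -b) hp (neg_nonneg.2 h)
      (by rw [abs_neg]; rwa [abs_of_nonpos h] at hab)
    rw [abs_of_nonpos h]
    rw [M_neg, M_neg] at this
    have e1 : |-M p a - -M p b| = |M p a - M p b| := by
      rw [← abs_neg]; congr 1; ring
    have e2 : |-a - -b| = |a - b| := by
      rw [← abs_neg]; congr 1; ring
    rwa [e1, e2] at this

lemma M_up {p a b : ℝ} (hp : 1 ≤ p) :
    |M p a - M p b| ≤ p * |a - b| * (max |a| |b|) ^ (p - 1) := by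
  rcases le_total |b| |a| with h | h
  · rw [max_eq_left h]; exact M_up_aux2 hp h
  · rw [max_eq_right h, abs_sub_comm, abs_sub_comm a b]; exact M_up_aux2 hp h

/-- `(a+b)^p ≤ 2^(p-1) (a^p + b^p)`. -/
lemma add_rpow_le {p a b : ℝ} (hp : 1 ≤ p) (ha : 0 ≤ a) (hb : 0 ≤ b) :
    (a + b) ^ p ≤ 2 ^ (p - 1) * (a ^ p + b ^ p) := by
  have h := Real.rpow_arith_mean_le_arith_mean_rpow (Finset.univ : Finset (Fin 2))
    (fun _ => 1 / 2) (fun i => if i = 0 then a else b) (by intros; norm_num) (by simp)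
    (by intro i _; split_ifs <;> assumption) hp
  simp only [Fin.sum_univ_two, Fin.isValue, if_true, one_ne_zero, if_false] at h
  have e : (1 / 2 * a + 1 / 2 * b : ℝ) = (a + b) / 2 := by ring
  rw [e, Real.div_rpow (by positivity) (by norm_num), div_le_iff₀ (by positivity)] at h
  have e2 : (2 : ℝ) ^ (p - 1) = 2 ^ p / 2 := by
    rw [Real.rpow_sub (by norm_num), Real.rpow_one]
  rw [e2]; nlinarith

lemma M_low_same {p a b : ℝ} (hp : 1 ≤ p) (hb : 0 ≤ b) (hab : b ≤ a) :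
    |a - b| ^ p ≤ 2 ^ (p - 1) * |M p a - M p b| := by
  have ha : 0 ≤ a := hb.trans hab
  rw [M_nonneg_eq hp ha, M_nonneg_eq hp hb,
    abs_of_nonneg (sub_nonneg.2 (Real.rpow_le_rpow hb hab (by linarith))),
    abs_of_nonneg (sub_nonneg.2 hab)]
  have h := Real.add_rpow_le_rpow_add (sub_nonneg.2 hab) hb hp
  rw [sub_add_cancel] at h
  have h2 : (1 : ℝ) ≤ 2 ^ (p - 1) := Real.one_le_rpow (by norm_num) (by linarith)
  have h3 : 0 ≤ a ^ p - b ^ p := sub_nonneg.2 (Real.rpow_le_rpow hb hab (by linarith))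
  nlinarith

lemma M_low_opp {p a b : ℝ} (hp : 1 ≤ p) (ha : 0 ≤ a) (hb : 0 ≤ b) :
    |a - (-b)| ^ p ≤ 2 ^ (p - 1) * |M p a - M p (-b)| := by
  rw [M_neg, M_nonneg_eq hp ha, M_nonneg_eq hp hb]
  have e1 : |a - -b| = a + b := by rw [sub_neg_eq_add]; exact abs_of_nonneg (by linarith)
  have e2 : |a ^ p - -b ^ p| = a ^ p + b ^ p := by
    rw [sub_neg_eq_add]
    exact abs_of_nonneg (add_nonneg (Real.rpow_nonneg ha _) (Real.rpow_nonneg hb _))
  rw [e1, e2]
  exact add_rpow_le hp ha hb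

lemma M_low {p a b : ℝ} (hp : 1 ≤ p) :
    |a - b| ^ p ≤ 2 ^ (p - 1) * |M p a - M p b| := by
  rcases le_total 0 a with h | h <;> rcases le_total 0 b with h' | h'
  · rcases le_total b a with h2 | h2
    · exact M_low_same hp h' h2
    · rw [abs_sub_comm, abs_sub_comm (M p a)]; exact M_low_same hp h h2
  · have := M_low_opp (a := a) (b := -b) hp h (neg_nonneg.2 h')
    simpa using this
  · have := M_low_opp (a := b) (b := -a) hp h' (neg_nonneg.2 h)
    rw [abs_sub_comm, abs_sub_comm (M p a)]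
    simpa using this
  · have e1 : |M p a - M p b| = |M p (-a) - M p (-b)| := by
      rw [M_neg, M_neg, ← abs_neg]; congr 1; ring
    have e2 : |a - b| = |-a - -b| := by
      rw [← abs_neg]; congr 1; ring
    rw [e1, e2]
    rcases le_total (-b) (-a) with h2 | h2
    · exact M_low_same hp (neg_nonneg.2 h') h2
    · rw [abs_sub_comm, abs_sub_comm (M p (-a))]; exact M_low_same hp (neg_nonneg.2 h) h2

/-- lower estimate, squared. -/
lemma M_low_sq {q a b : ℝ} (hq : 2 ≤ q) :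
    |a - b| ^ q ≤ 2 ^ q * (M (q / 2) a - M (q / 2) b) ^ 2 := by
  have h := M_low (p := q / 2) (a := a) (b := b) (by linarith)
  have h0 : 0 ≤ |a - b| ^ (q / 2) := Real.rpow_nonneg (abs_nonneg _) _
  have h1 : |a - b| ^ q = (|a - b| ^ (q / 2)) ^ 2 := by
    rw [← Real.rpow_natCast, ← Real.rpow_mul (abs_nonneg _)]; congr 1; push_cast; ring
  have h2 : (2 : ℝ) ^ q = (2 ^ (q / 2)) ^ 2 := by
    rw [← Real.rpow_natCast, ← Real.rpow_mul (by norm_num)]; congr 1; push_cast; ring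
  have h3 : (2 : ℝ) ^ (q / 2 - 1) ≤ 2 ^ (q / 2) :=
    Real.rpow_le_rpow_of_exponent_le (by norm_num) (by linarith)
  have h4 : |a - b| ^ (q / 2) ≤ 2 ^ (q / 2) * |M (q / 2) a - M (q / 2) b| :=
    h.trans (mul_le_mul_of_nonneg_right h3 (abs_nonneg _))
  rw [h1, h2, ← sq_abs (M (q / 2) a - M (q / 2) b), ← mul_pow]
  exact pow_le_pow_left₀ h0 h4 2

/-- `max(x,y)^e ≤ x^e + y^e`. -/
lemma max_rpow_le {e x y : ℝ} (hx : 0 ≤ x) (hy : 0 ≤ y) :
    (max x y) ^ e ≤ x ^ e + y ^ e := by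
  rcases le_total x y with h | h
  · rw [max_eq_right h]; linarith [Real.rpow_nonneg hx e]
  · rw [max_eq_left h]; linarith [Real.rpow_nonneg hy e]

lemma max_abs_rpow {e a b W : ℝ} (he : 0 ≤ e) (hW : 0 ≤ W) (h : |b| ≤ |a| + 2 * W) :
    (max |a| |b|) ^ e ≤ 4 ^ e * (|a| ^ e + W ^ e) := by
  have h1 : max |a| |b| ≤ 4 * max |a| W := by
    apply max_le
    · nlinarith [le_max_left |a| W, abs_nonneg a]
    · nlinarith [le_max_left |a| W, le_max_right |a| W, abs_nonneg a]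
  have h0 : 0 ≤ max |a| |b| := le_max_of_le_left (abs_nonneg a)
  calc (max |a| |b|) ^ e ≤ (4 * max |a| W) ^ e := Real.rpow_le_rpow h0 h1 he
    _ = 4 ^ e * (max |a| W) ^ e :=
        Real.mul_rpow (by norm_num) (le_max_of_le_left (abs_nonneg a))
    _ ≤ 4 ^ e * (|a| ^ e + W ^ e) :=
        mul_le_mul_of_nonneg_left (max_rpow_le (abs_nonneg a) hW) (by positivity)

lemma sq_mul_rpow {x q : ℝ} (hx : 0 ≤ x) (hq : 2 < q) : x ^ 2 * x ^ (q - 2) = x ^ q := by
  rcases hx.eq_or_lt with h | h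
  · rw [← h, Real.zero_rpow (by linarith : q ≠ 0)]; ring
  · rw [← Real.rpow_natCast, ← Real.rpow_add h]; congr 1; push_cast; ring

/-- the local upper estimate. -/
lemma key_local {q a b u v : ℝ} (hq : 2 < q) (h : a - b = u + v) :
    (M (q / 2) a - M (q / 2) b) ^ 2 ≤
      q ^ 2 * 4 ^ q * (u ^ 2 * |a| ^ (q - 2) + v ^ 2 * |b| ^ (q - 2) + |u| ^ q + |v| ^ q) := by
  set W := max |u| |v| with hW
  have hW0 : 0 ≤ W := le_max_of_le_left (abs_nonneg u)
  have hu : |u| ≤ W := le_max_left _ _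
  have hv : |v| ≤ W := le_max_right _ _
  have hab : |a - b| ≤ 2 * W := by
    rw [h]; calc |u + v| ≤ |u| + |v| := abs_add_le u v
      _ ≤ 2 * W := by linarith
  have h1 : |b| ≤ |a| + 2 * W := by
    have : |b| ≤ |a| + |a - b| := by
      have := abs_sub_abs_le_abs_sub b a
      rw [abs_sub_comm] at this; linarith
    linarith
  have h2 : |a| ≤ |b| + 2 * W := by
    have : |a| ≤ |b| + |a - b| := by
      have := abs_sub_abs_le_abs_sub a b
      linarith
    linarith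
  have he : 0 ≤ q - 2 := by linarith
  have m1 := max_abs_rpow he hW0 h1
  have m2 := max_abs_rpow he hW0 h2
  rw [max_comm] at m2
  set X := (max |a| |b|) ^ (q - 2) with hX
  have hX0 : 0 ≤ X := Real.rpow_nonneg (le_max_of_le_left (abs_nonneg a)) _
  have hup := M_up (p := q / 2) (a := a) (b := b) (by linarith)
  have hsq : (M (q / 2) a - M (q / 2) b) ^ 2 ≤ (q / 2) ^ 2 * (a - b) ^ 2 * X := by
    have e : (q / 2) ^ 2 * (a - b) ^ 2 * X =
        (q / 2 * |a - b| * (max |a| |b|) ^ (q / 2 - 1)) ^ 2 := by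
      rw [mul_pow, mul_pow, sq_abs, hX]
      congr 1
      rw [← Real.rpow_natCast ((max |a| |b|) ^ (q / 2 - 1)) 2,
        ← Real.rpow_mul (le_max_of_le_left (abs_nonneg a))]
      congr 1; push_cast; ring
    rw [e, ← sq_abs (M (q / 2) a - M (q / 2) b)]
    exact pow_le_pow_left₀ (abs_nonneg _) hup 2
  have hW4 : W ^ 2 * W ^ (q - 2) = W ^ q := sq_mul_rpow hW0 hq
  have hWq : W ^ q ≤ |u| ^ q + |v| ^ q := max_rpow_le (abs_nonneg u) (abs_nonneg v)
  have hab2 : (a - b) ^ 2 ≤ 2 * u ^ 2 + 2 * v ^ 2 := by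
    rw [h]; nlinarith [sq_nonneg (u - v)]
  set A := |a| ^ (q - 2) with hA
  set B := |b| ^ (q - 2) with hB
  set V := W ^ (q - 2) with hV
  have hA0 : 0 ≤ A := Real.rpow_nonneg (abs_nonneg a) _
  have hB0 : 0 ≤ B := Real.rpow_nonneg (abs_nonneg b) _
  have hV0 : 0 ≤ V := Real.rpow_nonneg hW0 _
  have hu2 : u ^ 2 ≤ W ^ 2 := by rw [← sq_abs u]; exact pow_le_pow_left₀ (abs_nonneg _) hu 2
  have hv2 : v ^ 2 ≤ W ^ 2 := by rw [← sq_abs v]; exact pow_le_pow_left₀ (abs_nonneg _) hv 2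
  set F := (4 : ℝ) ^ (q - 2) with hF
  have hF0 : 0 < F := by positivity
  have hF4 : (4 : ℝ) ^ q = 16 * F := by
    rw [hF, Real.rpow_sub (by norm_num)]; norm_num; ring
  have huX : u ^ 2 * X ≤ F * (u ^ 2 * A + (|u| ^ q + |v| ^ q)) := by
    have s1 : u ^ 2 * X ≤ u ^ 2 * (F * (A + V)) := mul_le_mul_of_nonneg_left m1 (sq_nonneg u)
    have s2 : u ^ 2 * V ≤ W ^ 2 * V := mul_le_mul_of_nonneg_right hu2 hV0
    have s3 : u ^ 2 * V ≤ |u| ^ q + |v| ^ q := s2.trans (hW4.le.trans hWq)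
    calc u ^ 2 * X ≤ u ^ 2 * (F * (A + V)) := s1
      _ = F * (u ^ 2 * A + u ^ 2 * V) := by ring
      _ ≤ _ := mul_le_mul_of_nonneg_left (by linarith) hF0.le
  have hvX : v ^ 2 * X ≤ F * (v ^ 2 * B + (|u| ^ q + |v| ^ q)) := by
    have s1 : v ^ 2 * X ≤ v ^ 2 * (F * (B + V)) := mul_le_mul_of_nonneg_left m2 (sq_nonneg v)
    have s2 : v ^ 2 * V ≤ W ^ 2 * V := mul_le_mul_of_nonneg_right hv2 hV0
    have s3 : v ^ 2 * V ≤ |u| ^ q + |v| ^ q := s2.trans (hW4.le.trans hWq)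
    calc v ^ 2 * X ≤ v ^ 2 * (F * (B + V)) := s1
      _ = F * (v ^ 2 * B + v ^ 2 * V) := by ring
      _ ≤ _ := mul_le_mul_of_nonneg_left (by linarith) hF0.le
  have hU0 : 0 ≤ |u| ^ q := Real.rpow_nonneg (abs_nonneg _) _
  have hV1 : 0 ≤ |v| ^ q := Real.rpow_nonneg (abs_nonneg _) _
  have hfin : (a - b) ^ 2 * X ≤ 4 * F * (u ^ 2 * A + v ^ 2 * B + |u| ^ q + |v| ^ q) := by
    have s3 : (a - b) ^ 2 * X ≤ (2 * u ^ 2 + 2 * v ^ 2) * X :=
      mul_le_mul_of_nonneg_right hab2 hX0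
    have s4 : 0 ≤ F * (u ^ 2 * A) := by positivity
    have s5 : 0 ≤ F * (v ^ 2 * B) := by positivity
    have s6 : 4 * F * (u ^ 2 * A + v ^ 2 * B + |u| ^ q + |v| ^ q) =
        2 * (F * (u ^ 2 * A + (|u| ^ q + |v| ^ q))) + 2 * (F * (v ^ 2 * B + (|u| ^ q + |v| ^ q)))
          + 2 * (F * (u ^ 2 * A)) + 2 * (F * (v ^ 2 * B)) := by ring
    have s7 : (2 * u ^ 2 + 2 * v ^ 2) * X = 2 * (u ^ 2 * X) + 2 * (v ^ 2 * X) := by ring
    rw [s6]; rw [s7] at s3
    linarith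
  rw [hF4]
  have hT0 : 0 ≤ u ^ 2 * A + v ^ 2 * B + |u| ^ q + |v| ^ q := by positivity
  calc (M (q / 2) a - M (q / 2) b) ^ 2 ≤ (q / 2) ^ 2 * (a - b) ^ 2 * X := hsq
    _ = (q / 2) ^ 2 * ((a - b) ^ 2 * X) := by ring
    _ ≤ (q / 2) ^ 2 * (4 * F * (u ^ 2 * A + v ^ 2 * B + |u| ^ q + |v| ^ q)) :=
        mul_le_mul_of_nonneg_left hfin (by positivity)
    _ ≤ q ^ 2 * (16 * F) * (u ^ 2 * A + v ^ 2 * B + |u| ^ q + |v| ^ q) := by
        have h9 : 0 ≤ q ^ 2 * F * (u ^ 2 * A + v ^ 2 * B + |u| ^ q + |v| ^ q) := by positivity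
        have h10 : (q / 2) ^ 2 * (4 * F * (u ^ 2 * A + v ^ 2 * B + |u| ^ q + |v| ^ q)) =
          q ^ 2 * F * (u ^ 2 * A + v ^ 2 * B + |u| ^ q + |v| ^ q) := by ring
        have h11 : q ^ 2 * (16 * F) * (u ^ 2 * A + v ^ 2 * B + |u| ^ q + |v| ^ q) =
          16 * (q ^ 2 * F * (u ^ 2 * A + v ^ 2 * B + |u| ^ q + |v| ^ q)) := by ring
        rw [h10, h11]
        linarith

/-- Young's inequality in the form used. -/
lemma young {q S X R : ℝ} (hq : 2 < q) (hS : 0 ≤ S) (hX : 0 ≤ X) (hR : 0 < R) :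
    S ^ 2 * X ^ (q - 2) ≤ R ^ (q - 2) * S ^ q + (R ^ 2)⁻¹ * X ^ q := by
  rcases le_total (R * S) X with h | h
  · have h1 : S ^ 2 ≤ (R ^ 2)⁻¹ * X ^ 2 := by
      rw [inv_mul_eq_div, le_div_iff₀ (by positivity)]
      have := pow_le_pow_left₀ (by positivity) h 2
      nlinarith
    have h2 : S ^ 2 * X ^ (q - 2) ≤ (R ^ 2)⁻¹ * X ^ 2 * X ^ (q - 2) :=
      mul_le_mul_of_nonneg_right h1 (Real.rpow_nonneg hX _)
    rw [mul_assoc, sq_mul_rpow hX hq] at h2
    have h3 : 0 ≤ R ^ (q - 2) * S ^ q := by positivity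
    linarith
  · have h1 : X ^ (q - 2) ≤ (R * S) ^ (q - 2) := Real.rpow_le_rpow hX h (by linarith)
    rw [Real.mul_rpow hR.le hS] at h1
    have h2 : S ^ 2 * X ^ (q - 2) ≤ S ^ 2 * (R ^ (q - 2) * S ^ (q - 2)) :=
      mul_le_mul_of_nonneg_left h1 (sq_nonneg S)
    have h3 : S ^ 2 * (R ^ (q - 2) * S ^ (q - 2)) = R ^ (q - 2) * S ^ q := by
      rw [← sq_mul_rpow hS hq]; ring
    have h4 : 0 ≤ (R ^ 2)⁻¹ * X ^ q := by positivity
    linarith

/-- three term triangle inequality. -/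
lemma three_rpow {q a b c : ℝ} (hq : 0 ≤ q) :
    |a + b + c| ^ q ≤ 3 ^ q * (|a| ^ q + |b| ^ q + |c| ^ q) := by
  set m := max (max |a| |b|) |c| with hm
  have hm0 : 0 ≤ m := le_max_of_le_right (abs_nonneg c)
  have h1 : |a + b + c| ≤ 3 * m := by
    have := abs_add_three a b c
    have i1 : |a| ≤ m := le_max_of_le_left (le_max_left _ _)
    have i2 : |b| ≤ m := le_max_of_le_left (le_max_right _ _)
    have i3 : |c| ≤ m := le_max_right _ _
    linarith
  have h2 : m ^ q ≤ |a| ^ q + |b| ^ q + |c| ^ q := by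
    have j1 := max_rpow_le (e := q) (le_max_of_le_left (abs_nonneg a) : 0 ≤ max |a| |b|)
      (abs_nonneg c)
    have j2 := max_rpow_le (e := q) (abs_nonneg a) (abs_nonneg b)
    linarith
  calc |a + b + c| ^ q ≤ (3 * m) ^ q := Real.rpow_le_rpow (abs_nonneg _) h1 hq
    _ = 3 ^ q * m ^ q := Real.mul_rpow (by norm_num) hm0
    _ ≤ _ := mul_le_mul_of_nonneg_left h2 (by positivity)

end Pool.Agent.Helper841.Snow
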