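import Mathlib
import Pool.Agent.Helper841.Snow1

set_option autoImplicit false

/-!
Averages over the sign cube and the main inequality on a finite abelian group.
-/

namespace Pool.Agent.Helper841.Snow

open Finset

variable {ι : Type} [Fintype ι] [DecidableEq ι] {G : Type} [AddCommGroup G] [Fintype G]

/-- average over the sign cube. -/
noncomputable def av (h : (ι → ℤˣ) → ℝ) : ℝ := ∑ δ, (Fintype.card (ι → ℤˣ) : ℝ)⁻¹ * h δ

lemma card_pos' : (0 : ℝ) < (Fintype.card (ι → ℤˣ) : ℝ) := by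
  exact_mod_cast Fintype.card_pos

lemma av_congr {h h' : (ι → ℤˣ) → ℝ} (H : ∀ δ, h δ = h' δ) : av h = av h' := by
  unfold av; exact Finset.sum_congr rfl fun δ _ => by rw [H]

lemma av_add (h h' : (ι → ℤˣ) → ℝ) : av (fun δ => h δ + h' δ) = av h + av h' := by
  unfold av; rw [← Finset.sum_add_distrib]
  exact Finset.sum_congr rfl fun δ _ => by ring

lemma av_sub (h h' : (ι → ℤˣ) → ℝ) : av (fun δ => h δ - h' δ) = av h - av h' := by
  unfold av; rw [← Finset.sum_sub_distrib]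
  exact Finset.sum_congr rfl fun δ _ => by ring

lemma av_mul (c : ℝ) (h : (ι → ℤˣ) → ℝ) : av (fun δ => c * h δ) = c * av h := by
  unfold av; rw [Finset.mul_sum]
  exact Finset.sum_congr rfl fun δ _ => by ring

lemma av_const (c : ℝ) : av (fun _ : ι → ℤˣ => c) = c := by
  unfold av
  rw [Finset.sum_const, Finset.card_univ, nsmul_eq_mul, ← mul_assoc,
    mul_inv_cancel₀ (card_pos' (ι := ι)).ne', one_mul]

lemma av_mono {h h' : (ι → ℤˣ) → ℝ} (H : ∀ δ, h δ ≤ h' δ) : av h ≤ av h' := by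
  unfold av
  exact Finset.sum_le_sum fun δ _ =>
    mul_le_mul_of_nonneg_left (H δ) (inv_nonneg.2 (card_pos' (ι := ι)).le)

lemma av_nonneg {h : (ι → ℤˣ) → ℝ} (H : ∀ δ, 0 ≤ h δ) : 0 ≤ av h := by
  unfold av
  exact Finset.sum_nonneg fun δ _ => mul_nonneg (inv_nonneg.2 (card_pos' (ι := ι)).le) (H δ)

lemma av_sum {κ : Type} (s : Finset κ) (h : κ → (ι → ℤˣ) → ℝ) :
    av (fun δ => ∑ i ∈ s, h i δ) = ∑ i ∈ s, av (h i) := by
  unfold av
  rw [Finset.sum_comm]
  exact Finset.sum_congr rfl fun δ _ => by rw [Finset.mul_sum]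

lemma sum_av {κ : Type} (s : Finset κ) (h : κ → (ι → ℤˣ) → ℝ) :
    ∑ i ∈ s, av (h i) = av (fun δ => ∑ i ∈ s, h i δ) := (av_sum s h).symm

lemma jensen {p : ℝ} (hp : 1 ≤ p) {h : (ι → ℤˣ) → ℝ} (H : ∀ δ, 0 ≤ h δ) :
    (av h) ^ p ≤ av (fun δ => h δ ^ p) := by
  unfold av
  apply Real.rpow_arith_mean_le_arith_mean_rpow
  · intro i _; exact inv_nonneg.2 (card_pos' (ι := ι)).le
  · rw [Finset.sum_const, Finset.card_univ, nsmul_eq_mul,
      mul_inv_cancel₀ (card_pos' (ι := ι)).ne']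
  · intro i _; exact H i
  · exact hp

lemma abs_av_le (h : (ι → ℤˣ) → ℝ) : |av h| ≤ av (fun δ => |h δ|) := by
  unfold av
  refine (Finset.abs_sum_le_sum_abs _ _).trans (le_of_eq ?_)
  exact Finset.sum_congr rfl fun δ _ => by
    rw [abs_mul, abs_of_nonneg (inv_nonneg.2 (card_pos' (ι := ι)).le)]

lemma jensen_abs {p : ℝ} (hp : 1 ≤ p) (h : (ι → ℤˣ) → ℝ) :
    |av h| ^ p ≤ av (fun δ => |h δ| ^ p) :=
  (Real.rpow_le_rpow (abs_nonneg _) (abs_av_le h) (by linarith)).trans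
    (jensen hp fun δ => abs_nonneg _)

/-- the element flipping the sign of coordinate `j`. -/
def fl (j : ι) : ι → ℤˣ := Pi.mulSingle j (-1)

lemma fl_same (j : ι) (δ : ι → ℤˣ) : (fl j * δ) j = - δ j := by
  simp [fl]

lemma fl_ne {i j : ι} (h : i ≠ j) (δ : ι → ℤˣ) : (fl j * δ) i = δ i := by
  simp [fl, Pi.mulSingle_eq_of_ne h]

lemma av_flip (j : ι) (h : (ι → ℤˣ) → ℝ) : av (fun δ => h (fl j * δ)) = av h := by
  unfold av
  exact Equiv.sum_comp (Equiv.mulLeft (fl j)) (fun δ => (Fintype.card (ι → ℤˣ) : ℝ)⁻¹ * h δ)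

/-- the real sign. -/
def sgn (δ : ι → ℤˣ) (j : ι) : ℝ := ((δ j : ℤ) : ℝ)

lemma sgn_cases (δ : ι → ℤˣ) (j : ι) :
    (δ j = 1 ∧ sgn δ j = 1) ∨ (δ j = -1 ∧ sgn δ j = -1) := by
  rcases Int.units_eq_one_or (δ j) with h | h
  · left; exact ⟨h, by simp [sgn, h]⟩
  · right; exact ⟨h, by simp [sgn, h]⟩

lemma sgn_sq (δ : ι → ℤˣ) (j : ι) : sgn δ j * sgn δ j = 1 := by
  rcases sgn_cases δ j with ⟨_, h⟩ | ⟨_, h⟩ <;> rw [h] <;> norm_num

lemma sgn_flip_same (j : ι) (δ : ι → ℤˣ) : sgn (fl j * δ) j = - sgn δ j := by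
  unfold sgn; rw [fl_same]; push_cast; ring

lemma sgn_flip_ne {i j : ι} (h : i ≠ j) (δ : ι → ℤˣ) : sgn (fl j * δ) i = sgn δ i := by
  unfold sgn; rw [fl_ne h]

lemma av_sgn (j : ι) : av (fun δ => sgn δ j) = 0 := by
  have h := av_flip j (fun δ => sgn δ j)
  have h2 : av (fun δ : ι → ℤˣ => sgn (fl j * δ) j) = - av (fun δ => sgn δ j) := by
    rw [av_congr (fun δ => sgn_flip_same j δ)]
    have := av_mul (-1) (fun δ : ι → ℤˣ => sgn δ j)
    rw [← neg_one_mul (av _), ← this]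
    exact av_congr fun δ => by ring
  linarith

lemma av_sgn_mul {i j : ι} (hij : i ≠ j) : av (fun δ => sgn δ i * sgn δ j) = 0 := by
  have h := av_flip j (fun δ => sgn δ i * sgn δ j)
  have h2 : av (fun δ : ι → ℤˣ => sgn (fl j * δ) i * sgn (fl j * δ) j)
      = - av (fun δ => sgn δ i * sgn δ j) := by
    have := av_mul (-1) (fun δ : ι → ℤˣ => sgn δ i * sgn δ j)
    rw [← neg_one_mul (av _), ← this]
    exact av_congr fun δ => by rw [sgn_flip_same, sgn_flip_ne hij]; ring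
  linarith

/-- Bessel's inequality on the sign cube. -/
lemma bessel (h : (ι → ℤˣ) → ℝ) :
    ∑ j, (av (fun δ => sgn δ j * h δ)) ^ 2 ≤ av (fun δ => h δ ^ 2) := by
  set c : ι → ℝ := fun j => av (fun δ => sgn δ j * h δ) with hc
  have h0 : 0 ≤ av (fun δ => (h δ - ∑ j, c j * sgn δ j) ^ 2) := av_nonneg fun δ => sq_nonneg _
  have h1 : av (fun δ => (h δ - ∑ j, c j * sgn δ j) ^ 2) =
      av (fun δ => h δ ^ 2) - ∑ j, c j ^ 2 := by
    have e1 : ∀ δ, (h δ - ∑ j, c j * sgn δ j) ^ 2 =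
        (h δ ^ 2 - ∑ j, 2 * c j * (sgn δ j * h δ)) +
          ∑ i, ∑ j, c i * c j * (sgn δ i * sgn δ j) := by
      intro δ
      have e2 : (∑ j, c j * sgn δ j) ^ 2 = ∑ i, ∑ j, c i * c j * (sgn δ i * sgn δ j) := by
        rw [sq, Finset.sum_mul_sum]
        exact Finset.sum_congr rfl fun i _ => Finset.sum_congr rfl fun j _ => by ring
      have e3 : ∑ j, 2 * c j * (sgn δ j * h δ) = 2 * h δ * ∑ j, c j * sgn δ j := by
        rw [Finset.mul_sum]; exact Finset.sum_congr rfl fun j _ => by ring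
      rw [← e2, e3]; ring
    rw [av_congr e1, av_add, av_sub, av_sum, av_sum]
    have e4 : ∑ j, av (fun δ => 2 * c j * (sgn δ j * h δ)) = ∑ j, 2 * c j ^ 2 :=
      Finset.sum_congr rfl fun j _ => by rw [av_mul]; simp only [hc]; ring
    have e5 : ∑ i, av (fun δ => ∑ j, c i * c j * (sgn δ i * sgn δ j)) = ∑ i, c i ^ 2 := by
      refine Finset.sum_congr rfl fun i _ => ?_
      rw [av_sum, Finset.sum_eq_single i]
      · rw [av_mul, av_congr (fun δ => sgn_sq δ i), av_const]; ring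
      · intro j _ hj; rw [av_mul, av_sgn_mul (Ne.symm hj)]; ring
      · intro h; exact absurd (Finset.mem_univ i) h
    rw [e4, e5, ← Finset.mul_sum]; ring
  linarith

/-- the signed sum. -/
def sg (e : ι → G) (δ : ι → ℤˣ) : G := ∑ i, (δ i : ℤ) • e i

omit [Fintype G] in
lemma sg_flip (e : ι → G) (j : ι) (δ : ι → ℤˣ) (hj : δ j = 1) :
    e j + sg e (fl j * δ) = - e j + sg e δ := by
  unfold sg
  rw [← Finset.add_sum_erase _ _ (Finset.mem_univ j),
    ← Finset.add_sum_erase (f := fun i => (δ i : ℤ) • e i) _ (Finset.mem_univ j)]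
  have h1 : ∑ x ∈ Finset.univ.erase j, ((fl j * δ) x : ℤ) • e x =
      ∑ x ∈ Finset.univ.erase j, (δ x : ℤ) • e x :=
    Finset.sum_congr rfl fun x hx => by rw [fl_ne (Finset.ne_of_mem_erase hx)]
  rw [h1, fl_same, hj]
  simp

/-- smoothing. -/
noncomputable def xi (e : ι → G) (g : G → ℝ) (x : G) : ℝ := av (fun δ => g (x + sg e δ))

/-- smoothed difference in direction `j`. -/
noncomputable def dd (e : ι → G) (j : ι) (g : G → ℝ) (x : G) : ℝ :=
  av (fun δ => sgn δ j * g (x + sg e δ))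

omit [Fintype G] in
lemma xi_diff (e : ι → G) (j : ι) (g : G → ℝ) (x : G) :
    xi e g (x + e j) - xi e g (x - e j) = dd e j g (x + e j) + dd e j g (x - e j) := by
  have key : av (fun δ => (1 - sgn δ j) * g (x + e j + sg e δ)) =
      av (fun δ => (1 + sgn δ j) * g (x - e j + sg e δ)) := by
    rw [← av_flip j (fun δ => (1 - sgn δ j) * g (x + e j + sg e δ))]
    refine av_congr fun δ => ?_
    rw [sgn_flip_same]
    rcases sgn_cases δ j with ⟨h1, h2⟩ | ⟨h1, h2⟩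
    · rw [h2, sub_neg_eq_add]
      congr 2
      rw [add_assoc, sg_flip e j δ h1, ← add_assoc, sub_eq_add_neg]
    · rw [h2]; simp
  have k1 : av (fun δ => (1 - sgn δ j) * g (x + e j + sg e δ)) =
      xi e g (x + e j) - dd e j g (x + e j) := by
    unfold xi dd; rw [← av_sub]; exact av_congr fun δ => by ring
  have k2 : av (fun δ => (1 + sgn δ j) * g (x - e j + sg e δ)) =
      xi e g (x - e j) + dd e j g (x - e j) := by
    unfold xi dd; rw [← av_add]; exact av_congr fun δ => by ring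
  rw [k1, k2] at key
  linarith

/-- the local energy. -/
noncomputable def TT (q : ℝ) (e : ι → G) (g : G → ℝ) (x : G) : ℝ :=
  av (fun δ => |g (x + sg e δ) - g x| ^ q)

omit [Fintype G] in
lemma TT_nonneg (q : ℝ) (e : ι → G) (g : G → ℝ) (x : G) : 0 ≤ TT q e g x :=
  av_nonneg fun δ => Real.rpow_nonneg (abs_nonneg _) _

omit [Fintype G] in
lemma bessel_dd {q : ℝ} (hq : 2 < q) (e : ι → G) (g : G → ℝ) (x : G) :
    ∑ j, (dd e j g x) ^ 2 ≤ ((TT q e g x) ^ (1 / q)) ^ 2 := by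
  have h1 : ∀ j, dd e j g x = av (fun δ => sgn δ j * (g (x + sg e δ) - g x)) := by
    intro j
    have : av (fun δ => sgn δ j * (g (x + sg e δ) - g x)) =
        dd e j g x - g x * av (fun δ : ι → ℤˣ => sgn δ j) := by
      unfold dd; rw [← av_mul, ← av_sub]; exact av_congr fun δ => by ring
    rw [this, av_sgn]; ring
  have h2 := bessel (fun δ => g (x + sg e δ) - g x)
  have h3 : (av (fun δ => (g (x + sg e δ) - g x) ^ 2)) ^ (q / 2) ≤ TT q e g x := by
    refine (jensen (by linarith) fun δ => sq_nonneg _).trans (le_of_eq ?_)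
    unfold TT
    refine av_congr fun δ => ?_
    rw [← sq_abs, ← Real.rpow_natCast, ← Real.rpow_mul (abs_nonneg _)]
    congr 1; push_cast; ring
  have h4 : 0 ≤ av (fun δ => (g (x + sg e δ) - g x) ^ 2) := av_nonneg fun δ => sq_nonneg _
  have h5 : av (fun δ => (g (x + sg e δ) - g x) ^ 2) ≤ ((TT q e g x) ^ (1 / q)) ^ 2 := by
    have h6 := Real.rpow_le_rpow (Real.rpow_nonneg h4 _) h3 (z := 2 / q) (by positivity)
    rw [← Real.rpow_mul h4, show q / 2 * (2 / q) = 1 by field_simp, Real.rpow_one] at h6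
    refine h6.trans (le_of_eq ?_)
    rw [← Real.rpow_natCast, ← Real.rpow_mul (TT_nonneg q e g x)]
    congr 1; push_cast; ring
  calc ∑ j, (dd e j g x) ^ 2 = ∑ j, (av (fun δ => sgn δ j * (g (x + sg e δ) - g x))) ^ 2 :=
        Finset.sum_congr rfl fun j _ => by rw [h1]
    _ ≤ _ := h2
    _ ≤ _ := h5

omit [Fintype G] in
lemma S_pow {q : ℝ} (hq : 2 < q) (e : ι → G) (g : G → ℝ) (x : G) :
    ((TT q e g x) ^ (1 / q)) ^ q = TT q e g x := by
  rw [← Real.rpow_mul (TT_nonneg q e g x), one_div, inv_mul_cancel₀ (by linarith), Real.rpow_one]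

omit [Fintype G] in
lemma sum_dd_pow {q : ℝ} (hq : 2 < q) (e : ι → G) (g : G → ℝ) (x : G) :
    ∑ j, |dd e j g x| ^ q ≤ TT q e g x := by
  set S := (TT q e g x) ^ (1 / q) with hS
  have hS0 : 0 ≤ S := Real.rpow_nonneg (TT_nonneg q e g x) _
  have hb := bessel_dd hq e g x
  rw [← hS] at hb
  have h1 : ∀ j, |dd e j g x| ≤ S := by
    intro j
    have : (dd e j g x) ^ 2 ≤ S ^ 2 :=
      (Finset.single_le_sum (f := fun j => (dd e j g x) ^ 2) (fun i _ => sq_nonneg _)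
        (Finset.mem_univ j)).trans hb
    exact abs_le_of_sq_le_sq this hS0
  calc ∑ j, |dd e j g x| ^ q ≤ ∑ j, (dd e j g x) ^ 2 * S ^ (q - 2) := by
        refine Finset.sum_le_sum fun j _ => ?_
        rw [← sq_mul_rpow (abs_nonneg _) hq, sq_abs]
        exact mul_le_mul_of_nonneg_left
          (Real.rpow_le_rpow (abs_nonneg _) (h1 j) (by linarith)) (sq_nonneg _)
    _ = (∑ j, (dd e j g x) ^ 2) * S ^ (q - 2) := by rw [Finset.sum_mul]
    _ ≤ S ^ 2 * S ^ (q - 2) := mul_le_mul_of_nonneg_right hb (Real.rpow_nonneg hS0 _)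
    _ = S ^ q := sq_mul_rpow hS0 hq
    _ = TT q e g x := S_pow hq e g x

omit [Fintype G] in
lemma sum_dd_sq_mul {q R : ℝ} (hq : 2 < q) (hR : 0 < R) (e : ι → G) (g : G → ℝ) (x : G) :
    ∑ j, (dd e j g x) ^ 2 * |xi e g x| ^ (q - 2) ≤
      R ^ (q - 2) * TT q e g x + (R ^ 2)⁻¹ * |xi e g x| ^ q := by
  have hS0 : 0 ≤ (TT q e g x) ^ (1 / q) := Real.rpow_nonneg (TT_nonneg q e g x) _
  rw [← Finset.sum_mul]
  have h1 := mul_le_mul_of_nonneg_right (bessel_dd hq e g x)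
    (Real.rpow_nonneg (abs_nonneg (xi e g x)) (q - 2))
  have h2 := young hq hS0 (abs_nonneg (xi e g x)) hR
  rw [S_pow hq] at h2
  exact h1.trans h2

omit [Fintype G] in
lemma xi_sub_pow {q : ℝ} (hq : 2 < q) (e : ι → G) (g : G → ℝ) (x : G) :
    |xi e g x - g x| ^ q ≤ TT q e g x := by
  have h1 : xi e g x - g x = av (fun δ => g (x + sg e δ) - g x) := by
    rw [av_sub, av_const]; rfl
  rw [h1]
  exact jensen_abs (by linarith) _

lemma sum_shift (h : G → ℝ) (a : G) : ∑ x, h (x + a) = ∑ x, h x :=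
  Equiv.sum_comp (Equiv.addRight a) h

lemma sum_shift_sub (h : G → ℝ) (a : G) : ∑ x, h (x - a) = ∑ x, h x :=
  Equiv.sum_comp (Equiv.subRight a) h

lemma sum_xi_pow {q : ℝ} (hq : 2 < q) (e : ι → G) (g : G → ℝ) :
    ∑ x, |xi e g x| ^ q ≤ ∑ x, |g x| ^ q := by
  calc ∑ x, |xi e g x| ^ q ≤ ∑ x, av (fun δ => |g (x + sg e δ)| ^ q) :=
        Finset.sum_le_sum fun x _ => jensen_abs (by linarith) _
    _ = av (fun δ => ∑ x, |g (x + sg e δ)| ^ q) := sum_av _ _
    _ = av (fun _ : ι → ℤˣ => ∑ x, |g x| ^ q) :=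
        av_congr fun δ => sum_shift (fun x => |g x| ^ q) (sg e δ)
    _ = _ := av_const _

/-- telescoping. -/
lemma telescope (η : G → ℝ) (a : G) (r : ℕ) :
    ∑ x, (η (x + (2 * r) • a) - η x) ^ 2 ≤
      (r : ℝ) ^ 2 * ∑ x, (η (x + a) - η (x - a)) ^ 2 := by
  have h1 : ∀ x, (η (x + (2 * r) • a) - η x) ^ 2 ≤
      r * ∑ i ∈ Finset.range r, (η (x + (2 * (i + 1)) • a) - η (x + (2 * i) • a)) ^ 2 := by
    intro x
    have e1 : η (x + (2 * r) • a) - η x =
        ∑ i ∈ Finset.range r, (η (x + (2 * (i + 1)) • a) - η (x + (2 * i) • a)) := by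
      rw [Finset.sum_range_sub (fun i => η (x + (2 * i) • a)) r]; simp
    rw [e1]
    have := sq_sum_le_card_mul_sum_sq (s := Finset.range r)
      (f := fun i => η (x + (2 * (i + 1)) • a) - η (x + (2 * i) • a))
    simpa using this
  have h2 : ∀ i : ℕ, ∑ x, (η (x + (2 * (i + 1)) • a) - η (x + (2 * i) • a)) ^ 2 =
      ∑ x, (η (x + a) - η (x - a)) ^ 2 := by
    intro i
    rw [← sum_shift (fun x => (η (x + a) - η (x - a)) ^ 2) ((2 * i + 1) • a)]
    refine Finset.sum_congr rfl fun x _ => ?_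
    have e1 : x + (2 * (i + 1)) • a = x + (2 * i + 1) • a + a := by
      rw [add_assoc, ← succ_nsmul]; rfl
    have e2 : x + (2 * i) • a = x + (2 * i + 1) • a - a := by
      rw [succ_nsmul]; abel
    rw [e1, e2]
  calc ∑ x, (η (x + (2 * r) • a) - η x) ^ 2
      ≤ ∑ x, r * ∑ i ∈ Finset.range r,
          (η (x + (2 * (i + 1)) • a) - η (x + (2 * i) • a)) ^ 2 :=
        Finset.sum_le_sum fun x _ => h1 x
    _ = r * ∑ i ∈ Finset.range r, ∑ x,
          (η (x + (2 * (i + 1)) • a) - η (x + (2 * i) • a)) ^ 2 := by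
        rw [← Finset.mul_sum, Finset.sum_comm]
    _ = r * ∑ i ∈ Finset.range r, ∑ x, (η (x + a) - η (x - a)) ^ 2 := by
        rw [Finset.sum_congr rfl fun i _ => h2 i]
    _ = _ := by rw [Finset.sum_const, Finset.card_range, nsmul_eq_mul]; ring

/-- The constant of the main inequality. -/
noncomputable def KK (q : ℝ) : ℝ := 3 ^ q * (2 ^ q * (2 * (q ^ 2 * 4 ^ q)) + 2)

lemma mazur_energy {q R : ℝ} (hq : 2 < q) (hR : 0 < R) (e : ι → G) (g : G → ℝ) :
    ∑ j, ∑ x, (M (q / 2) (xi e g (x + e j)) - M (q / 2) (xi e g (x - e j))) ^ 2 ≤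
      2 * (q ^ 2 * 4 ^ q) * ((R ^ (q - 2) + 1) * ∑ x, TT q e g x + (R ^ 2)⁻¹ * ∑ x, |g x| ^ q) := by
  set C := q ^ 2 * (4 : ℝ) ^ q with hC
  have hC0 : 0 < C := by positivity
  have h1 : ∀ j, ∑ x, (M (q / 2) (xi e g (x + e j)) - M (q / 2) (xi e g (x - e j))) ^ 2 ≤
      C * (2 * ∑ x, ((dd e j g x) ^ 2 * |xi e g x| ^ (q - 2) + |dd e j g x| ^ q)) := by
    intro j
    have a1 : ∀ x, (M (q / 2) (xi e g (x + e j)) - M (q / 2) (xi e g (x - e j))) ^ 2 ≤
        C * (((dd e j g (x + e j)) ^ 2 * |xi e g (x + e j)| ^ (q - 2) + |dd e j g (x + e j)| ^ q) +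
          ((dd e j g (x - e j)) ^ 2 * |xi e g (x - e j)| ^ (q - 2) + |dd e j g (x - e j)| ^ q)) := by
      intro x
      have := key_local hq (xi_diff e j g x)
      refine this.trans (le_of_eq ?_)
      rw [hC]; ring
    refine (Finset.sum_le_sum fun x _ => a1 x).trans (le_of_eq ?_)
    rw [← Finset.mul_sum, Finset.sum_add_distrib,
      sum_shift (fun x => (dd e j g x) ^ 2 * |xi e g x| ^ (q - 2) + |dd e j g x| ^ q) (e j),
      sum_shift_sub (fun x => (dd e j g x) ^ 2 * |xi e g x| ^ (q - 2) + |dd e j g x| ^ q) (e j)]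
    ring
  have h2 : ∑ j, ∑ x, ((dd e j g x) ^ 2 * |xi e g x| ^ (q - 2) + |dd e j g x| ^ q) ≤
      ∑ x, ((R ^ (q - 2) + 1) * TT q e g x + (R ^ 2)⁻¹ * |xi e g x| ^ q) := by
    rw [Finset.sum_comm]
    refine Finset.sum_le_sum fun x _ => ?_
    rw [Finset.sum_add_distrib]
    have b1 := sum_dd_sq_mul hq hR e g x
    have b2 := sum_dd_pow hq e g x
    linarith
  have h3 := sum_xi_pow hq e g
  have hR2 : 0 ≤ (R ^ 2)⁻¹ := by positivity
  calc ∑ j, ∑ x, (M (q / 2) (xi e g (x + e j)) - M (q / 2) (xi e g (x - e j))) ^ 2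
      ≤ ∑ j, C * (2 * ∑ x, ((dd e j g x) ^ 2 * |xi e g x| ^ (q - 2) + |dd e j g x| ^ q)) :=
        Finset.sum_le_sum fun j _ => h1 j
    _ = C * (2 * ∑ j, ∑ x, ((dd e j g x) ^ 2 * |xi e g x| ^ (q - 2) + |dd e j g x| ^ q)) := by
        rw [Finset.mul_sum, Finset.mul_sum]
    _ ≤ C * (2 * ∑ x, ((R ^ (q - 2) + 1) * TT q e g x + (R ^ 2)⁻¹ * |xi e g x| ^ q)) := by
        gcongr
    _ = 2 * C * ((R ^ (q - 2) + 1) * ∑ x, TT q e g x + (R ^ 2)⁻¹ * ∑ x, |xi e g x| ^ q) := by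
        rw [Finset.sum_add_distrib, ← Finset.mul_sum, ← Finset.mul_sum]; ring
    _ ≤ _ := by gcongr

/-- **The main inequality** for scalar functions on a finite abelian group. -/
theorem main_ineq {q R : ℝ} (hq : 2 < q) (hR : 0 < R) (e : ι → G) (g : G → ℝ) (r : ℕ) :
    ∑ j, ∑ x, |g (x + (2 * r) • e j) - g x| ^ q ≤
      KK q * (((r : ℝ) ^ 2 * (R ^ (q - 2) + 1) + Fintype.card ι) * ∑ x, TT q e g x +
        (r : ℝ) ^ 2 * (R ^ 2)⁻¹ * ∑ x, |g x| ^ q) := by
  set A := ∑ x, TT q e g x with hA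
  set B := ∑ x, |g x| ^ q with hB
  have hA0 : 0 ≤ A := Finset.sum_nonneg fun x _ => TT_nonneg q e g x
  have hB0 : 0 ≤ B := Finset.sum_nonneg fun x _ => Real.rpow_nonneg (abs_nonneg _) _
  set C := 2 * (q ^ 2 * (4 : ℝ) ^ q) with hC
  have hC0 : 0 < C := by positivity
  -- increments of the smoothed function
  have h1 : ∑ j, ∑ x, |xi e g (x + (2 * r) • e j) - xi e g x| ^ q ≤
      2 ^ q * ((r : ℝ) ^ 2 * (C * ((R ^ (q - 2) + 1) * A + (R ^ 2)⁻¹ * B))) := by
    calc ∑ j, ∑ x, |xi e g (x + (2 * r) • e j) - xi e g x| ^ q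
        ≤ ∑ j, ∑ x, 2 ^ q * (M (q / 2) (xi e g (x + (2 * r) • e j)) -
            M (q / 2) (xi e g x)) ^ 2 :=
          Finset.sum_le_sum fun j _ => Finset.sum_le_sum fun x _ => M_low_sq hq.le
      _ = 2 ^ q * ∑ j, ∑ x, (M (q / 2) (xi e g (x + (2 * r) • e j)) -
            M (q / 2) (xi e g x)) ^ 2 := by
          rw [Finset.mul_sum]
          exact Finset.sum_congr rfl fun j _ => by rw [Finset.mul_sum]
      _ ≤ 2 ^ q * ∑ j, ((r : ℝ) ^ 2 * ∑ x, (M (q / 2) (xi e g (x + e j)) -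
            M (q / 2) (xi e g (x - e j))) ^ 2) :=
          mul_le_mul_of_nonneg_left (Finset.sum_le_sum fun j _ =>
            telescope (fun x => M (q / 2) (xi e g x)) (e j) r) (by positivity)
      _ = 2 ^ q * ((r : ℝ) ^ 2 * ∑ j, ∑ x, (M (q / 2) (xi e g (x + e j)) -
            M (q / 2) (xi e g (x - e j))) ^ 2) := by rw [← Finset.mul_sum]
      _ ≤ _ := by
          have := mazur_energy hq hR e g
          gcongr
  have h2 : ∀ j x, |g (x + (2 * r) • e j) - g x| ^ q ≤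
      3 ^ q * (TT q e g (x + (2 * r) • e j) +
        |xi e g (x + (2 * r) • e j) - xi e g x| ^ q + TT q e g x) := by
    intro j x
    have e1 : g (x + (2 * r) • e j) - g x =
        (g (x + (2 * r) • e j) - xi e g (x + (2 * r) • e j)) +
          (xi e g (x + (2 * r) • e j) - xi e g x) + (xi e g x - g x) := by ring
    rw [e1]
    refine (three_rpow (by linarith)).trans ?_
    have c1 := xi_sub_pow hq e g (x + (2 * r) • e j)
    rw [abs_sub_comm] at c1
    have c2 := xi_sub_pow hq e g x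
    gcongr
  calc ∑ j, ∑ x, |g (x + (2 * r) • e j) - g x| ^ q
      ≤ ∑ j, ∑ x, 3 ^ q * (TT q e g (x + (2 * r) • e j) +
          |xi e g (x + (2 * r) • e j) - xi e g x| ^ q + TT q e g x) :=
        Finset.sum_le_sum fun j _ => Finset.sum_le_sum fun x _ => h2 j x
    _ = 3 ^ q * ((Fintype.card ι : ℝ) * (2 * A) +
          ∑ j, ∑ x, |xi e g (x + (2 * r) • e j) - xi e g x| ^ q) := by
        have d1 : ∀ j, ∑ x, 3 ^ q * (TT q e g (x + (2 * r) • e j) +
            |xi e g (x + (2 * r) • e j) - xi e g x| ^ q + TT q e g x) =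
            3 ^ q * (2 * A + ∑ x, |xi e g (x + (2 * r) • e j) - xi e g x| ^ q) := by
          intro j
          rw [← Finset.mul_sum, Finset.sum_add_distrib, Finset.sum_add_distrib,
            sum_shift (fun x => TT q e g x) ((2 * r) • e j)]
          ring
        rw [Finset.sum_congr rfl fun j _ => d1 j, ← Finset.mul_sum, Finset.sum_add_distrib,
          Finset.sum_const, Finset.card_univ, nsmul_eq_mul]
    _ ≤ 3 ^ q * ((Fintype.card ι : ℝ) * (2 * A) +
          2 ^ q * ((r : ℝ) ^ 2 * (C * ((R ^ (q - 2) + 1) * A + (R ^ 2)⁻¹ * B)))) := by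
        gcongr
    _ ≤ _ := by
        have hn : (0 : ℝ) ≤ Fintype.card ι := by positivity
        have h2q : (0 : ℝ) ≤ 2 ^ q * C := by positivity
        have hY : 0 ≤ (r : ℝ) ^ 2 * ((R ^ (q - 2) + 1) * A + (R ^ 2)⁻¹ * B) := by positivity
        have e1 : KK q * (((r : ℝ) ^ 2 * (R ^ (q - 2) + 1) + Fintype.card ι) * A +
            (r : ℝ) ^ 2 * (R ^ 2)⁻¹ * B) =
            3 ^ q * ((2 ^ q * C + 2) * ((Fintype.card ι : ℝ) * A +
              (r : ℝ) ^ 2 * ((R ^ (q - 2) + 1) * A + (R ^ 2)⁻¹ * B))) := by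
          unfold KK; rw [hC]; ring
        rw [e1]
        apply mul_le_mul_of_nonneg_left _ (by positivity)
        have hnA : 0 ≤ (Fintype.card ι : ℝ) * A := by positivity
        have e2 : (2 ^ q * C + 2) * ((Fintype.card ι : ℝ) * A +
              (r : ℝ) ^ 2 * ((R ^ (q - 2) + 1) * A + (R ^ 2)⁻¹ * B)) =
            (2 ^ q * C) * ((Fintype.card ι : ℝ) * A) + 2 * ((Fintype.card ι : ℝ) * A) +
              2 ^ q * ((r : ℝ) ^ 2 * (C * ((R ^ (q - 2) + 1) * A + (R ^ 2)⁻¹ * B))) +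
              2 * ((r : ℝ) ^ 2 * ((R ^ (q - 2) + 1) * A + (R ^ 2)⁻¹ * B)) := by ring
        rw [e2]
        have h5 : 0 ≤ (2 ^ q * C) * ((Fintype.card ι : ℝ) * A) := mul_nonneg h2q hnA
        linarith

end Pool.Agent.Helper841.Snow
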