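import Mathlib
import Pool.Agent.Helper841.Snow2

set_option autoImplicit false

/-!
The main inequality for `L_q`-valued functions, and the numerical endgame.
-/

namespace Pool.Agent.Helper841.Snow

open Finset MeasureTheory

section Lp

variable {α : Type*} [MeasurableSpace α] {μ : Measure α} {q : ℝ}

lemma ofReal_ne_zero (hq : 2 < q) : ENNReal.ofReal q ≠ 0 := by
  rw [Ne, ENNReal.ofReal_eq_zero]; push Not; linarith

lemma lp_integrable (hq : 2 < q) (f : Lp ℝ (ENNReal.ofReal q) μ) :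
    Integrable (fun ω => |f ω| ^ q) μ := by
  have h := (Lp.memLp f).integrable_norm_rpow (ofReal_ne_zero hq) ENNReal.ofReal_ne_top
  rw [ENNReal.toReal_ofReal (by linarith)] at h
  simpa [Real.norm_eq_abs] using h

lemma lp_norm_pow (hq : 2 < q) (f : Lp ℝ (ENNReal.ofReal q) μ) :
    ‖f‖ ^ q = ∫ ω, |f ω| ^ q ∂μ := by
  have h0 : 0 ≤ ∫ ω, |f ω| ^ q ∂μ :=
    integral_nonneg fun ω => Real.rpow_nonneg (abs_nonneg _) _
  rw [Lp.norm_def, (Lp.memLp f).eLpNorm_eq_integral_rpow_norm (ofReal_ne_zero hq)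
    ENNReal.ofReal_ne_top, ENNReal.toReal_ofReal (by linarith : (0:ℝ) ≤ q)]
  simp only [Real.norm_eq_abs]
  rw [ENNReal.toReal_ofReal (Real.rpow_nonneg h0 _), ← Real.rpow_mul h0,
    inv_mul_cancel₀ (by linarith), Real.rpow_one]

lemma lp_sub_integrable (hq : 2 < q) (f g : Lp ℝ (ENNReal.ofReal q) μ) :
    Integrable (fun ω => |f ω - g ω| ^ q) μ := by
  refine (lp_integrable hq (f - g)).congr ?_
  filter_upwards [Lp.coeFn_sub f g] with ω h
  rw [h]; rfl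

lemma lp_sub_norm_pow (hq : 2 < q) (f g : Lp ℝ (ENNReal.ofReal q) μ) :
    ∫ ω, |f ω - g ω| ^ q ∂μ = ‖f - g‖ ^ q := by
  rw [lp_norm_pow hq]
  refine integral_congr_ae ?_
  filter_upwards [Lp.coeFn_sub f g] with ω h
  rw [h]; rfl

variable {ι : Type} [Fintype ι] [DecidableEq ι] {G : Type} [AddCommGroup G] [Fintype G]

/-- **The main inequality** for `L_q`-valued functions. -/
theorem lp_ineq {R : ℝ} (hq : 2 < q) (hR : 0 < R) (e : ι → G)
    (F : G → Lp ℝ (ENNReal.ofReal q) μ) (r : ℕ) :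
    ∑ j, ∑ x, ‖F (x + (2 * r) • e j) - F x‖ ^ q ≤
      KK q * (((r : ℝ) ^ 2 * (R ^ (q - 2) + 1) + Fintype.card ι) *
        ∑ x, av (fun δ => ‖F (x + sg e δ) - F x‖ ^ q) +
        (r : ℝ) ^ 2 * (R ^ 2)⁻¹ * ∑ x, ‖F x‖ ^ q) := by
  have hL : ∫ ω, ∑ j, ∑ x, |F (x + (2 * r) • e j) ω - F x ω| ^ q ∂μ =
      ∑ j, ∑ x, ‖F (x + (2 * r) • e j) - F x‖ ^ q := by
    rw [integral_finsetSum _ fun j _ => integrable_finsetSum _ fun x _ =>
      lp_sub_integrable hq _ _]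
    refine Finset.sum_congr rfl fun j _ => ?_
    rw [integral_finsetSum _ fun x _ => lp_sub_integrable hq _ _]
    exact Finset.sum_congr rfl fun x _ => lp_sub_norm_pow hq _ _
  have iT : ∀ x, Integrable (fun ω => TT q e (fun x => F x ω) x) μ := by
    intro x
    unfold TT av
    exact integrable_finsetSum _ fun δ _ => (lp_sub_integrable hq _ _).const_mul _
  have vT : ∀ x, ∫ ω, TT q e (fun x => F x ω) x ∂μ = av (fun δ => ‖F (x + sg e δ) - F x‖ ^ q) := by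
    intro x
    unfold TT av
    rw [integral_finsetSum _ fun δ _ => (lp_sub_integrable hq _ _).const_mul _]
    refine Finset.sum_congr rfl fun δ _ => ?_
    rw [integral_const_mul, lp_sub_norm_pow hq]
  have i1 : Integrable (fun ω => ∑ x, TT q e (fun x => F x ω) x) μ :=
    integrable_finsetSum _ fun x _ => iT x
  have i2 : Integrable (fun ω => ∑ x, |F x ω| ^ q) μ :=
    integrable_finsetSum _ fun x _ => lp_integrable hq _
  have hRi : ∫ ω, KK q * (((r : ℝ) ^ 2 * (R ^ (q - 2) + 1) + Fintype.card ι) *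
        ∑ x, TT q e (fun x => F x ω) x + (r : ℝ) ^ 2 * (R ^ 2)⁻¹ * ∑ x, |F x ω| ^ q) ∂μ =
      KK q * (((r : ℝ) ^ 2 * (R ^ (q - 2) + 1) + Fintype.card ι) *
        ∑ x, av (fun δ => ‖F (x + sg e δ) - F x‖ ^ q) +
        (r : ℝ) ^ 2 * (R ^ 2)⁻¹ * ∑ x, ‖F x‖ ^ q) := by
    rw [integral_const_mul, integral_add (i1.const_mul _) (i2.const_mul _), integral_const_mul,
      integral_const_mul, integral_finsetSum _ fun x _ => iT x,
      integral_finsetSum _ fun x _ => lp_integrable hq (F x),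
      Finset.sum_congr rfl fun x _ => vT x,
      Finset.sum_congr rfl fun x _ => (lp_norm_pow hq (F x)).symm]
  rw [← hL, ← hRi]
  refine integral_mono ?_ ?_ ?_
  · exact integrable_finsetSum _ fun j _ => integrable_finsetSum _ fun x _ =>
      lp_sub_integrable hq _ _
  · exact ((i1.const_mul _).add (i2.const_mul _)).const_mul _
  · intro ω
    exact main_ineq hq hR e (fun x => F x ω) r

end Lp

/-- The numerical endgame. -/
lemma endgame {q θ K : ℝ} (hq : 2 < q) (hθ0 : 0 < θ) (hθ : θ < 1) (hK : 0 < K) :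
    ∃ n k : ℕ, 0 < n ∧ 0 < k ∧
      K * ((((k : ℝ) ^ 2 * (((k : ℝ) ^ θ) ^ (q - 2) + 1) + n) * (n : ℝ) ^ θ) +
        (k : ℝ) ^ 2 * (((k : ℝ) ^ θ) ^ 2)⁻¹ * ((4 * (k : ℝ)) ^ (θ * q) * (n : ℝ) ^ θ)) <
      1 / 8 * n * (2 * (k : ℝ)) ^ (θ * q) := by
  set c : ℝ := 2 ^ (θ * q) / 8 with hc
  have hc0 : 0 < c := by positivity
  set C1 : ℝ := K * (2 + 4 ^ (θ * q)) with hC1
  have hC10 : 0 < C1 := by positivity
  -- choose `a`
  set a : ℝ := (c / (2 * K)) ^ (1 / θ) / 4 with ha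
  have ha0 : 0 < a := by positivity
  have haK : K * (2 * a) ^ θ < c / 2 := by
    have h1 : (2 * a) ^ θ < c / (2 * K) := by
      have h2 : 2 * a = (c / (2 * K)) ^ (1 / θ) * (1 / 2) := by rw [ha]; ring
      rw [h2, Real.mul_rpow (by positivity) (by norm_num), ← Real.rpow_mul (by positivity),
        one_div, inv_mul_cancel₀ hθ0.ne', Real.rpow_one]
      have h3 : ((2 : ℝ)⁻¹) ^ θ < 1 := Real.rpow_lt_one (by norm_num) (by norm_num) hθ0
      have h3' : ((1 : ℝ) / 2) ^ θ < 1 := by rwa [one_div]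
      have h4 : 0 < c / (2 * K) := by positivity
      nlinarith
    have h5 : K * (2 * a) ^ θ < K * (c / (2 * K)) := mul_lt_mul_of_pos_left h1 hK
    have h6 : K * (c / (2 * K)) = c / 2 := by field_simp
    linarith
  set γ : ℝ := (q - 2) * (1 - θ) with hγ
  have hγ0 : 0 < γ := mul_pos (by linarith) (by linarith)
  -- limits
  have l1 : Filter.Tendsto (fun k : ℕ => C1 * a ^ (θ - 1) * (k : ℝ) ^ (-γ)) Filter.atTop
      (nhds 0) := by
    have := ((tendsto_rpow_neg_atTop hγ0).comp tendsto_natCast_atTop_atTop).const_mul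
      (C1 * a ^ (θ - 1))
    simpa using this
  have l2 : Filter.Tendsto (fun k : ℕ => a * (k : ℝ) ^ q) Filter.atTop Filter.atTop :=
    ((tendsto_rpow_atTop (by linarith : 0 < q)).comp tendsto_natCast_atTop_atTop).const_mul_atTop
      ha0
  have ev := ((l1.eventually (gt_mem_nhds (by positivity : (0 : ℝ) < c / 2))).and
    (l2.eventually (Filter.eventually_ge_atTop 1))).and (Filter.eventually_ge_atTop 1)
  obtain ⟨k, ⟨hk1, hk2⟩, hk3⟩ := ev.exists
  have hkpos : (0 : ℝ) < k := by exact_mod_cast hk3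
  have hk1' : (1 : ℝ) ≤ k := by exact_mod_cast hk3
  set n : ℕ := ⌈a * (k : ℝ) ^ q⌉₊ with hn
  have hnl : a * (k : ℝ) ^ q ≤ n := Nat.le_ceil _
  have hnu : (n : ℝ) ≤ 2 * a * (k : ℝ) ^ q := by
    have := (Nat.ceil_lt_add_one (by positivity : 0 ≤ a * (k : ℝ) ^ q)).le
    rw [← hn] at this
    linarith
  have hn0 : (0 : ℝ) < n := lt_of_lt_of_le (by positivity) hnl
  refine ⟨n, k, by exact_mod_cast hn0, hk3, ?_⟩
  set P : ℝ := (k : ℝ) ^ (θ * q) with hP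
  have hP0 : 0 < P := by positivity
  set N : ℝ := (n : ℝ) ^ θ with hN
  have hN0 : 0 < N := by positivity
  -- rewriting the powers
  have w1 : (k : ℝ) ^ 2 * ((k : ℝ) ^ θ) ^ (q - 2) = (k : ℝ) ^ (2 + θ * (q - 2)) := by
    rw [← Real.rpow_natCast, ← Real.rpow_mul hkpos.le, ← Real.rpow_add hkpos]
    norm_num
  have w2 : (k : ℝ) ^ 2 * (((k : ℝ) ^ θ) ^ 2)⁻¹ * (4 * (k : ℝ)) ^ (θ * q) =
      4 ^ (θ * q) * (k : ℝ) ^ (2 + θ * (q - 2)) := by
    rw [Real.mul_rpow (by norm_num) hkpos.le, ← Real.rpow_natCast ((k : ℝ) ^ θ) 2,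
      ← Real.rpow_mul hkpos.le, ← Real.rpow_neg hkpos.le, ← Real.rpow_natCast (k : ℝ) 2]
    have : (k : ℝ) ^ (((2 : ℕ) : ℝ)) * (k : ℝ) ^ (-(θ * ((2 : ℕ) : ℝ))) * (k : ℝ) ^ (θ * q) =
        (k : ℝ) ^ (2 + θ * (q - 2)) := by
      rw [← Real.rpow_add hkpos, ← Real.rpow_add hkpos]
      congr 1; push_cast; ring
    rw [← this]; ring
  have w3 : (2 * (k : ℝ)) ^ (θ * q) = 2 ^ (θ * q) * P := Real.mul_rpow (by norm_num) hkpos.le
  set E : ℝ := (k : ℝ) ^ (2 + θ * (q - 2)) with hE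
  have hE0 : 0 < E := by positivity
  have w4 : (k : ℝ) ^ 2 ≤ E := by
    rw [← Real.rpow_natCast, hE]
    apply Real.rpow_le_rpow_of_exponent_le hk1'
    push_cast
    nlinarith
  -- first estimate
  have s1 : K * ((n : ℝ) * N) < c / 2 * (n : ℝ) * P := by
    have h1 : N ≤ (2 * a) ^ θ * P := by
      have : N ≤ (2 * a * (k : ℝ) ^ q) ^ θ := Real.rpow_le_rpow hn0.le hnu hθ0.le
      rw [Real.mul_rpow (by positivity) (by positivity), ← Real.rpow_mul hkpos.le,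
        mul_comm q θ] at this
      exact this
    have h2 : K * ((n : ℝ) * N) ≤ (K * (2 * a) ^ θ) * ((n : ℝ) * P) := by
      calc K * ((n : ℝ) * N) ≤ K * ((n : ℝ) * ((2 * a) ^ θ * P)) := by gcongr
        _ = _ := by ring
    have h3 : (K * (2 * a) ^ θ) * ((n : ℝ) * P) < c / 2 * ((n : ℝ) * P) :=
      mul_lt_mul_of_pos_right haK (by positivity)
    linarith
  -- second estimate
  have s2 : C1 * (E * N) < c / 2 * (n : ℝ) * P := by
    have h1 : N = (n : ℝ) * (n : ℝ) ^ (θ - 1) := by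
      rw [hN]; nth_rw 2 [← Real.rpow_one (n : ℝ)]
      rw [← Real.rpow_add hn0]; congr 1; ring
    have h2 : (n : ℝ) ^ (θ - 1) ≤ (a * (k : ℝ) ^ q) ^ (θ - 1) :=
      Real.rpow_le_rpow_of_nonpos (by positivity) hnl (by linarith)
    have h3 : E * (a * (k : ℝ) ^ q) ^ (θ - 1) = a ^ (θ - 1) * (k : ℝ) ^ (-γ) * P := by
      rw [Real.mul_rpow ha0.le (by positivity), ← Real.rpow_mul hkpos.le, hE, hP]
      have : (k : ℝ) ^ (2 + θ * (q - 2)) * (k : ℝ) ^ (q * (θ - 1)) =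
          (k : ℝ) ^ (-γ) * (k : ℝ) ^ (θ * q) := by
        rw [← Real.rpow_add hkpos, ← Real.rpow_add hkpos]
        congr 1; rw [hγ]; ring
      calc (k : ℝ) ^ (2 + θ * (q - 2)) * (a ^ (θ - 1) * (k : ℝ) ^ (q * (θ - 1)))
          = a ^ (θ - 1) * ((k : ℝ) ^ (2 + θ * (q - 2)) * (k : ℝ) ^ (q * (θ - 1))) := by ring
        _ = _ := by rw [this]; ring
    have h4 : C1 * (E * N) ≤ (C1 * a ^ (θ - 1) * (k : ℝ) ^ (-γ)) * ((n : ℝ) * P) := by
      calc C1 * (E * N) = C1 * (n : ℝ) * (E * (n : ℝ) ^ (θ - 1)) := by rw [h1]; ring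
        _ ≤ C1 * (n : ℝ) * (E * (a * (k : ℝ) ^ q) ^ (θ - 1)) := by gcongr
        _ = _ := by rw [h3]; ring
    have h5 : (C1 * a ^ (θ - 1) * (k : ℝ) ^ (-γ)) * ((n : ℝ) * P) < c / 2 * ((n : ℝ) * P) :=
      mul_lt_mul_of_pos_right hk1 (by positivity)
    linarith
  have t1 : K * ((((k : ℝ) ^ 2 * (((k : ℝ) ^ θ) ^ (q - 2) + 1) + n) * N) +
        (k : ℝ) ^ 2 * (((k : ℝ) ^ θ) ^ 2)⁻¹ * ((4 * (k : ℝ)) ^ (θ * q) * N)) =
      K * ((E + (k : ℝ) ^ 2 + n) * N + 4 ^ (θ * q) * E * N) := by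
    have e1 : (k : ℝ) ^ 2 * (((k : ℝ) ^ θ) ^ (q - 2) + 1) = E + (k : ℝ) ^ 2 := by
      rw [mul_add, w1]; ring
    have e2 : (k : ℝ) ^ 2 * (((k : ℝ) ^ θ) ^ 2)⁻¹ * ((4 * (k : ℝ)) ^ (θ * q) * N) =
        4 ^ (θ * q) * E * N := by
      rw [← mul_assoc, w2]
    rw [e1, e2]
  rw [t1, w3]
  have t2 : K * ((E + (k : ℝ) ^ 2 + n) * N + 4 ^ (θ * q) * E * N) ≤
      C1 * (E * N) + K * ((n : ℝ) * N) := by
    have : K * (((k : ℝ) ^ 2) * N) ≤ K * (E * N) := by gcongr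
    rw [hC1]
    nlinarith
  have t3 : 1 / 8 * (n : ℝ) * (2 ^ (θ * q) * P) = c * n * P := by rw [hc]; ring
  rw [t3]
  linarith

end Pool.Agent.Helper841.Snow
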