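import Mathlib
import Pool.Agent.Helper841.Snow3

set_option autoImplicit false

/-!
Embedding of `ℓ_q^n` into `L_q[0,1]`, folding of the discrete torus, and the final theorem.
-/

namespace Pool.Agent.Helper841.Snow

open Finset MeasureTheory

/-- Lebesgue measure on `[0,1]`. -/
noncomputable abbrev lam : Measure ℝ := volume.restrict (Set.Icc (0 : ℝ) 1)

section emb

variable {q : ℝ}

/-- the index of the interval of length `1/n` containing `t`. -/
noncomputable def idx (n : ℕ) (hn : 0 < n) (t : ℝ) : Fin n := ⟨⌊(n : ℝ) * t⌋₊ % n, Nat.mod_lt _ hn⟩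

lemma idx_meas (n : ℕ) (hn : 0 < n) : Measurable (idx n hn) := by
  have h : Measurable (fun k : ℕ => (⟨k % n, Nat.mod_lt _ hn⟩ : Fin n)) := measurable_from_nat
  exact h.comp (Nat.measurable_floor.comp (measurable_const.mul measurable_id))

/-- The step function with the values `n^(1/q) a_i`. -/
noncomputable def stepF (q : ℝ) (n : ℕ) (hn : 0 < n) (a : Fin n → ℝ) (t : ℝ) : ℝ :=
  (n : ℝ) ^ (1 / q) * a (idx n hn t)

lemma stepF_meas (n : ℕ) (hn : 0 < n) (a : Fin n → ℝ) : Measurable (stepF q n hn a) :=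
  measurable_const.mul ((measurable_of_finite a).comp (idx_meas n hn))

lemma stepF_memLp (n : ℕ) (hn : 0 < n) (a : Fin n → ℝ) :
    MemLp (stepF q n hn a) (ENNReal.ofReal q) lam := by
  refine MemLp.of_bound (stepF_meas n hn a).aestronglyMeasurable
    ((n : ℝ) ^ (1 / q) * ∑ i, |a i|) (Filter.Eventually.of_forall fun t => ?_)
  unfold stepF
  rw [Real.norm_eq_abs, abs_mul, abs_of_nonneg (by positivity : (0 : ℝ) ≤ (n : ℝ) ^ (1 / q))]
  exact mul_le_mul_of_nonneg_left
    (Finset.single_le_sum (f := fun i => |a i|) (fun i _ => abs_nonneg _) (Finset.mem_univ _))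
    (by positivity)

/-- The embedding of `ℓ_q^n` into `L_q[0,1]`. -/
noncomputable def uu (q : ℝ) (n : ℕ) (hn : 0 < n) (a : Fin n → ℝ) :
    Lp ℝ (ENNReal.ofReal q) lam := (stepF_memLp n hn a).toLp _

lemma uu_sub_ae (n : ℕ) (hn : 0 < n) (a b : Fin n → ℝ) :
    ∀ᵐ t ∂lam, (uu q n hn a - uu q n hn b) t =
      (n : ℝ) ^ (1 / q) * (a (idx n hn t) - b (idx n hn t)) := by
  filter_upwards [Lp.coeFn_sub (uu q n hn a) (uu q n hn b),
    (stepF_memLp (q := q) n hn a).coeFn_toLp, (stepF_memLp (q := q) n hn b).coeFn_toLp]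
    with t h1 h2 h3
  rw [h1, Pi.sub_apply]
  unfold uu
  rw [h2, h3]
  unfold stepF; ring

lemma lam_univ : lam Set.univ = 1 := by
  simp [lam]

lemma uu_upper (hq : 2 < q) (n : ℕ) (hn : 0 < n) (a b : Fin n → ℝ) {C : ℝ}
    (hC : ∀ i, |a i - b i| ≤ C) :
    ‖uu q n hn a - uu q n hn b‖ ≤ C * (n : ℝ) ^ (1 / q) := by
  have hC0 : 0 ≤ C := (abs_nonneg _).trans (hC ⟨0, hn⟩)
  have h := Lp.norm_le_of_ae_bound (f := uu q n hn a - uu q n hn b)
    (C := C * (n : ℝ) ^ (1 / q)) (by positivity) (by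
      filter_upwards [uu_sub_ae (q := q) n hn a b] with t ht
      rw [ht, Real.norm_eq_abs, abs_mul,
        abs_of_nonneg (by positivity : (0 : ℝ) ≤ (n : ℝ) ^ (1 / q)), mul_comm]
      exact mul_le_mul_of_nonneg_right (hC _) (by positivity))
  refine h.trans (le_of_eq ?_)
  have : measureUnivNNReal lam = 1 := by
    rw [measureUnivNNReal, lam_univ]; rfl
  rw [this]; simp

lemma uu_lower (hq : 2 < q) (n : ℕ) (hn : 0 < n) (a b : Fin n → ℝ) (j : Fin n) :
    |a j - b j| ≤ ‖uu q n hn a - uu q n hn b‖ := by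
  have hn0 : (0 : ℝ) < n := by exact_mod_cast hn
  have hq0 : 0 < q := by linarith
  have h1 := lp_norm_pow hq (uu q n hn a - uu q n hn b)
  set S : Set ℝ := Set.Ico ((j : ℝ) / n) (((j : ℝ) + 1) / n) with hS
  have hSI : S ⊆ Set.Icc 0 1 := by
    intro t ht
    rw [hS, Set.mem_Ico, div_le_iff₀ hn0, lt_div_iff₀ hn0] at ht
    have hj : ((j : ℕ) : ℝ) + 1 ≤ n := by exact_mod_cast j.2
    have hj0 : (0 : ℝ) ≤ ((j : ℕ) : ℝ) := by positivity
    constructor
    · by_contra hc; push Not at hc; nlinarith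
    · by_contra hc; push Not at hc; nlinarith
  have hidx : ∀ t ∈ S, idx n hn t = j := by
    intro t ht
    rw [hS, Set.mem_Ico, div_le_iff₀ hn0, lt_div_iff₀ hn0] at ht
    have hfl : ⌊(n : ℝ) * t⌋₊ = (j : ℕ) := by
      rw [Nat.floor_eq_iff (by
        have : (0 : ℝ) ≤ ((j : ℕ) : ℝ) := by positivity
        linarith [ht.1, mul_comm t (n : ℝ)])]
      constructor
      · linarith [ht.1, mul_comm t (n : ℝ)]
      · linarith [ht.2, mul_comm t (n : ℝ)]
    apply Fin.ext
    simp only [idx, hfl]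
    exact Nat.mod_eq_of_lt j.2
  have hint := lp_integrable hq (uu q n hn a - uu q n hn b)
  have h2 : ∫ t in S, |(uu q n hn a - uu q n hn b) t| ^ q ∂lam ≤
      ∫ t, |(uu q n hn a - uu q n hn b) t| ^ q ∂lam :=
    setIntegral_le_integral hint (Filter.Eventually.of_forall fun t =>
      Real.rpow_nonneg (abs_nonneg _) _)
  have hSm : MeasurableSet S := measurableSet_Ico
  have h3 : ∫ t in S, |(uu q n hn a - uu q n hn b) t| ^ q ∂lam =
      ∫ t in S, (n : ℝ) * |a j - b j| ^ q ∂lam := by
    refine integral_congr_ae ?_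
    have := ae_restrict_of_ae (s := S) (uu_sub_ae (q := q) n hn a b)
    filter_upwards [this, ae_restrict_mem hSm] with t ht hts
    rw [ht, hidx t hts, abs_mul, Real.mul_rpow (abs_nonneg _) (abs_nonneg _),
      abs_of_nonneg (by positivity : (0 : ℝ) ≤ (n : ℝ) ^ (1 / q)), ← Real.rpow_mul hn0.le,
      one_div, inv_mul_cancel₀ hq0.ne', Real.rpow_one]
  have h4 : (lam.restrict S).real Set.univ = 1 / n := by
    rw [measureReal_restrict_apply_univ, lam, measureReal_restrict_apply hSm,
      Set.inter_eq_left.2 hSI, hS, Real.volume_real_Ico_of_le (by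
        apply div_le_div_of_nonneg_right _ hn0.le; linarith)]
    field_simp
    ring
  have h5 : ∫ t in S, (n : ℝ) * |a j - b j| ^ q ∂lam = |a j - b j| ^ q := by
    rw [integral_const, h4, smul_eq_mul]; field_simp
  rw [h3, h5, ← h1] at h2
  have hnn : 0 ≤ ‖uu q n hn a - uu q n hn b‖ := by
    rw [Lp.norm_def]; exact ENNReal.toReal_nonneg
  exact (Real.rpow_le_rpow_iff (abs_nonneg _) hnn hq0).1 h2

end emb

section torus

/-- folding of the cyclic group. -/
def fold (k : ℕ) (a : ZMod (8 * k)) : ℝ := (a.valMinAbs.natAbs : ℝ)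

lemma fold_zero (k : ℕ) : fold k 0 = 0 := by
  simp [fold]

lemma fold_nonneg (k : ℕ) (a : ZMod (8 * k)) : 0 ≤ fold k a := by
  unfold fold; positivity

lemma fold_le (k : ℕ) (hk : 0 < k) (a : ZMod (8 * k)) : fold k a ≤ 4 * k := by
  have : NeZero (8 * k) := ⟨by omega⟩
  have h := ZMod.natAbs_valMinAbs_le a
  have h2 : 8 * k / 2 = 4 * k := by omega
  rw [h2] at h
  unfold fold; exact_mod_cast h

lemma fold_neg (k : ℕ) (a : ZMod (8 * k)) : fold k (-a) = fold k a := by
  unfold fold; rw [ZMod.natAbs_valMinAbs_neg]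

lemma fold_add (k : ℕ) (a b : ZMod (8 * k)) : fold k (a + b) ≤ fold k a + fold k b := by
  unfold fold
  have h1 := ZMod.natAbs_valMinAbs_add_le a b
  have h2 := Int.natAbs_add_le a.valMinAbs b.valMinAbs
  exact_mod_cast h1.trans h2

lemma fold_natCast (k i : ℕ) (h : i ≤ 4 * k) : fold k (i : ZMod (8 * k)) = i := by
  unfold fold
  rw [ZMod.valMinAbs_natCast_of_le_half (by omega)]
  simp

lemma fold_add_sub (k : ℕ) (a b : ZMod (8 * k)) : |fold k (a + b) - fold k a| ≤ fold k b := by
  rw [abs_le]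
  constructor
  · have := fold_add k (a + b) (-b)
    rw [add_neg_cancel_right, fold_neg] at this
    linarith
  · linarith [fold_add k a b]

lemma fold_unit (k : ℕ) (hk : 0 < k) (s : ℤˣ) : fold k (((s : ℤ) : ZMod (8 * k))) = 1 := by
  have h1 : fold k ((1 : ℕ) : ZMod (8 * k)) = ((1 : ℕ) : ℝ) := fold_natCast k 1 (by omega)
  rcases Int.units_eq_one_or s with h | h
  · rw [h]; simpa using h1
  · rw [h]
    have : (((-1 : ℤˣ) : ℤ) : ZMod (8 * k)) = - ((1 : ℕ) : ZMod (8 * k)) := by simp
    rw [this, fold_neg, h1]; simp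

/-- the good set of the coordinate `j`. -/
def good (n k : ℕ) (j : Fin n) [NeZero (8 * k)] : Finset (Fin n → ZMod (8 * k)) :=
  Fintype.piFinset (Function.update (fun _ => Finset.univ) j
    ((Finset.range k).image (fun i : ℕ => (i : ZMod (8 * k)))))

lemma good_card (n k : ℕ) (hk : 0 < k) (j : Fin n) [NeZero (8 * k)] :
    8 * (good n k j).card = Fintype.card (Fin n → ZMod (8 * k)) := by
  unfold good
  rw [Fintype.card_piFinset]
  have h1 : ((Finset.range k).image (fun i : ℕ => (i : ZMod (8 * k)))).card = k := by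
    rw [Finset.card_image_of_injOn, Finset.card_range]
    intro a ha b hb hab
    simp only [Finset.coe_range, Set.mem_Iio] at ha hb
    have := congrArg ZMod.val hab
    simp only at this
    rwa [ZMod.val_natCast_of_lt (by omega), ZMod.val_natCast_of_lt (by omega)] at this
  have h2 : ∀ i, (Function.update (fun _ => Finset.univ) j
      ((Finset.range k).image (fun i : ℕ => (i : ZMod (8 * k)))) i : Finset (ZMod (8 * k))).card =
      Function.update (fun _ : Fin n => 8 * k) j k i := by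
    intro i
    by_cases h : i = j
    · subst h; rw [Function.update_self, Function.update_self, h1]
    · rw [Function.update_of_ne h, Function.update_of_ne h, Finset.card_univ, ZMod.card]
  rw [Finset.prod_congr rfl fun i _ => h2 i, Finset.prod_update_of_mem (Finset.mem_univ j),
    Fintype.card_fun, ZMod.card, Fintype.card_fin]
  rw [Finset.prod_const, Finset.card_sdiff_of_subset (Finset.subset_univ _), Finset.card_univ,
    Fintype.card_fin, Finset.card_singleton]
  have hn : 0 < n := Fin.pos j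
  obtain ⟨m, rfl⟩ : ∃ m, n = m + 1 := ⟨n - 1, by omega⟩
  rw [Nat.add_sub_cancel, pow_succ]; ring

lemma good_mem (n k : ℕ) (j : Fin n) [NeZero (8 * k)] {x : Fin n → ZMod (8 * k)}
    (hx : x ∈ good n k j) : ∃ i < k, x j = (i : ZMod (8 * k)) := by
  unfold good at hx
  rw [Fintype.mem_piFinset] at hx
  have := hx j
  rw [Function.update_self, Finset.mem_image] at this
  obtain ⟨i, hi, h⟩ := this
  exact ⟨i, Finset.mem_range.1 hi, h.symm⟩

end torus

end Pool.Agent.Helper841.Snow
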