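import Mathlib
import Pool.Agent.Helper841.Snow2

set_option autoImplicit false

/-!
Cube version of the main inequality: biased noise on the sign cube.
-/

namespace Pool.Agent.Helper841.Snow

open Finset

variable {A : Type} [Fintype A] [DecidableEq A]

/-- the weight of a sign. -/
noncomputable def cw (p : ℝ) (s : ℤˣ) : ℝ := if s = 1 then 1 - p else p

lemma cw_nonneg {p : ℝ} (h0 : 0 < p) (h1 : p < 1) (s : ℤˣ) : 0 < cw p s := by
  unfold cw; split_ifs <;> linarith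

lemma cw_add (p : ℝ) (s : ℤˣ) : cw p s + cw p (-s) = 1 := by
  rcases Int.units_eq_one_or s with h | h
  · subst h
    have h2 : ¬ ((-1 : ℤˣ) = 1) := by decide
    simp only [cw, if_true, if_neg h2]; ring
  · subst h
    have h2 : ¬ ((-1 : ℤˣ) = 1) := by decide
    simp only [cw, neg_neg, if_true, if_neg h2]; ring

lemma cw_inv_add {p : ℝ} (h0 : 0 < p) (h1 : p < 1) (s : ℤˣ) :
    (cw p s)⁻¹ + (cw p (-s))⁻¹ = (p * (1 - p))⁻¹ := by
  have h3 : 1 - p ≠ 0 := by linarith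
  rcases Int.units_eq_one_or s with h | h
  · subst h
    have h2 : ¬ ((-1 : ℤˣ) = 1) := by decide
    simp only [cw, if_true, if_neg h2]; field_simp; ring
  · subst h
    have h2 : ¬ ((-1 : ℤˣ) = 1) := by decide
    simp only [cw, neg_neg, if_true, if_neg h2]; field_simp; ring

/-- the product weight. -/
noncomputable def ww (p : ℝ) (δ : A → ℤˣ) : ℝ := ∏ a, cw p (δ a)

/-- the product weight without the factor at `a`. -/
noncomputable def wr (p : ℝ) (a : A) (δ : A → ℤˣ) : ℝ := ∏ b ∈ Finset.univ.erase a, cw p (δ b)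

lemma ww_eq (p : ℝ) (a : A) (δ : A → ℤˣ) : ww p δ = cw p (δ a) * wr p a δ := by
  unfold ww wr
  rw [← Finset.mul_prod_erase _ _ (Finset.mem_univ a)]

lemma wr_flip (p : ℝ) (a : A) (δ : A → ℤˣ) : wr p a (fl a * δ) = wr p a δ := by
  unfold wr
  exact Finset.prod_congr rfl fun b hb => by rw [fl_ne (Finset.ne_of_mem_erase hb)]

lemma ww_pos {p : ℝ} (h0 : 0 < p) (h1 : p < 1) (δ : A → ℤˣ) : 0 < ww p δ :=
  Finset.prod_pos fun a _ => cw_nonneg h0 h1 _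

lemma wr_pos {p : ℝ} (h0 : 0 < p) (h1 : p < 1) (a : A) (δ : A → ℤˣ) : 0 < wr p a δ :=
  Finset.prod_pos fun a _ => cw_nonneg h0 h1 _

lemma sum_units (f : ℤˣ → ℝ) : ∑ s, f s = f 1 + f (-1) := by
  have : (Finset.univ : Finset ℤˣ) = {1, -1} := by decide
  rw [this, Finset.sum_pair (by decide)]

/-- Factorisation of product sums. -/
lemma sum_prod (f : A → ℤˣ → ℝ) : ∑ δ : A → ℤˣ, ∏ a, f a (δ a) = ∏ a, (f a 1 + f a (-1)) := by
  have h := Finset.prod_univ_sum (fun _ : A => (Finset.univ : Finset ℤˣ)) f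
  rw [Fintype.piFinset_univ] at h
  rw [← h]
  exact Finset.prod_congr rfl fun a _ => sum_units _

lemma sum_ww (p : ℝ) : ∑ δ : A → ℤˣ, ww p δ = 1 := by
  unfold ww
  rw [sum_prod (fun _ s => cw p s), cw_add p 1]
  simp

/-- biased average. -/
noncomputable def ev (p : ℝ) (h : (A → ℤˣ) → ℝ) : ℝ := ∑ δ, ww p δ * h δ

lemma sum_flip (a : A) (h : (A → ℤˣ) → ℝ) : ∑ δ, h (fl a * δ) = ∑ δ, h δ :=
  Equiv.sum_comp (Equiv.mulLeft (fl a)) h

lemma ev_add (p : ℝ) (h h' : (A → ℤˣ) → ℝ) : ev p (fun δ => h δ + h' δ) = ev p h + ev p h' := by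
  unfold ev; rw [← Finset.sum_add_distrib]
  exact Finset.sum_congr rfl fun δ _ => by ring

lemma ev_sub (p : ℝ) (h h' : (A → ℤˣ) → ℝ) : ev p (fun δ => h δ - h' δ) = ev p h - ev p h' := by
  unfold ev; rw [← Finset.sum_sub_distrib]
  exact Finset.sum_congr rfl fun δ _ => by ring

lemma ev_mul (p c : ℝ) (h : (A → ℤˣ) → ℝ) : ev p (fun δ => c * h δ) = c * ev p h := by
  unfold ev; rw [Finset.mul_sum]
  exact Finset.sum_congr rfl fun δ _ => by ring

lemma ev_const (p c : ℝ) : ev p (fun _ : A → ℤˣ => c) = c := by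
  unfold ev; rw [← Finset.sum_mul, sum_ww, one_mul]

lemma ev_congr {p : ℝ} {h h' : (A → ℤˣ) → ℝ} (H : ∀ δ, h δ = h' δ) : ev p h = ev p h' := by
  unfold ev; exact Finset.sum_congr rfl fun δ _ => by rw [H]

lemma ev_mono {p : ℝ} (h0 : 0 < p) (h1 : p < 1) {h h' : (A → ℤˣ) → ℝ} (H : ∀ δ, h δ ≤ h' δ) :
    ev p h ≤ ev p h' :=
  Finset.sum_le_sum fun δ _ => mul_le_mul_of_nonneg_left (H δ) (ww_pos h0 h1 δ).le

lemma ev_nonneg {p : ℝ} (h0 : 0 < p) (h1 : p < 1) {h : (A → ℤˣ) → ℝ} (H : ∀ δ, 0 ≤ h δ) :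
    0 ≤ ev p h :=
  Finset.sum_nonneg fun δ _ => mul_nonneg (ww_pos h0 h1 δ).le (H δ)

lemma ev_sum {κ : Type} (p : ℝ) (s : Finset κ) (h : κ → (A → ℤˣ) → ℝ) :
    ev p (fun δ => ∑ i ∈ s, h i δ) = ∑ i ∈ s, ev p (h i) := by
  unfold ev
  rw [Finset.sum_comm]
  exact Finset.sum_congr rfl fun δ _ => by rw [Finset.mul_sum]

lemma ev_jensen {p r : ℝ} (h0 : 0 < p) (h1 : p < 1) (hr : 1 ≤ r) {h : (A → ℤˣ) → ℝ}
    (H : ∀ δ, 0 ≤ h δ) : (ev p h) ^ r ≤ ev p (fun δ => h δ ^ r) := by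
  unfold ev
  apply Real.rpow_arith_mean_le_arith_mean_rpow
  · intro i _; exact (ww_pos h0 h1 i).le
  · exact sum_ww p
  · intro i _; exact H i
  · exact hr

lemma ev_abs {p : ℝ} (h0 : 0 < p) (h1 : p < 1) (h : (A → ℤˣ) → ℝ) :
    |ev p h| ≤ ev p (fun δ => |h δ|) := by
  unfold ev
  refine (Finset.abs_sum_le_sum_abs _ _).trans (le_of_eq ?_)
  exact Finset.sum_congr rfl fun δ _ => by rw [abs_mul, abs_of_pos (ww_pos h0 h1 δ)]

lemma ev_jensen_abs {p r : ℝ} (h0 : 0 < p) (h1 : p < 1) (hr : 1 ≤ r) (h : (A → ℤˣ) → ℝ) :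
    |ev p h| ^ r ≤ ev p (fun δ => |h δ| ^ r) :=
  (Real.rpow_le_rpow (abs_nonneg _) (ev_abs h0 h1 h) (by linarith)).trans
    (ev_jensen h0 h1 hr fun δ => abs_nonneg _)

/-- the score. -/
noncomputable def sc (p : ℝ) (a : A) (δ : A → ℤˣ) : ℝ := sgn δ a * (cw p (δ a))⁻¹

omit [Fintype A] [DecidableEq A] in
lemma sc_eq (p : ℝ) (a : A) (δ : A → ℤˣ) : sc p a δ = sgn δ a * (cw p (δ a))⁻¹ := rfl

lemma ww_sc {p : ℝ} (h0 : 0 < p) (h1 : p < 1) (a : A) (δ : A → ℤˣ) :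
    ww p δ * sc p a δ = sgn δ a * wr p a δ := by
  rw [ww_eq p a δ, sc]
  have := (cw_nonneg h0 h1 (δ a)).ne'
  field_simp

lemma ev_sc_mul_zero {p : ℝ} (h0 : 0 < p) (h1 : p < 1) (a : A) (φ : (A → ℤˣ) → ℝ)
    (hφ : ∀ δ, φ (fl a * δ) = φ δ) : ev p (fun δ => sc p a δ * φ δ) = 0 := by
  have e1 : ev p (fun δ => sc p a δ * φ δ) = ∑ δ, sgn δ a * wr p a δ * φ δ := by
    unfold ev
    exact Finset.sum_congr rfl fun δ _ => by rw [← mul_assoc, ww_sc h0 h1]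
  have e2 := sum_flip a (fun δ => sgn δ a * wr p a δ * φ δ)
  have e3 : ∑ δ : A → ℤˣ, sgn (fl a * δ) a * wr p a (fl a * δ) * φ (fl a * δ) =
      - ∑ δ, sgn δ a * wr p a δ * φ δ := by
    rw [← Finset.sum_neg_distrib]
    exact Finset.sum_congr rfl fun δ _ => by rw [sgn_flip_same, wr_flip, hφ]; ring
  rw [e1]; linarith

lemma sum_wr {p : ℝ} (a : A) : ∑ δ : A → ℤˣ, wr p a δ = 2 := by
  have e1 : ∀ δ : A → ℤˣ, wr p a δ = ww p δ + ww p (fl a * δ) := by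
    intro δ
    rw [ww_eq p a δ, ww_eq p a (fl a * δ), wr_flip, fl_same, ← add_mul, cw_add, one_mul]
  rw [Finset.sum_congr rfl fun δ _ => e1 δ, Finset.sum_add_distrib,
    sum_flip a (fun δ => ww p δ), sum_ww]
  norm_num

lemma ev_sc_sq {p : ℝ} (h0 : 0 < p) (h1 : p < 1) (a : A) :
    ev p (fun δ => sc p a δ * sc p a δ) = (p * (1 - p))⁻¹ := by
  have e1 : ev p (fun δ => sc p a δ * sc p a δ) = ∑ δ, wr p a δ * (cw p (δ a))⁻¹ := by
    unfold ev
    refine Finset.sum_congr rfl fun δ _ => ?_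
    rw [← mul_assoc, ww_sc h0 h1, sc]
    have := sgn_sq δ a
    calc sgn δ a * wr p a δ * (sgn δ a * (cw p (δ a))⁻¹)
        = (sgn δ a * sgn δ a) * (wr p a δ * (cw p (δ a))⁻¹) := by ring
      _ = _ := by rw [this, one_mul]
  have e2 := sum_flip a (fun δ => wr p a δ * (cw p (δ a))⁻¹)
  have e3 : ∑ δ : A → ℤˣ, wr p a (fl a * δ) * (cw p ((fl a * δ) a))⁻¹ =
      ∑ δ, wr p a δ * (cw p (-(δ a)))⁻¹ :=
    Finset.sum_congr rfl fun δ _ => by rw [wr_flip, fl_same]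
  have e4 : ∑ δ : A → ℤˣ, wr p a δ * (cw p (δ a))⁻¹ + ∑ δ, wr p a δ * (cw p (-(δ a)))⁻¹ =
      2 * (p * (1 - p))⁻¹ := by
    rw [← Finset.sum_add_distrib, ← sum_wr (p := p) a, Finset.sum_mul]
    exact Finset.sum_congr rfl fun δ _ => by rw [← mul_add, cw_inv_add h0 h1]
  rw [e1]; linarith

lemma sc_flip_ne {a b : A} (p : ℝ) (hab : b ≠ a) (δ : A → ℤˣ) : sc p b (fl a * δ) = sc p b δ := by
  unfold sc; rw [sgn_flip_ne hab, fl_ne hab]

/-- Bessel's inequality for the biased cube. -/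
lemma bessel_biased {p : ℝ} (h0 : 0 < p) (h1 : p < 1) (h : (A → ℤˣ) → ℝ) :
    ∑ a, (ev p (fun δ => sc p a δ * h δ)) ^ 2 ≤ (p * (1 - p))⁻¹ * ev p (fun δ => h δ ^ 2) := by
  set Λ := (p * (1 - p))⁻¹ with hΛ
  have hΛ0 : 0 < Λ := by
    rw [hΛ]; exact inv_pos.2 (mul_pos h0 (by linarith))
  set c : A → ℝ := fun a => ev p (fun δ => sc p a δ * h δ) with hc
  have hn : 0 ≤ ev p (fun δ => (h δ - ∑ a, Λ⁻¹ * c a * sc p a δ) ^ 2) :=
    ev_nonneg h0 h1 fun δ => sq_nonneg _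
  have e : ev p (fun δ => (h δ - ∑ a, Λ⁻¹ * c a * sc p a δ) ^ 2) =
      ev p (fun δ => h δ ^ 2) - Λ⁻¹ * ∑ a, c a ^ 2 := by
    have e1 : ∀ δ, (h δ - ∑ a, Λ⁻¹ * c a * sc p a δ) ^ 2 =
        (h δ ^ 2 - ∑ a, 2 * Λ⁻¹ * c a * (sc p a δ * h δ)) +
          ∑ a, ∑ b, (Λ⁻¹ * c a) * (Λ⁻¹ * c b) * (sc p a δ * sc p b δ) := by
      intro δ
      have e2 : (∑ a, Λ⁻¹ * c a * sc p a δ) ^ 2 =
          ∑ a, ∑ b, (Λ⁻¹ * c a) * (Λ⁻¹ * c b) * (sc p a δ * sc p b δ) := by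
        rw [sq, Finset.sum_mul_sum]
        exact Finset.sum_congr rfl fun i _ => Finset.sum_congr rfl fun j _ => by ring
      have e3 : ∑ a, 2 * Λ⁻¹ * c a * (sc p a δ * h δ) =
          2 * h δ * ∑ a, Λ⁻¹ * c a * sc p a δ := by
        rw [Finset.mul_sum]; exact Finset.sum_congr rfl fun j _ => by ring
      rw [← e2, e3]; ring
    rw [ev_congr e1, ev_add, ev_sub, ev_sum, ev_sum]
    have e4 : ∑ a, ev p (fun δ => 2 * Λ⁻¹ * c a * (sc p a δ * h δ)) = ∑ a, 2 * Λ⁻¹ * c a ^ 2 :=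
      Finset.sum_congr rfl fun j _ => by rw [ev_mul]; simp only [hc]; ring
    have e5 : ∑ a, ev p (fun δ => ∑ b, (Λ⁻¹ * c a) * (Λ⁻¹ * c b) * (sc p a δ * sc p b δ)) =
        ∑ a, Λ⁻¹ * c a ^ 2 := by
      refine Finset.sum_congr rfl fun a _ => ?_
      rw [ev_sum, Finset.sum_eq_single a]
      · rw [ev_mul, ev_sc_sq h0 h1, ← hΛ]
        field_simp
      · intro b _ hb
        rw [ev_mul, ev_sc_mul_zero h0 h1 a (fun δ => sc p b δ) (fun δ => sc_flip_ne p hb δ)]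
        ring
      · intro h; exact absurd (Finset.mem_univ a) h
    rw [e4, e5, ← Finset.mul_sum, ← Finset.mul_sum]; ring
  rw [e] at hn
  have h2 : Λ⁻¹ * ∑ a, c a ^ 2 ≤ ev p (fun δ => h δ ^ 2) := by linarith
  have h3 := mul_le_mul_of_nonneg_left h2 hΛ0.le
  rwa [← mul_assoc, mul_inv_cancel₀ hΛ0.ne', one_mul] at h3

/-- The noise operator. -/
noncomputable def TN (p : ℝ) (g : (A → ℤˣ) → ℝ) (x : A → ℤˣ) : ℝ := ev p (fun δ => g (δ * x))

/-- The one-slot difference. -/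
noncomputable def dn (p : ℝ) (a : A) (g : (A → ℤˣ) → ℝ) (x : A → ℤˣ) : ℝ :=
  TN p g x - TN p g (fl a * x)

lemma fl_mul_fl (a : A) (x : A → ℤˣ) : fl a * (fl a * x) = x := by
  rw [← mul_assoc]
  have : (fl a * fl a : A → ℤˣ) = 1 := by
    unfold fl; rw [← Pi.mulSingle_mul]; simp
  rw [this, one_mul]

lemma dn_flip (p : ℝ) (a : A) (g : (A → ℤˣ) → ℝ) (x : A → ℤˣ) :
    dn p a g (fl a * x) = - dn p a g x := by
  unfold dn; rw [fl_mul_fl]; ring

lemma dn_eq {p : ℝ} (h0 : 0 < p) (h1 : p < 1) (a : A) (g : (A → ℤˣ) → ℝ) (x : A → ℤˣ) :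
    dn p a g x = (1 - 2 * p) * ev p (fun δ => sc p a δ * g (δ * x)) := by
  have e1 : TN p g (fl a * x) = ∑ δ, ww p (fl a * δ) * g (δ * x) := by
    unfold TN ev
    rw [← sum_flip a (fun δ => ww p (fl a * δ) * g (δ * x))]
    refine Finset.sum_congr rfl fun δ _ => ?_
    rw [fl_mul_fl]
    have : δ * (fl a * x) = fl a * δ * x := by rw [← mul_assoc, mul_comm δ (fl a)]
    show ww p δ * g (δ * (fl a * x)) = ww p δ * g (fl a * δ * x)
    rw [this]
  have e2 : ev p (fun δ => sc p a δ * g (δ * x)) = ∑ δ, sgn δ a * wr p a δ * g (δ * x) := by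
    unfold ev
    exact Finset.sum_congr rfl fun δ _ => by rw [← mul_assoc, ww_sc h0 h1]
  rw [dn, e1, e2]
  unfold TN ev
  rw [← Finset.sum_sub_distrib, Finset.mul_sum]
  refine Finset.sum_congr rfl fun δ _ => ?_
  rw [← sub_mul]
  have : ww p δ - ww p (fl a * δ) = (1 - 2 * p) * (sgn δ a * wr p a δ) := by
    rw [ww_eq p a δ, ww_eq p a (fl a * δ), wr_flip, fl_same]
    have h2 : ¬ ((-1 : ℤˣ) = 1) := by decide
    rcases sgn_cases δ a with ⟨h, h'⟩ | ⟨h, h'⟩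
    · rw [h, h']; simp only [cw, if_true, if_neg h2]; ring
    · rw [h, h']; simp only [cw, neg_neg, if_true, if_neg h2]; ring
  rw [this]; ring

/-- the local energy. -/
noncomputable def TE (p q : ℝ) (g : (A → ℤˣ) → ℝ) (x : A → ℤˣ) : ℝ :=
  ev p (fun δ => |g (δ * x) - g x| ^ q)

lemma TE_nonneg {p q : ℝ} (h0 : 0 < p) (h1 : p < 1) (g : (A → ℤˣ) → ℝ) (x : A → ℤˣ) :
    0 ≤ TE p q g x := ev_nonneg h0 h1 fun δ => Real.rpow_nonneg (abs_nonneg _) _

lemma sum_dn_sq {p q : ℝ} (h0 : 0 < p) (h1 : p < 1) (hq : 2 < q) (g : (A → ℤˣ) → ℝ)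
    (x : A → ℤˣ) :
    ∑ a, (dn p a g x) ^ 2 ≤ (p * (1 - p))⁻¹ * ((TE p q g x) ^ (1 / q)) ^ 2 := by
  have hΛ0 : 0 < (p * (1 - p))⁻¹ := inv_pos.2 (mul_pos h0 (by linarith))
  have e1 : ∀ a, dn p a g x =
      (1 - 2 * p) * ev p (fun δ => sc p a δ * (g (δ * x) - g x)) := by
    intro a
    rw [dn_eq h0 h1]
    congr 1
    have z := ev_sc_mul_zero h0 h1 a (fun _ => g x) (fun _ => rfl)
    have : ev p (fun δ => sc p a δ * (g (δ * x) - g x)) =
        ev p (fun δ => sc p a δ * g (δ * x)) - ev p (fun δ => sc p a δ * g x) := by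
      rw [← ev_sub]; exact ev_congr fun δ => by ring
    rw [this, z]; ring
  have hb := bessel_biased h0 h1 (fun δ => g (δ * x) - g x)
  have h3 : (ev p (fun δ => (g (δ * x) - g x) ^ 2)) ^ (q / 2) ≤ TE p q g x := by
    refine (ev_jensen h0 h1 (by linarith) fun δ => sq_nonneg _).trans (le_of_eq ?_)
    unfold TE
    refine ev_congr fun δ => ?_
    rw [← sq_abs, ← Real.rpow_natCast, ← Real.rpow_mul (abs_nonneg _)]
    congr 1; push_cast; ring
  have h4 : 0 ≤ ev p (fun δ => (g (δ * x) - g x) ^ 2) := ev_nonneg h0 h1 fun δ => sq_nonneg _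
  have h5 : ev p (fun δ => (g (δ * x) - g x) ^ 2) ≤ ((TE p q g x) ^ (1 / q)) ^ 2 := by
    have h6 := Real.rpow_le_rpow (Real.rpow_nonneg h4 _) h3 (z := 2 / q) (by positivity)
    rw [← Real.rpow_mul h4, show q / 2 * (2 / q) = 1 by field_simp, Real.rpow_one] at h6
    refine h6.trans (le_of_eq ?_)
    rw [← Real.rpow_natCast, ← Real.rpow_mul (TE_nonneg h0 h1 g x)]
    congr 1; push_cast; ring
  have h7 : (1 - 2 * p) ^ 2 ≤ 1 := by nlinarith
  calc ∑ a, (dn p a g x) ^ 2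
      = (1 - 2 * p) ^ 2 * ∑ a, (ev p (fun δ => sc p a δ * (g (δ * x) - g x))) ^ 2 := by
        rw [Finset.mul_sum]
        exact Finset.sum_congr rfl fun a _ => by rw [e1]; ring
    _ ≤ 1 * ∑ a, (ev p (fun δ => sc p a δ * (g (δ * x) - g x))) ^ 2 :=
        mul_le_mul_of_nonneg_right h7 (Finset.sum_nonneg fun a _ => sq_nonneg _)
    _ ≤ (p * (1 - p))⁻¹ * ev p (fun δ => (g (δ * x) - g x) ^ 2) := by rw [one_mul]; exact hb
    _ ≤ _ := mul_le_mul_of_nonneg_left h5 hΛ0.le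

lemma TE_pow {p q : ℝ} (h0 : 0 < p) (h1 : p < 1) (hq : 2 < q) (g : (A → ℤˣ) → ℝ)
    (x : A → ℤˣ) : ((TE p q g x) ^ (1 / q)) ^ q = TE p q g x := by
  rw [← Real.rpow_mul (TE_nonneg h0 h1 g x), one_div, inv_mul_cancel₀ (by linarith),
    Real.rpow_one]

lemma sum_dn_young {p q R : ℝ} (h0 : 0 < p) (h1 : p < 1) (hq : 2 < q) (hR : 0 < R)
    (g : (A → ℤˣ) → ℝ) (x : A → ℤˣ) :
    ∑ a, (dn p a g x) ^ 2 * |TN p g x| ^ (q - 2) ≤
      (p * (1 - p))⁻¹ * (R ^ (q - 2) * TE p q g x + (R ^ 2)⁻¹ * |TN p g x| ^ q) := by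
  have hΛ0 : 0 < (p * (1 - p))⁻¹ := inv_pos.2 (mul_pos h0 (by linarith))
  rw [← Finset.sum_mul]
  have h3 := mul_le_mul_of_nonneg_right (sum_dn_sq h0 h1 hq g x)
    (Real.rpow_nonneg (abs_nonneg (TN p g x)) (q - 2))
  have h2 := young hq (Real.rpow_nonneg (TE_nonneg (q := q) h0 h1 g x) (1 / q))
    (abs_nonneg (TN p g x)) hR
  rw [TE_pow h0 h1 hq] at h2
  refine h3.trans ?_
  rw [mul_assoc]
  exact mul_le_mul_of_nonneg_left h2 hΛ0.le

lemma TN_sub_pow {p q : ℝ} (h0 : 0 < p) (h1 : p < 1) (hq : 2 < q) (g : (A → ℤˣ) → ℝ)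
    (x : A → ℤˣ) : |TN p g x - g x| ^ q ≤ TE p q g x := by
  have e1 : TN p g x - g x = ev p (fun δ => g (δ * x) - g x) := by
    rw [ev_sub, ev_const]; rfl
  rw [e1]
  exact ev_jensen_abs h0 h1 (by linarith) _

lemma sum_mul_left (h : (A → ℤˣ) → ℝ) (v : A → ℤˣ) : ∑ x, h (v * x) = ∑ x, h x :=
  Equiv.sum_comp (Equiv.mulLeft v) h

lemma sum_TN_pow {p q : ℝ} (h0 : 0 < p) (h1 : p < 1) (hq : 2 < q) (g : (A → ℤˣ) → ℝ) :
    ∑ x, |TN p g x| ^ q ≤ ∑ x, |g x| ^ q := by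
  calc ∑ x, |TN p g x| ^ q ≤ ∑ x, ev p (fun δ => |g (δ * x)| ^ q) :=
        Finset.sum_le_sum fun x _ => ev_jensen_abs h0 h1 (by linarith) _
    _ = ev p (fun δ => ∑ x, |g (δ * x)| ^ q) := (ev_sum p _ _).symm
    _ = ev p (fun _ : A → ℤˣ => ∑ x, |g x| ^ q) :=
        ev_congr fun δ => sum_mul_left (fun x => |g x| ^ q) δ
    _ = _ := ev_const p _

/-- flipping all slots of a finite set. -/
def flS (B : Finset A) : A → ℤˣ := fun a => if a ∈ B then -1 else 1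

lemma flS_insert {a : A} {B : Finset A} (h : a ∉ B) : flS (insert a B) = fl a * flS B := by
  funext b
  rw [Pi.mul_apply]
  unfold flS fl
  by_cases hb : b = a
  · subst hb; simp [h]
  · rw [Pi.mulSingle_eq_of_ne hb, one_mul]; simp [hb]

lemma flS_mul_flS (B : Finset A) (x : A → ℤˣ) : flS B * (flS B * x) = x := by
  rw [← mul_assoc]
  have : (flS B * flS B : A → ℤˣ) = 1 := by
    funext b; rw [Pi.mul_apply]; unfold flS; split_ifs <;> simp
  rw [this, one_mul]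

/-- Enflo's inequality. -/
lemma enflo (η : (A → ℤˣ) → ℝ) (B : Finset A) :
    ∑ x, (η (flS B * x) - η x) ^ 2 ≤ ∑ a ∈ B, ∑ x, (η (fl a * x) - η x) ^ 2 := by
  induction B using Finset.induction_on with
  | empty =>
    have : (flS (∅ : Finset A)) = 1 := by funext b; simp [flS]
    rw [this]; simp
  | insert a B ha ih =>
    rw [Finset.sum_insert ha, flS_insert ha]
    have q1 : ∀ x, (η (fl a * flS B * x) - η x) ^ 2 + (η (flS B * x) - η (fl a * x)) ^ 2 ≤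
        (η (flS B * x) - η x) ^ 2 + (η (fl a * flS B * x) - η (flS B * x)) ^ 2 +
        (η (fl a * flS B * x) - η (fl a * x)) ^ 2 + (η (fl a * x) - η x) ^ 2 := by
      intro x
      nlinarith [sq_nonneg (η (fl a * flS B * x) - η (flS B * x) - η (fl a * x) + η x)]
    have s := Finset.sum_le_sum fun x (_ : x ∈ (Finset.univ : Finset (A → ℤˣ))) => q1 x
    rw [Finset.sum_add_distrib, Finset.sum_add_distrib, Finset.sum_add_distrib,
      Finset.sum_add_distrib] at s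
    have t1 : ∑ x, (η (flS B * x) - η (fl a * x)) ^ 2 =
        ∑ x, (η (fl a * flS B * x) - η x) ^ 2 := by
      rw [← sum_mul_left (fun x => (η (flS B * x) - η (fl a * x)) ^ 2) (fl a)]
      refine Finset.sum_congr rfl fun x _ => ?_
      rw [fl_mul_fl, ← mul_assoc, mul_comm (flS B) (fl a)]
    have t2 : ∑ x, (η (fl a * flS B * x) - η (flS B * x)) ^ 2 =
        ∑ x, (η (fl a * x) - η x) ^ 2 := by
      rw [← sum_mul_left (fun x => (η (fl a * x) - η x) ^ 2) (flS B)]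
      exact Finset.sum_congr rfl fun x _ => by rw [← mul_assoc]
    have t3 : ∑ x, (η (fl a * flS B * x) - η (fl a * x)) ^ 2 =
        ∑ x, (η (flS B * x) - η x) ^ 2 := by
      rw [← sum_mul_left (fun x => (η (flS B * x) - η x) ^ 2) (fl a)]
      refine Finset.sum_congr rfl fun x _ => ?_
      rw [← mul_assoc, mul_comm (flS B) (fl a)]
    rw [t1, t2, t3] at s
    linarith

lemma mazur_pair {q a b : ℝ} (hq : 2 < q) :
    (M (q / 2) a - M (q / 2) b) ^ 2 ≤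
      q ^ 2 * ((a - b) ^ 2 * |a| ^ (q - 2) + (a - b) ^ 2 * |b| ^ (q - 2)) := by
  have hup := M_up (p := q / 2) (a := a) (b := b) (by linarith)
  set X := (max |a| |b|) ^ (q - 2) with hX
  have hX0 : 0 ≤ X := Real.rpow_nonneg (le_max_of_le_left (abs_nonneg a)) _
  have hsq : (M (q / 2) a - M (q / 2) b) ^ 2 ≤ (q / 2) ^ 2 * (a - b) ^ 2 * X := by
    have e : (q / 2) ^ 2 * (a - b) ^ 2 * X =
        (q / 2 * |a - b| * (max |a| |b|) ^ (q / 2 - 1)) ^ 2 := by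
      rw [mul_pow, mul_pow, sq_abs, hX]
      congr 1
      rw [← Real.rpow_natCast ((max |a| |b|) ^ (q / 2 - 1)) 2,
        ← Real.rpow_mul (le_max_of_le_left (abs_nonneg a))]
      congr 1; push_cast; ring
    rw [e, ← sq_abs (M (q / 2) a - M (q / 2) b)]
    exact pow_le_pow_left₀ (abs_nonneg _) hup 2
  have hXm : X ≤ |a| ^ (q - 2) + |b| ^ (q - 2) := max_rpow_le (abs_nonneg a) (abs_nonneg b)
  have h0 : 0 ≤ (q / 2) ^ 2 * (a - b) ^ 2 := by positivity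
  have h1 : 0 ≤ (a - b) ^ 2 * (|a| ^ (q - 2) + |b| ^ (q - 2)) := by positivity
  calc (M (q / 2) a - M (q / 2) b) ^ 2 ≤ (q / 2) ^ 2 * (a - b) ^ 2 * X := hsq
    _ ≤ (q / 2) ^ 2 * (a - b) ^ 2 * (|a| ^ (q - 2) + |b| ^ (q - 2)) :=
        mul_le_mul_of_nonneg_left hXm h0
    _ = (1 / 4) * (q ^ 2 * ((a - b) ^ 2 * (|a| ^ (q - 2) + |b| ^ (q - 2)))) := by ring
    _ ≤ q ^ 2 * ((a - b) ^ 2 * |a| ^ (q - 2) + (a - b) ^ 2 * |b| ^ (q - 2)) := by
        have : 0 ≤ q ^ 2 * ((a - b) ^ 2 * (|a| ^ (q - 2) + |b| ^ (q - 2))) := by positivity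
        nlinarith

/-- The constant. -/
noncomputable def KC (q : ℝ) : ℝ := 3 ^ q * (2 ^ q * (2 * q ^ 2) + 2)

/-- **Main inequality on the cube.**  The slots are pairs (block, level). -/
theorem cube_ineq {I J : Type} [Fintype I] [DecidableEq I] [Fintype J] [DecidableEq J]
    {p q R : ℝ} (h0 : 0 < p) (h1 : p < 1) (hq : 2 < q) (hR : 0 < R)
    (g : (J × I → ℤˣ) → ℝ) :
    ∑ j : J, ∑ x, |g (flS (Finset.univ.filter fun a : J × I => a.1 = j) * x) - g x| ^ q ≤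
      KC q * (((p * (1 - p))⁻¹ * R ^ (q - 2) + Fintype.card J) * ∑ x, TE p q g x +
        (p * (1 - p))⁻¹ * (R ^ 2)⁻¹ * ∑ x, |g x| ^ q) := by
  set Λ := (p * (1 - p))⁻¹ with hΛ
  have hΛ0 : 0 < Λ := by rw [hΛ]; exact inv_pos.2 (mul_pos h0 (by linarith))
  set E := ∑ x, TE p q g x with hE
  set N := ∑ x, |g x| ^ q with hN
  have hE0 : 0 ≤ E := Finset.sum_nonneg fun x _ => TE_nonneg h0 h1 g x
  have hN0 : 0 ≤ N := Finset.sum_nonneg fun x _ => Real.rpow_nonneg (abs_nonneg _) _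
  set Bl : J → Finset (J × I) := fun j => Finset.univ.filter fun a : J × I => a.1 = j with hBl
  -- the Mazur energy
  have m1 : ∑ a, ∑ x, (M (q / 2) (TN p g (fl a * x)) - M (q / 2) (TN p g x)) ^ 2 ≤
      2 * q ^ 2 * (Λ * (R ^ (q - 2) * E + (R ^ 2)⁻¹ * N)) := by
    have s1 : ∀ a, ∑ x, (M (q / 2) (TN p g (fl a * x)) - M (q / 2) (TN p g x)) ^ 2 ≤
        2 * q ^ 2 * ∑ x, (dn p a g x) ^ 2 * |TN p g x| ^ (q - 2) := by
      intro a
      have s2 : ∀ x, (M (q / 2) (TN p g (fl a * x)) - M (q / 2) (TN p g x)) ^ 2 ≤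
          q ^ 2 * ((dn p a g (fl a * x)) ^ 2 * |TN p g (fl a * x)| ^ (q - 2) +
            (dn p a g x) ^ 2 * |TN p g x| ^ (q - 2)) := by
        intro x
        have := mazur_pair (q := q) (a := TN p g (fl a * x)) (b := TN p g x) hq
        refine this.trans (le_of_eq ?_)
        rw [dn_flip]
        unfold dn; ring
      refine (Finset.sum_le_sum fun x _ => s2 x).trans (le_of_eq ?_)
      rw [← Finset.mul_sum, Finset.sum_add_distrib,
        sum_mul_left (fun x => (dn p a g x) ^ 2 * |TN p g x| ^ (q - 2)) (fl a)]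
      ring
    calc ∑ a, ∑ x, (M (q / 2) (TN p g (fl a * x)) - M (q / 2) (TN p g x)) ^ 2
        ≤ ∑ a, 2 * q ^ 2 * ∑ x, (dn p a g x) ^ 2 * |TN p g x| ^ (q - 2) :=
          Finset.sum_le_sum fun a _ => s1 a
      _ = 2 * q ^ 2 * ∑ x, ∑ a, (dn p a g x) ^ 2 * |TN p g x| ^ (q - 2) := by
          rw [← Finset.mul_sum, Finset.sum_comm]
      _ ≤ 2 * q ^ 2 * ∑ x, Λ * (R ^ (q - 2) * TE p q g x + (R ^ 2)⁻¹ * |TN p g x| ^ q) :=
          mul_le_mul_of_nonneg_left (Finset.sum_le_sum fun x _ => sum_dn_young h0 h1 hq hR g x)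
            (by positivity)
      _ = 2 * q ^ 2 * (Λ * (R ^ (q - 2) * E + (R ^ 2)⁻¹ * ∑ x, |TN p g x| ^ q)) := by
          rw [← Finset.mul_sum, Finset.sum_add_distrib, ← Finset.mul_sum, ← Finset.mul_sum]
      _ ≤ _ := by
          have := sum_TN_pow h0 h1 hq g
          gcongr
  -- block increments of the smoothed function
  have m2 : ∑ j, ∑ x, |TN p g (flS (Bl j) * x) - TN p g x| ^ q ≤
      2 ^ q * (2 * q ^ 2 * (Λ * (R ^ (q - 2) * E + (R ^ 2)⁻¹ * N))) := by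
    calc ∑ j, ∑ x, |TN p g (flS (Bl j) * x) - TN p g x| ^ q
        ≤ ∑ j, ∑ x, 2 ^ q * (M (q / 2) (TN p g (flS (Bl j) * x)) - M (q / 2) (TN p g x)) ^ 2 :=
          Finset.sum_le_sum fun j _ => Finset.sum_le_sum fun x _ => M_low_sq hq.le
      _ = 2 ^ q * ∑ j, ∑ x, (M (q / 2) (TN p g (flS (Bl j) * x)) - M (q / 2) (TN p g x)) ^ 2 := by
          rw [Finset.mul_sum]
          exact Finset.sum_congr rfl fun j _ => by rw [Finset.mul_sum]
      _ ≤ 2 ^ q * ∑ j, ∑ a ∈ Bl j, ∑ x,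
            (M (q / 2) (TN p g (fl a * x)) - M (q / 2) (TN p g x)) ^ 2 :=
          mul_le_mul_of_nonneg_left (Finset.sum_le_sum fun j _ =>
            enflo (fun x => M (q / 2) (TN p g x)) (Bl j)) (by positivity)
      _ = 2 ^ q * ∑ a, ∑ x, (M (q / 2) (TN p g (fl a * x)) - M (q / 2) (TN p g x)) ^ 2 := by
          congr 1
          exact Finset.sum_fiberwise (Finset.univ) (fun a : J × I => a.1)
            (fun a => ∑ x, (M (q / 2) (TN p g (fl a * x)) - M (q / 2) (TN p g x)) ^ 2)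
      _ ≤ _ := mul_le_mul_of_nonneg_left m1 (by positivity)
  have m3 : ∀ j x, |g (flS (Bl j) * x) - g x| ^ q ≤
      3 ^ q * (TE p q g (flS (Bl j) * x) + |TN p g (flS (Bl j) * x) - TN p g x| ^ q +
        TE p q g x) := by
    intro j x
    have e1 : g (flS (Bl j) * x) - g x =
        (g (flS (Bl j) * x) - TN p g (flS (Bl j) * x)) +
          (TN p g (flS (Bl j) * x) - TN p g x) + (TN p g x - g x) := by ring
    rw [e1]
    refine (three_rpow (by linarith)).trans ?_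
    have c1 := TN_sub_pow h0 h1 hq g (flS (Bl j) * x)
    rw [abs_sub_comm] at c1
    have c2 := TN_sub_pow h0 h1 hq g x
    gcongr
  calc ∑ j, ∑ x, |g (flS (Bl j) * x) - g x| ^ q
      ≤ ∑ j, ∑ x, 3 ^ q * (TE p q g (flS (Bl j) * x) +
          |TN p g (flS (Bl j) * x) - TN p g x| ^ q + TE p q g x) :=
        Finset.sum_le_sum fun j _ => Finset.sum_le_sum fun x _ => m3 j x
    _ = 3 ^ q * ((Fintype.card J : ℝ) * (2 * E) +
          ∑ j, ∑ x, |TN p g (flS (Bl j) * x) - TN p g x| ^ q) := by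
        have d1 : ∀ j, ∑ x, 3 ^ q * (TE p q g (flS (Bl j) * x) +
            |TN p g (flS (Bl j) * x) - TN p g x| ^ q + TE p q g x) =
            3 ^ q * (2 * E + ∑ x, |TN p g (flS (Bl j) * x) - TN p g x| ^ q) := by
          intro j
          rw [← Finset.mul_sum, Finset.sum_add_distrib, Finset.sum_add_distrib,
            sum_mul_left (fun x => TE p q g x) (flS (Bl j))]
          ring
        rw [Finset.sum_congr rfl fun j _ => d1 j, ← Finset.mul_sum, Finset.sum_add_distrib,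
          Finset.sum_const, Finset.card_univ, nsmul_eq_mul]
    _ ≤ 3 ^ q * ((Fintype.card J : ℝ) * (2 * E) +
          2 ^ q * (2 * q ^ 2 * (Λ * (R ^ (q - 2) * E + (R ^ 2)⁻¹ * N)))) := by
        gcongr
    _ ≤ _ := by
        have hn : (0 : ℝ) ≤ Fintype.card J := by positivity
        have e1 : KC q * ((Λ * R ^ (q - 2) + Fintype.card J) * E + Λ * (R ^ 2)⁻¹ * N) =
            3 ^ q * ((2 ^ q * (2 * q ^ 2) + 2) * ((Fintype.card J : ℝ) * E +
              Λ * (R ^ (q - 2) * E + (R ^ 2)⁻¹ * N))) := by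
          unfold KC; ring
        rw [e1]
        apply mul_le_mul_of_nonneg_left _ (by positivity)
        have hnA : 0 ≤ (Fintype.card J : ℝ) * E := by positivity
        have e2 : (2 ^ q * (2 * q ^ 2) + 2) * ((Fintype.card J : ℝ) * E +
              Λ * (R ^ (q - 2) * E + (R ^ 2)⁻¹ * N)) =
            (2 ^ q * (2 * q ^ 2)) * ((Fintype.card J : ℝ) * E) + 2 * ((Fintype.card J : ℝ) * E) +
              2 ^ q * (2 * q ^ 2 * (Λ * (R ^ (q - 2) * E + (R ^ 2)⁻¹ * N))) +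
              2 * (Λ * (R ^ (q - 2) * E + (R ^ 2)⁻¹ * N)) := by ring
        rw [e2]
        have h5 : 0 ≤ (2 ^ q * (2 * q ^ 2)) * ((Fintype.card J : ℝ) * E) := by positivity
        have h6 : 0 ≤ Λ * (R ^ (q - 2) * E + (R ^ 2)⁻¹ * N) := by positivity
        linarith

end Pool.Agent.Helper841.Snow
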