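import Mathlib
import Pool.Agent.Helper841.SnowC1

set_option autoImplicit false

/-!
The cube inequality for `ℓ_q`-valued maps, and weak limits in `ℓ_q`.
-/

namespace Pool.Agent.Helper841.Snow

open Finset Filter Topology
open scoped ENNReal

section lp

variable {P : ℝ≥0∞} [Fact (1 ≤ P)]

/-- sequence space. -/
abbrev lq (P : ℝ≥0∞) := lp (fun _ : ℕ => ℝ) P

omit [Fact (1 ≤ P)] in
lemma lq_hasSum (hP : 0 < P.toReal) (u : lq P) :
    HasSum (fun c => |u c| ^ P.toReal) (‖u‖ ^ P.toReal) := lp.hasSum_norm hP u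

omit [Fact (1 ≤ P)] in
lemma lq_hasSum_sub (hP : 0 < P.toReal) (u v : lq P) :
    HasSum (fun c => |u c - v c| ^ P.toReal) (‖u - v‖ ^ P.toReal) := by
  have := lq_hasSum hP (u - v)
  simpa using this

variable {I J : Type} [Fintype I] [DecidableEq I] [Fintype J] [DecidableEq J]

/-- the block `j`. -/
abbrev Blk (I : Type) {J : Type} [Fintype I] [Fintype J] [DecidableEq J] (j : J) :
    Finset (J × I) := Finset.univ.filter fun a : J × I => a.1 = j

omit [Fact (1 ≤ P)] in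
theorem cube_lp {p R : ℝ} (h0 : 0 < p) (h1 : p < 1) (hq : 2 < P.toReal) (hR : 0 < R)
    (F : (J × I → ℤˣ) → lq P) (w : lq P) :
    ∑ j : J, ∑ x, ‖F (flS (Blk I j) * x) - F x‖ ^ P.toReal ≤
      KC P.toReal * (((p * (1 - p))⁻¹ * R ^ (P.toReal - 2) + Fintype.card J) *
        ∑ x, ev p (fun δ => ‖F (δ * x) - F x‖ ^ P.toReal) +
        (p * (1 - p))⁻¹ * (R ^ 2)⁻¹ * ∑ x, ‖F x - w‖ ^ P.toReal) := by
  have hP : 0 < P.toReal := by linarith
  have hL : HasSum (fun c => ∑ j : J, ∑ x,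
      |(fun x => F x c - w c) (flS (Blk I j) * x) - (fun x => F x c - w c) x| ^ P.toReal)
      (∑ j : J, ∑ x, ‖F (flS (Blk I j) * x) - F x‖ ^ P.toReal) := by
    refine hasSum_sum fun j _ => hasSum_sum fun x _ => ?_
    have := lq_hasSum_sub hP (F (flS (Blk I j) * x)) (F x)
    simpa using this
  have hT : ∀ x, HasSum (fun c => TE p P.toReal (fun x => F x c - w c) x)
      (ev p (fun δ => ‖F (δ * x) - F x‖ ^ P.toReal)) := by
    intro x
    unfold TE ev
    refine hasSum_sum fun δ _ => HasSum.mul_left _ ?_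
    have := lq_hasSum_sub hP (F (δ * x)) (F x)
    simpa using this
  have hN : HasSum (fun c => ∑ x, |F x c - w c| ^ P.toReal) (∑ x, ‖F x - w‖ ^ P.toReal) :=
    hasSum_sum fun x _ => lq_hasSum_sub hP (F x) w
  have hR' : HasSum (fun c => KC P.toReal * (((p * (1 - p))⁻¹ * R ^ (P.toReal - 2) +
        Fintype.card J) * ∑ x, TE p P.toReal (fun x => F x c - w c) x +
        (p * (1 - p))⁻¹ * (R ^ 2)⁻¹ * ∑ x, |F x c - w c| ^ P.toReal))
      (KC P.toReal * (((p * (1 - p))⁻¹ * R ^ (P.toReal - 2) + Fintype.card J) *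
        ∑ x, ev p (fun δ => ‖F (δ * x) - F x‖ ^ P.toReal) +
        (p * (1 - p))⁻¹ * (R ^ 2)⁻¹ * ∑ x, ‖F x - w‖ ^ P.toReal)) :=
    (((hasSum_sum fun x _ => hT x).mul_left _).add (hN.mul_left _)).mul_left _
  exact hasSum_le (fun c => cube_ineq h0 h1 hq hR (fun x => F x c - w c)) hL hR'

/-! ### weak limits -/

/-- `y` is the coordinatewise limit of `g` along `V`. -/
def IsWL {X : Type} (V : Ultrafilter X) (g : X → lq P) (y : lq P) : Prop :=
  ∀ c, Tendsto (fun x => g x c) V (𝓝 (y c))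

lemma P_ne_zero (hP : 0 < P.toReal) : P ≠ 0 := by
  intro h; rw [h] at hP; simp at hP

lemma coord_le (hP : 0 < P.toReal) (u : lq P) (c : ℕ) : |u c| ≤ ‖u‖ :=
  lp.norm_apply_le_norm (P_ne_zero hP) u c

/-- existence of weak limits. -/
lemma exists_WL {X : Type} (V : Ultrafilter X) (hP : 0 < P.toReal) (g : X → lq P) (C : ℝ)
    (hC : ∀ x, ‖g x‖ ≤ C) : ∃ y : lq P, IsWL V g y := by
  have h1 : ∀ c, ∃ y : ℝ, Tendsto (fun x => g x c) V (𝓝 y) := by
    intro c
    have hcomp : IsCompact (Set.Icc (-C) C) := isCompact_Icc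
    have hmem : ∀ x, g x c ∈ Set.Icc (-C) C := fun x => by
      rw [Set.mem_Icc, ← abs_le]; exact (coord_le hP (g x) c).trans (hC x)
    obtain ⟨y, _, hy⟩ := hcomp.ultrafilter_le_nhds' (V.map fun x => g x c)
      (by
        show (fun x => g x c) ⁻¹' (Set.Icc (-C) C) ∈ (V : Filter X)
        exact Filter.univ_mem' hmem)
    exact ⟨y, hy⟩
  choose y hy using h1
  have hmem : Memℓp y P := by
    refine memℓp_gen' (C := C ^ P.toReal) fun s => ?_
    have hlim : Tendsto (fun x => ∑ c ∈ s, |g x c| ^ P.toReal) V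
        (𝓝 (∑ c ∈ s, |y c| ^ P.toReal)) :=
      tendsto_finsetSum _ fun c _ => ((hy c).abs).rpow_const (Or.inr hP.le)
    have hC0 : ∀ x, ∑ c ∈ s, |g x c| ^ P.toReal ≤ C ^ P.toReal := by
      intro x
      exact (sum_le_hasSum s (fun c _ => Real.rpow_nonneg (abs_nonneg _) _)
        (lq_hasSum hP (g x))).trans (Real.rpow_le_rpow (norm_nonneg (g x)) (hC x) hP.le)
    exact le_of_tendsto hlim (Filter.Eventually.of_forall hC0)
  exact ⟨⟨y, hmem⟩, hy⟩

/-- weak limits do not increase distances. -/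
lemma WL_dist {X : Type} (V : Ultrafilter X) (hP : 0 < P.toReal) {g₁ g₂ : X → lq P}
    {y₁ y₂ : lq P} (h₁ : IsWL V g₁ y₁) (h₂ : IsWL V g₂ y₂) {D : ℝ}
    (hD : ∀ x, ‖g₁ x - g₂ x‖ ≤ D) : ‖y₁ - y₂‖ ≤ D := by
  obtain ⟨x0⟩ : Nonempty X := V.neBot.nonempty
  have hD0 : 0 ≤ D := (norm_nonneg _).trans (hD x0)
  have hsum := lq_hasSum_sub hP y₁ y₂
  have hle : ‖y₁ - y₂‖ ^ P.toReal ≤ D ^ P.toReal := by
    refine hasSum_le_of_sum_le hsum fun s => ?_
    have hlim : Tendsto (fun x => ∑ c ∈ s, |g₁ x c - g₂ x c| ^ P.toReal) V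
        (𝓝 (∑ c ∈ s, |y₁ c - y₂ c| ^ P.toReal)) :=
      tendsto_finsetSum _ fun c _ => (((h₁ c).sub (h₂ c)).abs).rpow_const (Or.inr hP.le)
    refine le_of_tendsto hlim (Filter.Eventually.of_forall fun x => ?_)
    exact (sum_le_hasSum s (fun c _ => Real.rpow_nonneg (abs_nonneg _) _)
        (lq_hasSum_sub hP (g₁ x) (g₂ x))).trans
        (Real.rpow_le_rpow (norm_nonneg _) (hD x) hP.le)
  exact (Real.rpow_le_rpow_iff (norm_nonneg _) hD0 hP).1 hle

/-- the pointwise almost convexity inequality. -/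
lemma abs_add_rpow {q lam a b : ℝ} (hq : 1 ≤ q) (h0 : 0 < lam) (h1 : lam < 1) :
    |a + b| ^ q ≤ (1 - lam) ^ (1 - q) * |a| ^ q + lam ^ (1 - q) * |b| ^ q := by
  have h2 : 0 < 1 - lam := by linarith
  have key := (convexOn_rpow hq).2 (x := |a| / (1 - lam)) (y := |b| / lam)
    (Set.mem_Ici.2 (by positivity)) (Set.mem_Ici.2 (by positivity)) h2.le h0.le (by ring)
  simp only [smul_eq_mul] at key
  have e1 : (1 - lam) * (|a| / (1 - lam)) + lam * (|b| / lam) = |a| + |b| := by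
    field_simp
  rw [e1, Real.div_rpow (abs_nonneg _) h2.le, Real.div_rpow (abs_nonneg _) h0.le] at key
  have e2 : (1 - lam) * (|a| ^ q / (1 - lam) ^ q) = (1 - lam) ^ (1 - q) * |a| ^ q := by
    rw [Real.rpow_sub h2, Real.rpow_one]; ring
  have e3 : lam * (|b| ^ q / lam ^ q) = lam ^ (1 - q) * |b| ^ q := by
    rw [Real.rpow_sub h0, Real.rpow_one]; ring
  rw [e2, e3] at key
  exact (Real.rpow_le_rpow (abs_nonneg _) (abs_add_le a b) (by linarith)).trans key

lemma exists_lam {q κ : ℝ} (hκ : 0 < κ) : ∃ lam : ℝ, 0 < lam ∧ lam < 1 ∧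
    (1 - lam) ^ (1 - q) ≤ 1 + κ := by
  have hc : ContinuousAt (fun x : ℝ => (1 - x) ^ (1 - q)) 0 := by
    apply ContinuousAt.rpow_const
    · fun_prop
    · left; norm_num
  have h1 : (fun x : ℝ => (1 - x) ^ (1 - q)) 0 < 1 + κ := by simp; linarith
  have h2 := hc.eventually (gt_mem_nhds h1)
  have h3 : ∀ᶠ x in 𝓝[>] (0 : ℝ), (1 - x) ^ (1 - q) < 1 + κ ∧ x ∈ Set.Ioo (0 : ℝ) 1 :=
    (h2.filter_mono nhdsWithin_le_nhds).and (Ioo_mem_nhdsGT one_pos)
  obtain ⟨x, hx, hx2⟩ := h3.exists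
  exact ⟨x, hx2.1, hx2.2, hx.le⟩

/-- one-sided Brezis-Lieb inequality. -/
lemma brezis_lieb {X : Type} (V : Ultrafilter X) (hq : 1 ≤ P.toReal) {g : X → lq P} {y : lq P}
    (h : IsWL V g y) {C : ℝ} (hC : ∀ x, ‖g x - y‖ ≤ C) (u : lq P) {δ : ℝ} (hδ : 0 < δ) :
    ∀ᶠ x in V, ‖g x - u‖ ^ P.toReal ≤ ‖y - u‖ ^ P.toReal + ‖g x - y‖ ^ P.toReal + δ := by
  have hP : 0 < P.toReal := by linarith
  set q := P.toReal with hqdef
  obtain ⟨x0⟩ : Nonempty X := V.neBot.nonempty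
  have hC0 : 0 ≤ C := (norm_nonneg _).trans (hC x0)
  set κ := δ / (3 * (C ^ q + 1)) with hκ
  have hCq : 0 ≤ C ^ q := Real.rpow_nonneg hC0 _
  have hκ0 : 0 < κ := by positivity
  obtain ⟨lam, hl0, hl1, hl⟩ := exists_lam (q := q) hκ0
  set Ck := lam ^ (1 - q) with hCk
  have hCk0 : 0 < Ck := Real.rpow_pos_of_pos hl0 _
  have hv := lq_hasSum_sub hP y u
  -- a finite set carrying most of `y - u`
  have hs : ∃ s : Finset ℕ, ‖y - u‖ ^ q - ∑ c ∈ s, |y c - u c| ^ q < δ / (3 * Ck) := by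
    have : ∀ᶠ s : Finset ℕ in Filter.atTop,
        ‖y - u‖ ^ q - δ / (3 * Ck) < ∑ c ∈ s, |y c - u c| ^ q :=
      hv.eventually (lt_mem_nhds (by
        have : 0 < δ / (3 * Ck) := by positivity
        linarith))
    obtain ⟨s, hs⟩ := this.exists
    exact ⟨s, by linarith⟩
  obtain ⟨s, hs⟩ := hs
  have hlim : Tendsto (fun x => ∑ c ∈ s, |g x c - u c| ^ q) V
      (𝓝 (∑ c ∈ s, |y c - u c| ^ q)) :=
    tendsto_finsetSum _ fun c _ => (((h c).sub tendsto_const_nhds).abs).rpow_const (Or.inr hP.le)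
  have hev : ∀ᶠ x in V, ∑ c ∈ s, |g x c - u c| ^ q < ∑ c ∈ s, |y c - u c| ^ q + δ / 3 :=
    hlim.eventually (gt_mem_nhds (by linarith))
  filter_upwards [hev] with x hx
  -- comparison of sums
  have f1 : HasSum (fun c => if c ∈ s then |g x c - u c| ^ q else 0)
      (∑ c ∈ s, |g x c - u c| ^ q) := by
    have : HasSum (fun c => if c ∈ s then |g x c - u c| ^ q else 0)
      (∑ c ∈ s, if c ∈ s then |g x c - u c| ^ q else 0) :=
      hasSum_sum_of_ne_finset_zero (fun c hc => if_neg hc)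
    rwa [Finset.sum_congr rfl fun c hc => if_pos hc] at this
  have f2 : HasSum (fun c => if c ∈ s then |y c - u c| ^ q else 0)
      (∑ c ∈ s, |y c - u c| ^ q) := by
    have : HasSum (fun c => if c ∈ s then |y c - u c| ^ q else 0)
      (∑ c ∈ s, if c ∈ s then |y c - u c| ^ q else 0) :=
      hasSum_sum_of_ne_finset_zero (fun c hc => if_neg hc)
    rwa [Finset.sum_congr rfl fun c hc => if_pos hc] at this
  have f3 := lq_hasSum_sub hP (g x) y
  have f4 := (f1.add (f3.mul_left (1 + κ))).add ((hv.sub f2).mul_left Ck)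
  have hle := hasSum_le (fun c => ?_) (lq_hasSum_sub hP (g x) u) f4
  · have hb : κ * ‖g x - y‖ ^ q ≤ δ / 3 := by
      have h1 : ‖g x - y‖ ^ q ≤ C ^ q := Real.rpow_le_rpow (norm_nonneg _) (hC x) hP.le
      calc κ * ‖g x - y‖ ^ q ≤ κ * (C ^ q + 1) :=
            mul_le_mul_of_nonneg_left (by linarith) hκ0.le
        _ = δ / 3 := by rw [hκ]; field_simp
    have hc : Ck * (‖y - u‖ ^ q - ∑ c ∈ s, |y c - u c| ^ q) ≤ δ / 3 := by
      calc Ck * (‖y - u‖ ^ q - ∑ c ∈ s, |y c - u c| ^ q) ≤ Ck * (δ / (3 * Ck)) :=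
            mul_le_mul_of_nonneg_left hs.le hCk0.le
        _ = δ / 3 := by field_simp
    have hd : ∑ c ∈ s, |y c - u c| ^ q ≤ ‖y - u‖ ^ q :=
      sum_le_hasSum s (fun c _ => Real.rpow_nonneg (abs_nonneg _) _) hv
    linarith
  · by_cases hcs : c ∈ s
    · simp only [if_pos hcs]
      have h1 : 0 ≤ (1 + κ) * |g x c - y c| ^ q := by positivity
      linarith
    · simp only [if_neg hcs]
      have h1 := abs_add_rpow (a := g x c - y c) (b := y c - u c) hq hl0 hl1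
      have h2 : g x c - y c + (y c - u c) = g x c - u c := by ring
      rw [h2] at h1
      have h3 : (1 - lam) ^ (1 - q) * |g x c - y c| ^ q ≤ (1 + κ) * |g x c - y c| ^ q :=
        mul_le_mul_of_nonneg_right hl (Real.rpow_nonneg (abs_nonneg _) _)
      linarith

end lp

end Pool.Agent.Helper841.Snow
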