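import Mathlib
import Pool.Agent.Helper841.SnowC2

set_option autoImplicit false

/-!
Product ultrafilters, iterated weak limits and the cube lemma.
-/

namespace Pool.Agent.Helper841.Snow

open Finset Filter Topology
open scoped ENNReal

/-- powers of an ultrafilter. -/
noncomputable def powU {X : Type} (V : Ultrafilter X) : (k : ℕ) → Ultrafilter (Fin k → X)
  | 0 => pure (fun i => Fin.elim0 i)
  | (k + 1) => V.bind (fun x => (powU V k).map (fun l => (Fin.cons x l : Fin (k + 1) → X)))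

lemma ev_powU_succ {X : Type} (V : Ultrafilter X) (k : ℕ) (Q : (Fin (k + 1) → X) → Prop) :
    (∀ᶠ L in powU V (k + 1), Q L) ↔ ∀ᶠ x in V, ∀ᶠ l in powU V k, Q (Fin.cons x l) := by
  have h : ((powU V (k + 1) : Ultrafilter (Fin (k + 1) → X)) : Filter (Fin (k + 1) → X)) =
      Filter.bind (V : Filter X) (fun x => ((powU V k : Filter (Fin k → X))).map
        (fun l => (Fin.cons x l : Fin (k + 1) → X))) := rfl
  rw [h, Filter.eventually_bind]
  rfl

/-- The cube lemma for powers of a nonprincipal ultrafilter on `ℕ`. -/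
lemma cube1 (U : Ultrafilter ℕ) (hU : (U : Filter ℕ) ≤ Filter.cofinite) (n : ℕ) :
    ∀ Q : (Fin n → ℕ) → Prop, (∀ᶠ l in powU U n, Q l) →
      ∃ m0 m1 : Fin n → ℕ, (∀ j, m0 j ≠ m1 j) ∧
        ∀ ε : Fin n → ℤˣ, Q (fun j => if ε j = 1 then m0 j else m1 j) := by
  induction n with
  | zero =>
    intro Q hQ
    have : Q (fun i => Fin.elim0 i) := by
      have h : ((powU U 0 : Ultrafilter (Fin 0 → ℕ)) : Filter (Fin 0 → ℕ)) =
        pure (fun i => Fin.elim0 i) := rfl
      rw [h, Filter.eventually_pure] at hQ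
      exact hQ
    refine ⟨fun i => Fin.elim0 i, fun i => Fin.elim0 i, fun j => Fin.elim0 j, fun ε => ?_⟩
    refine Eq.mp (congrArg Q ?_) this
    funext j; exact Fin.elim0 j
  | succ n ih =>
    intro Q hQ
    rw [ev_powU_succ] at hQ
    obtain ⟨a, ha⟩ := hQ.exists
    have hne : ∀ᶠ m in (U : Filter ℕ), m ≠ a := by
      refine hU ?_
      rw [Filter.mem_cofinite]
      have : {x | x ≠ a}ᶜ = {a} := by ext x; simp
      rw [this]; exact Set.finite_singleton a
    obtain ⟨b, hb, hba⟩ := (hQ.and hne).exists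
    obtain ⟨m0, m1, hm, hcube⟩ := ih (fun l => Q (Fin.cons a l) ∧ Q (Fin.cons b l)) (ha.and hb)
    refine ⟨Fin.cons a m0, Fin.cons b m1, ?_, ?_⟩
    · intro j
      refine Fin.cases ?_ (fun i => ?_) j
      · simpa using hba.symm
      · simpa using hm i
    · intro ε
      have h2 := hcube (fun j => ε j.succ)
      by_cases h0 : ε 0 = 1
      · convert h2.1 using 1
        funext j
        refine Fin.cases ?_ (fun i => ?_) j
        · simp [h0]
        · simp
      · convert h2.2 using 1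
        funext j
        refine Fin.cases ?_ (fun i => ?_) j
        · simp [h0]
        · simp

lemma cube2 (U : Ultrafilter ℕ) (hU : (U : Filter ℕ) ≤ Filter.cofinite) (n k : ℕ) :
    ∀ Q : (Fin k → Fin n → ℕ) → Prop, (∀ᶠ L in powU (powU U n) k, Q L) →
      ∃ m0 m1 : Fin k → Fin n → ℕ, (∀ i j, m0 i j ≠ m1 i j) ∧
        ∀ ε : Fin k → Fin n → ℤˣ, Q (fun i j => if ε i j = 1 then m0 i j else m1 i j) := by
  induction k with
  | zero =>
    intro Q hQ
    have : Q (fun i => Fin.elim0 i) := by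
      have h : ((powU (powU U n) 0 : Ultrafilter (Fin 0 → Fin n → ℕ)) :
        Filter (Fin 0 → Fin n → ℕ)) = pure (fun i => Fin.elim0 i) := rfl
      rw [h, Filter.eventually_pure] at hQ
      exact hQ
    refine ⟨fun i => Fin.elim0 i, fun i => Fin.elim0 i, fun j => Fin.elim0 j, fun ε => ?_⟩
    refine Eq.mp (congrArg Q ?_) this
    funext j; exact Fin.elim0 j
  | succ k ih =>
    intro Q hQ
    rw [ev_powU_succ] at hQ
    obtain ⟨a, b, hab, hcube⟩ := cube1 U hU n _ hQ
    have hall : ∀ᶠ l in powU (powU U n) k, ∀ ε : Fin n → ℤˣ,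
        Q (Fin.cons (fun j => if ε j = 1 then a j else b j) l) :=
      Filter.eventually_all.2 fun ε => hcube ε
    obtain ⟨m0, m1, hm, hc⟩ := ih _ hall
    refine ⟨Fin.cons a m0, Fin.cons b m1, ?_, ?_⟩
    · intro i
      refine Fin.cases ?_ (fun i' => ?_) i
      · intro j; simpa using hab j
      · intro j; simpa using hm i' j
    · intro ε
      have h2 := hc (fun i j => ε i.succ j) (ε 0)
      convert h2 using 1
      funext i
      refine Fin.cases ?_ (fun i' => ?_) i
      · simp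
      · simp

section lp

variable {P : ℝ≥0∞} [Fact (1 ≤ P)]

open Classical in
/-- the weak limit along an ultrafilter. -/
noncomputable def wl {X : Type} (V : Ultrafilter X) (g : X → lq P) : lq P :=
  if h : ∃ y, IsWL V g y then h.choose else 0

lemma wl_spec {X : Type} (V : Ultrafilter X) (hP : 0 < P.toReal) {g : X → lq P} {C : ℝ}
    (hC : ∀ x, ‖g x‖ ≤ C) : IsWL V g (wl V g) := by
  have h := exists_WL V hP g C hC
  unfold wl
  rw [dif_pos h]
  exact h.choose_spec

lemma wl_dist {X : Type} (V : Ultrafilter X) (hP : 0 < P.toReal) {g₁ g₂ : X → lq P} {C D : ℝ}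
    (hC₁ : ∀ x, ‖g₁ x‖ ≤ C) (hC₂ : ∀ x, ‖g₂ x‖ ≤ C) (hD : ∀ x, ‖g₁ x - g₂ x‖ ≤ D) :
    ‖wl V g₁ - wl V g₂‖ ≤ D :=
  WL_dist V hP (wl_spec V hP hC₁) (wl_spec V hP hC₂) hD

lemma wl_norm {X : Type} (V : Ultrafilter X) (hP : 0 < P.toReal) {g : X → lq P} {C : ℝ}
    (hC : ∀ x, ‖g x‖ ≤ C) : ‖wl V g‖ ≤ C := by
  have h0 : IsWL V (fun _ : X => (0 : lq P)) 0 := fun c => tendsto_const_nhds
  have := WL_dist V hP (wl_spec V hP hC) h0 (D := C) (fun x => by simpa using hC x)
  simpa using this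

/-- iterated weak limit. -/
noncomputable def WW {X : Type} (V : Ultrafilter X) :
    (k : ℕ) → ((Fin k → X) → lq P) → lq P
  | 0, g => g (fun i => Fin.elim0 i)
  | (k + 1), g => wl V (fun x => WW V k (fun l => g (Fin.cons x l)))

lemma WW_norm {X : Type} (V : Ultrafilter X) (hP : 0 < P.toReal) (k : ℕ) :
    ∀ {g : (Fin k → X) → lq P} {C : ℝ}, (∀ L, ‖g L‖ ≤ C) → ‖WW V k g‖ ≤ C := by
  induction k with
  | zero => intro g C h; exact h _
  | succ k ih => intro g C h; exact wl_norm V hP fun x => ih fun l => h _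

lemma WW_dist {X : Type} (V : Ultrafilter X) (hP : 0 < P.toReal) (k : ℕ) :
    ∀ {g₁ g₂ : (Fin k → X) → lq P} {C D : ℝ}, (∀ L, ‖g₁ L‖ ≤ C) → (∀ L, ‖g₂ L‖ ≤ C) →
      (∀ L, ‖g₁ L - g₂ L‖ ≤ D) → ‖WW V k g₁ - WW V k g₂‖ ≤ D := by
  induction k with
  | zero => intro g₁ g₂ C D _ _ h; exact h _
  | succ k ih =>
    intro g₁ g₂ C D h₁ h₂ h
    exact wl_dist V hP (fun x => WW_norm V hP k fun l => h₁ _)
      (fun x => WW_norm V hP k fun l => h₂ _)
      (fun x => ih (fun l => h₁ _) (fun l => h₂ _) fun l => h _)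

/-- **The concentration estimate.** -/
lemma concentration {X : Type} (V : Ultrafilter X) (hq : 1 ≤ P.toReal) {ρ δ : ℝ} (hδ : 0 < δ)
    (k : ℕ) :
    ∀ {g : (Fin k → X) → lq P} {C : ℝ}, (∀ L, ‖g L‖ ≤ C) →
      (∀ L i x, ‖g L - g (Function.update L i x)‖ ≤ ρ) → ∀ u : lq P,
      ∀ᶠ L in powU V k, ‖g L - u‖ ^ P.toReal ≤
        ‖WW V k g - u‖ ^ P.toReal + k * (ρ ^ P.toReal + δ) := by
  have hP : 0 < P.toReal := by linarith
  induction k with
  | zero =>
    intro g C _ _ u
    have h : ((powU V 0 : Ultrafilter (Fin 0 → X)) : Filter (Fin 0 → X)) =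
        pure (fun i => Fin.elim0 i) := rfl
    rw [h, Filter.eventually_pure]
    simp [WW]
  | succ k ih =>
    intro g C hC hL u
    rw [ev_powU_succ]
    set h : X → lq P := fun x => WW V k (fun l => g (Fin.cons x l)) with hh
    have hhC : ∀ x, ‖h x‖ ≤ C := fun x => WW_norm V hP k fun l => hC _
    have hhD : ∀ x x', ‖h x - h x'‖ ≤ ρ := by
      intro x x'
      refine WW_dist V hP k (fun l => hC _) (fun l => hC _) fun l => ?_
      have := hL (Fin.cons x l) 0 x'
      rwa [Fin.update_cons_zero] at this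
    have hWL := wl_spec V hP hhC
    have hWD : ∀ x, ‖h x - wl V h‖ ≤ ρ := by
      intro x
      have hc : IsWL V (fun _ : X => h x) (h x) := fun c => tendsto_const_nhds
      exact WL_dist V hP hc hWL (fun x' => hhD x x')
    have hBL := brezis_lieb V hq hWL hWD u hδ
    filter_upwards [hBL] with x hx
    have hih := ih (g := fun l => g (Fin.cons x l)) (C := C) (fun l => hC _)
      (fun l i y => by
        have := hL (Fin.cons x l) i.succ y
        rwa [← Fin.cons_update] at this) u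
    filter_upwards [hih] with l hl
    have h1 : ‖h x - wl V h‖ ^ P.toReal ≤ ρ ^ P.toReal :=
      Real.rpow_le_rpow (norm_nonneg _) (hWD x) hP.le
    have h2 : WW V (k + 1) g = wl V h := rfl
    rw [h2]
    push_cast
    have h3 : WW V k (fun l => g (Fin.cons x l)) = h x := rfl
    rw [h3] at hl
    linarith

end lp

end Pool.Agent.Helper841.Snow
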