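import Mathlib
import Pool.Agent.Helper841.SnowC3
import Pool.Agent.Helper841.Snow4

set_option autoImplicit false

/-!
The source vectors: trigonometric functions on the blocks of `[0,1]`.
-/

namespace Pool.Agent.Helper841.Snow

open Finset Filter Topology MeasureTheory
open scoped ENNReal

/-! ### trigonometric integrals -/

lemma int_cos (n : ℕ) (hn : 0 < n) (j : ℕ) (f : ℤ) (hf : f ≠ 0) :
    ∫ t in ((j : ℝ) / n)..(((j : ℝ) + 1) / n), Real.cos (2 * Real.pi * n * f * t) = 0 := by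
  have hn0 : (n : ℝ) ≠ 0 := by exact_mod_cast hn.ne'
  have hf0 : (f : ℝ) ≠ 0 := by exact_mod_cast hf
  have hc : 2 * Real.pi * n * f ≠ 0 := by
    have := Real.pi_ne_zero; positivity
  rw [intervalIntegral.integral_comp_mul_left (fun t => Real.cos t) hc, integral_cos]
  have e1 : 2 * Real.pi * n * f * (((j : ℝ) + 1) / n) = ((f * (j + 1) : ℤ) : ℝ) * (2 * Real.pi) := by
    push_cast; field_simp
  have e2 : 2 * Real.pi * n * f * ((j : ℝ) / n) = ((f * j : ℤ) : ℝ) * (2 * Real.pi) := by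
    push_cast; field_simp
  rw [e1, e2]
  have s1 : Real.sin (((f * (j + 1) : ℤ) : ℝ) * (2 * Real.pi)) = 0 := by
    have := Real.sin_int_mul_two_pi_sub 0 (f * (j + 1))
    simpa using this
  have s2 : Real.sin (((f * j : ℤ) : ℝ) * (2 * Real.pi)) = 0 := by
    have := Real.sin_int_mul_two_pi_sub 0 (f * j)
    simpa using this
  rw [s1, s2]; simp

lemma int_cos_cos (n : ℕ) (hn : 0 < n) (j : ℕ) (a b : ℕ) (ha : 0 < a) (hb : 0 < b) :
    ∫ t in ((j : ℝ) / n)..(((j : ℝ) + 1) / n),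
      Real.cos (2 * Real.pi * n * a * t) * Real.cos (2 * Real.pi * n * b * t) =
      if a = b then (1 : ℝ) / (2 * (n : ℝ)) else 0 := by
  have hn0 : (n : ℝ) ≠ 0 := by exact_mod_cast hn.ne'
  have e1 : ∀ t : ℝ, Real.cos (2 * Real.pi * n * a * t) * Real.cos (2 * Real.pi * n * b * t) =
      (1 / 2) * Real.cos (2 * Real.pi * n * (((a : ℤ) - b : ℤ) : ℝ) * t) +
      (1 / 2) * Real.cos (2 * Real.pi * n * (((a : ℤ) + b : ℤ) : ℝ) * t) := by
    intro t
    have h1 : 2 * Real.pi * n * (((a : ℤ) - b : ℤ) : ℝ) * t =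
        2 * Real.pi * n * a * t - 2 * Real.pi * n * b * t := by push_cast; ring
    have h2 : 2 * Real.pi * n * (((a : ℤ) + b : ℤ) : ℝ) * t =
        2 * Real.pi * n * a * t + 2 * Real.pi * n * b * t := by push_cast; ring
    rw [h1, h2, Real.cos_sub, Real.cos_add]; ring
  simp_rw [e1]
  have c1 : ∀ f : ℤ, IntervalIntegrable (fun t : ℝ =>
      (1 / 2) * Real.cos (2 * Real.pi * n * (f : ℝ) * t)) volume ((j : ℝ) / n) (((j : ℝ) + 1) / n) :=
    fun f => (by fun_prop : Continuous fun t : ℝ =>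
      (1 / 2) * Real.cos (2 * Real.pi * n * (f : ℝ) * t)).intervalIntegrable _ _
  rw [intervalIntegral.integral_add (c1 _) (c1 _), intervalIntegral.integral_const_mul,
    intervalIntegral.integral_const_mul, int_cos n hn j ((a : ℤ) + b) (by positivity)]
  by_cases h : a = b
  · subst h
    simp only [sub_self, if_true]
    simp
    field_simp
    ring
  · rw [int_cos n hn j ((a : ℤ) - b) (by
      intro h'; apply h; have : (a : ℤ) = b := by linarith
      exact_mod_cast this), if_neg h]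
    ring

lemma int_sq {κ : Type} [Fintype κ] [DecidableEq κ] (n : ℕ) (hn : 0 < n) (j : ℕ)
    (φ : κ → ℕ) (hφ : Function.Injective φ) (hφ0 : ∀ i, 0 < φ i) (c : κ → ℝ) :
    ∫ t in ((j : ℝ) / n)..(((j : ℝ) + 1) / n),
      (∑ i, c i * Real.cos (2 * Real.pi * n * φ i * t)) ^ 2 = (∑ i, c i ^ 2) / (2 * (n : ℝ)) := by
  have e1 : ∀ t : ℝ, (∑ i, c i * Real.cos (2 * Real.pi * n * φ i * t)) ^ 2 =
      ∑ i, ∑ l, c i * c l * (Real.cos (2 * Real.pi * n * φ i * t) *
        Real.cos (2 * Real.pi * n * φ l * t)) := by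
    intro t
    rw [sq, Finset.sum_mul_sum]
    exact Finset.sum_congr rfl fun i _ => Finset.sum_congr rfl fun l _ => by ring
  simp_rw [e1]
  have hc : ∀ i l : κ, Continuous fun t : ℝ => c i * c l * (Real.cos (2 * Real.pi * n * φ i * t) *
        Real.cos (2 * Real.pi * n * φ l * t)) := fun i l => by fun_prop
  rw [intervalIntegral.integral_finsetSum fun i _ =>
    (continuous_finsetSum _ fun l _ => hc i l).intervalIntegrable _ _]
  rw [Finset.sum_div]
  refine Finset.sum_congr rfl fun i _ => ?_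
  rw [intervalIntegral.integral_finsetSum fun l _ => (hc i l).intervalIntegrable _ _,
    Finset.sum_eq_single i]
  · rw [intervalIntegral.integral_const_mul, int_cos_cos n hn j _ _ (hφ0 i) (hφ0 i), if_pos rfl]
    ring
  · intro l _ hl
    rw [intervalIntegral.integral_const_mul, int_cos_cos n hn j _ _ (hφ0 i) (hφ0 l),
      if_neg (fun h => hl (hφ h).symm)]
    ring
  · intro h; exact absurd (Finset.mem_univ i) h

/-! ### the vectors -/

/-- The source function. -/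
noncomputable def XF (τ : ℝ) {n k : ℕ} (hn : 0 < n) (L : Fin k → Fin n → ℕ) (t : ℝ) : ℝ :=
  τ * ∑ i : Fin k, Real.cos (2 * Real.pi * n * ((Nat.pair i (L i (idx n hn t)) + 1 : ℕ) : ℝ) * t)

lemma XF_meas (τ : ℝ) {n k : ℕ} (hn : 0 < n) (L : Fin k → Fin n → ℕ) :
    Measurable (XF τ hn L) := by
  unfold XF
  refine measurable_const.mul (Finset.measurable_sum _ fun i _ => Real.measurable_cos.comp
    ((measurable_const.mul ?_).mul measurable_id))
  exact (measurable_of_finite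
    (fun j : Fin n => ((Nat.pair i (L i j) + 1 : ℕ) : ℝ))).comp (idx_meas n hn)

lemma XF_bound {τ : ℝ} (hτ : 0 ≤ τ) {n k : ℕ} (hn : 0 < n) (L : Fin k → Fin n → ℕ) (t : ℝ) :
    |XF τ hn L t| ≤ τ * k := by
  unfold XF
  rw [abs_mul, abs_of_nonneg hτ]
  refine mul_le_mul_of_nonneg_left ?_ hτ
  refine (Finset.abs_sum_le_sum_abs _ _).trans ?_
  refine (Finset.sum_le_sum fun i _ => Real.abs_cos_le_one _).trans ?_
  simp

lemma XF_diff {τ : ℝ} (hτ : 0 ≤ τ) {n k : ℕ} (hn : 0 < n) (L L' : Fin k → Fin n → ℕ) (t : ℝ) :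
    |XF τ hn L t - XF τ hn L' t| ≤
      2 * τ * ∑ i, (if L i (idx n hn t) = L' i (idx n hn t) then (0 : ℝ) else 1) := by
  unfold XF
  rw [← mul_sub, ← Finset.sum_sub_distrib, abs_mul, abs_of_nonneg hτ]
  have h : |∑ i : Fin k, (Real.cos (2 * Real.pi * n *
        ((Nat.pair i (L i (idx n hn t)) + 1 : ℕ) : ℝ) * t) -
      Real.cos (2 * Real.pi * n * ((Nat.pair i (L' i (idx n hn t)) + 1 : ℕ) : ℝ) * t))| ≤
      ∑ i, 2 * (if L i (idx n hn t) = L' i (idx n hn t) then (0 : ℝ) else 1) := by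
    refine (Finset.abs_sum_le_sum_abs _ _).trans (Finset.sum_le_sum fun i _ => ?_)
    by_cases h : L i (idx n hn t) = L' i (idx n hn t)
    · rw [if_pos h, h]; simp
    · rw [if_neg h]
      refine (abs_sub _ _).trans ?_
      have h1 := Real.abs_cos_le_one (2 * Real.pi * n *
        ((Nat.pair i (L i (idx n hn t)) + 1 : ℕ) : ℝ) * t)
      have h2 := Real.abs_cos_le_one (2 * Real.pi * n *
        ((Nat.pair i (L' i (idx n hn t)) + 1 : ℕ) : ℝ) * t)
      linarith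
  refine (mul_le_mul_of_nonneg_left h hτ).trans (le_of_eq ?_)
  rw [← Finset.mul_sum]; ring

section Lp

variable {P : ℝ≥0∞} [Fact (1 ≤ P)]

omit [Fact (1 ≤ P)] in
lemma XF_memLp {τ : ℝ} (hτ : 0 ≤ τ) {n k : ℕ} (hn : 0 < n) (L : Fin k → Fin n → ℕ) :
    MemLp (XF τ hn L) P lam :=
  MemLp.of_bound (XF_meas τ hn L).aestronglyMeasurable (τ * k)
    (Filter.Eventually.of_forall fun t => XF_bound hτ hn L t)

/-- The source vector. -/
noncomputable def XV (P : ℝ≥0∞) {τ : ℝ} (hτ : 0 ≤ τ) {n k : ℕ} (hn : 0 < n)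
    (L : Fin k → Fin n → ℕ) : Lp ℝ P lam := (XF_memLp hτ hn L).toLp _

lemma XV_sub_ae {τ : ℝ} (hτ : 0 ≤ τ) {n k : ℕ} (hn : 0 < n) (L L' : Fin k → Fin n → ℕ) :
    ∀ᵐ t ∂lam, (XV P hτ hn L - XV P hτ hn L') t = XF τ hn L t - XF τ hn L' t := by
  filter_upwards [Lp.coeFn_sub (XV P hτ hn L) (XV P hτ hn L'),
    (XF_memLp (P := P) hτ hn L).coeFn_toLp, (XF_memLp (P := P) hτ hn L').coeFn_toLp]
    with t h1 h2 h3
  rw [h1, Pi.sub_apply]
  unfold XV
  rw [h2, h3]

lemma XV_norm_le {τ : ℝ} (hτ : 0 ≤ τ) {n k : ℕ} (hn : 0 < n) (L L' : Fin k → Fin n → ℕ)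
    {C : ℝ} (hC : 0 ≤ C) (h : ∀ t, |XF τ hn L t - XF τ hn L' t| ≤ C) :
    ‖XV P hτ hn L - XV P hτ hn L'‖ ≤ C := by
  have h := Lp.norm_le_of_ae_bound (f := XV P hτ hn L - XV P hτ hn L') (C := C) hC (by
      filter_upwards [XV_sub_ae (P := P) hτ hn L L'] with t ht
      rw [ht, Real.norm_eq_abs]; exact h t)
  refine h.trans (le_of_eq ?_)
  have : measureUnivNNReal lam = 1 := by
    rw [measureUnivNNReal, lam_univ]; rfl
  rw [this]; simp

lemma LP_integrable (hP0 : P ≠ 0) (hP : P ≠ ⊤) (f : Lp ℝ P lam) :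
    Integrable (fun ω => |f ω| ^ P.toReal) lam := by
  have h := (Lp.memLp f).integrable_norm_rpow hP0 hP
  simpa [Real.norm_eq_abs] using h

lemma LP_norm_pow (hP0 : P ≠ 0) (hP : P ≠ ⊤) (f : Lp ℝ P lam) :
    ‖f‖ ^ P.toReal = ∫ ω, |f ω| ^ P.toReal ∂lam := by
  have h0 : 0 ≤ ∫ ω, |f ω| ^ P.toReal ∂lam :=
    integral_nonneg fun ω => Real.rpow_nonneg (abs_nonneg _) _
  have hq : P.toReal ≠ 0 := (ENNReal.toReal_pos hP0 hP).ne'
  rw [Lp.norm_def, (Lp.memLp f).eLpNorm_eq_integral_rpow_norm hP0 hP]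
  simp only [Real.norm_eq_abs]
  rw [ENNReal.toReal_ofReal (Real.rpow_nonneg h0 _), ← Real.rpow_mul h0,
    inv_mul_cancel₀ hq, Real.rpow_one]

lemma XV_norm_pow (hP0 : P ≠ 0) (hP : P ≠ ⊤) {τ : ℝ} (hτ : 0 ≤ τ) {n k : ℕ} (hn : 0 < n)
    (L L' : Fin k → Fin n → ℕ) :
    ‖XV P hτ hn L - XV P hτ hn L'‖ ^ P.toReal =
      ∫ t, |XF τ hn L t - XF τ hn L' t| ^ P.toReal ∂lam := by
  rw [LP_norm_pow hP0 hP]
  refine integral_congr_ae ?_
  filter_upwards [XV_sub_ae (P := P) hτ hn L L'] with t ht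
  rw [ht]

lemma XF_diff_integrable (hP0 : P ≠ 0) (hP : P ≠ ⊤) {τ : ℝ} (hτ : 0 ≤ τ) {n k : ℕ} (hn : 0 < n)
    (L L' : Fin k → Fin n → ℕ) :
    Integrable (fun t => |XF τ hn L t - XF τ hn L' t| ^ P.toReal) lam := by
  refine (LP_integrable hP0 hP (XV P hτ hn L - XV P hτ hn L')).congr ?_
  filter_upwards [XV_sub_ae (P := P) hτ hn L L'] with t ht
  rw [ht]

end Lp

end Pool.Agent.Helper841.Snow
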