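import Mathlib
import Pool.Agent.Helper841.SnowC4

set_option autoImplicit false

/-!
Distances between the source vectors on a cube.
-/

namespace Pool.Agent.Helper841.Snow

open Finset Filter Topology MeasureTheory
open scoped ENNReal

/-- The point of the cube spanned by two configurations. -/
def mx {n k : ℕ} (m0 m1 : Fin k → Fin n → ℕ) (x : Fin n × Fin k → ℤˣ) : Fin k → Fin n → ℕ :=
  fun i j => if x (j, i) = 1 then m0 i j else m1 i j

/-- the number of flipped slots in the block `j`. -/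
noncomputable def cnt {n k : ℕ} (δ : Fin n × Fin k → ℤˣ) (j : Fin n) : ℝ :=
  ∑ i : Fin k, (if δ (j, i) = 1 then (0 : ℝ) else 1)

lemma cnt_nonneg {n k : ℕ} (δ : Fin n × Fin k → ℤˣ) (j : Fin n) : 0 ≤ cnt δ j :=
  Finset.sum_nonneg fun i _ => by split_ifs <;> norm_num

lemma XF_noise {τ : ℝ} (hτ : 0 ≤ τ) {n k : ℕ} (hn : 0 < n) (m0 m1 : Fin k → Fin n → ℕ)
    (δ x : Fin n × Fin k → ℤˣ) (t : ℝ) :
    |XF τ hn (mx m0 m1 (δ * x)) t - XF τ hn (mx m0 m1 x) t| ≤ 2 * τ * cnt δ (idx n hn t) := by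
  refine (XF_diff hτ hn _ _ t).trans ?_
  refine mul_le_mul_of_nonneg_left ?_ (by positivity)
  unfold cnt
  refine Finset.sum_le_sum fun i _ => ?_
  by_cases h : δ (idx n hn t, i) = 1
  · have : mx m0 m1 (δ * x) i (idx n hn t) = mx m0 m1 x i (idx n hn t) := by
      unfold mx; rw [Pi.mul_apply, h, one_mul]
    rw [if_pos this, if_pos h]
  · rw [if_neg h]; split_ifs <;> norm_num

lemma rpow_le_exp {q x : ℝ} (hq : 0 < q) (hx : 0 ≤ x) : x ^ q ≤ q ^ q * Real.exp x := by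
  have h1 : x ≤ q * Real.exp (x / q) := by
    have := Real.add_one_le_exp (x / q)
    have h2 : x / q ≤ Real.exp (x / q) := by linarith
    calc x = q * (x / q) := by field_simp
      _ ≤ _ := mul_le_mul_of_nonneg_left h2 hq.le
  calc x ^ q ≤ (q * Real.exp (x / q)) ^ q := Real.rpow_le_rpow hx h1 hq.le
    _ = q ^ q * Real.exp x := by
      rw [Real.mul_rpow hq.le (Real.exp_pos _).le, ← Real.exp_mul]
      congr 2; field_simp

/-- exponential moment. -/
lemma ev_exp_cnt {p : ℝ} (h0 : 0 < p) (h1 : p < 1) {n k : ℕ} (j : Fin n) :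
    ev p (fun δ : Fin n × Fin k → ℤˣ => Real.exp (cnt δ j)) ≤
      Real.exp (k * (p * (Real.exp 1 - 1))) := by
  set f : Fin n × Fin k → ℤˣ → ℝ := fun a s =>
    if a.1 = j then (if s = 1 then 1 else Real.exp 1) else 1 with hf
  have e1 : ∀ δ : Fin n × Fin k → ℤˣ, Real.exp (cnt δ j) = ∏ a, f a (δ a) := by
    intro δ
    rw [Fintype.prod_prod_type, Finset.prod_eq_single j]
    · unfold cnt
      rw [Real.exp_sum]
      refine Finset.prod_congr rfl fun i _ => ?_
      simp only [hf, if_true]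
      split_ifs <;> simp
    · intro b _ hb
      refine Finset.prod_eq_one fun i _ => ?_
      simp only [hf, if_neg hb]
    · intro h; exact absurd (Finset.mem_univ j) h
  have e2 : ev p (fun δ : Fin n × Fin k → ℤˣ => Real.exp (cnt δ j)) =
      ∏ a : Fin n × Fin k, (cw p 1 * f a 1 + cw p (-1) * f a (-1)) := by
    rw [← sum_prod (fun a s => cw p s * f a s)]
    unfold ev ww
    refine Finset.sum_congr rfl fun δ _ => ?_
    beta_reduce
    rw [e1, ← Finset.prod_mul_distrib]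
  have hne : ¬ ((-1 : ℤˣ) = 1) := by decide
  have e3 : ∏ a : Fin n × Fin k, (cw p 1 * f a 1 + cw p (-1) * f a (-1)) =
      (1 + p * (Real.exp 1 - 1)) ^ k := by
    rw [Fintype.prod_prod_type, Finset.prod_eq_single j]
    · have : ∀ i : Fin k, (cw p 1 * f (j, i) 1 + cw p (-1) * f (j, i) (-1)) =
          1 + p * (Real.exp 1 - 1) := by
        intro i
        simp only [hf, cw, if_true, if_neg hne]; ring
      rw [Finset.prod_congr rfl fun i _ => this i]
      simp
    · intro b _ hb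
      refine Finset.prod_eq_one fun i _ => ?_
      simp only [hf, cw, if_neg hb, if_true, if_neg hne]; ring
    · intro h; exact absurd (Finset.mem_univ j) h
  rw [e2, e3]
  have h2 : 0 ≤ p * (Real.exp 1 - 1) := by
    have := Real.add_one_le_exp (1 : ℝ)
    nlinarith
  calc (1 + p * (Real.exp 1 - 1)) ^ k ≤ (Real.exp (p * (Real.exp 1 - 1))) ^ k := by
        apply pow_le_pow_left₀ (by linarith)
        linarith [Real.add_one_le_exp (p * (Real.exp 1 - 1))]
    _ = _ := by rw [← Real.exp_nat_mul]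

/-- the moment constant. -/
noncomputable def CM (q : ℝ) : ℝ := q ^ q * Real.exp (Real.exp 1 - 1)

lemma ev_cnt_pow {q : ℝ} (hq : 0 < q) {n k : ℕ} (hk : 2 ≤ k) (j : Fin n) :
    ev (1 / (k : ℝ)) (fun δ : Fin n × Fin k → ℤˣ => (cnt δ j) ^ q) ≤ CM q := by
  have hk0 : (0 : ℝ) < k := by exact_mod_cast (by omega : 0 < k)
  have hk1 : (1 : ℝ) < k := by exact_mod_cast (by omega : 1 < k)
  have h0 : 0 < 1 / (k : ℝ) := by positivity
  have h1 : 1 / (k : ℝ) < 1 := by rw [div_lt_one hk0]; exact hk1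
  calc ev (1 / (k : ℝ)) (fun δ : Fin n × Fin k → ℤˣ => (cnt δ j) ^ q)
      ≤ ev (1 / (k : ℝ)) (fun δ : Fin n × Fin k → ℤˣ => q ^ q * Real.exp (cnt δ j)) :=
        ev_mono h0 h1 fun δ => rpow_le_exp hq (cnt_nonneg δ j)
    _ = q ^ q * ev (1 / (k : ℝ)) (fun δ : Fin n × Fin k → ℤˣ => Real.exp (cnt δ j)) :=
        ev_mul _ _ _
    _ ≤ q ^ q * Real.exp (k * (1 / (k : ℝ) * (Real.exp 1 - 1))) :=
        mul_le_mul_of_nonneg_left (ev_exp_cnt h0 h1 j) (by positivity)
    _ = CM q := by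
        unfold CM; congr 2; field_simp

lemma CM_pos {q : ℝ} (hq : 0 < q) : 0 < CM q := by unfold CM; positivity

section Lp

variable {P : ℝ≥0∞} [Fact (1 ≤ P)]

lemma lam_prob : IsProbabilityMeasure lam := ⟨lam_univ⟩

/-- moment of the displacement. -/
lemma ev_disp (hq : 0 < P.toReal) (hP : P ≠ ⊤) {τ : ℝ} (hτ : 0 ≤ τ) {n k : ℕ} (hn : 0 < n)
    (hk : 2 ≤ k) (m0 m1 : Fin k → Fin n → ℕ) (x : Fin n × Fin k → ℤˣ) :
    ev (1 / (k : ℝ)) (fun δ => ‖XV P hτ hn (mx m0 m1 (δ * x)) - XV P hτ hn (mx m0 m1 x)‖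
      ^ P.toReal) ≤ (2 * τ) ^ P.toReal * CM P.toReal := by
  have hk0 : (0 : ℝ) < k := by exact_mod_cast (by omega : 0 < k)
  have hk1 : (1 : ℝ) < k := by exact_mod_cast (by omega : 1 < k)
  have h0 : 0 < 1 / (k : ℝ) := by positivity
  have h1 : 1 / (k : ℝ) < 1 := by rw [div_lt_one hk0]; exact hk1
  have hP0 : P ≠ 0 := by intro h; rw [h] at hq; simp at hq
  have e1 : ev (1 / (k : ℝ)) (fun δ => ‖XV P hτ hn (mx m0 m1 (δ * x)) -
      XV P hτ hn (mx m0 m1 x)‖ ^ P.toReal) =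
      ∫ t, ev (1 / (k : ℝ)) (fun δ => |XF τ hn (mx m0 m1 (δ * x)) t -
        XF τ hn (mx m0 m1 x) t| ^ P.toReal) ∂lam := by
    unfold ev
    rw [integral_finsetSum _ fun δ _ => (XF_diff_integrable hP0 hP hτ hn _ _).const_mul _]
    refine Finset.sum_congr rfl fun δ _ => ?_
    beta_reduce
    rw [XV_norm_pow hP0 hP, integral_const_mul]
  rw [e1]
  have : IsProbabilityMeasure lam := lam_prob
  have hb : ∀ t, ev (1 / (k : ℝ)) (fun δ => |XF τ hn (mx m0 m1 (δ * x)) t -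
        XF τ hn (mx m0 m1 x) t| ^ P.toReal) ≤ (2 * τ) ^ P.toReal * CM P.toReal := by
    intro t
    calc ev (1 / (k : ℝ)) (fun δ => |XF τ hn (mx m0 m1 (δ * x)) t -
        XF τ hn (mx m0 m1 x) t| ^ P.toReal)
        ≤ ev (1 / (k : ℝ)) (fun δ => (2 * τ) ^ P.toReal * (cnt δ (idx n hn t)) ^ P.toReal) := by
          refine ev_mono h0 h1 fun δ => ?_
          rw [← Real.mul_rpow (by positivity) (cnt_nonneg _ _)]
          exact Real.rpow_le_rpow (abs_nonneg _) (XF_noise hτ hn m0 m1 δ x t) hq.le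
      _ = (2 * τ) ^ P.toReal * ev (1 / (k : ℝ)) (fun δ => (cnt δ (idx n hn t)) ^ P.toReal) :=
          ev_mul _ _ _
      _ ≤ _ := mul_le_mul_of_nonneg_left (ev_cnt_pow hq hk _) (by positivity)
  have hint : Integrable (fun t => ev (1 / (k : ℝ)) (fun δ => |XF τ hn (mx m0 m1 (δ * x)) t -
        XF τ hn (mx m0 m1 x) t| ^ P.toReal)) lam := by
    unfold ev
    exact integrable_finsetSum _ fun δ _ => (XF_diff_integrable hP0 hP hτ hn _ _).const_mul _
  calc ∫ t, ev (1 / (k : ℝ)) (fun δ => |XF τ hn (mx m0 m1 (δ * x)) t -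
        XF τ hn (mx m0 m1 x) t| ^ P.toReal) ∂lam
      ≤ ∫ _t, (2 * τ) ^ P.toReal * CM P.toReal ∂lam :=
        integral_mono hint (integrable_const _) hb
    _ = _ := by simp

lemma sq_le_rpow {q a D : ℝ} (hq : 2 < q) (ha : 0 < a) :
    D ^ 2 ≤ a ^ 2 + a ^ (2 - q) * |D| ^ q := by
  rcases le_total |D| a with h | h
  · have h1 : D ^ 2 ≤ a ^ 2 := by rw [← sq_abs D]; exact pow_le_pow_left₀ (abs_nonneg _) h 2
    have h2 : 0 ≤ a ^ (2 - q) * |D| ^ q := by positivity
    linarith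
  · have hD : 0 < |D| := lt_of_lt_of_le ha h
    have h1 : D ^ 2 = |D| ^ (2 - q) * |D| ^ q := by
      rw [← Real.rpow_add hD, ← sq_abs D, ← Real.rpow_natCast]; congr 1; push_cast; ring
    have h2 : |D| ^ (2 - q) ≤ a ^ (2 - q) :=
      Real.rpow_le_rpow_of_nonpos ha h (by linarith)
    have h3 := mul_le_mul_of_nonneg_right h2 (Real.rpow_nonneg hD.le q)
    rw [h1]; nlinarith [sq_nonneg a]

/-- the block `[j/n, (j+1)/n)`. -/
lemma block_idx {n : ℕ} (hn : 0 < n) (j : Fin n) {t : ℝ}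
    (ht : t ∈ Set.Ico ((j : ℝ) / n) (((j : ℝ) + 1) / n)) : idx n hn t = j := by
  have hn0 : (0 : ℝ) < n := by exact_mod_cast hn
  rw [Set.mem_Ico, div_le_iff₀ hn0, lt_div_iff₀ hn0] at ht
  have hfl : ⌊(n : ℝ) * t⌋₊ = (j : ℕ) := by
    rw [Nat.floor_eq_iff (by
      have : (0 : ℝ) ≤ ((j : ℕ) : ℝ) := by positivity
      linarith [ht.1, mul_comm t (n : ℝ)])]
    constructor
    · linarith [ht.1, mul_comm t (n : ℝ)]
    · linarith [ht.2, mul_comm t (n : ℝ)]
  apply Fin.ext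
  simp only [idx, hfl]
  exact Nat.mod_eq_of_lt j.2

lemma block_sub {n : ℕ} (hn : 0 < n) (j : Fin n) :
    Set.Ico ((j : ℝ) / n) (((j : ℝ) + 1) / n) ⊆ Set.Icc 0 1 := by
  have hn0 : (0 : ℝ) < n := by exact_mod_cast hn
  intro t ht
  rw [Set.mem_Ico, div_le_iff₀ hn0, lt_div_iff₀ hn0] at ht
  have hj : ((j : ℕ) : ℝ) + 1 ≤ n := by exact_mod_cast j.2
  have hj0 : (0 : ℝ) ≤ ((j : ℕ) : ℝ) := by positivity
  constructor
  · by_contra hc; push Not at hc; nlinarith
  · by_contra hc; push Not at hc; nlinarith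

/-- the function on the block after flipping it. -/
lemma flip_formula {τ : ℝ} {n k : ℕ} (hn : 0 < n) (m0 m1 : Fin k → Fin n → ℕ)
    (x : Fin n × Fin k → ℤˣ) (j : Fin n) {t : ℝ}
    (ht : t ∈ Set.Ico ((j : ℝ) / n) (((j : ℝ) + 1) / n)) :
    XF τ hn (mx m0 m1 (flS (Blk (Fin k) j) * x)) t - XF τ hn (mx m0 m1 x) t =
      ∑ b : Fin k × Bool, (τ * ((if x (j, b.1) = 1 then 1 else -1) *
        (if b.2 then 1 else -1))) *
        Real.cos (2 * Real.pi * n *
          ((Nat.pair b.1 (if b.2 then m1 b.1 j else m0 b.1 j) + 1 : ℕ) : ℝ) * t) := by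
  have hidx := block_idx hn j ht
  unfold XF
  rw [hidx, ← mul_sub, ← Finset.sum_sub_distrib, Fintype.sum_prod_type, Finset.mul_sum]
  refine Finset.sum_congr rfl fun i _ => ?_
  have hfl : (flS (Blk (Fin k) j) * x : Fin n × Fin k → ℤˣ) (j, i) = - x (j, i) := by
    rw [Pi.mul_apply]; unfold flS; simp
  have hne : ¬ ((-1 : ℤˣ) = 1) := by decide
  rw [Fintype.sum_bool]
  unfold mx
  rw [hfl]
  rcases Int.units_eq_one_or (x (j, i)) with h | h
  · rw [h]
    simp only [if_true, if_neg hne, Bool.false_eq_true, if_false]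
    ring
  · rw [h]
    simp only [neg_neg, if_true, if_neg hne, Bool.false_eq_true, if_false]
    ring

lemma block_sq_int {τ : ℝ} {n k : ℕ} (hn : 0 < n) (m0 m1 : Fin k → Fin n → ℕ)
    (hm : ∀ i j, m0 i j ≠ m1 i j) (x : Fin n × Fin k → ℤˣ) (j : Fin n) :
    ∫ t in Set.Ico ((j : ℝ) / n) (((j : ℝ) + 1) / n),
      (XF τ hn (mx m0 m1 (flS (Blk (Fin k) j) * x)) t - XF τ hn (mx m0 m1 x) t) ^ 2 =
      τ ^ 2 * k / n := by
  have hn0 : (0 : ℝ) < n := by exact_mod_cast hn
  rw [setIntegral_congr_fun measurableSet_Ico (fun t ht => by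
    show _ = _
    rw [flip_formula hn m0 m1 x j ht]), integral_Ico_eq_integral_Ioo,
    ← integral_Ioc_eq_integral_Ioo, ← intervalIntegral.integral_of_le (by
      apply div_le_div_of_nonneg_right _ hn0.le; linarith)]
  rw [int_sq n hn j (fun b : Fin k × Bool => Nat.pair b.1 (if b.2 then m1 b.1 j else m0 b.1 j) + 1)
    ?_ (fun _ => Nat.succ_pos _)]
  · have : ∀ b : Fin k × Bool, (τ * ((if x (j, b.1) = 1 then (1 : ℝ) else -1) *
        (if b.2 then 1 else -1))) ^ 2 = τ ^ 2 := by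
      intro b
      split_ifs <;> ring
    rw [Finset.sum_congr rfl fun b _ => this b, Finset.sum_const, Finset.card_univ,
      Fintype.card_prod, Fintype.card_fin, Fintype.card_bool, nsmul_eq_mul]
    push_cast
    field_simp
  · intro b b' hbb
    have h1 : Nat.pair b.1 (if b.2 then m1 b.1 j else m0 b.1 j) =
        Nat.pair b'.1 (if b'.2 then m1 b'.1 j else m0 b'.1 j) := by
      simpa using hbb
    rw [Nat.pair_eq_pair] at h1
    obtain ⟨h2, h3⟩ := h1
    have h4 : b.1 = b'.1 := Fin.ext h2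
    obtain ⟨i, s⟩ := b
    obtain ⟨i', s'⟩ := b'
    simp only at h4 h3
    subst h4
    cases s <;> cases s' <;> simp only [if_true, if_false, Bool.false_eq_true] at h3 ⊢
    · exact absurd h3 (hm i j)
    · exact absurd h3.symm (hm i j)

/-- **Lower bound** for the displacement of a block flip. -/
lemma flip_lower (hq : 2 < P.toReal) (hP : P ≠ ⊤) {τ : ℝ} (hτ : 0 < τ) {n k : ℕ} (hn : 0 < n)
    (hk : 0 < k) (m0 m1 : Fin k → Fin n → ℕ) (hm : ∀ i j, m0 i j ≠ m1 i j)
    (x : Fin n × Fin k → ℤˣ) (j : Fin n) :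
    (τ * Real.sqrt (k / 2)) ^ P.toReal / n ≤
      ‖XV P hτ.le hn (mx m0 m1 (flS (Blk (Fin k) j) * x)) - XV P hτ.le hn (mx m0 m1 x)‖
        ^ P.toReal := by
  have hn0 : (0 : ℝ) < n := by exact_mod_cast hn
  have hk0 : (0 : ℝ) < k := by exact_mod_cast hk
  have hP0 : P ≠ 0 := by intro h; rw [h] at hq; simp at hq; linarith
  set q := P.toReal with hqd
  set a := τ * Real.sqrt (k / 2) with ha
  have ha0 : 0 < a := by positivity
  have ha2 : a ^ 2 = τ ^ 2 * k / 2 := by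
    rw [ha, mul_pow, Real.sq_sqrt (by positivity)]; ring
  set D : ℝ → ℝ := fun t => XF τ hn (mx m0 m1 (flS (Blk (Fin k) j) * x)) t -
    XF τ hn (mx m0 m1 x) t with hD
  set S : Set ℝ := Set.Ico ((j : ℝ) / n) (((j : ℝ) + 1) / n) with hS
  have hSm : MeasurableSet S := measurableSet_Ico
  have hres : lam.restrict S = volume.restrict S := by
    rw [lam, Measure.restrict_restrict hSm, Set.inter_eq_left.2 (block_sub hn j)]
  have hvol : (volume.restrict S).real Set.univ = 1 / n := by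
    rw [measureReal_restrict_apply_univ, hS, Real.volume_real_Ico_of_le (by
        apply div_le_div_of_nonneg_right _ hn0.le; linarith)]
    field_simp
    ring
  have i1 : Integrable (fun t => |D t| ^ q) lam := XF_diff_integrable hP0 hP hτ.le hn _ _
  have i2 : Integrable (fun t => |D t| ^ q) (volume.restrict S) := by
    rw [← hres]; exact i1.restrict
  have fin : IsFiniteMeasure (volume.restrict S) := by
    rw [← hres]; infer_instance
  have hsq := block_sq_int (τ := τ) hn m0 m1 hm x j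
  have i3 : Integrable (fun t => (D t) ^ 2) (volume.restrict S) := by
    by_contra hc
    have : ∫ t in S, (D t) ^ 2 = 0 := integral_undef hc
    rw [show (∫ t in S, (D t) ^ 2) = τ ^ 2 * k / n from hsq] at this
    have : 0 < τ ^ 2 * k / n := by positivity
    linarith
  have h1 : ∫ t in S, (D t) ^ 2 ≤ ∫ t in S, (a ^ 2 + a ^ (2 - q) * |D t| ^ q) :=
    integral_mono i3 ((integrable_const _).add (i2.const_mul _)) fun t => sq_le_rpow hq ha0
  rw [integral_add (integrable_const _) (i2.const_mul _), integral_const_mul, integral_const,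
    hvol, smul_eq_mul] at h1
  have h2 : ∫ t in S, |D t| ^ q ≤ ∫ t, |D t| ^ q ∂lam := by
    rw [← hres]
    exact setIntegral_le_integral i1 (Filter.Eventually.of_forall fun t =>
      Real.rpow_nonneg (abs_nonneg _) _)
  rw [XV_norm_pow hP0 hP]
  have h3 : τ ^ 2 * k / n ≤ 1 / n * a ^ 2 + a ^ (2 - q) * ∫ t, |D t| ^ q ∂lam := by
    have h4 : a ^ (2 - q) * ∫ t in S, |D t| ^ q ≤ a ^ (2 - q) * ∫ t, |D t| ^ q ∂lam :=
      mul_le_mul_of_nonneg_left h2 (Real.rpow_nonneg ha0.le _)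
    have h5 : ∫ t in S, (D t) ^ 2 = τ ^ 2 * k / n := hsq
    linarith
  have h6 : a ^ 2 / n ≤ a ^ (2 - q) * ∫ t, |D t| ^ q ∂lam := by
    have : τ ^ 2 * k / n = 2 * (a ^ 2 / n) := by rw [ha2]; ring
    have h7 : 1 / (n : ℝ) * a ^ 2 = a ^ 2 / n := by ring
    linarith
  have h8 := mul_le_mul_of_nonneg_left h6 (Real.rpow_nonneg ha0.le (q - 2))
  rw [← mul_assoc, ← Real.rpow_add ha0, show q - 2 + (2 - q) = 0 by ring, Real.rpow_zero,
    one_mul] at h8
  have h9 : a ^ (q - 2) * (a ^ 2 / n) = a ^ q / n := by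
    rw [← sq_mul_rpow ha0.le hq]; ring
  rw [h9] at h8
  exact h8

end Lp

end Pool.Agent.Helper841.Snow
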