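import Mathlib
import Pool.Agent.Helper841.SnowC5

set_option autoImplicit false

/-!
The final theorem: `L_q[0,1]` has no coarse and no uniform embedding into `ℓ_q`, `q > 2`.
-/

namespace Pool.Agent.Helper841.Snow

open Finset Filter Topology MeasureTheory
open scoped ENNReal

/-- choice of the parameters. -/
lemma choice {q B K : ℝ} (hq : 2 < q) (hB : 0 ≤ B) (hK : 0 < K) :
    ∃ n k : ℕ, 0 < n ∧ 2 ≤ k ∧ B * (n : ℝ) ^ (2 / q) ≤ k ∧ K * (k : ℝ) ^ (2 - 2 / q) < n := by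
  have hq0 : 0 < q := by linarith
  set γ : ℝ := 1 - (2 / q) * (2 - 2 / q) with hγ
  have hγ0 : 0 < γ := by
    have : γ = ((q - 2) / q) ^ 2 := by rw [hγ]; field_simp; ring
    rw [this]; have : 0 < (q - 2) / q := div_pos (by linarith) hq0
    positivity
  have he : 0 < 2 - 2 / q := by
    have : 2 / q < 1 := by rw [div_lt_one hq0]; exact hq
    linarith
  set K2 := K * (B + 3) ^ (2 - 2 / q) with hK2
  have hK20 : 0 < K2 := by positivity
  have l1 : Tendsto (fun n : ℕ => K2 * (n : ℝ) ^ (-γ)) atTop (nhds 0) := by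
    have := ((tendsto_rpow_neg_atTop hγ0).comp tendsto_natCast_atTop_atTop).const_mul K2
    simpa using this
  obtain ⟨n, hn1, hn2⟩ := ((l1.eventually (gt_mem_nhds one_pos)).and
    (Filter.eventually_ge_atTop 1)).exists
  have hn0 : (0 : ℝ) < n := by exact_mod_cast hn2
  have hn1' : (1 : ℝ) ≤ n := by exact_mod_cast hn2
  set k : ℕ := ⌈B * (n : ℝ) ^ (2 / q)⌉₊ + 2 with hk
  have hpow : (1 : ℝ) ≤ (n : ℝ) ^ (2 / q) := Real.one_le_rpow hn1' (by positivity)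
  refine ⟨n, k, hn2, by omega, ?_, ?_⟩
  · have := Nat.le_ceil (B * (n : ℝ) ^ (2 / q))
    rw [hk]; push_cast; linarith
  · have h1 : (k : ℝ) ≤ (B + 3) * (n : ℝ) ^ (2 / q) := by
      have := (Nat.ceil_lt_add_one (by positivity : 0 ≤ B * (n : ℝ) ^ (2 / q))).le
      rw [hk]; push_cast; nlinarith
    have h2 : (k : ℝ) ^ (2 - 2 / q) ≤ ((B + 3) * (n : ℝ) ^ (2 / q)) ^ (2 - 2 / q) :=
      Real.rpow_le_rpow (by positivity) h1 he.le
    rw [Real.mul_rpow (by positivity) (by positivity), ← Real.rpow_mul hn0.le] at h2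
    have h3 : (n : ℝ) ^ (2 / q * (2 - 2 / q)) = n * (n : ℝ) ^ (-γ) := by
      nth_rw 2 [← Real.rpow_one (n : ℝ)]
      rw [← Real.rpow_add hn0]; congr 1; rw [hγ]; ring
    rw [h3] at h2
    calc K * (k : ℝ) ^ (2 - 2 / q) ≤ K * ((B + 3) ^ (2 - 2 / q) * (n * (n : ℝ) ^ (-γ))) :=
          mul_le_mul_of_nonneg_left h2 hK.le
      _ = n * (K2 * (n : ℝ) ^ (-γ)) := by rw [hK2]; ring
      _ < n * 1 := mul_lt_mul_of_pos_left hn1 hn0
      _ = n := mul_one _

section Lp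

variable {P : ℝ≥0∞} [Fact (1 ≤ P)]

lemma chain {E : Type*} [NormedAddCommGroup E] [NormedSpace ℝ E] {F : Type*}
    [NormedAddCommGroup F] (f : E → F) {t ρ : ℝ} (ht : 0 < t)
    (h : ∀ x y, ‖x - y‖ ≤ t → ‖f x - f y‖ ≤ ρ) (N : ℕ) :
    ∀ a b, ‖a - b‖ ≤ N * t → ‖f a - f b‖ ≤ N * ρ := by
  induction N with
  | zero =>
    intro a b hab
    have : a - b = 0 := by
      rw [← norm_le_zero_iff]; simpa using hab
    rw [sub_eq_zero] at this
    subst this; simp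
  | succ N ih =>
    intro a b hab
    have hN : (0 : ℝ) < (N : ℝ) + 1 := by positivity
    set z : E := b + ((N : ℝ) / (N + 1)) • (a - b) with hz
    have h1 : a - z = (1 / ((N : ℝ) + 1)) • (a - b) := by
      have : a - z = (a - b) - ((N : ℝ) / (N + 1)) • (a - b) := by rw [hz]; abel
      rw [this]
      nth_rw 1 [← one_smul ℝ (a - b)]
      rw [← sub_smul]; congr 1; field_simp; ring
    have h2 : z - b = ((N : ℝ) / (N + 1)) • (a - b) := by rw [hz]; abel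
    push_cast at hab
    have h3 : ‖a - z‖ ≤ t := by
      rw [h1, norm_smul, Real.norm_of_nonneg (by positivity), one_div, inv_mul_eq_div,
        div_le_iff₀ hN]
      linarith
    have h4 : ‖z - b‖ ≤ N * t := by
      rw [h2, norm_smul, Real.norm_of_nonneg (by positivity), div_mul_eq_mul_div,
        div_le_iff₀ hN]
      have : (0 : ℝ) ≤ N := by positivity
      nlinarith
    calc ‖f a - f b‖ = ‖(f a - f z) + (f z - f b)‖ := by congr 1; abel
      _ ≤ ‖f a - f z‖ + ‖f z - f b‖ := norm_add_le _ _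
      _ ≤ ρ + N * ρ := add_le_add (h _ _ h3) (ih _ _ h4)
      _ = ((N + 1 : ℕ) : ℝ) * ρ := by push_cast; ring

lemma lip_large {E : Type*} [NormedAddCommGroup E] [NormedSpace ℝ E] {F : Type*}
    [NormedAddCommGroup F] (f : E → F) {t ρ : ℝ} (ht : 0 < t) (hρ : 0 < ρ)
    (h : ∀ x y, ‖x - y‖ ≤ t → ‖f x - f y‖ ≤ ρ) (a b : E) :
    ‖f a - f b‖ ≤ ρ * (1 + ‖a - b‖ / t) := by
  have h1 := chain f ht h ⌈‖a - b‖ / t⌉₊ a b (by
    rw [← div_le_iff₀ ht]; exact Nat.le_ceil _)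
  have h2 := (Nat.ceil_lt_add_one (by positivity : 0 ≤ ‖a - b‖ / t)).le
  refine h1.trans ?_
  nlinarith

/-- the constant of the theorem. -/
noncomputable def C2 (q : ℝ) : ℝ := 2 ^ q * (1 + CM q)

theorem no_map (hq : 2 < P.toReal) (hP : P ≠ ⊤) (f : Lp ℝ P lam → lq P) {t ρ S : ℝ}
    (ht : 0 < t) (hρ : 0 < ρ) (hS : 0 < S) (h1 : ∀ x y, ‖x - y‖ ≤ t → ‖f x - f y‖ ≤ ρ)
    (h2 : ∀ x y, S ≤ ‖x - y‖ →
      (KC P.toReal * (C2 P.toReal + 1)) ^ (1 / P.toReal) * ρ ≤ ‖f x - f y‖) : False := by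
  set q := P.toReal with hqd
  have hq0 : 0 < q := by linarith
  have hCM := CM_pos hq0
  have hC2 : 0 < C2 q := by unfold C2; positivity
  have hKC : 0 < KC q := by unfold KC; positivity
  set τ : ℝ := t / 2 with hτd
  have hτ : 0 < τ := by positivity
  obtain ⟨n, k, hn, hk, hBk, hKk⟩ := choice (B := 2 * (S / τ) ^ 2) (K := 2 * C2 q + 4) hq
    (by positivity) (by positivity)
  have hn0 : (0 : ℝ) < n := by exact_mod_cast hn
  have hk0 : (0 : ℝ) < k := by exact_mod_cast (by omega : 0 < k)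
  have hk2 : (2 : ℝ) ≤ k := by exact_mod_cast hk
  have hkpos : 0 < k := by omega
  -- the map on configurations
  set g : (Fin k → Fin n → ℕ) → lq P := fun L => f (XV P hτ.le hn L) with hg
  have hlev : ∀ L i y, ‖g L - g (Function.update L i y)‖ ≤ ρ := by
    intro L i y
    refine h1 _ _ (XV_norm_le hτ.le hn _ _ ht.le fun s => (XF_diff hτ.le hn _ _ s).trans ?_)
    have : ∑ i', (if L i' (idx n hn s) = Function.update L i y i' (idx n hn s) then (0 : ℝ)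
        else 1) ≤ 1 := by
      rw [Finset.sum_eq_single i]
      · split_ifs <;> norm_num
      · intro b _ hb
        rw [Function.update_of_ne hb, if_pos rfl]
      · intro h; exact absurd (Finset.mem_univ i) h
    calc 2 * τ * ∑ i', (if L i' (idx n hn s) = Function.update L i y i' (idx n hn s)
          then (0 : ℝ) else 1) ≤ 2 * τ * 1 := mul_le_mul_of_nonneg_left this (by positivity)
      _ = t := by rw [hτd]; ring
  obtain ⟨L0, hL0⟩ : ∃ L0 : Fin k → Fin n → ℕ, L0 = fun _ _ => 0 := ⟨_, rfl⟩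
  have hbd : ∀ L, ‖g L‖ ≤ ‖g L0‖ + ρ * (1 + (t * k) / t) := by
    intro L
    have hd : ‖XV P hτ.le hn L - XV P hτ.le hn L0‖ ≤ t * k := by
      refine XV_norm_le hτ.le hn _ _ (by positivity) fun s =>
        (XF_diff hτ.le hn _ _ s).trans ?_
      have : ∑ i : Fin k, (if L i (idx n hn s) = L0 i
          (idx n hn s) then (0 : ℝ) else 1) ≤ k := by
        refine (Finset.sum_le_sum (g := fun _ => (1 : ℝ)) fun i _ => ?_).trans (by simp)
        split_ifs <;> norm_num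
      calc _ ≤ 2 * τ * (k : ℝ) := mul_le_mul_of_nonneg_left this (by positivity)
        _ = t * k := by rw [hτd]; ring
    have h3 := lip_large f ht hρ h1 (XV P hτ.le hn L) (XV P hτ.le hn L0)
    have h4 : ‖g L‖ ≤ ‖g L0‖ + ‖g L - g L0‖ := by
      calc ‖g L‖ = ‖g L0 + (g L - g L0)‖ := by congr 1; abel
        _ ≤ _ := norm_add_le _ _
    have h5 : ‖g L - g L0‖ ≤ ρ * (1 + (t * k) / t) := by
      refine h3.trans (mul_le_mul_of_nonneg_left ?_ hρ.le)
      have := div_le_div_of_nonneg_right hd ht.le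
      linarith
    linarith
  -- concentration
  have hρq : 0 < ρ ^ q := Real.rpow_pos_of_pos hρ q
  have hconc := concentration (powU (Filter.hyperfilter ℕ) n) (by linarith : 1 ≤ P.toReal)
    hρq k hbd hlev (WW (powU (Filter.hyperfilter ℕ) n) k g)
  obtain ⟨m0, m1, hm, hcube⟩ := cube2 (Filter.hyperfilter ℕ) Filter.hyperfilter_le_cofinite n k
    _ hconc
  set w := WW (powU (Filter.hyperfilter ℕ) n) k g with hw
  set F : (Fin n × Fin k → ℤˣ) → lq P := fun x => g (mx m0 m1 x) with hF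
  have hFw : ∀ x, ‖F x - w‖ ^ q ≤ 2 * k * ρ ^ q := by
    intro x
    have := hcube (fun i j => x (j, i))
    rw [sub_self, norm_zero, Real.zero_rpow hq0.ne', zero_add] at this
    refine this.trans (le_of_eq ?_)
    ring
  -- the displacement
  have hkk0 : 0 < 1 / (k : ℝ) := by positivity
  have hkk1 : 1 / (k : ℝ) < 1 := by rw [div_lt_one hk0]; linarith
  have hE : ∀ x, ev (1 / (k : ℝ)) (fun δ => ‖F (δ * x) - F x‖ ^ q) ≤ ρ ^ q * C2 q := by
    intro x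
    have e1 : ∀ δ, ‖F (δ * x) - F x‖ ^ q ≤ ρ ^ q * 2 ^ q * (1 + (t ^ q)⁻¹ *
        ‖XV P hτ.le hn (mx m0 m1 (δ * x)) - XV P hτ.le hn (mx m0 m1 x)‖ ^ q) := by
      intro δ
      set d := ‖XV P hτ.le hn (mx m0 m1 (δ * x)) - XV P hτ.le hn (mx m0 m1 x)‖ with hd
      have hd0 : 0 ≤ d := norm_nonneg _
      have a1 : ‖F (δ * x) - F x‖ ≤ ρ * (1 + d / t) := lip_large f ht hρ h1 _ _
      have a2 : 1 + d / t ≤ 2 * max 1 (d / t) := by
        have := le_max_left (1 : ℝ) (d / t)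
        have := le_max_right (1 : ℝ) (d / t)
        linarith
      have hdt : 0 ≤ d / t := by positivity
      calc ‖F (δ * x) - F x‖ ^ q ≤ (ρ * (1 + d / t)) ^ q :=
            Real.rpow_le_rpow (norm_nonneg _) a1 hq0.le
        _ = ρ ^ q * (1 + d / t) ^ q := Real.mul_rpow hρ.le (by positivity)
        _ ≤ ρ ^ q * (2 * max 1 (d / t)) ^ q :=
            mul_le_mul_of_nonneg_left (Real.rpow_le_rpow (by positivity) a2 hq0.le) hρq.le
        _ = ρ ^ q * (2 ^ q * (max 1 (d / t)) ^ q) := by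
            rw [Real.mul_rpow (by norm_num) (by positivity)]
        _ ≤ ρ ^ q * (2 ^ q * (1 ^ q + (d / t) ^ q)) := by
            have := max_rpow_le (e := q) (zero_le_one) hdt
            gcongr
        _ = _ := by
            rw [Real.one_rpow, Real.div_rpow hd0 ht.le]; ring
    calc ev (1 / (k : ℝ)) (fun δ => ‖F (δ * x) - F x‖ ^ q)
        ≤ ev (1 / (k : ℝ)) (fun δ => ρ ^ q * 2 ^ q * (1 + (t ^ q)⁻¹ *
            ‖XV P hτ.le hn (mx m0 m1 (δ * x)) - XV P hτ.le hn (mx m0 m1 x)‖ ^ q)) :=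
          ev_mono hkk0 hkk1 e1
      _ = ρ ^ q * 2 ^ q * (1 + (t ^ q)⁻¹ * ev (1 / (k : ℝ)) (fun δ =>
            ‖XV P hτ.le hn (mx m0 m1 (δ * x)) - XV P hτ.le hn (mx m0 m1 x)‖ ^ q)) := by
          rw [ev_mul, ev_add, ev_const, ev_mul]
      _ ≤ ρ ^ q * 2 ^ q * (1 + (t ^ q)⁻¹ * ((2 * τ) ^ q * CM q)) := by
          have := ev_disp (P := P) hq0 hP hτ.le hn hk m0 m1 x
          gcongr
      _ = ρ ^ q * C2 q := by
          have : 2 * τ = t := by rw [hτd]; ring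
          have htq : t ^ q ≠ 0 := (Real.rpow_pos_of_pos ht q).ne'
          rw [this, ← mul_assoc, inv_mul_cancel₀ htq, one_mul]
          unfold C2; ring
  -- the block flips
  set Cc : ℝ := (KC q * (C2 q + 1)) ^ (1 / q) with hCc
  have hCcq : Cc ^ q = KC q * (C2 q + 1) := by
    rw [hCc, ← Real.rpow_mul (by positivity), one_div, inv_mul_cancel₀ hq0.ne', Real.rpow_one]
  have hCc0 : 0 ≤ Cc := by positivity
  have hLow : ∀ (j : Fin n) x, Cc ^ q * ρ ^ q ≤ ‖F (flS (Blk (Fin k) j) * x) - F x‖ ^ q := by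
    intro j x
    rw [← Real.mul_rpow hCc0 hρ.le]
    refine Real.rpow_le_rpow (by positivity) (h2 _ _ ?_) hq0.le
    have b1 := flip_lower (P := P) hq hP hτ hn hkpos m0 m1 hm x j
    have b2 : S ^ q ≤ (τ * Real.sqrt (k / 2)) ^ q / n := by
      have c1 : S * (n : ℝ) ^ (1 / q) ≤ τ * Real.sqrt (k / 2) := by
        have c2 : S / τ * (n : ℝ) ^ (1 / q) ≤ Real.sqrt (k / 2) := by
          apply Real.le_sqrt_of_sq_le
          have c3 : ((n : ℝ) ^ (1 / q)) ^ 2 = (n : ℝ) ^ (2 / q) := by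
            rw [← Real.rpow_natCast, ← Real.rpow_mul hn0.le]; congr 1; push_cast; ring
          rw [mul_pow, c3]
          linarith
        calc S * (n : ℝ) ^ (1 / q) = τ * (S / τ * (n : ℝ) ^ (1 / q)) := by field_simp
          _ ≤ _ := mul_le_mul_of_nonneg_left c2 hτ.le
      have c4 := Real.rpow_le_rpow (by positivity) c1 hq0.le
      rw [Real.mul_rpow hS.le (by positivity), ← Real.rpow_mul hn0.le, one_div,
        inv_mul_cancel₀ hq0.ne', Real.rpow_one] at c4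
      rw [le_div_iff₀ hn0]
      exact c4
    exact (Real.rpow_le_rpow_iff hS.le (norm_nonneg _) hq0).1 (b2.trans b1)
  -- conclusion
  set c : ℝ := (Fintype.card (Fin n × Fin k → ℤˣ) : ℝ) with hc
  have hc0 : 0 < c := by rw [hc]; exact_mod_cast Fintype.card_pos
  have main := cube_lp (P := P) hkk0 hkk1 hq (R := (k : ℝ) ^ (1 / q)) (by positivity) F w
  rw [← hqd, Fintype.card_fin] at main
  have hLow2 : (n : ℝ) * (c * (Cc ^ q * ρ ^ q)) ≤
      ∑ j : Fin n, ∑ x, ‖F (flS (Blk (Fin k) j) * x) - F x‖ ^ q := by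
    calc (n : ℝ) * (c * (Cc ^ q * ρ ^ q))
        = ∑ _j : Fin n, ∑ _x : Fin n × Fin k → ℤˣ, Cc ^ q * ρ ^ q := by
          rw [Finset.sum_const, Finset.sum_const, Finset.card_univ, Finset.card_univ,
            Fintype.card_fin, nsmul_eq_mul, nsmul_eq_mul]
      _ ≤ _ := Finset.sum_le_sum fun j _ => Finset.sum_le_sum fun x _ => hLow j x
  have hUpE : ∑ x, ev (1 / (k : ℝ)) (fun δ => ‖F (δ * x) - F x‖ ^ q) ≤
      c * (ρ ^ q * C2 q) := by
    calc ∑ x, ev (1 / (k : ℝ)) (fun δ => ‖F (δ * x) - F x‖ ^ q)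
        ≤ ∑ _x : Fin n × Fin k → ℤˣ, ρ ^ q * C2 q := Finset.sum_le_sum fun x _ => hE x
      _ = _ := by rw [Finset.sum_const, Finset.card_univ, nsmul_eq_mul]
  have hUpW : ∑ x, ‖F x - w‖ ^ q ≤ c * (2 * k * ρ ^ q) := by
    calc ∑ x, ‖F x - w‖ ^ q ≤ ∑ _x : Fin n × Fin k → ℤˣ, 2 * k * ρ ^ q :=
          Finset.sum_le_sum fun x _ => hFw x
      _ = _ := by rw [Finset.sum_const, Finset.card_univ, nsmul_eq_mul]
  set Λ : ℝ := (1 / (k : ℝ) * (1 - 1 / (k : ℝ)))⁻¹ with hΛ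
  have hΛ0 : 0 < Λ := by
    rw [hΛ]; exact inv_pos.2 (mul_pos hkk0 (by linarith))
  have hΛk : Λ ≤ 2 * k := by
    have h5 : 1 / (k : ℝ) ≤ 1 / 2 := by
      apply one_div_le_one_div_of_le (by norm_num) hk2
    have h6 : (1 : ℝ) / 2 ≤ 1 - 1 / (k : ℝ) := by linarith
    have h7 : (2 * (k : ℝ))⁻¹ ≤ 1 / (k : ℝ) * (1 - 1 / (k : ℝ)) := by
      calc (2 * (k : ℝ))⁻¹ = 1 / (k : ℝ) * (1 / 2) := by field_simp
        _ ≤ _ := mul_le_mul_of_nonneg_left h6 hkk0.le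
    rw [hΛ]
    exact inv_le_of_inv_le₀ (by positivity) h7
  set Q : ℝ := (k : ℝ) ^ (2 - 2 / q) with hQ
  have hQ0 : 0 < Q := by positivity
  have r1 : ((k : ℝ) ^ (1 / q)) ^ (q - 2) = (k : ℝ) ^ (1 - 2 / q) := by
    rw [← Real.rpow_mul hk0.le]; congr 1; field_simp
  have r2 : (((k : ℝ) ^ (1 / q)) ^ 2)⁻¹ = (k : ℝ) ^ (-(2 / q)) := by
    rw [← Real.rpow_natCast, ← Real.rpow_mul hk0.le, Real.rpow_neg hk0.le]
    congr 2; push_cast; ring
  have r3 : (k : ℝ) * (k : ℝ) ^ (1 - 2 / q) = Q := by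
    nth_rw 1 [← Real.rpow_one (k : ℝ)]
    rw [← Real.rpow_add hk0, hQ]; congr 1; ring
  have r4 : (k : ℝ) * (k * (k : ℝ) ^ (-(2 / q))) = Q := by
    nth_rw 1 [← Real.rpow_one (k : ℝ)]
    nth_rw 2 [← Real.rpow_one (k : ℝ)]
    rw [← Real.rpow_add hk0, ← Real.rpow_add hk0, hQ]; congr 1; ring
  have s1 : Λ * ((k : ℝ) ^ (1 / q)) ^ (q - 2) ≤ 2 * Q := by
    rw [r1]
    calc Λ * (k : ℝ) ^ (1 - 2 / q) ≤ 2 * k * (k : ℝ) ^ (1 - 2 / q) :=
          mul_le_mul_of_nonneg_right hΛk (by positivity)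
      _ = 2 * Q := by rw [mul_assoc, r3]
  have s2 : Λ * (((k : ℝ) ^ (1 / q)) ^ 2)⁻¹ * (2 * k) ≤ 4 * Q := by
    rw [r2]
    calc Λ * (k : ℝ) ^ (-(2 / q)) * (2 * k) ≤ 2 * k * (k : ℝ) ^ (-(2 / q)) * (2 * k) := by
          gcongr
      _ = 4 * (k * (k * (k : ℝ) ^ (-(2 / q)))) := by ring
      _ = 4 * Q := by rw [r4]
  have tot := hLow2.trans (main.trans (mul_le_mul_of_nonneg_left
    (add_le_add (mul_le_mul_of_nonneg_left hUpE (by positivity))
      (mul_le_mul_of_nonneg_left hUpW (by positivity))) hKC.le))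
  have t1 : (Λ * ((k : ℝ) ^ (1 / q)) ^ (q - 2) + n) * (c * (ρ ^ q * C2 q)) +
      Λ * (((k : ℝ) ^ (1 / q)) ^ 2)⁻¹ * (c * (2 * k * ρ ^ q)) ≤
      (c * ρ ^ q) * (n * C2 q + (2 * C2 q + 4) * Q) := by
    have u1 : (Λ * ((k : ℝ) ^ (1 / q)) ^ (q - 2) + n) * (c * (ρ ^ q * C2 q)) +
        Λ * (((k : ℝ) ^ (1 / q)) ^ 2)⁻¹ * (c * (2 * k * ρ ^ q)) =
        (c * ρ ^ q) * ((Λ * ((k : ℝ) ^ (1 / q)) ^ (q - 2) + n) * C2 q +
          Λ * (((k : ℝ) ^ (1 / q)) ^ 2)⁻¹ * (2 * k)) := by ring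
    rw [u1]
    apply mul_le_mul_of_nonneg_left _ (by positivity)
    have u2 : (Λ * ((k : ℝ) ^ (1 / q)) ^ (q - 2) + n) * C2 q ≤ (2 * Q + n) * C2 q :=
      mul_le_mul_of_nonneg_right (by linarith) hC2.le
    linarith
  have tot2 := tot.trans (mul_le_mul_of_nonneg_left t1 hKC.le)
  rw [hCcq] at tot2
  have v1 : (n : ℝ) * (c * (KC q * (C2 q + 1) * ρ ^ q)) =
      (c * ρ ^ q * KC q) * (n * (C2 q + 1)) := by ring
  have v2 : KC q * ((c * ρ ^ q) * (n * C2 q + (2 * C2 q + 4) * Q)) =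
      (c * ρ ^ q * KC q) * (n * C2 q + (2 * C2 q + 4) * Q) := by ring
  rw [v1, v2] at tot2
  have v3 := le_of_mul_le_mul_left tot2 (by positivity)
  linarith

end Lp

end Pool.Agent.Helper841.Snow
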