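import Mathlib
import Pool.Agent.Helper841.SnowC6

set_option autoImplicit false

namespace Pool.Agent.Helper841.Snow

open Filter Topology MeasureTheory
open scoped ENNReal

variable {P : ℝ≥0∞} [Fact (1 ≤ P)]

theorem no_coarse (h2 : 2 < P) (hP : P ≠ ⊤) :
    ¬ ∃ (f : Lp ℝ P lam → lq P) (ρ₁ ρ₂ : ℝ → ℝ),
      Monotone ρ₁ ∧ Monotone ρ₂ ∧ Tendsto ρ₁ atTop atTop ∧
      ∀ x y, ρ₁ (dist x y) ≤ dist (f x) (f y) ∧ dist (f x) (f y) ≤ ρ₂ (dist x y) := by
  rintro ⟨f, ρ₁, ρ₂, m1, m2, hlim, h⟩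
  have hq : 2 < P.toReal := by
    have := (ENNReal.toReal_lt_toReal (by norm_num) hP).2 h2
    simpa using this
  set ρ : ℝ := max (ρ₂ 1) 1 with hρ
  have hρ0 : 0 < ρ := lt_of_lt_of_le one_pos (le_max_right _ _)
  set C := (KC P.toReal * (C2 P.toReal + 1)) ^ (1 / P.toReal) * ρ with hC
  obtain ⟨S, hS1, hS2⟩ := ((hlim.eventually (eventually_ge_atTop C)).and
    (eventually_gt_atTop 0)).exists
  refine no_map hq hP f one_pos hρ0 hS2 (fun x y hxy => ?_) (fun x y hxy => ?_)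
  · rw [← dist_eq_norm] at hxy ⊢
    exact ((h x y).2.trans (m2 hxy)).trans (le_max_left _ _)
  · rw [← dist_eq_norm] at hxy ⊢
    exact (hS1.trans (m1 hxy)).trans (h x y).1

theorem no_uniform (h2 : 2 < P) (hP : P ≠ ⊤) :
    ¬ ∃ f : Lp ℝ P lam → lq P, IsUniformEmbedding f := by
  rintro ⟨f, hf⟩
  have hq : 2 < P.toReal := by
    have := (ENNReal.toReal_lt_toReal (by norm_num) hP).2 h2
    simpa using this
  have hi := Metric.isUniformInducing_iff.1 hf.isUniformInducing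
  obtain ⟨δ, hδ, hd⟩ := hi.2 1 one_pos
  have hCM := CM_pos (by linarith : 0 < P.toReal)
  have hC2 : 0 < C2 P.toReal := by unfold C2; positivity
  have hKC : 0 < KC P.toReal := by unfold KC; positivity
  set C := (KC P.toReal * (C2 P.toReal + 1)) ^ (1 / P.toReal) with hC
  have hC0 : 0 < C := by positivity
  obtain ⟨t, ht, hc⟩ := Metric.uniformContinuous_iff.1 hi.1 (δ / C) (by positivity)
  refine no_map hq hP f (half_pos ht) (by positivity : 0 < δ / C) one_pos
    (fun x y hxy => ?_) (fun x y hxy => ?_)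
  · rw [← dist_eq_norm] at hxy ⊢
    exact (hc (by linarith)).le
  · rw [← dist_eq_norm] at hxy ⊢
    have e : (KC P.toReal * (C2 P.toReal + 1)) ^ (1 / P.toReal) * (δ / C) = δ := by
      rw [← hC]; field_simp
    rw [e]
    by_contra hcon
    push Not at hcon
    exact absurd (hd hcon) (not_lt.2 hxy)

end Pool.Agent.Helper841.Snow
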